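import Pool.Agent.Lib.MP_90787a_nt.P1.Integ
import Pool.Agent.Lib.MP_90787a_nt.G.CoreGen

set_option autoImplicit false

/-!
Facts about places in extensions and preperiodic points used in the core argument.
-/

namespace Pool.Agent.MP90787a.P1

open Finset Polynomial NumberField Height Pool.Agent.UBC90787a

/-- A finite place is determined by any of its powers. -/
lemma place_unique {K : Type} [Field K] [NumberField K] {v v' : FinitePlace K} {s s' : ℝ}
    (hs : 0 < s) (hs' : 0 < s') (h : ∀ x, v x ^ s = v' x ^ s') : v = v' := by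
  have hv : ∀ (u : FinitePlace K) (x : K), 0 ≤ u x := fun u x =>
    Pool.Agent.MP90787a.T.v_nonneg u x
  have hlt : ∀ (u : FinitePlace K) (t : ℝ), 0 < t → ∀ x, u x ^ t < 1 ↔ u x < 1 := by
    intro u t ht x
    exact ⟨fun h1 => by
      by_contra hcon
      push Not at hcon
      have := Real.one_le_rpow hcon ht.le
      linarith, fun h1 => Real.rpow_lt_one (hv u x) h1 ht⟩
  have h1 : ∀ x, v x < 1 ↔ v' x < 1 := fun x => by
    rw [← hlt v s hs, ← hlt v' s' hs', h]
  have h2 : v.maximalIdeal = v'.maximalIdeal := by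
    ext x
    rw [← Pool.Agent.MP90787a.G.Places.val_lt_one, ← Pool.Agent.MP90787a.G.Places.val_lt_one]
    exact h1 _
  rw [← FinitePlace.mk_maximalIdeal v, ← FinitePlace.mk_maximalIdeal v', h2]

/-- Places of `K` below the places in `S`. -/
lemma exists_below {K L : Type} [Field K] [NumberField K] [Field L] [NumberField L]
    (φ : K →+* L) (S : Finset (FinitePlace L)) : ∃ F : Finset (FinitePlace K),
      ∀ (v : FinitePlace K), v ∉ F → ∀ (w : FinitePlace L) (s : ℝ), 0 < s →
        (∀ x, w (φ x) = v x ^ s) → w ∉ S := by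
  classical
  have hex : ∀ w : FinitePlace L, ∃ y : K, y ≠ 0 ∧ w (φ y) ≠ 1 := by
    intro w
    obtain ⟨v, s, hs, hvs⟩ := Pool.Agent.MP90787a.G.exists_restrict φ w
    obtain ⟨y, hy⟩ := exists_one_lt v
    refine ⟨y, ?_, ?_⟩
    · rintro rfl
      rw [map_zero] at hy
      linarith
    · rw [hvs]
      exact (Real.one_lt_rpow hy hs).ne'
  choose y hy0 hy1 using hex
  obtain ⟨F, hF⟩ := exists_finset_places (K := K) (S.image y)
  refine ⟨F, fun v hv w s hs h hw => ?_⟩
  have h1 := hF v hv (y w) (Finset.mem_image_of_mem _ hw) (hy0 w)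
  apply hy1 w
  rw [h, h1, Real.one_rpow]

/-- Preperiodicity in homogeneous coordinates. -/
lemma prep_wedge {K : Type} [Field K] {p q : K[X]} {d : ℕ} (hcop : IsCoprime p q)
    (hmax : max p.natDegree q.natDegree = d) (hd : 1 ≤ d) {y : K}
    (h : Preper (rmap p q d) (some y)) : ∃ i j : ℕ, j < i ∧
      ((homMap p q d)^[i] (y, 1)).1 * ((homMap p q d)^[j] (y, 1)).2 =
        ((homMap p q d)^[i] (y, 1)).2 * ((homMap p q d)^[j] (y, 1)).1 := by
  obtain ⟨i, j, hij, he⟩ := h
  obtain ⟨μ, _, h1⟩ := homMap_iter_vec hcop hmax hd i (some y)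
  obtain ⟨ν, _, h2⟩ := homMap_iter_vec hcop hmax hd j (some y)
  have e : (homMap p q d)^[i] (y, 1) = μ • vec ((rmap p q d)^[i] (some y)) := h1
  have e' : (homMap p q d)^[j] (y, 1) = ν • vec ((rmap p q d)^[j] (some y)) := h2
  rw [he] at e
  refine ⟨i, j, hij, ?_⟩
  rw [e, e']
  simp only [Prod.smul_fst, Prod.smul_snd, smul_eq_mul]
  ring

end Pool.Agent.MP90787a.P1
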