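import Pool.Agent.Lib.MP_90787a_nt.P1.Defs
import Pool.Agent.Lib.MP_90787a_nt.RF.Lift

set_option autoImplicit false

/-!
Homogeneous coordinates, cross ratios and Möbius transformations.
-/

namespace Pool.Agent.MP90787a.P1

open Polynomial NumberField Pool.Agent.UBC90787a

section vec

variable {K : Type} [Field K]

lemma vec_ne_zero (x : Option K) : vec x ≠ 0 := by
  cases x with
  | none =>
    intro h
    have := congrArg Prod.fst h
    simp [vec] at this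
  | some x =>
    intro h
    have := congrArg Prod.snd h
    simp [vec] at this

lemma wdg_eq_wd (x y : Option K) : wdg x y = wd (vec x) (vec y) := rfl

lemma wdg_self (x : Option K) : wdg x x = 0 := by
  unfold wdg
  ring

lemma wdg_comm (x y : Option K) : wdg x y = - wdg y x := by
  unfold wdg
  ring

lemma wdg_some (x y : K) : wdg (some x) (some y) = x - y := by
  simp [wdg, vec]

lemma eq_of_smul {x y : Option K} {t : K} (h : vec x = t • vec y) : x = y := by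
  have h1 := congrArg Prod.fst h
  have h2 := congrArg Prod.snd h
  cases x <;> cases y
  · rfl
  · rename_i y
    simp [vec] at h1 h2
    rw [← h2] at h1
    simp at h1
  · rename_i x
    simp [vec] at h1 h2
  · rename_i x y
    simp [vec] at h1 h2
    rw [← h2] at h1
    rw [h1, one_mul]

lemma wdg_eq_zero_iff {x y : Option K} : wdg x y = 0 ↔ x = y := by
  constructor
  · intro h
    obtain ⟨c, hc⟩ := exists_smul_of_wd_eq_zero (vec_ne_zero x) h
    exact (eq_of_smul hc).symm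
  · rintro rfl
    exact wdg_self x

lemma wdg_ne_zero {x y : Option K} (h : x ≠ y) : wdg x y ≠ 0 :=
  fun h' => h (wdg_eq_zero_iff.1 h')

/-- The Plücker relation. -/
lemma plucker4 (a b c e : Option K) :
    wdg a b * wdg c e - wdg a c * wdg b e + wdg a e * wdg b c = 0 := by
  unfold wdg
  ring

lemma one_sub_cr {t p₀ p₁ p₂ : Option K} (h01 : p₀ ≠ p₁) (ht : t ≠ p₂) :
    1 - cr t p₀ p₁ p₂ = cr t p₁ p₀ p₂ := by
  have n1 := wdg_ne_zero h01
  have n3 := wdg_ne_zero ht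
  have h := plucker4 t p₀ p₁ p₂
  have e1 := wdg_comm p₁ p₀
  unfold cr
  rw [e1, mul_neg, div_neg, sub_neg_eq_add, eq_div_iff (mul_ne_zero n3 n1), add_mul, one_mul,
    div_mul_cancel₀ _ (mul_ne_zero n3 n1)]
  linear_combination h

lemma cr_ne_zero {t p₀ p₁ p₂ : Option K} (h0 : t ≠ p₀) (h2 : t ≠ p₂) (h01 : p₁ ≠ p₀)
    (h12 : p₁ ≠ p₂) : cr t p₀ p₁ p₂ ≠ 0 :=
  div_ne_zero (mul_ne_zero (wdg_ne_zero h0) (wdg_ne_zero h12))
    (mul_ne_zero (wdg_ne_zero h2) (wdg_ne_zero h01))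

/-- The cross ratio determines the point. -/
lemma cr_inj {p₀ p₁ p₂ t t' : Option K} (h01 : p₁ ≠ p₀) (h02 : p₀ ≠ p₂) (h12 : p₁ ≠ p₂)
    (ht : t ≠ p₂) (ht' : t' ≠ p₂) (h : cr t p₀ p₁ p₂ = cr t' p₀ p₁ p₂) : t = t' := by
  have n1 := wdg_ne_zero h01
  have n2 := wdg_ne_zero h12
  have n3 := wdg_ne_zero ht
  have n4 := wdg_ne_zero ht'
  have n5 := wdg_ne_zero h02
  unfold cr at h
  rw [div_eq_div_iff (mul_ne_zero n3 n1) (mul_ne_zero n4 n1)] at h
  have hp := plucker4 t p₀ t' p₂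
  have e1 := wdg_comm p₀ t'
  have h2 : (wdg p₁ p₂ * wdg p₁ p₀) * (wdg t t' * wdg p₀ p₂) = 0 := by
    rw [e1] at hp
    linear_combination h + (wdg p₁ p₂ * wdg p₁ p₀) * (-hp)
  have h3 : wdg t t' * wdg p₀ p₂ = 0 := (mul_eq_zero.1 h2).resolve_left (mul_ne_zero n2 n1)
  exact wdg_eq_zero_iff.1 ((mul_eq_zero.1 h3).resolve_right n5)

end vec

section rmap

variable {K : Type} [Field K] {p q : K[X]} {d : ℕ}

/-- Homogeneous coordinates of the image of a point. -/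
lemma homMap_vec (hcop : IsCoprime p q) (hmax : max p.natDegree q.natDegree = d) (hd : 1 ≤ d)
    (x : Option K) :
    ∃ μ : K, μ ≠ 0 ∧ homMap p q d (vec x) = μ • vec (rmap p q d x) := by
  have hp : p.natDegree ≤ d := by omega
  have hq : q.natDegree ≤ d := by omega
  cases x with
  | none =>
    have e : homMap p q d (vec none) = (p.coeff d, q.coeff d) := by
      rw [homMap, vec, homog_infty, homog_infty, one_pow, mul_one, mul_one]
    rw [e]
    by_cases h : q.coeff d = 0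
    · refine ⟨p.coeff d, ?_, ?_⟩
      · intro h0
        rcases max_choice p.natDegree q.natDegree with h1 | h1
        · rw [h1] at hmax
          rw [← hmax, coeff_natDegree, leadingCoeff_eq_zero] at h0
          rw [h0, natDegree_zero] at hmax
          omega
        · rw [h1] at hmax
          rw [← hmax, coeff_natDegree, leadingCoeff_eq_zero] at h
          rw [h, natDegree_zero] at hmax
          omega
      · simp [rmap, h, vec]
    · refine ⟨q.coeff d, h, ?_⟩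
      simp only [rmap, h, if_false, vec]
      ext
      · simp only [Prod.smul_fst, smul_eq_mul]
        field_simp
      · simp
  | some x =>
    have e : homMap p q d (vec (some x)) = (p.eval x, q.eval x) := by
      rw [homMap, vec, homog_one hp, homog_one hq]
    rw [e]
    by_cases h : q.eval x = 0
    · refine ⟨p.eval x, ?_, ?_⟩
      · intro h0
        obtain ⟨a, b, hab⟩ := hcop
        have := congrArg (eval x) hab
        rw [eval_add, eval_mul, eval_mul, h, h0, mul_zero, mul_zero, add_zero, eval_one] at this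
        exact zero_ne_one this
      · simp [rmap, h, vec]
    · refine ⟨q.eval x, h, ?_⟩
      simp only [rmap, h, if_false, vec]
      ext
      · simp only [Prod.smul_fst, smul_eq_mul]
        field_simp
      · simp

lemma homMap_iter_vec (hcop : IsCoprime p q) (hmax : max p.natDegree q.natDegree = d) (hd : 1 ≤ d)
    (n : ℕ) (x : Option K) :
    ∃ μ : K, μ ≠ 0 ∧ (homMap p q d)^[n] (vec x) = μ • vec ((rmap p q d)^[n] x) := by
  induction n with
  | zero => exact ⟨1, one_ne_zero, by simp⟩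
  | succ n ih =>
    obtain ⟨μ, hμ, h1⟩ := ih
    obtain ⟨ν, hν, h2⟩ := homMap_vec hcop hmax hd ((rmap p q d)^[n] x)
    refine ⟨μ ^ d * ν, mul_ne_zero (pow_ne_zero _ hμ) hν, ?_⟩
    rw [Function.iterate_succ_apply', Function.iterate_succ_apply', h1, homMap_hom, h2, smul_smul]

end rmap

section mob

variable {K : Type} [Field K]

lemma vec_pt {z : K × K} (hz : z ≠ 0) : ∃ μ : K, μ ≠ 0 ∧ z = μ • vec (pt z) := by
  by_cases h : z.2 = 0
  · refine ⟨z.1, fun h1 => hz (Prod.ext h1 h), ?_⟩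
    ext
    · simp [pt, h, vec]
    · simp [pt, h, vec]
  · refine ⟨z.2, h, ?_⟩
    ext
    · simp only [pt, h, if_false, vec, Prod.smul_fst, smul_eq_mul]
      field_simp
    · simp [pt, h, vec]

lemma vec_mob {a₁ a₂ a₃ a₄ : K} (h : a₁ * a₄ - a₂ * a₃ ≠ 0) (x : Option K) :
    ∃ μ : K, μ ≠ 0 ∧ ((a₁ * (vec x).1 + a₂ * (vec x).2, a₃ * (vec x).1 + a₄ * (vec x).2) : K × K) =
      μ • vec (mob a₁ a₂ a₃ a₄ x) := by
  refine vec_pt ?_
  intro h0
  have h1 := congrArg Prod.fst h0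
  have h2 := congrArg Prod.snd h0
  simp only [Prod.fst_zero, Prod.snd_zero] at h1 h2
  have e1 : (a₁ * a₄ - a₂ * a₃) * (vec x).1 = 0 := by linear_combination a₄ * h1 - a₂ * h2
  have e2 : (a₁ * a₄ - a₂ * a₃) * (vec x).2 = 0 := by linear_combination a₁ * h2 - a₃ * h1
  exact vec_ne_zero x (Prod.ext ((mul_eq_zero.1 e1).resolve_left h)
    ((mul_eq_zero.1 e2).resolve_left h))

lemma wdg_mob {a₁ a₂ a₃ a₄ : K} (h : a₁ * a₄ - a₂ * a₃ ≠ 0) : ∃ μ : Option K → K,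
    (∀ x, μ x ≠ 0) ∧ ∀ x y, μ x * μ y * wdg (mob a₁ a₂ a₃ a₄ x) (mob a₁ a₂ a₃ a₄ y) =
      (a₁ * a₄ - a₂ * a₃) * wdg x y := by
  choose μ hμ hμ' using vec_mob h
  refine ⟨μ, hμ, fun x y => ?_⟩
  have e1 : μ x * μ y * wdg (mob a₁ a₂ a₃ a₄ x) (mob a₁ a₂ a₃ a₄ y) =
      wd (μ x • vec (mob a₁ a₂ a₃ a₄ x)) (μ y • vec (mob a₁ a₂ a₃ a₄ y)) := by
    rw [wd_smul_left, wd_smul_right, wdg_eq_wd]
    ring
  rw [e1, ← hμ', ← hμ']
  unfold wd wdg
  ring

lemma cr_mob {a₁ a₂ a₃ a₄ : K} (h : a₁ * a₄ - a₂ * a₃ ≠ 0) (t p₀ p₁ p₂ : Option K) :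
    cr (mob a₁ a₂ a₃ a₄ t) (mob a₁ a₂ a₃ a₄ p₀) (mob a₁ a₂ a₃ a₄ p₁) (mob a₁ a₂ a₃ a₄ p₂) =
      cr t p₀ p₁ p₂ := by
  obtain ⟨μ, hμ, h1⟩ := wdg_mob h
  have h2 : ∀ x y, wdg (mob a₁ a₂ a₃ a₄ x) (mob a₁ a₂ a₃ a₄ y) =
      (a₁ * a₄ - a₂ * a₃) * wdg x y / (μ x * μ y) := by
    intro x y
    rw [eq_div_iff (mul_ne_zero (hμ x) (hμ y)), ← h1]
    ring
  unfold cr
  rw [h2, h2, h2, h2]
  have n1 := hμ t
  have n2 := hμ p₀
  have n3 := hμ p₁
  have n4 := hμ p₂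
  by_cases h3 : wdg t p₂ * wdg p₁ p₀ = 0
  · rw [h3, div_zero]
    rcases mul_eq_zero.1 h3 with h4 | h4
    · rw [h4]
      simp
    · rw [h4]
      simp
  · obtain ⟨h4, h5⟩ := mul_ne_zero_iff.1 h3
    field_simp

lemma mob_injective {a₁ a₂ a₃ a₄ : K} (h : a₁ * a₄ - a₂ * a₃ ≠ 0) :
    Function.Injective (mob a₁ a₂ a₃ a₄) := by
  intro x y hxy
  obtain ⟨μ, hμ, h1⟩ := wdg_mob h
  have h2 := h1 x y
  rw [hxy, wdg_self, mul_zero] at h2
  exact wdg_eq_zero_iff.1 ((mul_eq_zero.1 h2.symm).resolve_left h)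

lemma mob_surjective {a₁ a₂ a₃ a₄ : K} (h : a₁ * a₄ - a₂ * a₃ ≠ 0) :
    Function.Surjective (mob a₁ a₂ a₃ a₄) := by
  intro y
  have h' : a₄ * a₁ - (-a₂) * (-a₃) ≠ 0 := by
    intro h0
    apply h
    linear_combination h0
  refine ⟨mob a₄ (-a₂) (-a₃) a₁ y, ?_⟩
  obtain ⟨μ, hμ, h1⟩ := vec_mob h' y
  obtain ⟨ν, hν, h2⟩ := vec_mob h (mob a₄ (-a₂) (-a₃) a₁ y)
  refine (eq_of_smul (t := (a₁ * a₄ - a₂ * a₃)⁻¹ * (μ * ν)) ?_).symm
  rw [mul_smul, mul_smul, ← h2]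
  have e1 := congrArg Prod.fst h1
  have e2 := congrArg Prod.snd h1
  simp only [Prod.smul_fst, Prod.smul_snd, smul_eq_mul] at e1 e2
  ext
  · simp only [Prod.smul_fst, smul_eq_mul]
    rw [eq_comm, inv_mul_eq_iff_eq_mul₀ h]
    linear_combination (-a₁) * e1 - a₂ * e2
  · simp only [Prod.smul_snd, smul_eq_mul]
    rw [eq_comm, inv_mul_eq_iff_eq_mul₀ h]
    linear_combination (-a₃) * e1 - a₄ * e2

variable {p q P Q : K[X]} {d : ℕ} {a₁ a₂ a₃ a₄ γ : K}

/-- The two maps are conjugate. -/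
lemma Conj.rmap_mob (h : Conj p q P Q d a₁ a₂ a₃ a₄ γ) (hcop : IsCoprime p q)
    (hmax : max p.natDegree q.natDegree = d) (hcop' : IsCoprime P Q)
    (hmax' : max P.natDegree Q.natDegree = d) (hd : 1 ≤ d) (x : Option K) :
    rmap p q d (mob a₁ a₂ a₃ a₄ x) = mob a₁ a₂ a₃ a₄ (rmap P Q d x) := by
  obtain ⟨h1, hγ, h2⟩ := h
  obtain ⟨μ, hμ, h3⟩ := vec_mob h1 x
  obtain ⟨μ', hμ', h3'⟩ := vec_mob h1 (rmap P Q d x)
  obtain ⟨ν, hν, h4⟩ := homMap_vec hcop hmax hd (mob a₁ a₂ a₃ a₄ x)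
  obtain ⟨ν', hν', h4'⟩ := homMap_vec hcop' hmax' hd x
  obtain ⟨h5, h6⟩ := h2 (vec x).1 (vec x).2
  have e1 : homMap p q d (μ • vec (mob a₁ a₂ a₃ a₄ x)) =
      γ • ((a₁ * (homMap P Q d (vec x)).1 + a₂ * (homMap P Q d (vec x)).2,
        a₃ * (homMap P Q d (vec x)).1 + a₄ * (homMap P Q d (vec x)).2) : K × K) := by
    rw [← h3]
    exact Prod.ext h5 h6
  rw [homMap_hom, h4, h4'] at e1
  have e2 : ((a₁ * (ν' • vec (rmap P Q d x)).1 + a₂ * (ν' • vec (rmap P Q d x)).2,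
        a₃ * (ν' • vec (rmap P Q d x)).1 + a₄ * (ν' • vec (rmap P Q d x)).2) : K × K) =
      ν' • ((a₁ * (vec (rmap P Q d x)).1 + a₂ * (vec (rmap P Q d x)).2,
        a₃ * (vec (rmap P Q d x)).1 + a₄ * (vec (rmap P Q d x)).2) : K × K) := by
    ext
    · simp only [Prod.smul_fst, Prod.smul_snd, smul_eq_mul]
      ring
    · simp only [Prod.smul_fst, Prod.smul_snd, smul_eq_mul]
      ring
  rw [e2, h3', smul_smul, smul_smul, smul_smul] at e1
  have hne : μ ^ d * ν ≠ 0 := mul_ne_zero (pow_ne_zero _ hμ) hν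
  refine eq_of_smul (t := (μ ^ d * ν)⁻¹ * (γ * ν' * μ')) ?_
  rw [mul_smul, ← e1, smul_smul, inv_mul_cancel₀ hne, one_smul]

lemma Conj.rmap_iter (h : Conj p q P Q d a₁ a₂ a₃ a₄ γ) (hcop : IsCoprime p q)
    (hmax : max p.natDegree q.natDegree = d) (hcop' : IsCoprime P Q)
    (hmax' : max P.natDegree Q.natDegree = d) (hd : 1 ≤ d) (n : ℕ) (x : Option K) :
    (rmap p q d)^[n] (mob a₁ a₂ a₃ a₄ x) = mob a₁ a₂ a₃ a₄ ((rmap P Q d)^[n] x) := by
  induction n with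
  | zero => rfl
  | succ n ih =>
    rw [Function.iterate_succ_apply', Function.iterate_succ_apply', ih,
      h.rmap_mob hcop hmax hcop' hmax' hd]

end mob

end Pool.Agent.MP90787a.P1
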