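import Pool.Agent.Lib.MP_90787a_nt.P1.Base
import Pool.Agent.Lib.MP_90787a_nt.G.Tree

set_option autoImplicit false

/-!
Values and closeness of cross ratios of points of a tree and at most one point outside the disc.
-/

namespace Pool.Agent.MP90787a.P1

open Polynomial NumberField Height Pool.Agent.UBC90787a
open Pool.Agent.MP90787a.G (KissT Close Tree)

namespace CloseP

section

variable {K : Type} [Field K] [NumberField K] (v : FinitePlace K) {J : Set K} {r σ : ℝ}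
  {q₀ m : ℕ}

lemma dist_val (h : Tree v J r σ q₀) {x y : K} (hx : x ∈ J) (hy : y ∈ J) (hxy : x ≠ y) :
    ∃ i : ℤ, v (x - y) = r * σ ^ i := by
  obtain ⟨k, hk⟩ := h.2.2.1 x hx y hy hxy
  have hσ : (σ : ℝ) ≠ 0 := by linarith [h.2.1]
  refine ⟨-k, ?_⟩
  rw [zpow_neg, zpow_natCast, ← hk, mul_assoc, mul_inv_cancel₀ (pow_ne_zero k hσ), mul_one]

lemma dist_pow (hm : m ≠ 0) (h : Tree v J r σ q₀)
    (hpow : ∀ (z w : K) (i j : ℤ), v z = r * σ ^ i → v w = r * σ ^ j → ∃ e : K, v z = v w * v e ^ m)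
    {x y x' y' : K} (hx : x ∈ J) (hy : y ∈ J) (hxy : x ≠ y) (hx' : x' ∈ J) (hy' : y' ∈ J)
    (hxy' : x' ≠ y') : ∃ e : K, e ≠ 0 ∧ v (x - y) = v (x' - y') * v e ^ m := by
  obtain ⟨i, hi⟩ := dist_val v h hx hy hxy
  obtain ⟨j, hj⟩ := dist_val v h hx' hy' hxy'
  obtain ⟨e, he⟩ := hpow _ _ i j hi hj
  refine ⟨e, ?_, he⟩
  rintro rfl
  rw [map_zero, zero_pow hm, mul_zero] at he
  exact absurd he (T.v_pos v (sub_ne_zero.mpr hxy)).ne'

lemma cr_some (t p₀ p₁ p₂ : K) : cr (some t) (some p₀) (some p₁) (some p₂) =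
    (t - p₀) * (p₁ - p₂) / ((t - p₂) * (p₁ - p₀)) := by
  unfold cr
  rw [wdg_some, wdg_some, wdg_some, wdg_some]

lemma cr_none (t p₀ p₁ : K) : cr (some t) (some p₀) (some p₁) none =
    (t - p₀) / (p₁ - p₀) := by
  have h : ∀ x : K, wdg (some x) none = -1 := fun x => by simp [wdg, vec]
  unfold cr
  rw [h, h, wdg_some, wdg_some, mul_neg_one, neg_one_mul, neg_div_neg_eq]

/-- The distance to a point outside the disc. -/
lemma dist_out {t y : K} (ht : v t ≤ r) (hy : r < v y) : v (t - y) = v y :=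
  T.v_sub_comm v t y ▸ T.v_sub_eq v (lt_of_le_of_lt ht hy)

lemma val_in (hm : m ≠ 0) (h : Tree v J r σ q₀)
    (hpow : ∀ (z w : K) (i j : ℤ), v z = r * σ ^ i → v w = r * σ ^ j → ∃ e : K, v z = v w * v e ^ m)
    {t p₀ p₁ y : K} (ht : t ∈ J) (h₀ : p₀ ∈ J) (h₁ : p₁ ∈ J) (hy : y ∈ J) (h01 : p₁ ≠ p₀)
    (ht0 : t ≠ p₀) (hty : t ≠ y) (h1y : p₁ ≠ y) :
    ∃ e : K, e ≠ 0 ∧ v (cr (some t) (some p₀) (some p₁) (some y)) = v e ^ m := by
  obtain ⟨e₁, he₁, h2⟩ := dist_pow v hm h hpow ht h₀ ht0 ht hy hty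
  obtain ⟨e₂, he₂, h3⟩ := dist_pow v hm h hpow h₁ hy h1y h₁ h₀ h01
  refine ⟨e₁ * e₂, mul_ne_zero he₁ he₂, ?_⟩
  have n1 : v (t - y) ≠ 0 := (T.v_pos v (sub_ne_zero.mpr hty)).ne'
  have n2 : v (p₁ - p₀) ≠ 0 := (T.v_pos v (sub_ne_zero.mpr h01)).ne'
  rw [cr_some, map_div₀, map_mul, map_mul, map_mul, h2, h3, mul_pow]
  field_simp

lemma val_out (hm : m ≠ 0) (h : Tree v J r σ q₀) (hJ : ∀ x ∈ J, v x ≤ r)
    (hpow : ∀ (z w : K) (i j : ℤ), v z = r * σ ^ i → v w = r * σ ^ j → ∃ e : K, v z = v w * v e ^ m)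
    {t p₀ p₁ : K} (ht : t ∈ J) (h₀ : p₀ ∈ J) (h₁ : p₁ ∈ J) (h01 : p₁ ≠ p₀)
    (ht0 : t ≠ p₀) {p₂ : Option K} (h₂ : p₂ = none ∨ ∃ y, p₂ = some y ∧ r < v y) :
    ∃ e : K, e ≠ 0 ∧ v (cr (some t) (some p₀) (some p₁) p₂) = v e ^ m := by
  obtain ⟨e, he, h2⟩ := dist_pow v hm h hpow ht h₀ ht0 h₁ h₀ h01
  refine ⟨e, he, ?_⟩
  have n2 : v (p₁ - p₀) ≠ 0 := (T.v_pos v (sub_ne_zero.mpr h01)).ne'
  rcases h₂ with rfl | ⟨y, rfl, hy⟩
  · rw [cr_none, map_div₀, h2]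
    field_simp
  · have n1 : v y ≠ 0 := by
      have := lt_of_lt_of_le h.1 hy.le
      exact this.ne'
    rw [cr_some, map_div₀, map_mul, map_mul, dist_out v (hJ t ht) hy, dist_out v (hJ p₁ h₁) hy, h2]
    field_simp

/-- The inversion at a point outside the disc. -/
lemma tree_inv (h : Tree v J r σ q₀) (hJ : ∀ x ∈ J, v x ≤ r) {y : K} (hy : r < v y) :
    Tree v ((fun x => (x - y)⁻¹) '' J) (r / v y ^ 2) σ q₀ := by
  classical
  obtain ⟨hr, hσ, hd, hc⟩ := h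
  have hy0 : 0 < v y := lt_trans hr hy
  have hy2 : 0 < v y ^ 2 := pow_pos hy0 2
  have hne : ∀ x ∈ J, x - y ≠ 0 := by
    intro x hx h0
    rw [sub_eq_zero] at h0
    have := hJ x hx
    rw [h0] at this
    linarith
  have hdist : ∀ x ∈ J, ∀ x' ∈ J, v ((x - y)⁻¹ - (x' - y)⁻¹) = v (x - x') / v y ^ 2 := by
    intro x hx x' hx'
    have e1 : (x - y)⁻¹ - (x' - y)⁻¹ = (x' - x) / ((x - y) * (x' - y)) := by
      have h1 := hne x hx
      have h2 := hne x' hx'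
      field_simp
      ring
    rw [e1, map_div₀, map_mul, dist_out v (hJ x hx) hy, dist_out v (hJ x' hx') hy,
      T.v_sub_comm v x' x, sq]
  refine ⟨div_pos hr hy2, hσ, ?_, ?_⟩
  · rintro _ ⟨x, hx, rfl⟩ _ ⟨x', hx', rfl⟩ hxx
    have hne' : x ≠ x' := by
      rintro rfl
      exact hxx rfl
    obtain ⟨k, hk⟩ := hd x hx x' hx' hne'
    refine ⟨k, ?_⟩
    simp only
    rw [hdist x hx x' hx', div_mul_eq_mul_div, hk]
  · rintro _ ⟨p, hp, rfl⟩ k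
    obtain ⟨c, hc⟩ := hc p hp k
    refine ⟨fun z => c (z⁻¹ + y), ?_⟩
    rintro _ ⟨t, ht, rfl⟩ _ ⟨t', ht', rfl⟩ h1 h2 h3
    simp only at h1 h2 h3 ⊢
    have e : ∀ x : K, (x - y)⁻¹⁻¹ + y = x := fun x => by rw [inv_inv]; ring
    rw [e, e] at h3
    rw [hdist t ht p hp, div_mul_eq_mul_div, div_le_div_iff_of_pos_right hy2] at h1
    rw [hdist t' ht' p hp, div_mul_eq_mul_div, div_le_div_iff_of_pos_right hy2] at h2
    rw [hdist t ht t' ht', div_mul_eq_mul_div, div_lt_div_iff_of_pos_right hy2]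
    exact hc t ht t' ht' h1 h2 h3

end

end CloseP

/-- Cross ratios of points of a tree and at most one point outside the disc. -/
theorem tree_close {K : Type} [Field K] [NumberField K] (v : FinitePlace K) {J : Set K} {r σ : ℝ}
    {q₀ m : ℕ} (hm : m ≠ 0) (h : Tree v J r σ q₀) (hJ : ∀ x ∈ J, v x ≤ r)
    (hpow : ∀ (z w : K) (i j : ℤ), v z = r * σ ^ i → v w = r * σ ^ j → ∃ e : K, v z = v w * v e ^ m)
    {p₀ p₁ : K} (h₀ : p₀ ∈ J) (h₁ : p₁ ∈ J) (h01 : p₀ ≠ p₁) {p₂ : Option K}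
    (h₂ : (∃ y ∈ J, p₂ = some y) ∨ p₂ = none ∨ ∃ y, p₂ = some y ∧ r < v y)
    (h02 : p₂ ≠ some p₀) (h12 : p₂ ≠ some p₁) :
    (∀ t ∈ J, t ≠ p₀ → t ≠ p₁ → some t ≠ p₂ →
      (∃ e : K, e ≠ 0 ∧ v (cr (some t) (some p₀) (some p₁) p₂) = v e ^ m) ∧
      ∃ e : K, e ≠ 0 ∧ v (cr (some t) (some p₁) (some p₀) p₂) = v e ^ m) ∧
    ∃ cl : K → Fin (q₀ + 4), ∀ t ∈ J, ∀ t' ∈ J, t ≠ p₀ → t ≠ p₁ → some t ≠ p₂ → t' ≠ p₀ →
      t' ≠ p₁ → some t' ≠ p₂ → cl t = cl t' →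
        Close v σ⁻¹ (cr (some t) (some p₀) (some p₁) p₂) (cr (some t') (some p₀) (some p₁) p₂) := by
  constructor
  · intro t ht ht0 ht1 ht2
    rcases h₂ with ⟨y, hy, rfl⟩ | h₂
    · have hty : t ≠ y := fun h => ht2 (by rw [h])
      have h0y : p₀ ≠ y := fun h => h02 (by rw [h])
      have h1y : p₁ ≠ y := fun h => h12 (by rw [h])
      exact ⟨CloseP.val_in v hm h hpow ht h₀ h₁ hy h01.symm ht0 hty h1y,
        CloseP.val_in v hm h hpow ht h₁ h₀ hy h01 ht1 hty h0y⟩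
    · exact ⟨CloseP.val_out v hm h hJ hpow ht h₀ h₁ h01.symm ht0 h₂,
        CloseP.val_out v hm h hJ hpow ht h₁ h₀ h01 ht1 h₂⟩
  · rcases h₂ with ⟨y, hy, rfl⟩ | rfl | ⟨y, rfl, hy⟩
    · have h0y : p₀ ≠ y := fun h => h02 (by rw [h])
      have h1y : p₁ ≠ y := fun h => h12 (by rw [h])
      obtain ⟨cl, hcl⟩ := G.tree_cross v h h₀ h₁ hy h01 h0y h1y
      refine ⟨cl, fun t ht t' ht' a0 a1 a2 b0 b1 b2 hh => ?_⟩
      rw [CloseP.cr_some, CloseP.cr_some]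
      exact hcl t ht t' ht' a0 a1 (fun h => a2 (by rw [h])) b0 b1 (fun h => b2 (by rw [h])) hh
    · obtain ⟨cl, hcl⟩ := G.tree_affine v h h₀ h₁ h01
      refine ⟨cl, fun t ht t' ht' a0 a1 a2 b0 b1 b2 hh => ?_⟩
      rw [CloseP.cr_none, CloseP.cr_none]
      exact hcl t ht t' ht' a0 a1 b0 b1 hh
    · have hne : ∀ x ∈ J, x - y ≠ 0 := by
        intro x hx h0
        rw [sub_eq_zero] at h0
        have := hJ x hx
        rw [h0] at this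
        linarith
      have hinj : ∀ x x' : K, x ≠ x' → (x - y)⁻¹ ≠ (x' - y)⁻¹ := by
        intro x x' hx h0
        exact hx (sub_left_injective (inv_injective h0))
      obtain ⟨cl, hcl⟩ := G.tree_affine v (CloseP.tree_inv v h hJ hy) ⟨p₀, h₀, rfl⟩ ⟨p₁, h₁, rfl⟩
        (hinj p₀ p₁ h01)
      have e : ∀ t ∈ J, cr (some t) (some p₀) (some p₁) (some y) =
          ((t - y)⁻¹ - (p₀ - y)⁻¹) / ((p₁ - y)⁻¹ - (p₀ - y)⁻¹) := by
        intro t ht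
        rw [CloseP.cr_some]
        have n1 := hne t ht
        have n2 := hne p₀ h₀
        have n3 := hne p₁ h₁
        have n4 : p₁ - p₀ ≠ 0 := sub_ne_zero.mpr h01.symm
        have n5 : (p₁ - y)⁻¹ - (p₀ - y)⁻¹ ≠ 0 := sub_ne_zero.mpr (hinj p₁ p₀ h01.symm)
        have e1 : (p₁ - y)⁻¹ - (p₀ - y)⁻¹ = (p₀ - p₁) / ((p₁ - y) * (p₀ - y)) := by
          field_simp
          ring
        have e2 : (t - y)⁻¹ - (p₀ - y)⁻¹ = (p₀ - t) / ((t - y) * (p₀ - y)) := by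
          field_simp
          ring
        have n6 : p₀ - p₁ ≠ 0 := sub_ne_zero.mpr h01
        rw [e1, e2]
        field_simp
        ring
      refine ⟨fun t => cl ((t - y)⁻¹), fun t ht t' ht' a0 a1 a2 b0 b1 b2 hh => ?_⟩
      rw [e t ht, e t' ht']
      exact hcl _ ⟨t, ht, rfl⟩ _ ⟨t', ht', rfl⟩ (hinj t p₀ a0) (hinj t p₁ a1) (hinj t' p₀ b0)
        (hinj t' p₁ b1) hh

end Pool.Agent.MP90787a.P1
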