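import Pool.Agent.Lib.MP_90787a_nt.P1.Res

set_option autoImplicit false

/-!
The weights are invariant under conjugation.
-/

namespace Pool.Agent.MP90787a.P1

open Polynomial NumberField Height Pool.Agent.UBC90787a

namespace Size

lemma homog_map' {R S : Type*} [CommSemiring R] [CommSemiring S] (φ : R →+* S) (p : R[X]) (d : ℕ)
    (x y : R) : homog (p.map φ) d (φ x, φ y) = φ (homog p d (x, y)) := by
  unfold homog
  simp only [map_sum, map_mul, map_pow, coeff_map]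

lemma homog_smul' {R : Type*} [CommSemiring R] (p : R[X]) (d : ℕ) (s x y : R) :
    homog p d (s * x, s * y) = s ^ d * homog p d (x, y) := by
  unfold homog
  rw [Finset.mul_sum]
  refine Finset.sum_congr rfl fun i hi => ?_
  rw [Finset.mem_range] at hi
  have e : s ^ d = s ^ i * s ^ (d - i) := by
    rw [← pow_add]
    congr 1
    omega
  simp only [mul_pow, e]
  ring

variable {K : Type} [Field K] [Infinite K] {L : Type} [Field L]

/-- The conjugation identity as an identity of forms, over an extension. -/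
lemma conj_map (ι : K →+* L) {p P Q : K[X]} {d : ℕ} {a₁ a₂ a₃ a₄ b₁ b₂ γ : K}
    (h : ∀ x y : K, homog p d (a₁ * x + a₂ * y, a₃ * x + a₄ * y) =
      γ * (b₁ * homog P d (x, y) + b₂ * homog Q d (x, y))) (x y : L) :
    homog (p.map ι) d (ι a₁ * x + ι a₂ * y, ι a₃ * x + ι a₄ * y) =
      ι γ * (ι b₁ * homog (P.map ι) d (x, y) + ι b₂ * homog (Q.map ι) d (x, y)) := by
  let X0 : MvPolynomial (Fin 2) K := MvPolynomial.X 0
  let X1 : MvPolynomial (Fin 2) K := MvPolynomial.X 1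
  let C' : K →+* MvPolynomial (Fin 2) K := MvPolynomial.C
  have hpoly : homog (p.map C') d (C' a₁ * X0 + C' a₂ * X1, C' a₃ * X0 + C' a₄ * X1) =
      C' γ * (C' b₁ * homog (P.map C') d (X0, X1) + C' b₂ * homog (Q.map C') d (X0, X1)) := by
    refine MvPolynomial.funext fun z => ?_
    have hid : ∀ g : K[X], (g.map C').map (MvPolynomial.eval z) = g := by
      intro g
      rw [Polynomial.map_map]
      have : (MvPolynomial.eval z).comp C' = RingHom.id K := by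
        ext a
        simp [C']
      rw [this, Polynomial.map_id]
    have h0 : MvPolynomial.eval z X0 = z 0 := by simp [X0]
    have h1 : MvPolynomial.eval z X1 = z 1 := by simp [X1]
    have hC : ∀ a, MvPolynomial.eval z (C' a) = a := by intro a; simp [C']
    rw [← homog_map' (MvPolynomial.eval z)]
    simp only [map_mul, map_add, ← homog_map' (MvPolynomial.eval z), hid, h0, h1, hC]
    exact h _ _
  let φ : MvPolynomial (Fin 2) K →+* L := MvPolynomial.eval₂Hom ι ![x, y]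
  have hid : ∀ g : K[X], (g.map C').map φ = g.map ι := by
    intro g
    rw [Polynomial.map_map]
    have : φ.comp C' = ι := by
      ext a
      simp [C', φ]
    rw [this]
  have h0 : φ X0 = x := by simp [X0, φ]
  have h1 : φ X1 = y := by simp [X1, φ]
  have hC : ∀ a, φ (C' a) = ι a := by intro a; simp [C', φ]
  have h2 := congrArg φ hpoly
  rw [← homog_map' φ] at h2
  simp only [map_mul, map_add, ← homog_map' φ, hid, h0, h1, hC] at h2
  exact h2

omit [Infinite K] in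
/-- The inverse conjugation. -/
lemma conj_symm {p q P Q : K[X]} {d : ℕ} (hd : 1 ≤ d) {a₁ a₂ a₃ a₄ γ : K}
    (h : Conj p q P Q d a₁ a₂ a₃ a₄ γ) :
    Conj P Q p q d a₄ (-a₂) (-a₃) a₁ ((a₁ * a₄ - a₂ * a₃) ^ (d - 1) / γ) := by
  obtain ⟨hD, hγ, hF⟩ := h
  refine ⟨?_, div_ne_zero (pow_ne_zero _ hD) hγ, fun x y => ?_⟩
  · intro h0
    apply hD
    linear_combination h0
  set D : K := a₁ * a₄ - a₂ * a₃ with hDdef
  have hDd : D ^ d = D ^ (d - 1) * D := by
    rw [← pow_succ]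
    congr 1
    omega
  obtain ⟨h1, h2⟩ := hF (a₄ * x + -a₂ * y) (-a₃ * x + a₁ * y)
  have e1 : a₁ * (a₄ * x + -a₂ * y) + a₂ * (-a₃ * x + a₁ * y) = D * x := by rw [hDdef]; ring
  have e2 : a₃ * (a₄ * x + -a₂ * y) + a₄ * (-a₃ * x + a₁ * y) = D * y := by rw [hDdef]; ring
  rw [e1, e2, homog_smul'] at h1 h2
  set G₁ := homog P d (a₄ * x + -a₂ * y, -a₃ * x + a₁ * y)
  set G₂ := homog Q d (a₄ * x + -a₂ * y, -a₃ * x + a₁ * y)
  rw [hDd] at h1 h2
  constructor
  · rw [div_mul_eq_mul_div, eq_div_iff hγ]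
    apply mul_left_cancel₀ hD
    linear_combination (-a₄) * h1 + a₂ * h2 + (G₁ * γ) * hDdef
  · rw [div_mul_eq_mul_div, eq_div_iff hγ]
    apply mul_left_cancel₀ hD
    linear_combination a₃ * h1 - a₁ * h2 + (G₂ * γ) * hDdef

end Size

open Size

/-- One direction. -/
theorem Size.sizeAtMost_of {K L : Type} [Field K] [Infinite K] [NormedField L] [IsAlgClosed L]
    (ι : K →+* L) {p q P Q : K[X]} {d : ℕ} (hd : 1 ≤ d) {a₁ a₂ a₃ a₄ γ : K}
    (h : Conj p q P Q d a₁ a₂ a₃ a₄ γ) (hp : p.natDegree ≤ d) (hq : q.natDegree ≤ d)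
    (hP : P.natDegree ≤ d) (hQ : Q.natDegree ≤ d) (ρ : ℝ) (hs : SizeAtMost ι p q d ρ) :
    SizeAtMost ι P Q d ρ := by
  have hres := h.resultant_eq hp hq hP hQ
  obtain ⟨hD, hγ, hF⟩ := h
  obtain ⟨a, b, c, e, g, hdet, hg, hbd⟩ := hs
  obtain ⟨s, hs2⟩ := IsAlgClosed.exists_pow_nat_eq (ι (a₁ * a₄ - a₂ * a₃)) (n := 2) (by omega)
  have hDL : ι (a₁ * a₄ - a₂ * a₃) ≠ 0 := (map_ne_zero ι).mpr hD
  have hs0 : s ≠ 0 := by
    rintro rfl
    apply hDL
    rw [← hs2]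
    ring
  have hγL : ι γ ≠ 0 := (map_ne_zero ι).mpr hγ
  have hDe : ι a₁ * ι a₄ - ι a₂ * ι a₃ = s ^ 2 := by rw [hs2]; simp
  have hF1 := conj_map ι (fun x y => (hF x y).1)
  have hF2 := conj_map ι (fun x y => (hF x y).2)
  refine ⟨(ι a₄ * a - ι a₂ * c) / s, (ι a₄ * b - ι a₂ * e) / s, (-ι a₃ * a + ι a₁ * c) / s,
    (-ι a₃ * b + ι a₁ * e) / s, g * ι γ / s ^ (d - 1), ?_, ?_, ?_⟩
  · field_simp
    linear_combination (ι a₁ * ι a₄ - ι a₂ * ι a₃) * hdet + hDe
  · have h1 := congrArg (fun z => ‖ι z‖) hres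
    simp only [map_mul, map_pow, norm_mul, norm_pow] at h1
    have h2 : ‖ι (a₁ * a₄ - a₂ * a₃)‖ = ‖s‖ ^ 2 := by rw [← hs2, norm_pow]
    rw [h2, ← pow_mul] at h1
    have hsn : ‖s‖ ≠ 0 := norm_ne_zero_iff.mpr hs0
    rw [norm_div, norm_mul, norm_pow, div_pow, mul_pow, div_mul_eq_mul_div,
      div_eq_iff (pow_ne_zero _ (pow_ne_zero _ hsn)), one_mul, mul_assoc, ← h1, ← mul_assoc, hg,
      one_mul, ← pow_mul]
    congr 1
    ring
  · intro x y P' Q' hP' hQ'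
    set w₁ := (ι a₄ * a - ι a₂ * c) / s * x + (ι a₄ * b - ι a₂ * e) / s * y with hw₁
    set w₂ := (-ι a₃ * a + ι a₁ * c) / s * x + (-ι a₃ * b + ι a₁ * e) / s * y with hw₂
    have e1 : ι a₁ * w₁ + ι a₂ * w₂ = s * (a * x + b * y) := by
      rw [hw₁, hw₂]
      field_simp
      linear_combination (a * x + b * y) * hDe
    have e2 : ι a₃ * w₁ + ι a₄ * w₂ = s * (c * x + e * y) := by
      rw [hw₁, hw₂]
      field_simp
      linear_combination (c * x + e * y) * hDe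
    have h1 := hF1 w₁ w₂
    have h2 := hF2 w₁ w₂
    rw [e1, e2, homog_smul', ← hP', ← hQ'] at h1 h2
    have h3 := hbd x y _ _ rfl rfl
    set P₀ := homog (p.map ι) d (a * x + b * y, c * x + e * y)
    set Q₀ := homog (q.map ι) d (a * x + b * y, c * x + e * y)
    have hsd : s ^ d = s ^ (d - 1) * s := by
      rw [← pow_succ]
      congr 1
      omega
    have e3 : g * ι γ / s ^ (d - 1) * ((-ι a₃ * b + ι a₁ * e) / s * P' -
        (ι a₄ * b - ι a₂ * e) / s * Q') = g * (e * P₀ - b * Q₀) := by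
      have : (-ι a₃ * b + ι a₁ * e) / s * P' - (ι a₄ * b - ι a₂ * e) / s * Q' =
          (e * (ι a₁ * P' + ι a₂ * Q') - b * (ι a₃ * P' + ι a₄ * Q')) / s := by ring
      rw [this]
      have h4 : ι γ * (e * (ι a₁ * P' + ι a₂ * Q') - b * (ι a₃ * P' + ι a₄ * Q')) =
          s ^ d * (e * P₀ - b * Q₀) := by linear_combination (-e) * h1 + b * h2
      rw [div_mul_div_comm, div_eq_iff (mul_ne_zero (pow_ne_zero _ hs0) hs0), ← hsd, mul_assoc g, h4]
      ring
    have e4 : g * ι γ / s ^ (d - 1) * ((ι a₄ * a - ι a₂ * c) / s * Q' -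
        (-ι a₃ * a + ι a₁ * c) / s * P') = g * (a * Q₀ - c * P₀) := by
      have : (ι a₄ * a - ι a₂ * c) / s * Q' - (-ι a₃ * a + ι a₁ * c) / s * P' =
          (a * (ι a₃ * P' + ι a₄ * Q') - c * (ι a₁ * P' + ι a₂ * Q')) / s := by ring
      rw [this]
      have h4 : ι γ * (a * (ι a₃ * P' + ι a₄ * Q') - c * (ι a₁ * P' + ι a₂ * Q')) =
          s ^ d * (a * Q₀ - c * P₀) := by linear_combination (-a) * h2 + c * h1
      rw [div_mul_div_comm, div_eq_iff (mul_ne_zero (pow_ne_zero _ hs0) hs0), ← hsd, mul_assoc g, h4]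
      ring
    rw [e3, e4]
    exact h3

theorem Conj.sizeAtMost_iff {K L : Type} [Field K] [Infinite K] [NormedField L] [IsAlgClosed L]
    (ι : K →+* L) {p q P Q : K[X]} {d : ℕ} (hd : 1 ≤ d) {a₁ a₂ a₃ a₄ γ : K}
    (h : Conj p q P Q d a₁ a₂ a₃ a₄ γ) (hp : p.natDegree ≤ d) (hq : q.natDegree ≤ d)
    (hP : P.natDegree ≤ d) (hQ : Q.natDegree ≤ d) (ρ : ℝ) :
    SizeAtMost ι p q d ρ ↔ SizeAtMost ι P Q d ρ :=
  ⟨Size.sizeAtMost_of ι hd h hp hq hP hQ ρ,
    Size.sizeAtMost_of ι hd (conj_symm hd h) hP hQ hp hq ρ⟩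

theorem Conj.finWeight_eq {K : Type} [Field K] [Infinite K] (v : K → ℝ) {p q P Q : K[X]} {d : ℕ}
    (hd : 1 ≤ d) {a₁ a₂ a₃ a₄ γ : K} (h : Conj p q P Q d a₁ a₂ a₃ a₄ γ) (hp : p.natDegree ≤ d)
    (hq : q.natDegree ≤ d) (hP : P.natDegree ≤ d) (hQ : Q.natDegree ≤ d) :
    finWeight v p q d = finWeight v P Q d := by
  unfold finWeight
  congr 1
  ext ρ
  refine and_congr_right fun _ => ?_
  constructor
  · rintro ⟨L, i1, i2, i3, ι, h1, h2⟩
    exact ⟨L, i1, i2, i3, ι, h1, (h.sizeAtMost_iff ι hd hp hq hP hQ ρ).mp h2⟩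
  · rintro ⟨L, i1, i2, i3, ι, h1, h2⟩
    exact ⟨L, i1, i2, i3, ι, h1, (h.sizeAtMost_iff ι hd hp hq hP hQ ρ).mpr h2⟩

theorem Conj.archWeight_eq {K : Type} [Field K] [Infinite K] (ι : K →+* ℂ) {p q P Q : K[X]}
    {d : ℕ} (hd : 1 ≤ d) {a₁ a₂ a₃ a₄ γ : K} (h : Conj p q P Q d a₁ a₂ a₃ a₄ γ)
    (hp : p.natDegree ≤ d) (hq : q.natDegree ≤ d) (hP : P.natDegree ≤ d)
    (hQ : Q.natDegree ≤ d) : archWeight ι p q d = archWeight ι P Q d := by
  unfold archWeight
  congr 1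
  ext ρ
  exact and_congr_right fun _ => h.sizeAtMost_iff ι hd hp hq hP hQ ρ

end Pool.Agent.MP90787a.P1
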