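import Pool.Agent.Lib.MP_90787a_nt.P1.Base
import Pool.Agent.Lib.MP_90787a_nt.P1.Size
import Pool.Agent.Lib.MP_90787a_nt.R.CrossHeight

set_option autoImplicit false

/-!
The height of a cross ratio of four preperiodic points of the projective line.
-/

namespace Pool.Agent.MP90787a.P1

open Polynomial NumberField Height Pool.Agent.UBC90787a

namespace Cross

section

variable {K : Type} [Field K]

/-- The polynomial of degree at most `d` whose form is `(x, y) ↦ homog p d (c x + y, x)`. -/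
noncomputable def tr (p : K[X]) (d : ℕ) (c : K) : K[X] :=
  ∑ i ∈ Finset.range (d + 1), C (p.coeff i) * (C c * X + 1) ^ i * X ^ (d - i)

lemma natDegree_lin (c : K) : (C c * X + 1 : K[X]).natDegree ≤ 1 := by
  have h : (C c * X + 1 : K[X]) = C c * X + C 1 := by rw [C_1]
  rw [h]
  exact natDegree_linear_le

lemma natDegree_tr (p : K[X]) (d : ℕ) (c : K) : (tr p d c).natDegree ≤ d := by
  refine natDegree_sum_le_of_forall_le _ _ fun i hi => ?_
  have hi' : i ≤ d := by
    have := Finset.mem_range.mp hi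
    omega
  have h1 : ((C c * X + 1 : K[X]) ^ i).natDegree ≤ i := by
    have := natDegree_pow_le_of_le i (natDegree_lin c)
    rwa [mul_one] at this
  have h2 : (C (p.coeff i) * (C c * X + 1) ^ i : K[X]).natDegree ≤ i :=
    (natDegree_C_mul_le _ _).trans h1
  have h3 : (X ^ (d - i) : K[X]).natDegree ≤ d - i := natDegree_X_pow_le _
  have h4 := natDegree_mul_le_of_le h2 h3
  omega

lemma coeff_tr (p : K[X]) (d : ℕ) (c : K) :
    (tr p d c).coeff d = ∑ i ∈ Finset.range (d + 1), p.coeff i * c ^ i := by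
  unfold tr
  rw [finsetSum_coeff]
  refine Finset.sum_congr rfl fun i hi => ?_
  have hi' : i ≤ d := by
    have := Finset.mem_range.mp hi
    omega
  rw [mul_assoc, coeff_C_mul, coeff_mul_X_pow', if_pos (by omega)]
  have h1 : d - (d - i) = i * 1 := by omega
  rw [h1, coeff_pow_of_natDegree_le (natDegree_lin c)]
  congr 2
  simp [coeff_one]

lemma eval_tr (p : K[X]) (d : ℕ) (c x : K) :
    (tr p d c).eval x = ∑ i ∈ Finset.range (d + 1), p.coeff i * (c * x + 1) ^ i * x ^ (d - i) := by
  unfold tr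
  rw [eval_finsetSum]
  refine Finset.sum_congr rfl fun i _ => ?_
  simp

lemma homog_tr (p : K[X]) (d : ℕ) (c : K) (x y : K) :
    homog (tr p d c) d (x, y) = homog p d (c * x + 1 * y, 1 * x + 0 * y) := by
  by_cases hy : y = 0
  · subst hy
    rw [homog_infty, coeff_tr]
    unfold homog
    rw [Finset.sum_mul]
    refine Finset.sum_congr rfl fun i hi => ?_
    have hi' : i ≤ d := by
      have := Finset.mem_range.mp hi
      omega
    have h1 : x ^ d = x ^ i * x ^ (d - i) := by
      rw [← pow_add]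
      congr 1
      omega
    simp only [mul_zero, add_zero, one_mul, mul_pow]
    rw [h1]
    ring
  · rw [homog_of_ne (natDegree_tr p d c) (by exact hy), eval_tr]
    unfold homog
    rw [Finset.mul_sum]
    refine Finset.sum_congr rfl fun i hi => ?_
    have hi' : i ≤ d := by
      have := Finset.mem_range.mp hi
      omega
    have h1 : y ^ d = y ^ i * y ^ (d - i) := by
      rw [← pow_add]
      congr 1
      omega
    simp only
    have h2 : y * (c * (x / y) + 1) = c * x + 1 * y := by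
      field_simp
    have h3 : y * (x / y) = 1 * x + 0 * y := by
      field_simp
      ring
    rw [h1, ← h2, ← h3, mul_pow, mul_pow]
    ring

lemma conj_tr (p q : K[X]) (d : ℕ) (c : K) :
    Conj p q (tr q d c) (tr p d c - C c * tr q d c) d c 1 1 0 1 := by
  refine ⟨by simp, one_ne_zero, fun x y => ⟨?_, ?_⟩⟩
  · rw [homog_sub, homog_C_mul, homog_tr, homog_tr]
    ring
  · rw [homog_sub, homog_C_mul, homog_tr, homog_tr]
    ring

/-- The linear map. -/
def lin (a₁ a₂ a₃ a₄ : K) (z : K × K) : K × K := (a₁ * z.1 + a₂ * z.2, a₃ * z.1 + a₄ * z.2)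

lemma lin_smul (a₁ a₂ a₃ a₄ t : K) (z : K × K) :
    lin a₁ a₂ a₃ a₄ (t • z) = t • lin a₁ a₂ a₃ a₄ z := by
  unfold lin
  ext
  · simp only [Prod.smul_fst, Prod.smul_snd, smul_eq_mul]
    ring
  · simp only [Prod.smul_fst, Prod.smul_snd, smul_eq_mul]
    ring

lemma lin_injective {a₁ a₂ a₃ a₄ : K} (h : a₁ * a₄ - a₂ * a₃ ≠ 0) :
    Function.Injective (lin a₁ a₂ a₃ a₄) := by
  intro z w hzw
  have h1 := congrArg Prod.fst hzw
  have h2 := congrArg Prod.snd hzw
  simp only [lin] at h1 h2
  have e1 : (a₁ * a₄ - a₂ * a₃) * (z.1 - w.1) = 0 := by linear_combination a₄ * h1 - a₂ * h2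
  have e2 : (a₁ * a₄ - a₂ * a₃) * (z.2 - w.2) = 0 := by linear_combination a₁ * h2 - a₃ * h1
  exact Prod.ext (sub_eq_zero.1 ((mul_eq_zero.1 e1).resolve_left h))
    (sub_eq_zero.1 ((mul_eq_zero.1 e2).resolve_left h))

lemma pdata_of_preper {p q P Q : K[X]} {d : ℕ} {a₁ a₂ a₃ a₄ : K}
    (h : Conj p q P Q d a₁ a₂ a₃ a₄ 1) (hcop : IsCoprime p q)
    (hmax : max p.natDegree q.natDegree = d) (hd : 1 ≤ d) {x : Option K}
    (hx : Preper (rmap p q d) x) {y : K} (hy : mob a₁ a₂ a₃ a₄ (some y) = x) :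
    ∃ i j : ℕ, ∃ μ : K, PData P Q d y i j μ := by
  obtain ⟨hdet, _, hc⟩ := h
  obtain ⟨i, j, hij, he⟩ := hx
  have hsemi : Function.Semiconj (lin a₁ a₂ a₃ a₄) (homMap P Q d) (homMap p q d) := by
    intro z
    obtain ⟨h1, h2⟩ := hc z.1 z.2
    rw [one_mul] at h1 h2
    exact Prod.ext h1.symm h2.symm
  have hit : ∀ (n : ℕ) (z : K × K), lin a₁ a₂ a₃ a₄ ((homMap P Q d)^[n] z) =
      (homMap p q d)^[n] (lin a₁ a₂ a₃ a₄ z) := fun n z => hsemi.iterate_right n z
  obtain ⟨μ, hμ, h3⟩ := vec_mob hdet (some y)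
  rw [hy] at h3
  have h3' : lin a₁ a₂ a₃ a₄ (y, 1) = μ • vec x := h3
  obtain ⟨ν, hν, h4⟩ := homMap_iter_vec hcop hmax hd i x
  obtain ⟨ν', hν', h4'⟩ := homMap_iter_vec hcop hmax hd j x
  have hF : ∀ (n : ℕ) (t : K) (z : K × K), (homMap p q d)^[n] (t • z) =
      t ^ (d ^ n) • (homMap p q d)^[n] z :=
    fun n t z => iter_hom (fun t x => homMap_hom p q t x) n t z
  have h5 : (homMap p q d)^[i] (vec x) = (ν * ν'⁻¹) • (homMap p q d)^[j] (vec x) := by
    rw [h4, h4', he, smul_smul]
    congr 1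
    field_simp
  refine ⟨i, j, μ ^ (d ^ i) * (ν * ν'⁻¹) * (μ ^ (d ^ j))⁻¹, hij, ?_, ?_⟩
  · have := pow_ne_zero (d ^ i) hμ
    have := pow_ne_zero (d ^ j) hμ
    positivity
  · apply lin_injective hdet
    rw [lin_smul, hit, hit, h3', hF, hF, h5, smul_smul, smul_smul]
    congr 1
    have := pow_ne_zero (d ^ j) hμ
    field_simp

end

end Cross

open Pool.Agent.MP90787a.P1.Cross in
theorem cross_height {K : Type} [Field K] [NumberField K] {p q : K[X]} {d : ℕ} (hd : 2 ≤ d)
    (hcop : IsCoprime p q) (hmax : max p.natDegree q.natDegree = d) {t p₀ p₁ p₂ : Option K}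
    (h0 : t ≠ p₀) (h2 : t ≠ p₂) (h10 : p₁ ≠ p₀) (h12 : p₁ ≠ p₂)
    (hpre : ∀ x : Option K, x = t ∨ x = p₀ ∨ x = p₁ ∨ x = p₂ → Preper (rmap p q d) x)
    (G : Finset (FinitePlace K)) (hG : ∀ v, v ∉ G → finWeight v p q d = 0) :
    logHeight₁ (cr t p₀ p₁ p₂) ≤
      8 * d * (∑ v ∈ G, finWeight v p q d +
        ∑ w : InfinitePlace K, (w.mult : ℝ) * archWeight w.embedding p q d) +
        2 * ((2 * d + 1) * Real.log 2) * T.wt K := by
  classical
  have hp : p.natDegree ≤ d := by omega
  have hq : q.natDegree ≤ d := by omega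
  -- a point different from the four points
  set S : Finset (Option K) := {t, p₀, p₁, p₂} with hS
  obtain ⟨c, hc⟩ := Infinite.exists_notMem_finset
    (S.preimage some ((Option.some_injective K).injOn))
  rw [Finset.mem_preimage] at hc
  have hdet : c * 0 - 1 * 1 ≠ (0 : K) := by simp
  have hex : ∀ x : Option K, x ∈ S → ∃ y : K, mob c 1 1 0 (some y) = x := by
    intro x hx
    obtain ⟨y, hy⟩ := mob_surjective hdet x
    cases y with
    | some y => exact ⟨y, hy⟩
    | none =>
      exfalso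
      apply hc
      have h1 : mob c 1 1 0 (none : Option K) = some c := by
        simp [mob, pt, vec]
      rw [← h1, hy]
      exact hx
  obtain ⟨t', rfl⟩ := hex t (by simp [hS])
  obtain ⟨q₀, rfl⟩ := hex p₀ (by simp [hS])
  obtain ⟨q₁, rfl⟩ := hex p₁ (by simp [hS])
  obtain ⟨q₂, rfl⟩ := hex p₂ (by simp [hS])
  set P : K[X] := tr q d c with hP
  set Q : K[X] := tr p d c - C c * tr q d c with hQ
  have hPd : P.natDegree ≤ d := natDegree_tr q d c
  have hQd : Q.natDegree ≤ d := by
    refine (natDegree_sub_le _ _).trans (max_le (natDegree_tr p d c) ?_)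
    exact (natDegree_C_mul_le _ _).trans (natDegree_tr q d c)
  have hconj : Conj p q P Q d c 1 1 0 1 := conj_tr p q d c
  have hres : resultant P Q d d ≠ 0 := by
    have h1 := hconj.resultant_eq hp hq hPd hQd
    intro h3
    have h1' : resultant p q d d * (c * 0 - 1 * 1) ^ (d * (d - 1)) = 0 := by
      rw [h1, h3, mul_zero]
    rcases mul_eq_zero.1 h1' with h4 | h4
    · exact resultant_ne hd hcop hmax h4
    · exact pow_ne_zero _ hdet h4
  have hne : ∀ {x y : K}, mob c 1 1 0 (some x) ≠ mob c 1 1 0 (some y) → x ≠ y :=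
    fun h h' => h (by rw [h'])
  have hfin : ∀ v : FinitePlace K, finWeight v p q d = finWeight v P Q d := fun v =>
    Conj.finWeight_eq v (by omega) hconj hp hq hPd hQd
  have harch : ∀ w : InfinitePlace K, archWeight w.embedding p q d =
      archWeight w.embedding P Q d := fun w =>
    Conj.archWeight_eq w.embedding (by omega) hconj hp hq hPd hQd
  have hmain := R.cross_height (L := K) hd hPd hQd hres (hne h0) (hne h2) (hne h10) (hne h12)
    (fun x hx => ?_) G (fun v hv => by rw [← hfin]; exact hG v hv)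
  · rw [cr_mob hdet]
    have h1 : cr (some t') (some q₀) (some q₁) (some q₂) =
        (t' - q₀) * (q₁ - q₂) / ((t' - q₂) * (q₁ - q₀)) := by
      simp only [cr, wdg_some]
    rw [h1]
    simp only [hfin, harch]
    exact hmain
  · refine pdata_of_preper hconj hcop hmax (by omega) (hpre (mob c 1 1 0 (some x)) ?_) rfl
    rcases hx with rfl | rfl | rfl | rfl
    · exact Or.inl rfl
    · exact Or.inr (Or.inl rfl)
    · exact Or.inr (Or.inr (Or.inl rfl))
    · exact Or.inr (Or.inr (Or.inr rfl))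

end Pool.Agent.MP90787a.P1
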