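import Mathlib
import Pool.Agent.Lib.MP_90787a_nt.G.Places
import Pool.Agent.Lib.MP_90787a_nt.T.Heights

/-!
MP_90787a_nt, module HGT: heights and places in extensions of number fields.
-/

set_option autoImplicit false

namespace Pool.Agent.MP90787a.P1

open Polynomial NumberField Height Pool.Agent.UBC90787a

namespace Hgt

open Finset

variable {K L : Type} [Field K] [NumberField K] [Field L] [NumberField L]

open Classical in
/-- Number of extensions of an embedding. -/
theorem card_ext (φ : K →+* L) (ψ : K →+* ℂ) :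
    (univ.filter fun σ : L →+* ℂ => σ.comp φ = ψ).card * Module.finrank ℚ K =
      Module.finrank ℚ L := by
  let _ : Algebra K L := φ.toAlgebra
  let _ : Algebra K ℂ := ψ.toAlgebra
  have hfin : FiniteDimensional K L := Module.Finite.of_restrictScalars_finite ℚ K L
  have h1 : Fintype.card (L →ₐ[K] ℂ) = Module.finrank K L := AlgHom.card K L ℂ
  have e : {σ : L →+* ℂ // σ.comp φ = ψ} ≃ (L →ₐ[K] ℂ) :=
    { toFun := fun σ => { σ.1 with commutes' := fun r => RingHom.congr_fun σ.2 r }
      invFun := fun f => ⟨f.toRingHom, RingHom.ext fun r => f.commutes r⟩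
      left_inv := fun σ => rfl
      right_inv := fun f => rfl }
  have h2 : (univ.filter fun σ : L →+* ℂ => σ.comp φ = ψ).card = Module.finrank K L := by
    rw [← h1, ← Fintype.card_congr e, Fintype.card_subtype]
  rw [h2, mul_comm]
  exact Module.finrank_mul_finrank ℚ K L

open Classical in
theorem sum_mult (f : InfinitePlace K → ℝ) :
    ∑ w : InfinitePlace K, (w.mult : ℝ) * f w = ∑ σ : K →+* ℂ, f (InfinitePlace.mk σ) := by
  rw [← Finset.sum_fiberwise univ (fun σ : K →+* ℂ => InfinitePlace.mk σ)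
    (fun σ => f (InfinitePlace.mk σ))]
  refine Finset.sum_congr rfl fun w _ => ?_
  rw [Finset.sum_congr rfl (g := fun _ => f w) (fun σ hσ => by rw [(Finset.mem_filter.mp hσ).2]),
    Finset.sum_const, nsmul_eq_mul, InfinitePlace.card_filter_mk_eq]

open Classical in
/-- Sums over the archimedean places. -/
theorem sum_arch (φ : K →+* L) (g : InfinitePlace K → ℝ) :
    (∑ w : InfinitePlace L, (w.mult : ℝ) * g (w.comap φ)) * Module.finrank ℚ K =
      Module.finrank ℚ L * ∑ v : InfinitePlace K, (v.mult : ℝ) * g v := by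
  rw [sum_mult (fun w : InfinitePlace L => g (w.comap φ)), sum_mult]
  rw [← Finset.sum_fiberwise univ (fun σ : L →+* ℂ => σ.comp φ)
    (fun σ => g ((InfinitePlace.mk σ).comap φ)), Finset.sum_mul, Finset.mul_sum]
  refine Finset.sum_congr rfl fun ψ _ => ?_
  rw [Finset.sum_congr rfl (g := fun _ => g (InfinitePlace.mk ψ)) (fun σ hσ => by
    rw [InfinitePlace.comap_mk, (Finset.mem_filter.mp hσ).2]), Finset.sum_const, nsmul_eq_mul,
    mul_right_comm]
  congr 1
  exact_mod_cast card_ext φ ψ

/-- An element which is small at exactly one finite place. -/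
theorem exists_pi (v : FinitePlace K) : ∃ π : K, π ≠ 0 ∧ v π < 1 ∧ ∀ v' : FinitePlace K, v' ≠ v →
    v' π = 1 := by
  set P : Ideal (𝓞 K) := v.maximalIdeal.asIdeal with hP
  have hP0 : P ≠ ⊥ := v.maximalIdeal.ne_bot
  have hPm : P ∈ nonZeroDivisors (Ideal (𝓞 K)) := mem_nonZeroDivisors_of_ne_zero hP0
  set n : ℕ := Fintype.card (ClassGroup (𝓞 K)) with hn
  have hn0 : n ≠ 0 := Fintype.card_ne_zero
  have h1 : (ClassGroup.mk0 (⟨P, hPm⟩ : nonZeroDivisors (Ideal (𝓞 K)))) ^ n = 1 :=
    pow_card_eq_one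
  rw [← map_pow, ClassGroup.mk0_eq_one_iff] at h1
  obtain ⟨a, ha⟩ := h1
  have ha' : P ^ n = Ideal.span {a} := ha
  have ha0 : a ≠ 0 := by
    rintro rfl
    rw [Ideal.span_singleton_eq_bot.mpr rfl] at ha'
    exact hP0 ((pow_eq_zero_iff hn0).mp ha')
  have hmem : a ∈ P ^ n := by
    rw [ha']
    exact Ideal.mem_span_singleton_self a
  refine ⟨(a : K), ?_, ?_, ?_⟩
  · exact_mod_cast ha0
  · rw [G.Places.val_lt_one]
    exact Ideal.pow_le_self hn0 hmem
  · intro v' hv'
    refine le_antisymm (G.Places.val_le_one v' a) (not_lt.mp fun hlt => ?_)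
    rw [G.Places.val_lt_one] at hlt
    have h2 : P ^ n ≤ v'.maximalIdeal.asIdeal := by
      rw [ha', Ideal.span_singleton_le_iff_mem]
      exact hlt
    have h3 : P ≤ v'.maximalIdeal.asIdeal := v'.maximalIdeal.isPrime.le_of_pow_le h2
    have h4 : P = v'.maximalIdeal.asIdeal :=
      v.maximalIdeal.isMaximal.eq_of_le v'.maximalIdeal.isPrime.ne_top h3
    apply hv'
    apply FinitePlace.maximalIdeal_injective
    exact (IsDedekindDomain.HeightOneSpectrum.ext h4).symm

/-- Logarithmic product formula. -/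
theorem log_prod (x : K) (hx : x ≠ 0) (F : Finset (FinitePlace K)) (hF : ∀ v, v ∉ F → v x = 1) :
    ∑ v : InfinitePlace K, (v.mult : ℝ) * Real.log (v x) + ∑ v ∈ F, Real.log (v x) = 0 := by
  have h1 := prod_abs_eq_one hx
  have h2 : ∏ᶠ w : FinitePlace K, w x = ∏ w ∈ F, w x := by
    refine finprod_eq_prod_of_mulSupport_subset _ ?_
    intro w hw
    by_contra hwF
    exact hw (hF w hwF)
  rw [h2] at h1
  have h3 := congrArg Real.log h1
  have hne1 : ∀ w : InfinitePlace K, w x ≠ 0 := fun w => by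
    rw [Ne, map_eq_zero]
    exact hx
  have hne2 : ∀ w : FinitePlace K, w x ≠ 0 := fun w => by
    rw [Ne, map_eq_zero]
    exact hx
  rw [Real.log_one, Real.log_mul (Finset.prod_ne_zero_iff.mpr fun w _ => pow_ne_zero _ (hne1 w))
    (Finset.prod_ne_zero_iff.mpr fun w _ => hne2 w), Real.log_prod (fun w _ =>
      pow_ne_zero _ (hne1 w)), Real.log_prod (fun w _ => hne2 w)] at h3
  simp only [Real.log_pow] at h3
  exact h3

end Hgt

open Hgt

theorem sum_above {K L : Type} [Field K] [NumberField K] [Field L] [NumberField L]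
    (φ : K →+* L) (v : FinitePlace K) : ∃ (W : Finset (FinitePlace L)) (s : FinitePlace L → ℝ),
      (∀ w ∈ W, 0 < s w ∧ ∀ x, w (φ x) = v x ^ s w) ∧
      (∀ w, w ∉ W → ∀ t : ℝ, 0 < t → ¬ ∀ x, w (φ x) = v x ^ t) ∧
      (∑ w ∈ W, s w) * Module.finrank ℚ K = Module.finrank ℚ L := by
  classical
  obtain ⟨π, hπ0, hπ1, hπ⟩ := exists_pi v
  have hφ0 : φ π ≠ 0 := by
    rw [Ne, map_eq_zero]
    exact hπ0
  obtain ⟨F, hF⟩ := exists_finset_places ({φ π} : Finset L)
  have hF' : ∀ w : FinitePlace L, w ∉ F → w (φ π) = 1 := fun w hw =>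
    hF w hw _ (Finset.mem_singleton_self _) hφ0
  choose r s hs hr using G.exists_restrict φ
  have hle : ∀ w : FinitePlace L, w (φ π) < 1 ↔ r w = v := by
    intro w
    rw [hr]
    constructor
    · intro h
      by_contra hne
      rw [hπ _ hne, Real.one_rpow] at h
      exact lt_irrefl _ h
    · intro h
      rw [h]
      exact Real.rpow_lt_one (apply_nonneg v π) hπ1 (hs w)
  have heq : ∀ w : FinitePlace L, r w ≠ v → w (φ π) = 1 := by
    intro w hw
    rw [hr, hπ _ hw, Real.one_rpow]
  refine ⟨F.filter (fun w => w (φ π) < 1), s, ?_, ?_, ?_⟩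
  · intro w hw
    rw [Finset.mem_filter, hle] at hw
    refine ⟨hs w, fun x => ?_⟩
    rw [hr, hw.2]
  · intro w hw t ht hall
    have h1 : w (φ π) < 1 := by
      rw [hall]
      exact Real.rpow_lt_one (apply_nonneg v π) hπ1 ht
    apply hw
    rw [Finset.mem_filter]
    refine ⟨?_, h1⟩
    by_contra hwF
    rw [hF' w hwF] at h1
    exact lt_irrefl _ h1
  · have hvpos : 0 < v π := FinitePlace.pos_iff.mpr hπ0
    have hlog : Real.log (v π) < 0 := Real.log_neg hvpos hπ1
    have e1 := log_prod (φ π) hφ0 (F.filter (fun w => w (φ π) < 1)) (by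
      intro w hw
      rw [Finset.mem_filter, not_and] at hw
      by_cases hwF : w ∈ F
      · exact heq w (fun h => hw hwF ((hle w).mpr h))
      · exact hF' w hwF)
    have e2 := log_prod π hπ0 {v} (by
      intro v' hv'
      rw [Finset.mem_singleton] at hv'
      exact hπ v' hv')
    rw [Finset.sum_singleton] at e2
    have e3 : ∑ w ∈ F.filter (fun w => w (φ π) < 1), Real.log (w (φ π)) =
        (∑ w ∈ F.filter (fun w => w (φ π) < 1), s w) * Real.log (v π) := by
      rw [Finset.sum_mul]
      refine Finset.sum_congr rfl fun w hw => ?_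
      rw [Finset.mem_filter, hle] at hw
      rw [hr, hw.2, Real.log_rpow hvpos]
    have e4 := sum_arch φ (fun v' : InfinitePlace K => Real.log (v' π))
    have e5 : ∀ w : InfinitePlace L, (w.comap φ) π = w (φ π) := fun w => rfl
    simp only [e5] at e4
    rw [e3] at e1
    have e6 : (∑ w ∈ F.filter (fun w => w (φ π) < 1), s w) * Module.finrank ℚ K *
        Real.log (v π) = Module.finrank ℚ L * Real.log (v π) := by
      linear_combination (Module.finrank ℚ K : ℝ) * e1 - e4 - (Module.finrank ℚ L : ℝ) * e2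
    exact mul_right_cancel₀ hlog.ne e6

theorem logHeight₁_map {K L : Type} [Field K] [NumberField K] [Field L] [NumberField L]
    (φ : K →+* L) (x : K) : logHeight₁ (φ x) * Module.finrank ℚ K =
      Module.finrank ℚ L * logHeight₁ x := by
  classical
  by_cases hx : x = 0
  · subst hx
    rw [map_zero, logHeight₁_zero, logHeight₁_zero, zero_mul, mul_zero]
  obtain ⟨F, hF⟩ := exists_finset_places ({x} : Finset K)
  have hF' : ∀ v : FinitePlace K, v ∉ F → v x = 1 := fun v hv =>
    hF v hv _ (Finset.mem_singleton_self _) hx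
  choose W s hW1 hW2 hW3 using fun v : FinitePlace K => sum_above φ v
  have hdisj : ∀ v ∈ (F : Set (FinitePlace K)), ∀ v' ∈ (F : Set (FinitePlace K)), v ≠ v' →
      Disjoint (W v) (W v') := by
    intro v _ v' _ hne
    rw [Finset.disjoint_left]
    intro w hw hw'
    obtain ⟨π, hπ0, hπ1, hπ⟩ := exists_pi v
    have h1 := (hW1 v w hw).2 π
    have h2 := (hW1 v' w hw').2 π
    rw [hπ v' hne.symm, Real.one_rpow] at h2
    rw [h2] at h1
    have h3 := Real.rpow_lt_one (apply_nonneg v π) hπ1 (hW1 v w hw).1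
    rw [← h1] at h3
    exact lt_irrefl _ h3
  have h1 := T.logHeight₁_eq_sum (φ x) (F.biUnion W) (by
    intro w hw
    obtain ⟨v, t, ht, hr⟩ := G.exists_restrict φ w
    rw [hr]
    by_cases hv : v ∈ F
    · exfalso
      apply hw
      rw [Finset.mem_biUnion]
      refine ⟨v, hv, ?_⟩
      by_contra hwW
      exact hW2 v w hwW t ht hr
    · rw [hF' v hv, Real.one_rpow])
  have h2 := T.logHeight₁_eq_sum x F (fun v hv => (hF' v hv).le)
  have h3 := sum_arch φ (fun v' : InfinitePlace K => Real.posLog (v' x))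
  have e5 : ∀ w : InfinitePlace L, (w.comap φ) x = w (φ x) := fun w => rfl
  simp only [e5] at h3
  have h4 : (∑ w ∈ F.biUnion W, Real.posLog (w (φ x))) * Module.finrank ℚ K =
      Module.finrank ℚ L * ∑ v ∈ F, Real.posLog (v x) := by
    rw [Finset.sum_biUnion hdisj, Finset.sum_mul, Finset.mul_sum]
    refine Finset.sum_congr rfl fun v _ => ?_
    have h5 : ∑ w ∈ W v, Real.posLog (w (φ x)) = (∑ w ∈ W v, s v w) * Real.posLog (v x) := by
      rw [Finset.sum_mul]
      refine Finset.sum_congr rfl fun w hw => ?_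
      rw [(hW1 v w hw).2 x]
      have hvpos : 0 < v x := FinitePlace.pos_iff.mpr hx
      unfold Real.posLog
      rw [Real.log_rpow hvpos, mul_max_of_nonneg _ _ (hW1 v w hw).1.le, mul_zero]
    rw [h5, mul_right_comm, hW3]
  rw [h1, h2, add_mul, mul_add, h3, h4]

end Pool.Agent.MP90787a.P1
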