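import Pool.Agent.Lib.MP_90787a_nt.P1.Base
import Pool.Agent.Lib.MP_90787a_nt.Places

set_option autoImplicit false
set_option linter.unusedVariables false

/-!
The weight at a place of expanding reduction.
-/

namespace Pool.Agent.MP90787a.P1

open Polynomial NumberField Height Pool.Agent.UBC90787a

namespace WExp

/-- The value group is dense. -/
theorem dense {L : Type} [NormedField L] [IsAlgClosed L] (x₁ : L) (h₁ : 1 < ‖x₁‖) (r η : ℝ)
    (hr : 0 < r) (hη : 0 < η) : ∃ t : L, r ≤ ‖t‖ ∧ ‖t‖ ≤ r * (1 + η) := by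
  obtain ⟨N, hN⟩ := pow_unbounded_of_one_lt ‖x₁‖ (show 1 < 1 + η by linarith)
  have hN0 : N ≠ 0 := by
    rintro rfl
    rw [pow_zero] at hN
    linarith
  obtain ⟨z, hz⟩ := IsAlgClosed.exists_pow_nat_eq x₁ (Nat.pos_of_ne_zero hN0)
  have hz' : ‖z‖ ^ N = ‖x₁‖ := by rw [← norm_pow, hz]
  have hz1 : 1 < ‖z‖ := by
    by_contra hcon
    push Not at hcon
    have := pow_le_one₀ (norm_nonneg z) hcon (n := N)
    linarith
  have hz2 : ‖z‖ ≤ 1 + η := by
    rw [← pow_le_pow_iff_left₀ (norm_nonneg z) (by linarith) hN0, hz']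
    exact hN.le
  obtain ⟨n, hn1, hn2⟩ := exists_mem_Ioc_zpow hr hz1
  refine ⟨z ^ (n + 1), ?_, ?_⟩
  · rw [norm_zpow]
    exact hn2
  · rw [norm_zpow, zpow_add₀ (by linarith), zpow_one]
    have : (0 : ℝ) < ‖z‖ ^ n := zpow_pos (by linarith) n
    nlinarith

theorem coef1 (a c : ℝ) (ha : 0 < a) (d i : ℕ) (hd : 1 ≤ d) (hi : i ≤ d)
    (hc : c ≤ (a ^ 2) ^ (d - i)) : a⁻¹ * (c * a ^ i * (a⁻¹) ^ (d - i)) ≤ a ^ (d - 1) := by
  obtain ⟨m, rfl⟩ := Nat.exists_eq_add_of_le hi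
  have e0 : i + m - i = m := by omega
  rw [e0] at hc ⊢
  refine le_of_mul_le_mul_right ?_ (show 0 < a ^ (m + 1) by positivity)
  have e1 : a⁻¹ * (c * a ^ i * (a⁻¹) ^ m) * a ^ (m + 1) = c * a ^ i := by
    rw [pow_succ, inv_pow]
    field_simp
  have e2 : a ^ (i + m - 1) * a ^ (m + 1) = (a ^ 2) ^ m * a ^ i := by
    rw [← pow_add, ← pow_mul, ← pow_add]
    congr 1
    omega
  rw [e1, e2]
  gcongr

theorem coef2 (a c : ℝ) (ha : 0 < a) (d i : ℕ) (hd : 1 ≤ d) (hi : i ≤ d)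
    (hc : c * (a ^ 2) ^ (i + 1) ≤ (a ^ 2) ^ d) :
    a * (c * a ^ i * (a⁻¹) ^ (d - i)) ≤ a ^ (d - 1) := by
  obtain ⟨m, rfl⟩ := Nat.exists_eq_add_of_le hi
  have e0 : i + m - i = m := by omega
  rw [e0]
  refine le_of_mul_le_mul_right ?_ (show 0 < a ^ m * a ^ (i + 1) by positivity)
  have e1 : a * (c * a ^ i * (a⁻¹) ^ m) * (a ^ m * a ^ (i + 1)) = c * (a ^ 2) ^ (i + 1) := by
    rw [inv_pow]
    field_simp
    ring
  have e2 : a ^ (i + m - 1) * (a ^ m * a ^ (i + 1)) = (a ^ 2) ^ (i + m) := by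
    rw [← pow_add, ← pow_mul, ← pow_add]
    congr 1
    omega
  rw [e1, e2]
  exact hc

theorem size_exp {K L : Type} [Field K] [NormedField L] [IsUltrametricDist L] [IsAlgClosed L]
    (ι : K →+* L) (v : K → ℝ) (hv : ∀ x, ‖ι x‖ = v x) (h1 : ∃ x : K, 1 < v x) {P Q : K[X]} {d : ℕ}
    (hd : 2 ≤ d) {r σ : ℝ} {b : ℕ}
    (hr : 0 < r) (hσ : 1 < σ)
    (hco : ∀ i ≤ d, v (P.coeff i) ≤ r ^ (d - i) ∧ v (Q.coeff i) * r ^ (i + 1) < r ^ d)
    (hres : r ^ (d * (d - 1)) ≤ v (resultant P Q d d) * σ ^ b) :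
    SizeAtMost ι P Q d ((b + 1) * Real.log σ) := by
  have hσ0 : 0 < σ := by linarith
  have hR0 : 0 < v (resultant P Q d d) := by
    have h2 : 0 < r ^ (d * (d - 1)) := by positivity
    have h3 := h2.trans_le hres
    exact (pos_iff_pos_of_mul_pos h3).2 (by positivity)
  have hRne : resultant P Q d d ≠ 0 := by
    intro h
    rw [h, ← hv, map_zero, norm_zero] at hR0
    exact lt_irrefl _ hR0
  obtain ⟨γ, hγ⟩ := exists_gamma (ι := ι) (p := P) (q := Q) (show 1 ≤ d by omega) hRne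
  -- choice of `η`
  have hqr : v (Q.coeff d) * r < 1 := by
    have h2 := (hco d le_rfl).2
    have h3 : v (Q.coeff d) * r * r ^ d < 1 * r ^ d := by
      rw [one_mul]
      calc v (Q.coeff d) * r * r ^ d = v (Q.coeff d) * r ^ (d + 1) := by ring
        _ < _ := h2
    exact lt_of_mul_lt_mul_right h3 (by positivity)
  have hq0 : 0 ≤ v (Q.coeff d) := by rw [← hv]; exact norm_nonneg _
  set n := d * (d - 1) with hn
  set η := min (Real.log σ / (n + 1)) (1 - v (Q.coeff d) * r) with hη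
  have hlog : 0 < Real.log σ := Real.log_pos hσ
  have hηpos : 0 < η := lt_min (by positivity) (by linarith)
  have hη1 : (1 + η) ^ n ≤ σ := by
    calc (1 + η) ^ n ≤ (Real.exp η) ^ n := by
          gcongr
          have := Real.add_one_le_exp η
          linarith
      _ = Real.exp (n * η) := by rw [← Real.exp_nat_mul]
      _ ≤ Real.exp (Real.log σ) := by
          apply Real.exp_le_exp.2
          have h2 : η ≤ Real.log σ / (n + 1) := min_le_left _ _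
          rw [le_div_iff₀ (by positivity)] at h2
          nlinarith
      _ = σ := Real.exp_log hσ0
  have hη2 : v (Q.coeff d) * (r * (1 + η)) ≤ 1 := by
    have h2 : η ≤ 1 - v (Q.coeff d) * r := min_le_right _ _
    have h3 : 0 ≤ v (Q.coeff d) * r := by positivity
    nlinarith
  obtain ⟨x₁, hx₁⟩ := h1
  obtain ⟨t, ht1, ht2⟩ := dense (ι x₁) (by rw [hv]; exact hx₁) r η hr hηpos
  obtain ⟨s, hs⟩ := IsAlgClosed.exists_pow_nat_eq t (show 0 < 2 by norm_num)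
  have ht0 : 0 < ‖t‖ := hr.trans_le ht1
  have hs2 : ‖s‖ ^ 2 = ‖t‖ := by rw [← norm_pow, hs]
  have hsne : s ≠ 0 := by
    rintro rfl
    rw [norm_zero] at hs2
    norm_num at hs2
    linarith
  have hs0 : 0 < ‖s‖ := norm_pos_iff.2 hsne
  -- the size
  have hκ : ‖γ‖ * ‖s‖ ^ (d - 1) ≤ σ ^ (b + 1) := by
    have h2 : (‖γ‖ * ‖s‖ ^ (d - 1)) ^ (2 * d) * ‖ι (resultant P Q d d)‖ = ‖t‖ ^ n := by
      calc (‖γ‖ * ‖s‖ ^ (d - 1)) ^ (2 * d) * ‖ι (resultant P Q d d)‖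
          = (‖γ‖ ^ (2 * d) * ‖ι (resultant P Q d d)‖) * (‖s‖ ^ 2) ^ (d * (d - 1)) := by
            rw [mul_pow, ← pow_mul, ← pow_mul]
            ring
        _ = ‖t‖ ^ n := by rw [hγ, hs2, one_mul]
    rw [hv] at h2
    have h3 : ‖t‖ ^ n ≤ v (resultant P Q d d) * σ ^ (b + 1) := by
      calc ‖t‖ ^ n ≤ (r * (1 + η)) ^ n := by gcongr
        _ = r ^ n * (1 + η) ^ n := by rw [mul_pow]
        _ ≤ (v (resultant P Q d d) * σ ^ b) * σ := by gcongr
        _ = _ := by ring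
    rw [← h2, mul_comm] at h3
    have h4 := le_of_mul_le_mul_left h3 hR0
    have h5 : 1 ≤ σ ^ (b + 1) := one_le_pow₀ hσ.le
    rw [← pow_le_pow_iff_left₀ (by positivity) (by positivity) (show 2 * d ≠ 0 by omega)]
    exact h4.trans (le_self_pow₀ h5 (by omega))
  have hexp : Real.exp ((b + 1) * Real.log σ) = σ ^ (b + 1) := by
    have : ((b : ℝ) + 1) * Real.log σ = ((b + 1 : ℕ) : ℝ) * Real.log σ := by push_cast; ring
    rw [this, Real.exp_nat_mul, Real.exp_log hσ0]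
  refine ⟨s, 0, 0, s⁻¹, γ, ?_, hγ, ?_⟩
  · rw [mul_inv_cancel₀ hsne]
    ring
  intro x y P' Q' hP' hQ'
  rw [hexp]
  have hmono : ∀ i ∈ Finset.range (d + 1), ‖x‖ ^ i * ‖y‖ ^ (d - i) ≤ max ‖x‖ ‖y‖ ^ d := by
    intro i hi
    have hi' : i ≤ d := Nat.lt_succ_iff.1 (Finset.mem_range.1 hi)
    calc ‖x‖ ^ i * ‖y‖ ^ (d - i) ≤ max ‖x‖ ‖y‖ ^ i * max ‖x‖ ‖y‖ ^ (d - i) := by
          gcongr
          · exact le_max_left _ _
          · exact le_max_right _ _
      _ = max ‖x‖ ‖y‖ ^ d := by rw [← pow_add]; congr 1; omega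
  have hmax0 : 0 ≤ max ‖x‖ ‖y‖ := le_max_of_le_left (norm_nonneg _)
  apply max_le
  · have e1 : γ * (s⁻¹ * P' - 0 * Q') = ∑ i ∈ Finset.range (d + 1),
        γ * s⁻¹ * (ι (P.coeff i) * (s * x) ^ i * (s⁻¹ * y) ^ (d - i)) := by
      rw [hP']
      simp only [zero_mul, add_zero, zero_add, sub_zero]
      unfold homog
      rw [← mul_assoc, Finset.mul_sum]
      apply Finset.sum_congr rfl
      intro i _
      rw [coeff_map]
    rw [e1]
    apply IsUltrametricDist.norm_sum_le_of_forall_le_of_nonneg (by positivity)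
    intro i hi
    have hi' : i ≤ d := Nat.lt_succ_iff.1 (Finset.mem_range.1 hi)
    have h2 := (hco i hi').1
    have h3 : v (P.coeff i) ≤ (‖s‖ ^ 2) ^ (d - i) := by
      rw [hs2]
      exact h2.trans (pow_le_pow_left₀ hr.le ht1 _)
    have h4 := coef1 ‖s‖ (v (P.coeff i)) hs0 d i (by omega) hi' h3
    calc ‖γ * s⁻¹ * (ι (P.coeff i) * (s * x) ^ i * (s⁻¹ * y) ^ (d - i))‖
        = ‖γ‖ * (‖s‖⁻¹ * (v (P.coeff i) * ‖s‖ ^ i * (‖s‖⁻¹) ^ (d - i))) *
            (‖x‖ ^ i * ‖y‖ ^ (d - i)) := by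
          rw [norm_mul, norm_mul, norm_mul, norm_mul, norm_inv, norm_pow, norm_pow, norm_mul,
            norm_mul, norm_inv, hv, mul_pow, mul_pow]
          ring
      _ ≤ ‖γ‖ * ‖s‖ ^ (d - 1) * max ‖x‖ ‖y‖ ^ d := by
          gcongr
          exact hmono i hi
      _ ≤ _ := by gcongr
  · have e1 : γ * (s * Q' - 0 * P') = ∑ i ∈ Finset.range (d + 1),
        γ * s * (ι (Q.coeff i) * (s * x) ^ i * (s⁻¹ * y) ^ (d - i)) := by
      rw [hQ']
      simp only [zero_mul, add_zero, zero_add, sub_zero]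
      unfold homog
      rw [← mul_assoc, Finset.mul_sum]
      apply Finset.sum_congr rfl
      intro i _
      rw [coeff_map]
    rw [e1]
    apply IsUltrametricDist.norm_sum_le_of_forall_le_of_nonneg (by positivity)
    intro i hi
    have hi' : i ≤ d := Nat.lt_succ_iff.1 (Finset.mem_range.1 hi)
    have h2 := (hco i hi').2
    have hvi : 0 ≤ v (Q.coeff i) := by rw [← hv]; exact norm_nonneg _
    have h3 : v (Q.coeff i) * (‖s‖ ^ 2) ^ (i + 1) ≤ (‖s‖ ^ 2) ^ d := by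
      rw [hs2]
      rcases Nat.lt_or_ge i d with hlt | hge
      · obtain ⟨m, hm⟩ := Nat.exists_eq_add_of_le (show i + 1 ≤ d by omega)
        have h5 : v (Q.coeff i) ≤ r ^ m := by
          have h6 : r ^ (i + 1 + m) = r ^ m * r ^ (i + 1) := by
            rw [← pow_add]; congr 1; omega
          rw [hm, h6] at h2
          exact (lt_of_mul_lt_mul_right h2 (by positivity)).le
        calc v (Q.coeff i) * ‖t‖ ^ (i + 1) ≤ r ^ m * ‖t‖ ^ (i + 1) := by gcongr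
          _ ≤ ‖t‖ ^ m * ‖t‖ ^ (i + 1) := by gcongr
          _ = ‖t‖ ^ d := by rw [← pow_add, hm]; congr 1; omega
      · have hid : i = d := le_antisymm hi' hge
        rw [hid]
        calc v (Q.coeff d) * ‖t‖ ^ (d + 1) = (v (Q.coeff d) * ‖t‖) * ‖t‖ ^ d := by ring
          _ ≤ (v (Q.coeff d) * (r * (1 + η))) * ‖t‖ ^ d := by gcongr
          _ ≤ 1 * ‖t‖ ^ d := by gcongr
          _ = ‖t‖ ^ d := one_mul _
    have h4 := coef2 ‖s‖ (v (Q.coeff i)) hs0 d i (by omega) hi' h3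
    calc ‖γ * s * (ι (Q.coeff i) * (s * x) ^ i * (s⁻¹ * y) ^ (d - i))‖
        = ‖γ‖ * (‖s‖ * (v (Q.coeff i) * ‖s‖ ^ i * (‖s‖⁻¹) ^ (d - i))) *
            (‖x‖ ^ i * ‖y‖ ^ (d - i)) := by
          rw [norm_mul, norm_mul, norm_mul, norm_mul, norm_pow, norm_pow, norm_mul,
            norm_mul, norm_inv, hv, mul_pow, mul_pow]
          ring
      _ ≤ ‖γ‖ * ‖s‖ ^ (d - 1) * max ‖x‖ ‖y‖ ^ d := by
          gcongr
          exact hmono i hi
      _ ≤ _ := by gcongr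

end WExp

/-- The weight at a place of expanding reduction. -/
theorem exp_weight {K : Type} [Field K] [NumberField K] (v : FinitePlace K) {P Q : K[X]} {d : ℕ}
    (hd : 2 ≤ d) (hP : P.Monic) (hPd : P.natDegree = d) (hQ : Q.natDegree ≤ d) {r σ : ℝ} {b : ℕ}
    (hr : 0 < r) (hσ : 1 < σ)
    (hco : ∀ i ≤ d, v (P.coeff i) ≤ r ^ (d - i) ∧ v (Q.coeff i) * r ^ (i + 1) < r ^ d)
    (hres : r ^ (d * (d - 1)) ≤ v (resultant P Q d d) * σ ^ b) :
    finWeight v P Q d ≤ (b + 1) * Real.log σ := by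
  obtain ⟨L, i1, i2, i3, ι, hι⟩ := exists_ultra_field v
  have hlog : 0 < Real.log σ := Real.log_pos hσ
  refine csInf_le ⟨0, fun _ h => h.1⟩ ⟨by positivity, L, i1, i2, i3, ι, hι, ?_⟩
  exact WExp.size_exp ι v hι (exists_one_lt v) hd hr hσ hco hres

end Pool.Agent.MP90787a.P1
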