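import Pool.Agent.Lib.MP_90787a_nt.P1.Tree
import Pool.Agent.Lib.MP_90787a_nt.P1.CloseP
import Pool.Agent.Lib.MP_90787a_nt.P1.WExp
import Pool.Agent.Lib.MP_90787a_nt.P1.Size

set_option autoImplicit false

/-!
The structure of the preperiodic points at a place of expanding reduction.
-/

namespace Pool.Agent.MP90787a.P1

open Polynomial NumberField Height Pool.Agent.UBC90787a
open Pool.Agent.MP90787a.G (KissT Close Tree)

lemma coprime_of_resultant {K : Type} [Field K] {P Q : K[X]} {d : ℕ} (hP : P.Monic)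
    (hPd : P.natDegree = d) (hQ : Q.natDegree ≤ d) (h : resultant P Q d d ≠ 0) :
    IsCoprime P Q := by
  obtain ⟨k, hk⟩ := Nat.exists_eq_add_of_le hQ
  have h1 := resultant_add_right_deg P Q d Q.natDegree k le_rfl
  rw [← hk] at h1
  rw [h1] at h
  have h2 : resultant P Q d Q.natDegree ≠ 0 := fun h0 => h (by rw [h0, mul_zero])
  rw [← hPd] at h2
  exact (isUnit_resultant_iff_isCoprime hP).1 (isUnit_iff_ne_zero.2 h2)

section semiconj

variable {α β : Type} {f : α → α} {g : β → β} {A : β → α}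

lemma preper_semiconj (hA : Function.Injective A) (h : ∀ (n : ℕ) (x : β), f^[n] (A x) = A (g^[n] x))
    (x : β) : Preper f (A x) ↔ Preper g x := by
  unfold Preper
  simp only [h, hA.eq_iff]

lemma inn_semiconj (hA : Function.Injective A) (h : ∀ (n : ℕ) (x : β), f^[n] (A x) = A (g^[n] x))
    (x : β) : A x ∈ Inn f ↔ x ∈ Inn g := by
  unfold Inn
  simp only [Set.mem_ofPred_eq, preper_semiconj hA h, h, hA.ne_iff]

lemma periodic_semiconj (hA : Function.Injective A)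
    (h : ∀ (n : ℕ) (x : β), f^[n] (A x) = A (g^[n] x)) (x : β) :
    A x ∈ Function.periodicPts f ↔ x ∈ Function.periodicPts g := by
  unfold Function.periodicPts Function.IsPeriodicPt Function.IsFixedPt
  simp only [Set.mem_ofPred_eq, h, hA.eq_iff]

end semiconj

theorem exp_struct {K : Type} [Field K] [NumberField K] (v : FinitePlace K) {m q₀ b : ℕ}
    {p q : K[X]} {d : ℕ} (hd : 2 ≤ d) (hm : m ≠ 0) (hcop : IsCoprime p q)
    (hmax : max p.natDegree q.natDegree = d) (h : ExpRed v m q₀ b p q d) :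
    ∃ σ : ℝ, 1 < σ ∧ finWeight v p q d ≤ (b + 1) * Real.log σ ∧
      ∀ P₀ ∈ Inn (rmap p q d), ∀ P₁ ∈ Inn (rmap p q d), ∀ P₂ : Option K,
        (P₂ ∈ Inn (rmap p q d) ∨ P₂ ∈ Function.periodicPts (rmap p q d)) →
        P₀ ≠ P₁ → P₀ ≠ P₂ → P₁ ≠ P₂ →
        (∀ t ∈ Inn (rmap p q d), t ≠ P₀ → t ≠ P₁ → t ≠ P₂ →
          (∃ e : K, e ≠ 0 ∧ v (cr t P₀ P₁ P₂) = v e ^ m) ∧
          ∃ e : K, e ≠ 0 ∧ v (cr t P₁ P₀ P₂) = v e ^ m) ∧
        ∃ cl : Option K → Fin (q₀ + 4), ∀ t ∈ Inn (rmap p q d), ∀ t' ∈ Inn (rmap p q d),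
          t ≠ P₀ → t ≠ P₁ → t ≠ P₂ → t' ≠ P₀ → t' ≠ P₁ → t' ≠ P₂ → cl t = cl t' →
            Close v σ⁻¹ (cr t P₀ P₁ P₂) (cr t' P₀ P₁ P₂) := by
  obtain ⟨a₁, a₂, a₃, a₄, γ, P, Q, r, σ, hconj, hP, hPd, hQ, hr, hσ, hco, hres, ⟨χ, e, he, hχ⟩,
    hpow⟩ := h
  have hres0 : resultant P Q d d ≠ 0 := by
    intro h0
    rw [h0, map_zero, zero_mul] at hres
    have : 0 < r ^ (d * (d - 1)) := by positivity
    linarith
  have hcop' := coprime_of_resultant hP hPd hQ hres0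
  have hmax' : max P.natDegree Q.natDegree = d := by
    rw [hPd]
    exact max_eq_left hQ
  have hp : p.natDegree ≤ d := by omega
  have hq : q.natDegree ≤ d := by omega
  set A := mob a₁ a₂ a₃ a₄ with hA
  have hAi : Function.Injective A := mob_injective hconj.1
  have hAs : Function.Surjective A := mob_surjective hconj.1
  have hit : ∀ (n : ℕ) (x : Option K), (rmap p q d)^[n] (A x) = A ((rmap P Q d)^[n] x) := fun n x =>
    hconj.rmap_iter hcop hmax hcop' hmax' (by omega) n x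
  obtain ⟨hin, hout⟩ := escape v hd hP hPd hQ hcop' hr hco
  have htree := exp_tree v hd hP hPd hQ hcop' hr hσ he hχ
  refine ⟨σ, hσ, ?_, ?_⟩
  · rw [hconj.finWeight_eq v (by omega) hp hq (by omega) hQ]
    exact exp_weight v hd hP hPd hQ hr hσ hco hres
  have hInn : ∀ x ∈ Inn (rmap p q d), ∃ y ∈ Stay v P Q d r, x = A (some y) := by
    intro x hx
    obtain ⟨z, rfl⟩ := hAs x
    obtain ⟨y, hy, rfl⟩ := hin z ((inn_semiconj hAi hit z).1 hx)
    exact ⟨y, hy, rfl⟩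
  have hJ : ∀ x ∈ Stay v P Q d r, v x ≤ r := by
    intro x hx
    obtain ⟨y, hy, hy'⟩ := hx 0
    rw [Function.iterate_zero, id_eq, Option.some.injEq] at hy
    rw [hy]
    exact hy'
  intro P₀ hP₀ P₁ hP₁ P₂ hP₂ h01 h02 h12
  obtain ⟨y₀, hy₀, rfl⟩ := hInn P₀ hP₀
  obtain ⟨y₁, hy₁, rfl⟩ := hInn P₁ hP₁
  obtain ⟨z₂, rfl⟩ := hAs P₂
  have hz₂ : (∃ y ∈ Stay v P Q d r, z₂ = some y) ∨ z₂ = none ∨ ∃ y, z₂ = some y ∧ r < v y := by
    rcases hP₂ with h | h
    · exact Or.inl (hin z₂ ((inn_semiconj hAi hit z₂).1 h))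
    · exact hout z₂ ((periodic_semiconj hAi hit z₂).1 h)
  have hcr : ∀ t p₀ p₁ p₂ : Option K, cr (A t) (A p₀) (A p₁) (A p₂) = cr t p₀ p₁ p₂ := fun _ _ _ _ =>
    cr_mob hconj.1 _ _ _ _
  obtain ⟨h1, cl, h2⟩ := tree_close v hm htree hJ hpow hy₀ hy₁ (fun h => h01 (by rw [h]))
    hz₂ (fun h => h02 (by rw [h])) (fun h => h12 (by rw [h]))
  refine ⟨?_, fun x => (match Function.invFun A x with
    | none => 0
    | some y => cl y), ?_⟩
  · intro t ht ht0 ht1 ht2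
    obtain ⟨y, hy, rfl⟩ := hInn t ht
    rw [hcr, hcr]
    exact h1 y hy (fun h => ht0 (by rw [h])) (fun h => ht1 (by rw [h]))
      (fun h => ht2 (by rw [h]))
  · intro t ht t' ht' ht0 ht1 ht2 ht0' ht1' ht2' hcl
    obtain ⟨y, hy, rfl⟩ := hInn t ht
    obtain ⟨y', hy', rfl⟩ := hInn t' ht'
    simp only [Function.leftInverse_invFun hAi (some y),
      Function.leftInverse_invFun hAi (some y')] at hcl
    rw [hcr, hcr]
    exact h2 y hy y' hy' (fun h => ht0 (by rw [h])) (fun h => ht1 (by rw [h]))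
      (fun h => ht2 (by rw [h])) (fun h => ht0' (by rw [h])) (fun h => ht1' (by rw [h]))
      (fun h => ht2' (by rw [h])) hcl

end Pool.Agent.MP90787a.P1
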