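import Pool.Agent.Lib.MP_90787a_nt.P1.Above
import Pool.Agent.Lib.MP_90787a_nt.P1.Struct
import Pool.Agent.Lib.MP_90787a_nt.P1.Hgt
import Pool.Agent.Lib.MP_90787a_nt.P1.Cross
import Pool.Agent.Lib.MP_90787a_nt.G.Pack

set_option autoImplicit false

/-!
The core argument for rational maps: cross ratios of preperiodic points which lie on one curve over
one number field.
-/

namespace Pool.Agent.MP90787a.P1

open Finset Polynomial NumberField Height Pool.Agent.UBC90787a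
open Pool.Agent.MP90787a.G (KissT Close Tree packT_even packT_odd)
open Pool.Agent.MP90787a.G.Core (close_map)

open Classical in
theorem core_gen {K L : Type} [Field K] [NumberField K] [Field L] [NumberField L]
    (φ : K →+* L) {D : Set L} (hD : KissT L D) (d q₀ b : ℕ) (hd : 2 ≤ d)
    (S : Finset (FinitePlace K)) :
    ∃ C : ℕ, ∀ p q : K[X], IsCoprime p q → max p.natDegree q.natDegree = d →
      ∀ (P₀ P₁ P₂ : Option K) (J : Finset (Option K)), P₀ ≠ P₁ → P₀ ≠ P₂ → P₁ ≠ P₂ →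
      Preper (rmap p q d) P₀ → Preper (rmap p q d) P₁ → Preper (rmap p q d) P₂ →
      (∀ t ∈ J, Preper (rmap p q d) t ∧ t ≠ P₀ ∧ t ≠ P₁ ∧ t ≠ P₂ ∧ φ (cr t P₀ P₁ P₂) ∈ D) →
      (∀ v : FinitePlace K, v ∉ S → finWeight v p q d = 0 ∨ ∃ σ : ℝ, 1 < σ ∧
        finWeight v p q d ≤ (b + 1) * Real.log σ ∧ ∃ cl : Option K → Fin (q₀ + 4),
          ∀ t ∈ J, ∀ t' ∈ J, cl t = cl t' →
            Close v σ⁻¹ (cr t P₀ P₁ P₂) (cr t' P₀ P₁ P₂)) → J.card ≤ C := by
  obtain ⟨S₁, hS₁⟩ := hD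
  obtain ⟨S₂, hS₂⟩ := exists_below φ S₁
  set SK : Finset (FinitePlace K) := S ∪ S₂ with hSK
  have hn1 : 1 ≤ Module.finrank ℚ K := Module.finrank_pos
  have hn2 : 1 ≤ Module.finrank ℚ L := Module.finrank_pos
  set n : ℕ := Module.finrank ℚ K with hn
  set ρ : ℝ := (Module.finrank ℚ L : ℝ) / n with hρ
  have hn0 : (0 : ℝ) < n := by exact_mod_cast hn1
  have hnL : (0 : ℝ) < (Module.finrank ℚ L : ℝ) := by exact_mod_cast hn2
  have hρ0 : 0 < ρ := div_pos hnL hn0
  have hlog2 : 0 ≤ Real.log 2 := Real.log_nonneg (by norm_num)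
  have hwt := T.wt_nonneg K
  set Cinf : ℝ := 2 * ((2 * d + 1) * Real.log 2) * T.wt K with hCinf
  have hCinf0 : 0 ≤ Cinf := by positivity
  have hb1 : (0 : ℝ) < (b : ℝ) + 1 := by positivity
  obtain ⟨M, H₀, hM⟩ := hS₁ (ρ / (b + 1)) (ρ * (16 * d + Cinf)) (q₀ + 4) (div_pos hρ0 hb1)
  obtain ⟨Crf, hCrf⟩ := rf_main n d hn1 hd (max 1 H₀)
  refine ⟨M + ⌈Crf * (SK.card + 1) * Real.log (SK.card + 2)⌉₊ + 1, ?_⟩
  intro p q hcop hmax P₀ P₁ P₂ J h01 h02 h12 hP₀ hP₁ hP₂ hJ hloc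
  by_contra hcard
  push Not at hcard
  -- the support theorem
  obtain ⟨U, hUS, hUbig⟩ : ∃ U : Finset (FinitePlace K), Disjoint U SK ∧
      max 1 H₀ * (1 + ∑ v ∈ SK, finWeight v p q d +
          ∑ w : InfinitePlace K, (w.mult : ℝ) * archWeight w.embedding p q d) <
        ∑ v ∈ U, finWeight v p q d := by
    by_contra hcon
    push Not at hcon
    have h1 := hCrf K rfl p q hcop hmax SK hcon (Finset.eraseNone J) (by
        intro z hz
        rw [Finset.mem_eraseNone] at hz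
        exact prep_wedge hcop hmax (by omega) (hJ _ hz).1)
    have h2 : J.card ≤ (Finset.eraseNone J).card + 1 := by
      have h3 : J ⊆ insert none ((Finset.eraseNone J).map Function.Embedding.some) := by
        intro t ht
        cases t with
        | none => exact Finset.mem_insert_self _ _
        | some y =>
          refine Finset.mem_insert_of_mem (Finset.mem_map.2 ⟨y, ?_, rfl⟩)
          rwa [Finset.mem_eraseNone]
      have h4 := Finset.card_le_card h3
      refine h4.trans ((Finset.card_insert_le _ _).trans ?_)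
      rw [Finset.card_map]
    have h5 : ((Finset.eraseNone J).card : ℝ) ≤
        ⌈Crf * (SK.card + 1) * Real.log (SK.card + 2)⌉₊ := h1.trans (Nat.le_ceil _)
    have h6 : (Finset.eraseNone J).card ≤ ⌈Crf * (SK.card + 1) * Real.log (SK.card + 2)⌉₊ := by
      exact_mod_cast h5
    omega
  set W : FinitePlace K → ℝ := fun v => finWeight v p q d with hW
  have hW0 : ∀ v, 0 ≤ W v := fun v => finWeight_nonneg _ _ _ _
  set WS : ℝ := ∑ v ∈ SK, W v with hWS
  set Wi : ℝ := ∑ w : InfinitePlace K, (w.mult : ℝ) * archWeight w.embedding p q d with hWi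
  have hWS0 : 0 ≤ WS := Finset.sum_nonneg fun v _ => hW0 v
  have hWi0 : 0 ≤ Wi := Finset.sum_nonneg fun w _ =>
    mul_nonneg (Nat.cast_nonneg _) (archWeight_nonneg _ _ _ _)
  -- the bad places
  obtain ⟨F₁, hF₁⟩ := exists_weight_zero hd hcop hmax
  set F : Finset (FinitePlace K) := F₁.filter fun v => v ∉ SK ∧ 0 < W v with hF
  have hFmem : ∀ v, v ∉ SK → v ∉ F → W v = 0 := by
    intro v hv hvF
    by_contra hne
    have hpos : 0 < W v := lt_of_le_of_ne (hW0 v) (Ne.symm hne)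
    apply hvF
    rw [hF, Finset.mem_filter]
    refine ⟨?_, hv, hpos⟩
    by_contra hvF'
    exact hne (hF₁ v hvF')
  have hFprop : ∀ v ∈ F, v ∉ SK ∧ 0 < W v := fun v hv => (Finset.mem_filter.1 hv).2
  set Λ : ℝ := ∑ v ∈ F, W v with hΛ
  have hUF : ∑ v ∈ U, W v ≤ Λ := by
    have h1 : ∑ v ∈ U, W v = ∑ v ∈ U ∩ F, W v := by
      refine (Finset.sum_subset Finset.inter_subset_left fun v hvU hv => ?_).symm
      have hvS : v ∉ SK := fun h => Finset.disjoint_left.1 hUS hvU h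
      exact hFmem v hvS fun h => hv (Finset.mem_inter.2 ⟨hvU, h⟩)
    rw [h1]
    exact Finset.sum_le_sum_of_subset_of_nonneg Finset.inter_subset_right fun v _ _ => hW0 v
  have hUbig' : max 1 H₀ * (1 + WS + Wi) < ∑ v ∈ U, W v := hUbig
  have hσ1 : (1 : ℝ) ≤ max 1 H₀ := le_max_left _ _
  have hσ2 : H₀ ≤ max 1 H₀ := le_max_right _ _
  have hHσ : max 1 H₀ * (1 + WS + Wi) < Λ := hUbig'.trans_le hUF
  have hb1' : max 1 H₀ ≤ max 1 H₀ * (1 + WS + Wi) :=
    le_mul_of_one_le_right (by linarith) (by linarith)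
  have hb2 : 1 + WS + Wi ≤ max 1 H₀ * (1 + WS + Wi) := le_mul_of_one_le_left (by linarith) hσ1
  have hHH₀ : H₀ ≤ Λ := by linarith
  have hΛ1 : 1 ≤ Λ := by linarith
  have hΛW : WS + Wi ≤ Λ := by linarith
  -- the local data
  have hdata : ∀ v : FinitePlace K, ∃ σ : ℝ, v ∈ F → (1 < σ ∧ W v ≤ (b + 1) * Real.log σ ∧
      ∃ cl : Option K → Fin (q₀ + 4), ∀ t ∈ J, ∀ t' ∈ J, cl t = cl t' →
        Close v σ⁻¹ (cr t P₀ P₁ P₂) (cr t' P₀ P₁ P₂)) := by
    intro v
    by_cases hv : v ∈ F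
    · obtain ⟨hvS, hvW⟩ := hFprop v hv
      rcases hloc v (fun h => hvS (Finset.mem_union_left _ h)) with h | ⟨σ, h1, h2, h3⟩
      · exact absurd h hvW.ne'
      · exact ⟨σ, fun _ => ⟨h1, h2, h3⟩⟩
    · exact ⟨0, fun h => absurd h hv⟩
  choose σ hσ using hdata
  -- the places above
  choose WW sw hWW using fun v => sum_above φ v
  have hbel : ∀ w : FinitePlace L, ∃ v : FinitePlace K, ∃ s : ℝ, 0 < s ∧ ∀ x, w (φ x) = v x ^ s :=
    fun w => Pool.Agent.MP90787a.G.exists_restrict φ w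
  choose bel sb hsb using hbel
  have hmemW : ∀ v w, w ∈ WW v → bel w = v := by
    intro v w hw
    obtain ⟨h1, h2⟩ := (hWW v).1 w hw
    refine place_unique (hsb w).1 h1 fun x => ?_
    rw [← (hsb w).2, h2]
  set FL : Finset (FinitePlace L) := F.biUnion WW with hFL
  have hFLmem : ∀ w ∈ FL, bel w ∈ F ∧ w ∈ WW (bel w) := by
    intro w hw
    obtain ⟨v, hv, hw'⟩ := Finset.mem_biUnion.1 hw
    rw [hmemW v w hw']
    exact ⟨hv, hw'⟩
  set θ : FinitePlace L → ℝ := fun w => (σ (bel w))⁻¹ ^ sw (bel w) w with hθ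
  have hθ' : ∀ w ∈ FL, 0 < θ w ∧ θ w < 1 ∧
      - Real.log (θ w) = sw (bel w) w * Real.log (σ (bel w)) := by
    intro w hw
    obtain ⟨h1, h2⟩ := hFLmem w hw
    obtain ⟨h3, _⟩ := hσ (bel w) h1
    obtain ⟨h4, _⟩ := (hWW (bel w)).1 w h2
    have h5 : 0 < σ (bel w) := by linarith
    refine ⟨Real.rpow_pos_of_pos (inv_pos.2 h5) _,
      Real.rpow_lt_one (inv_nonneg.2 h5.le) (inv_lt_one_of_one_lt₀ h3) h4, ?_⟩
    rw [hθ]
    simp only
    rw [Real.log_rpow (inv_pos.2 h5), Real.log_inv]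
    ring
  have hsum : ∑ w ∈ FL, -Real.log (θ w) = ρ * ∑ v ∈ F, Real.log (σ v) := by
    rw [hFL, Finset.sum_biUnion]
    · rw [Finset.mul_sum]
      refine Finset.sum_congr rfl fun v hv => ?_
      have h1 : ∀ w ∈ WW v, -Real.log (θ w) = sw v w * Real.log (σ v) := by
        intro w hw
        have h2 := (hθ' w (Finset.mem_biUnion.2 ⟨v, hv, hw⟩)).2.2
        rwa [hmemW v w hw] at h2
      rw [Finset.sum_congr rfl h1, ← Finset.sum_mul]
      congr 1
      rw [hρ, eq_div_iff hn0.ne']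
      exact (hWW v).2.2
    · intro v _ v' _ hvv'
      rw [Function.onFun, Finset.disjoint_left]
      intro w hw hw'
      exact hvv' ((hmemW v w hw).symm.trans (hmemW v' w hw'))
  -- the points
  set τ : Option K → L := fun t => φ (cr t P₀ P₁ P₂) with hτ
  have hinj : Set.InjOn τ J := by
    intro t ht t' ht' h
    exact cr_inj h01.symm h02 h12 (hJ t ht).2.2.2.1 (hJ t' ht').2.2.2.1 (φ.injective h)
  have hAcard : (J.image τ).card = J.card := Finset.card_image_of_injOn hinj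
  have key := hM Λ hHH₀ (J.image τ) FL θ ?_ ?_ ?_
  · rw [hAcard] at key
    omega
  · -- heights
    intro T hT
    obtain ⟨t, ht, rfl⟩ := Finset.mem_image.1 hT
    obtain ⟨htp, ht0, ht1, ht2, htD⟩ := hJ t ht
    refine ⟨htD, ?_⟩
    have h1 := cross_height hd hcop hmax ht0 ht2 h01.symm h12 (by
      rintro x (rfl | rfl | rfl | rfl)
      · exact htp
      · exact hP₀
      · exact hP₁
      · exact hP₂) (SK ∪ F) (by
        intro v hv
        rw [Finset.mem_union, not_or] at hv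
        exact hFmem v hv.1 hv.2)
    have h2 : ∑ v ∈ SK ∪ F, finWeight v p q d ≤ WS + Λ := by
      have h3 : ∑ v ∈ SK ∪ F, W v ≤ ∑ v ∈ SK, W v + ∑ v ∈ F, W v := by
        have := Finset.sum_union_inter (s₁ := SK) (s₂ := F) (f := W)
        have h4 : 0 ≤ ∑ v ∈ SK ∩ F, W v := Finset.sum_nonneg fun v _ => hW0 v
        linarith
      have h5 : ∑ v ∈ SK ∪ F, finWeight v p q d = ∑ v ∈ SK ∪ F, W v := rfl
      rw [h5]
      linarith
    have hd0 : (0 : ℝ) ≤ 8 * d := by positivity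
    have h3 : logHeight₁ (cr t P₀ P₁ P₂) ≤ (16 * d + Cinf) * Λ := by
      calc _ ≤ 8 * d * (∑ v ∈ SK ∪ F, finWeight v p q d + Wi) + Cinf := h1
        _ ≤ 8 * d * (Λ + Λ) + Cinf * Λ := by
            have h6 : Cinf ≤ Cinf * Λ := le_mul_of_one_le_right hCinf0 hΛ1
            have h7 : ∑ v ∈ SK ∪ F, finWeight v p q d + Wi ≤ Λ + Λ := by linarith
            have h8 := mul_le_mul_of_nonneg_left h7 hd0
            linarith
        _ = (16 * d + Cinf) * Λ := by ring
    have h4 : logHeight₁ (τ t) = ρ * logHeight₁ (cr t P₀ P₁ P₂) := by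
      have h5 := logHeight₁_map φ (cr t P₀ P₁ P₂)
      rw [hτ, hρ, div_mul_eq_mul_div, eq_div_iff hn0.ne']
      exact h5
    rw [h4, mul_assoc]
    exact mul_le_mul_of_nonneg_left h3 hρ0.le
  · -- closeness
    intro w hw
    obtain ⟨h1, h2⟩ := hFLmem w hw
    obtain ⟨hvS, hvW⟩ := hFprop _ h1
    obtain ⟨h4, h5⟩ := (hWW (bel w)).1 w h2
    obtain ⟨h3, _, cl, hcl⟩ := hσ (bel w) h1
    refine ⟨hS₂ (bel w) (fun h => hvS (Finset.mem_union_right _ h)) w _ h4 h5, (hθ' w hw).1,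
      (hθ' w hw).2.1, fun T => cl (Function.invFunOn τ (J : Set (Option K)) T), ?_⟩
    intro T hT T' hT' hTT
    obtain ⟨t, ht, rfl⟩ := Finset.mem_image.1 hT
    obtain ⟨t', ht', rfl⟩ := Finset.mem_image.1 hT'
    have e1 : Function.invFunOn τ (J : Set (Option K)) (τ t) = t := hinj.leftInvOn_invFunOn ht
    have e2 : Function.invFunOn τ (J : Set (Option K)) (τ t') = t' := hinj.leftInvOn_invFunOn ht'
    simp only [e1, e2] at hTT
    have h6 : 0 < σ (bel w) := by linarith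
    exact close_map φ h4 (fun x => Pool.Agent.MP90787a.T.v_nonneg _ x) h5 (inv_pos.2 h6)
      (hcl t ht t' ht' hTT)
  · -- the total weight
    rw [hsum, div_mul_eq_mul_div, mul_div_assoc]
    refine mul_le_mul_of_nonneg_left ?_ hρ0.le
    rw [div_le_iff₀ hb1, hΛ, Finset.sum_mul]
    refine Finset.sum_le_sum fun v hv => ?_
    have := (hσ v hv).2.1
    linarith

end Pool.Agent.MP90787a.P1
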