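import Pool.Agent.Lib.MP_90787a_nt.P1.Base

set_option autoImplicit false

/-!
Points of bounded period and tail: they are roots of a polynomial of bounded degree.
-/

namespace Pool.Agent.MP90787a.P1

open Polynomial NumberField Height Pool.Agent.UBC90787a

namespace Count

variable {K : Type} [Field K]

/-- The iterates as pairs of polynomials. -/
noncomputable def It (p q : K[X]) (d k : ℕ) : K[X] × K[X] :=
  (homMap (p.map C) (q.map C) d)^[k] (X, 1)

lemma It_zero (p q : K[X]) (d : ℕ) : It p q d 0 = (X, 1) := rfl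

lemma It_succ (p q : K[X]) (d k : ℕ) :
    It p q d (k + 1) = (homog (p.map C) d (It p q d k), homog (q.map C) d (It p q d k)) := by
  unfold It
  rw [Function.iterate_succ_apply']
  rfl

lemma homog_eval₂ {L : Type} [Field L] (ι : K →+* L) (p : K[X]) (d : ℕ) (x : L)
    (z : K[X] × K[X]) :
    (homog (p.map C) d z).eval₂ ι x = homog (p.map ι) d (z.1.eval₂ ι x, z.2.eval₂ ι x) := by
  unfold homog
  rw [eval₂_finsetSum]
  refine Finset.sum_congr rfl (fun i _ => ?_)
  rw [coeff_map, coeff_map, eval₂_mul, eval₂_mul, eval₂_pow, eval₂_pow, eval₂_C]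

lemma It_eval₂ {L : Type} [Field L] (ι : K →+* L) (p q : K[X]) (d : ℕ) (x : L) (k : ℕ) :
    ((It p q d k).1.eval₂ ι x, (It p q d k).2.eval₂ ι x) =
      (homMap (p.map ι) (q.map ι) d)^[k] (x, 1) := by
  induction k with
  | zero => simp [It_zero]
  | succ k ih =>
    rw [Function.iterate_succ_apply', ← ih, It_succ]
    simp only
    rw [homog_eval₂, homog_eval₂]
    rfl

lemma It_eval (p q : K[X]) (d : ℕ) (x : K) (k : ℕ) :
    ((It p q d k).1.eval x, (It p q d k).2.eval x) = (homMap p q d)^[k] (x, 1) := by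
  have h := It_eval₂ (RingHom.id K) p q d x k
  simpa [eval₂_id] using h

lemma homog_natDegree (p : K[X]) (d m : ℕ) (z : K[X] × K[X]) (h1 : z.1.natDegree ≤ m)
    (h2 : z.2.natDegree ≤ m) : (homog (p.map C) d z).natDegree ≤ m * d := by
  unfold homog
  refine natDegree_sum_le_of_forall_le _ _ (fun i hi => ?_)
  have hi' : i ≤ d := by
    have := Finset.mem_range.mp hi
    omega
  rw [coeff_map]
  refine (natDegree_mul_le).trans ?_
  have e1 : (C (p.coeff i) * z.1 ^ i).natDegree ≤ i * m :=
    (natDegree_C_mul_le _ _).trans (natDegree_pow_le_of_le i h1)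
  have e2 : (z.2 ^ (d - i)).natDegree ≤ (d - i) * m := natDegree_pow_le_of_le _ h2
  refine (add_le_add e1 e2).trans (le_of_eq ?_)
  rw [← add_mul, mul_comm]
  congr 1
  omega

lemma homog_coeff (p : K[X]) (d m : ℕ) (z : K[X] × K[X]) (h1 : z.1.natDegree ≤ m)
    (h2 : z.2.natDegree ≤ m) : (homog (p.map C) d z).coeff (m * d) =
      homog p d (z.1.coeff m, z.2.coeff m) := by
  unfold homog
  rw [finsetSum_coeff]
  refine Finset.sum_congr rfl (fun i hi => ?_)
  have hi' : i ≤ d := by
    have := Finset.mem_range.mp hi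
    omega
  rw [coeff_map, mul_assoc, coeff_C_mul, mul_assoc]
  congr 1
  have e : m * d = i * m + (d - i) * m := by
    rw [← add_mul, mul_comm]
    congr 1
    omega
  rw [e, coeff_mul_add_eq_of_natDegree_le (natDegree_pow_le_of_le i h1)
    (natDegree_pow_le_of_le (d - i) h2)]
  rw [coeff_pow_of_natDegree_le h1,
    coeff_pow_of_natDegree_le h2]

lemma It_natDegree (p q : K[X]) (d k : ℕ) :
    (It p q d k).1.natDegree ≤ d ^ k ∧ (It p q d k).2.natDegree ≤ d ^ k := by
  induction k with
  | zero =>
    rw [It_zero]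
    refine ⟨?_, ?_⟩
    · exact (natDegree_X_le).trans (by simp)
    · simp
  | succ k ih =>
    rw [It_succ, pow_succ]
    exact ⟨homog_natDegree p d _ _ ih.1 ih.2, homog_natDegree q d _ _ ih.1 ih.2⟩

lemma It_coeff (p q : K[X]) (d k : ℕ) :
    ((It p q d k).1.coeff (d ^ k), (It p q d k).2.coeff (d ^ k)) =
      (homMap p q d)^[k] (1, 0) := by
  induction k with
  | zero =>
    rw [It_zero, pow_zero]
    simp [coeff_one]
  | succ k ih =>
    obtain ⟨h1, h2⟩ := It_natDegree p q d k
    rw [Function.iterate_succ_apply', ← ih, It_succ, pow_succ]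
    simp only
    rw [homog_coeff p d _ _ h1 h2, homog_coeff q d _ _ h1 h2]
    rfl

variable {p q : K[X]} {d : ℕ}

lemma iter_ne_zero (hcop : IsCoprime p q) (hmax : max p.natDegree q.natDegree = d) (hd : 1 ≤ d)
    (k : ℕ) (x : Option K) : (homMap p q d)^[k] (vec x) ≠ 0 := by
  obtain ⟨μ, hμ, h⟩ := homMap_iter_vec hcop hmax hd k x
  rw [h]
  exact smul_ne_zero hμ (vec_ne_zero _)

lemma It_coprime_aux {L : Type} [Field L] [IsAlgClosed L] (ι : K →+* L) (hcop : IsCoprime p q)
    (hmax : max p.natDegree q.natDegree = d) (hd : 1 ≤ d) (k : ℕ) (x : L)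
    (h1 : (It p q d k).1.eval₂ ι x = 0) (h2 : (It p q d k).2.eval₂ ι x = 0) : False := by
  have h3 := It_eval₂ ι p q d x k
  rw [h1, h2] at h3
  have hcop' : IsCoprime (p.map ι) (q.map ι) := hcop.map (mapRingHom ι)
  have hmax' : max (p.map ι).natDegree (q.map ι).natDegree = d := by
    rw [natDegree_map, natDegree_map]
    exact hmax
  exact iter_ne_zero hcop' hmax' hd k (some x) h3.symm

lemma coprime_of {L : Type} [Field L] [IsAlgClosed L] [Algebra K L] (A B : K[X])
    (h : ∀ x : L, A.eval₂ (algebraMap K L) x = 0 → B.eval₂ (algebraMap K L) x = 0 → False) :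
    IsCoprime A B := by
  rw [Polynomial.isCoprime_iff_aeval_ne_zero_of_isAlgClosed K L]
  intro x
  by_contra hcon
  rw [not_or, not_not, not_not, aeval_def, aeval_def] at hcon
  exact h x hcon.1 hcon.2

lemma It_coprime (hcop : IsCoprime p q) (hmax : max p.natDegree q.natDegree = d) (hd : 1 ≤ d)
    (k : ℕ) : IsCoprime (It p q d k).1 (It p q d k).2 :=
  coprime_of (L := AlgebraicClosure K) _ _ (fun x h1 h2 =>
    It_coprime_aux (algebraMap K (AlgebraicClosure K)) hcop hmax hd k x h1 h2)

lemma It_max (hcop : IsCoprime p q) (hmax : max p.natDegree q.natDegree = d) (hd : 1 ≤ d)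
    (k : ℕ) : max (It p q d k).1.natDegree (It p q d k).2.natDegree = d ^ k := by
  obtain ⟨h1, h2⟩ := It_natDegree p q d k
  have h3 := It_coeff p q d k
  have h4 := iter_ne_zero hcop hmax hd k none
  refine le_antisymm (max_le h1 h2) ?_
  by_contra hcon
  rw [not_le, max_lt_iff] at hcon
  apply h4
  have h5 : (vec (none : Option K)) = (1, 0) := rfl
  rw [h5, ← h3, coeff_eq_zero_of_natDegree_lt hcon.1, coeff_eq_zero_of_natDegree_lt hcon.2]
  rfl

/-- Coprime pairs with the same quotient have the same degrees. -/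
lemma degrees_eq {A B A' B' : K[X]} (h : IsCoprime A B) (h' : IsCoprime A' B')
    (he : A * B' = A' * B) : max A.natDegree B.natDegree = max A'.natDegree B'.natDegree := by
  have h1 : A ∣ A' := h.dvd_of_dvd_mul_right ⟨B', he.symm⟩
  have h2 : A' ∣ A := h'.dvd_of_dvd_mul_right ⟨B, he⟩
  have h3 : B ∣ B' := h.symm.dvd_of_dvd_mul_left ⟨A', by rw [he]; ring⟩
  have h4 : B' ∣ B := h'.symm.dvd_of_dvd_mul_left ⟨A, by rw [← he]; ring⟩
  have e1 : A.natDegree = A'.natDegree :=
    natDegree_eq_of_degree_eq (degree_eq_degree_of_associated (associated_of_dvd_dvd h1 h2))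
  have e2 : B.natDegree = B'.natDegree :=
    natDegree_eq_of_degree_eq (degree_eq_degree_of_associated (associated_of_dvd_dvd h3 h4))
  rw [e1, e2]

theorem main (d n L : ℕ) (hd : 2 ≤ d) (p q : K[X]) (hcop : IsCoprime p q)
    (hmax : max p.natDegree q.natDegree = d) :
    {x : Option K | (rmap p q d)^[L] x ∈ Function.periodicPts (rmap p q d) ∧
        Function.minimalPeriod (rmap p q d) ((rmap p q d)^[L] x) ≤ n}.encard ≤
      ((2 * d ^ (n.factorial + L) + 1 : ℕ) : ℕ∞) := by
  classical
  have hd1 : 1 ≤ d := by omega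
  set N := n.factorial with hN
  have hN1 : 1 ≤ N := Nat.factorial_pos n
  set W : K[X] := (It p q d (N + L)).1 * (It p q d L).2 - (It p q d L).1 * (It p q d (N + L)).2
    with hW
  have hlt : d ^ L < d ^ (N + L) := Nat.pow_lt_pow_right (by omega) (by omega)
  have hW0 : W ≠ 0 := by
    intro h0
    rw [hW, sub_eq_zero] at h0
    have h1 := degrees_eq (It_coprime hcop hmax hd1 (N + L)) (It_coprime hcop hmax hd1 L) h0
    rw [It_max hcop hmax hd1, It_max hcop hmax hd1] at h1
    omega
  have hWd : W.natDegree ≤ 2 * d ^ (N + L) := by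
    obtain ⟨a1, a2⟩ := It_natDegree p q d (N + L)
    obtain ⟨b1, b2⟩ := It_natDegree p q d L
    refine (natDegree_sub_le _ _).trans (max_le ?_ ?_)
    · refine natDegree_mul_le.trans ?_
      omega
    · refine natDegree_mul_le.trans ?_
      omega
  have hsub : {x : Option K | (rmap p q d)^[L] x ∈ Function.periodicPts (rmap p q d) ∧
        Function.minimalPeriod (rmap p q d) ((rmap p q d)^[L] x) ≤ n} ⊆
      ((insert none (W.roots.toFinset.image some) : Finset (Option K)) : Set (Option K)) := by
    rintro x ⟨h1, h2⟩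
    rw [Finset.mem_coe, Finset.mem_insert]
    cases x with
    | none => exact Or.inl rfl
    | some y =>
      right
      rw [Finset.mem_image]
      refine ⟨y, ?_, rfl⟩
      have hpos := Function.minimalPeriod_pos_of_mem_periodicPts h1
      have hdvd : Function.minimalPeriod (rmap p q d) ((rmap p q d)^[L] (some y)) ∣ N :=
        Nat.dvd_factorial hpos h2
      have hper : Function.IsPeriodicPt (rmap p q d) N ((rmap p q d)^[L] (some y)) :=
        (Function.isPeriodicPt_minimalPeriod _ _).trans_dvd hdvd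
      have heq : (rmap p q d)^[N + L] (some y) = (rmap p q d)^[L] (some y) := by
        rw [Function.iterate_add_apply]
        exact hper
      rw [Multiset.mem_toFinset, mem_roots hW0, IsRoot.def, hW, eval_sub, eval_mul, eval_mul]
      have e1 := It_eval p q d y (N + L)
      have e2 := It_eval p q d y L
      obtain ⟨μ, hμ, m1⟩ := homMap_iter_vec hcop hmax hd1 (N + L) (some y)
      obtain ⟨ν, hν, m2⟩ := homMap_iter_vec hcop hmax hd1 L (some y)
      have h5 : vec (some y) = (y, 1) := rfl
      rw [h5, ← e1, heq] at m1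
      rw [h5, ← e2] at m2
      have c1 := congrArg Prod.fst m1
      have c2 := congrArg Prod.snd m1
      have c3 := congrArg Prod.fst m2
      have c4 := congrArg Prod.snd m2
      simp only [Prod.smul_fst, Prod.smul_snd, smul_eq_mul] at c1 c2 c3 c4
      rw [c1, c2, c3, c4]
      ring
  refine (Set.encard_le_encard hsub).trans ?_
  rw [Set.encard_coe_eq_coe_finsetCard]
  refine Nat.cast_le.2 ?_
  refine (Finset.card_insert_le _ _).trans ?_
  refine Nat.add_le_add_right ?_ 1
  refine Finset.card_image_le.trans ?_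
  exact (Multiset.toFinset_card_le _).trans ((card_roots' _).trans hWd)

end Count

theorem count (K : Type) [Field K] [NumberField K] (d n L : ℕ) (hd : 2 ≤ d) : ∃ C : ℕ,
    ∀ p q : K[X], IsCoprime p q → max p.natDegree q.natDegree = d →
      {x : Option K | (rmap p q d)^[L] x ∈ Function.periodicPts (rmap p q d) ∧
        Function.minimalPeriod (rmap p q d) ((rmap p q d)^[L] x) ≤ n}.encard ≤ C :=
  ⟨2 * d ^ (n.factorial + L) + 1, fun p q hcop hmax => Count.main d n L hd p q hcop hmax⟩

end Pool.Agent.MP90787a.P1
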