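import Mathlib
import Pool.Agent.Lib.MP_90787a_nt.RF.RFDefs
import Pool.Agent.Lib.MP_90787a_nt.Radius

set_option autoImplicit false

/-!
Definitions for the uniform bounds for rational maps with potentially good or expanding reduction.
-/

namespace Pool.Agent.MP90787a.P1

open Polynomial NumberField Pool.Agent.UBC90787a

open Classical in
/-- The self-map of the projective line `Option K` (`none` is the point at infinity) given by
`p / q`, where `p` and `q` are coprime and `d` is the larger one of their degrees. -/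
noncomputable def rmap {K : Type} [Field K] (p q : K[X]) (d : ℕ) : Option K → Option K
  | none => if q.coeff d = 0 then none else some (p.coeff d / q.coeff d)
  | some x => if q.eval x = 0 then none else some (p.eval x / q.eval x)

/-- `P / Q` is the conjugate of `p / q` by the Möbius transformation `A` with matrix
`(a₁, a₂; a₃, a₄)`: the pairs of forms of degree `d` satisfy `(p, q) ∘ A = γ A (P, Q)`. -/
def Conj {K : Type} [Field K] (p q P Q : K[X]) (d : ℕ) (a₁ a₂ a₃ a₄ γ : K) : Prop :=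
  a₁ * a₄ - a₂ * a₃ ≠ 0 ∧ γ ≠ 0 ∧ ∀ x y : K,
    homog p d (a₁ * x + a₂ * y, a₃ * x + a₄ * y) =
      γ * (a₁ * homog P d (x, y) + a₂ * homog Q d (x, y)) ∧
    homog q d (a₁ * x + a₂ * y, a₃ * x + a₄ * y) =
      γ * (a₃ * homog P d (x, y) + a₄ * homog Q d (x, y))

/-- The points of the disc with centre `0` and radius `r` which are mapped into the disc. -/
def Inside {K : Type} [Field K] (v : K → ℝ) (P Q : K[X]) (r : ℝ) : Set K :=
  {x | v x ≤ r ∧ v (P.eval x) ≤ r * v (Q.eval x)}

/-- Expanding reduction with exponents `m`, `q₀`, `b`: a conjugate `g = P / Q` of `p / q` over `K`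
with `P = X ^ d + ...`, a disc `D` (centre `0`, radius `r`) and a real number `σ > 1` such that
* `|P_i| ≤ r ^ (d - i)`, `|Q_i| < r ^ (d - 1 - i)` for all `i ≤ d`, and
  `|Res (P, Q)| ≥ r ^ (d (d - 1)) σ ^ (- b)`;
* the points `x` of `K` with `x ∈ D` and `g x ∈ D` are coloured with `q₀` colours, with a number
  `e ≥ 1` for every colour, such that `|g x - g y| = σ ^ e |x - y|` if `x` and `y` have the same
  colour, and `|x - y|` is one of `r, r σ ^ (-1), ..., r σ ^ (-(e - 1))` otherwise, where `e`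
  belongs to the colour of `x`;
* the quotient of two elements of `K` with absolute values in `r σ ^ ℤ` has the absolute value of
  an `m`-th power. -/
def ExpRed {K : Type} [Field K] (v : K → ℝ) (m q₀ b : ℕ) (p q : K[X]) (d : ℕ) : Prop :=
  ∃ (a₁ a₂ a₃ a₄ γ : K) (P Q : K[X]) (r σ : ℝ), Conj p q P Q d a₁ a₂ a₃ a₄ γ ∧
    P.Monic ∧ P.natDegree = d ∧ Q.natDegree ≤ d ∧ 0 < r ∧ 1 < σ ∧
    (∀ i ≤ d, v (P.coeff i) ≤ r ^ (d - i) ∧ v (Q.coeff i) * r ^ (i + 1) < r ^ d) ∧
    r ^ (d * (d - 1)) ≤ v (resultant P Q d d) * σ ^ b ∧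
    (∃ (χ : K → Fin q₀) (e : Fin q₀ → ℕ), (∀ j, 1 ≤ e j) ∧
      ∀ x ∈ Inside v P Q r, ∀ y ∈ Inside v P Q r,
        (χ x = χ y → v (P.eval x / Q.eval x - P.eval y / Q.eval y) = σ ^ e (χ x) * v (x - y)) ∧
        (χ x ≠ χ y → ∃ n < e (χ x), v (x - y) * σ ^ n = r)) ∧
    ∀ (z w : K) (i j : ℤ), v z = r * σ ^ i → v w = r * σ ^ j → ∃ e : K, v z = v w * v e ^ m

/-- Potentially good or expanding reduction at all finite places outside `S`. -/
def NiceR {K : Type} [Field K] [NumberField K] (S : Finset (FinitePlace K)) (m q₀ b : ℕ)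
    (p q : K[X]) (d : ℕ) : Prop :=
  ∀ v : FinitePlace K, v ∉ S → PotGoodRed v p q d ∨ ExpRed v m q₀ b p q d

/-- Homogeneous coordinates. -/
def vec {K : Type} [Field K] : Option K → K × K
  | none => (1, 0)
  | some x => (x, 1)

open Classical in
/-- The point with given homogeneous coordinates. -/
noncomputable def pt {K : Type} [Field K] (z : K × K) : Option K :=
  if z.2 = 0 then none else some (z.1 / z.2)

/-- The Möbius transformation with matrix `(a₁, a₂; a₃, a₄)`. -/
noncomputable def mob {K : Type} [Field K] (a₁ a₂ a₃ a₄ : K) (x : Option K) : Option K :=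
  pt (a₁ * (vec x).1 + a₂ * (vec x).2, a₃ * (vec x).1 + a₄ * (vec x).2)

/-- There is a Möbius transformation `α` with `f ∘ α = f` which has order at least four, or has
order at least three and fixes a periodic point of `f`. -/
def Sym {K : Type} [Field K] (f : Option K → Option K) : Prop :=
  ∃ a₁ a₂ a₃ a₄ : K, a₁ * a₄ - a₂ * a₃ ≠ 0 ∧ (∀ x, f (mob a₁ a₂ a₃ a₄ x) = f x) ∧
    (∃ x, (mob a₁ a₂ a₃ a₄)^[2] x ≠ x) ∧
    ((∃ x, (mob a₁ a₂ a₃ a₄)^[3] x ≠ x) ∨ ∃ y ∈ Function.periodicPts f, mob a₁ a₂ a₃ a₄ y = y)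

/-- The uniform bounds: for a self-map `f` of the projective line and the number `B`,
* odd divisors of the lengths of cycles are at most `B`;
* if the orbit of `x` ends in a cycle of length at least three and there are at least four periodic
  points, then `f^B x` is periodic;
* at most `B` points have an orbit which ends in a cycle of length `l` such that `E` holds or `l` is
  odd, and are periodic or have the property just mentioned. -/
def Bdd {α : Type} (B : ℕ) (E : Prop) (f : α → α) : Prop :=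
  (∀ x ∈ Function.periodicPts f, ∀ k : ℕ, Odd k → k ∣ Function.minimalPeriod f x → k ≤ B) ∧
  (∀ (x : α) (i : ℕ), f^[i] x ∈ Function.periodicPts f → 3 ≤ Function.minimalPeriod f (f^[i] x) →
    4 ≤ (Function.periodicPts f).encard → f^[B] x ∈ Function.periodicPts f) ∧
  {x : α | ∃ i : ℕ, f^[i] x ∈ Function.periodicPts f ∧
    (E ∨ Odd (Function.minimalPeriod f (f^[i] x))) ∧
    (x ∈ Function.periodicPts f ∨ (3 ≤ Function.minimalPeriod f (f^[i] x) ∧
      4 ≤ (Function.periodicPts f).encard))}.encard ≤ B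

/-! ### Auxiliary notions for the proofs -/

/-- The determinant of two points. -/
def wdg {K : Type} [Field K] (x y : Option K) : K :=
  (vec x).1 * (vec y).2 - (vec x).2 * (vec y).1

/-- The cross ratio. -/
noncomputable def cr {K : Type} [Field K] (t p₀ p₁ p₂ : Option K) : K :=
  wdg t p₀ * wdg p₁ p₂ / (wdg t p₂ * wdg p₁ p₀)

/-- The preperiodic points whose orbit contains no fixed point. -/
def Inn {α : Type} (f : α → α) : Set α :=
  {x | Preper f x ∧ ∀ n : ℕ, f^[n + 1] x ≠ f^[n] x}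

/-- A metric on the projective line adapted to a map with potentially good reduction. -/
structure GM {K : Type} [Field K] (v : K → ℝ) (f : Option K → Option K)
    (δ : Option K → Option K → ℝ) : Prop where
  symm : ∀ x y, δ x y = δ y x
  self : ∀ x, δ x x = 0
  pos : ∀ x y, x ≠ y → 0 < δ x y
  le_one : ∀ x y, δ x y ≤ 1
  ultra : ∀ x y z, δ x z ≤ max (δ x y) (δ y z)
  lip : ∀ x y, δ (f x) (f y) ≤ δ x y
  far : ∀ w w' b, w ≠ w' → b ≠ w' → f b = f w' → δ (f w) (f w') = δ w w' → δ w b = 1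
  cross : ∀ t p₀ p₁ p₂, v (cr t p₀ p₁ p₂) = δ t p₀ * δ p₁ p₂ / (δ t p₂ * δ p₁ p₀)
  mobius : ∀ a₁ a₂ a₃ a₄ : K, a₁ * a₄ - a₂ * a₃ ≠ 0 → (∀ x, f (mob a₁ a₂ a₃ a₄ x) = f x) →
    ∀ x y, δ (mob a₁ a₂ a₃ a₄ x) (mob a₁ a₂ a₃ a₄ y) = δ x y

end Pool.Agent.MP90787a.P1
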