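import Pool.Agent.Lib.MP_90787a_nt.P1.Base
import Pool.Agent.Lib.MP_90787a_nt.R.Bad
import Pool.Agent.Lib.MP_90787a_nt.G.Translates

set_option autoImplicit false

/-!
The families `p / q + c ^ k` have potentially good or expanding reduction outside a finite set of
places.
-/

namespace Pool.Agent.MP90787a.P1

open Polynomial NumberField Height Pool.Agent.UBC90787a

namespace Fam

open Pool.Agent.MP90787a.T Pool.Agent.MP90787a.R

/-! ### The resultant -/

lemma res_ne {K : Type} [Field K] {p q : K[X]} {d : ℕ} (hd : 2 ≤ d) (hpq : IsCoprime p q)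
    (hmax : max p.natDegree q.natDegree = d) : resultant p q d d ≠ 0 := by
  have hp : p.natDegree ≤ d := by rw [← hmax]; exact le_max_left _ _
  have hq : q.natDegree ≤ d := by rw [← hmax]; exact le_max_right _ _
  have key : ∀ p q : K[X], IsCoprime p q → q.natDegree ≤ d → p.natDegree = d →
      resultant p q d d ≠ 0 := by
    intro p q hpq hq hpd
    have hp0 : p ≠ 0 := by
      rintro rfl
      rw [natDegree_zero] at hpd
      omega
    have h1 := resultant_add_right_deg p q d q.natDegree (d - q.natDegree) le_rfl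
    rw [Nat.add_sub_cancel' hq] at h1
    rw [h1]
    apply mul_ne_zero
    · apply pow_ne_zero
      rw [← hpd]
      exact leadingCoeff_ne_zero.mpr hp0
    · have h2 := resultant_ne_zero p q hpq
      rwa [hpd] at h2
  rcases max_choice p.natDegree q.natDegree with h | h
  · exact key p q hpq hq (by rw [← h, hmax])
  · rw [resultant_comm]
    apply mul_ne_zero
    · exact pow_ne_zero _ (neg_ne_zero.mpr one_ne_zero)
    · exact key q p hpq.symm hp (by rw [← h, hmax])

/-! ### Arithmetic -/

lemma gcd_lcm_dvd {a b k : ℕ} (ha : a ≠ 0) (hb : b ≠ 0) :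
    Nat.gcd (Nat.lcm a b) k ∣ Nat.lcm (Nat.gcd a k) (Nat.gcd b k) := by
  rw [Nat.dvd_iff_prime_pow_dvd_dvd]
  intro p j hp h
  have h1 : p ^ j ∣ Nat.lcm a b := h.trans (Nat.gcd_dvd_left _ _)
  have h2 : p ^ j ∣ k := h.trans (Nat.gcd_dvd_right _ _)
  have h3 : p ^ j ∣ a ∨ p ^ j ∣ b := by
    rw [hp.pow_dvd_iff_le_factorization (Nat.lcm_ne_zero ha hb), Nat.factorization_lcm ha hb,
      Finsupp.sup_apply, le_sup_iff] at h1
    rw [hp.pow_dvd_iff_le_factorization ha, hp.pow_dvd_iff_le_factorization hb]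
    exact h1
  rcases h3 with h3 | h3
  · exact (Nat.dvd_gcd h3 h2).trans (Nat.dvd_lcm_left _ _)
  · exact (Nat.dvd_gcd h3 h2).trans (Nat.dvd_lcm_right _ _)

lemma good_lcm {a b k m : ℕ} (ha : a ≠ 0) (hb : b ≠ 0) (h1 : m ∣ k / Nat.gcd a k)
    (h2 : m ∣ k / Nat.gcd b k) : m ∣ k / Nat.gcd (Nat.lcm a b) k := by
  rcases Nat.eq_zero_or_pos k with hk | hk
  · subst hk
    simp
  rw [Nat.dvd_div_iff_mul_dvd (Nat.gcd_dvd_right _ _)] at h1 h2 ⊢
  refine (Nat.mul_dvd_mul_right (gcd_lcm_dvd ha hb) m).trans ?_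
  rw [Nat.mul_comm, ← Nat.lcm_mul_left, Nat.mul_comm m, Nat.mul_comm m]
  exact Nat.lcm_dvd h1 h2

lemma exists_level (S : Finset ℕ) {k m : ℕ} (hS : ∀ a ∈ S, 0 < a ∧ m ∣ k / Nat.gcd a k)
    (hk : m ∣ k) : ∃ l : ℕ, 0 < l ∧ (∀ a ∈ S, a ∣ l) ∧ m ∣ k / Nat.gcd l k := by
  classical
  induction S using Finset.induction_on with
  | empty => exact ⟨1, one_pos, by simp, by simpa using hk⟩
  | insert a S ha ih =>
    obtain ⟨l, hl, h1, h2⟩ := ih (fun b hb => hS b (Finset.mem_insert_of_mem hb))
    obtain ⟨h3, h4⟩ := hS a (Finset.mem_insert_self a S)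
    refine ⟨Nat.lcm a l, Nat.lcm_pos h3 hl, ?_, good_lcm h3.ne' hl.ne' h4 h2⟩
    intro b hb
    rcases Finset.mem_insert.1 hb with rfl | hb
    · exact Nat.dvd_lcm_left _ _
    · exact (h1 b hb).trans (Nat.dvd_lcm_right _ _)

/-! ### Colourings -/

/-- If an equivalence relation on a set has no `d + 1` pairwise inequivalent elements, its classes
can be coloured with `d` different colours. -/
lemma exists_colouring_iff {α : Type} (P : Set α) (r : α → α → Prop) {d : ℕ} (hd : 0 < d)
    (hrefl : ∀ x ∈ P, r x x)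
    (hsymm : ∀ x ∈ P, ∀ y ∈ P, r x y → r y x)
    (htrans : ∀ x ∈ P, ∀ y ∈ P, ∀ z ∈ P, r x y → r y z → r x z)
    (h : ∀ t : Fin (d + 1) → α, (∀ i, t i ∈ P) → (∀ i j, i ≠ j → ¬ r (t i) (t j)) → False) :
    ∃ c : α → Fin d, ∀ x ∈ P, ∀ y ∈ P, (c x = c y ↔ r x y) := by
  classical
  obtain ⟨c, hc⟩ := exists_colouring P r hd hsymm htrans h
  let s : Setoid P :=
    { r := fun x y => r x y
      iseqv := ⟨fun x => hrefl x x.2, fun {x y} h => hsymm x x.2 y y.2 h,
        fun {x y z} h h' => htrans x x.2 y y.2 z z.2 h h'⟩ }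
  let rep : P → P := fun x => (Quotient.mk s x).out
  have hrep : ∀ x : P, r (rep x) x := fun x => Quotient.mk_out (s := s) x
  refine ⟨fun x => if hx : x ∈ P then c (rep ⟨x, hx⟩) else c x, fun x hx y hy => ?_⟩
  simp only [hx, hy, dif_pos]
  constructor
  · intro h1
    have h2 := hc _ (rep ⟨x, hx⟩).2 _ (rep ⟨y, hy⟩).2 h1
    have h3 := hrep ⟨x, hx⟩
    have h4 := hrep ⟨y, hy⟩
    exact htrans x hx _ (rep ⟨x, hx⟩).2 y hy (hsymm _ (rep ⟨x, hx⟩).2 x hx h3)
      (htrans _ (rep ⟨x, hx⟩).2 _ (rep ⟨y, hy⟩).2 y hy h2 h4)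
  · intro h1
    have h2 : Quotient.mk s ⟨x, hx⟩ = Quotient.mk s ⟨y, hy⟩ := Quotient.sound h1
    simp only [rep, h2]

/-! ### Ultrametric estimates -/

section ultra

variable {K : Type} [Field K] (v : AbsoluteValue K ℝ) (hv : IsNonarchimedean v)

include hv

lemma ev_le {f : K[X]} (hf : ∀ i, v (f.coeff i) ≤ 1) {x : K} {R : ℝ} (hR : 1 ≤ R)
    (hx : v x ≤ R) {n : ℕ} (hn : f.natDegree ≤ n) : v (f.eval x) ≤ R ^ n := by
  rw [eval_eq_sum_range]
  refine v_sum_le v hv _ _ (by positivity) fun i hi => ?_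
  have hi' := Finset.mem_range.1 hi
  rw [map_mul, map_pow]
  calc v (f.coeff i) * v x ^ i ≤ 1 * R ^ i :=
        mul_le_mul (hf i) (pow_le_pow_left₀ (v.nonneg _) hx _) (by positivity) zero_le_one
    _ = R ^ i := one_mul _
    _ ≤ R ^ n := pow_le_pow_right₀ hR (by omega)

lemma ev_sub_le {f : K[X]} (hf : ∀ i, v (f.coeff i) ≤ 1) {x y : K} {R : ℝ} (hR : 1 ≤ R)
    (hx : v x ≤ R) (hy : v y ≤ R) {n : ℕ} (hn : f.natDegree ≤ n + 1) :
    v (f.eval x - f.eval y) ≤ v (x - y) * R ^ n := by
  rw [eval_sub_eval v hv, map_mul]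
  refine mul_le_mul_of_nonneg_left ?_ (v.nonneg _)
  refine v_sum_le v hv _ _ (by positivity) fun k hk => ?_
  have hk' := Finset.mem_range.1 hk
  rw [map_mul]
  refine (mul_le_of_le_one_left (v.nonneg _) (hf _)).trans ?_
  refine v_sum_le v hv _ _ (by positivity) fun i hi => ?_
  have hi' := Finset.mem_range.1 hi
  rw [map_mul, map_pow, map_pow]
  calc v x ^ i * v y ^ (k - i) ≤ R ^ i * R ^ (k - i) :=
        mul_le_mul (pow_le_pow_left₀ (v.nonneg _) hx _) (pow_le_pow_left₀ (v.nonneg _) hy _)
          (by positivity) (by positivity)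
    _ = R ^ k := by rw [← pow_add]; congr 1; omega
    _ ≤ R ^ n := pow_le_pow_right₀ hR (by omega)

lemma v_eq_of_sub_lt {x y : K} (h : v (x - y) < v y) : v x = v y := by
  have h1 := v_add_of_lt v hv h
  rwa [add_sub_cancel] at h1

/-- Powers of elements close to one. -/
lemma pow_sub_one {e : ℕ} (he : v (e : K) = 1) {u : K} (hu : v (u - 1) < 1) :
    v (u ^ e - 1) = v (u - 1) := by
  have hu1 : v u = 1 := by
    have := v_eq_of_sub_lt v hv (x := u) (y := 1) (by rwa [map_one])
    rwa [map_one] at this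
  rw [← mul_geom_sum, map_mul]
  have h1 : ∑ i ∈ Finset.range e, u ^ i = (e : K) + ∑ i ∈ Finset.range e, (u ^ i - 1) := by
    rw [Finset.sum_sub_distrib]
    simp
  have h2 : v (∑ i ∈ Finset.range e, (u ^ i - 1)) ≤ v (u - 1) := by
    refine v_sum_le v hv _ _ (v.nonneg _) fun i _ => ?_
    rw [← mul_geom_sum, map_mul]
    refine mul_le_of_le_one_right (v.nonneg _) ?_
    refine v_sum_le v hv _ _ zero_le_one fun j _ => ?_
    rw [map_pow, hu1, one_pow]
  rw [h1, v_add_of_lt v hv (by rw [he]; exact h2.trans_lt hu), he, mul_one]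

lemma pow_sub_pow' {e : ℕ} (he1 : 0 < e) (he : v (e : K) = 1) {x y : K} {ρ : ℝ} (hρ : 0 < ρ)
    (hy : v y = ρ) (hxy : v (x - y) < ρ) :
    v (x ^ e - y ^ e) = v (x - y) * ρ ^ (e - 1) := by
  have hy0 : y ≠ 0 := by
    rintro rfl
    rw [map_zero] at hy
    exact hρ.ne hy
  have h1 : x ^ e - y ^ e = y ^ e * ((x / y) ^ e - 1) := by
    rw [div_pow]
    field_simp
  have h2 : v (x / y - 1) = v (x - y) / ρ := by
    have : x / y - 1 = (x - y) / y := by field_simp
    rw [this, map_div₀, hy]
  have h3 := pow_sub_one v hv he (u := x / y) (by rw [h2, div_lt_one hρ]; exact hxy)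
  rw [h1, map_mul, map_pow, h3, h2, hy]
  obtain ⟨n, rfl⟩ : ∃ n, e = n + 1 := ⟨e - 1, by omega⟩
  rw [Nat.add_sub_cancel, pow_succ]
  field_simp

/-- Few points with the same leading behaviour. -/
lemma few_core {e : ℕ} (he : 0 < e) {ρ Λ : ℝ} (hρ : 0 < ρ) (hρΛ : ρ ^ e * Λ = 1) {a : K}
    (ha : v a = 1) (s φ : Fin (e + 1) → K) (hs : ∀ i, v (s i) = ρ)
    (hd : ∀ i j, i ≠ j → v (s i - s j) = ρ) (h1 : ∀ i, v (φ i - φ 0) < Λ)
    (h2 : ∀ i, v (φ i * s i ^ e - a) < 1) : False := by
  have hs0 : ∀ i, s i ≠ 0 := by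
    intro i h0
    have := hs i
    rw [h0, map_zero] at this
    exact hρ.ne this
  have hΛ : 0 < Λ := by
    by_contra h
    have : ρ ^ e * Λ ≤ 0 := mul_nonpos_of_nonneg_of_nonpos (by positivity) (not_lt.1 h)
    linarith
  refine monic_few v hv (X ^ e - 1 : K[X]) (monic_X_pow_sub_C 1 (by omega)) ?_ ?_
    (fun i => s i / s 0) (fun i => ?_) ?_ ?_
  · have := natDegree_X_pow_sub_C (n := e) (r := (1 : K))
    rwa [map_one] at this
  · intro i
    rw [coeff_sub, coeff_X_pow, coeff_one]
    refine (av_sub_le v hv _ _).trans (max_le ?_ ?_)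
    · split_ifs <;> simp
    · split_ifs <;> simp
  · rw [map_div₀, hs, hs, div_self hρ.ne']
  · intro i j hij
    rw [← sub_div, map_div₀, hd i j hij, hs, div_self hρ.ne']
  · intro i
    simp only [eval_sub, eval_pow, eval_X, eval_one]
    set w := s i / s 0 with hw
    have hvw : v w = 1 := by rw [hw, map_div₀, hs, hs, div_self hρ.ne']
    have e1 : a * (w ^ e - 1) = (a - φ 0 * s 0 ^ e) * w ^ e +
        ((φ 0 - φ i) * s i ^ e + (φ i * s i ^ e - a)) := by
      have : φ 0 * s 0 ^ e * w ^ e = φ 0 * s i ^ e := by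
        rw [hw, div_pow, mul_assoc, mul_div_cancel₀ _ (pow_ne_zero _ (hs0 0))]
      linear_combination this
    have e2 : v (a * (w ^ e - 1)) = v (w ^ e - 1) := by rw [map_mul, ha, one_mul]
    rw [← e2, e1]
    refine (hv _ _).trans_lt (max_lt ?_ ((hv _ _).trans_lt (max_lt ?_ (h2 i))))
    · rw [map_mul, map_pow, hvw, one_pow, mul_one, v.map_sub]
      exact h2 0
    · rw [map_mul, map_pow, hs, v.map_sub]
      calc v (φ i - φ 0) * ρ ^ e < Λ * ρ ^ e := mul_lt_mul_of_pos_right (h1 i) (by positivity)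
        _ = 1 := by rw [mul_comm]; exact hρΛ

/-! ### The points near a pole -/

/-- A pole `z` of multiplicity `e` of `p / q` at a place of good reduction. -/
structure Pole (v : AbsoluteValue K ℝ) (p q : K[X]) (z : K) (e : ℕ) (u : K[X]) : Prop where
  pint : ∀ i, v (p.coeff i) ≤ 1
  uint : ∀ i, v (u.coeff i) ≤ 1
  hq : q = (X - C z) ^ e * u
  hz : v z ≤ 1
  he : 0 < e
  hve : v (e : K) = 1
  hp : v (p.eval z) = 1
  hu : v (u.eval z) = 1

variable {p q u : K[X]} {z : K} {e : ℕ}

lemma Pole.le_one (h : Pole v p q z e u) {x : K} (hx : v (x - z) < 1) : v x ≤ 1 := by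
  have := hv (x - z) z
  rw [sub_add_cancel] at this
  exact this.trans (max_le hx.le h.hz)

lemma Pole.vp (h : Pole v p q z e u) {x : K} (hx : v (x - z) < 1) : v (p.eval x) = 1 := by
  have h1 := ev_sub_le v hv h.pint le_rfl (h.le_one v hv hx) h.hz (n := p.natDegree)
    (Nat.le_succ _)
  rw [one_pow, mul_one] at h1
  rw [v_eq_of_sub_lt v hv (y := p.eval z) (by rw [h.hp]; exact h1.trans_lt hx), h.hp]

lemma Pole.vu (h : Pole v p q z e u) {x : K} (hx : v (x - z) < 1) : v (u.eval x) = 1 := by
  have h1 := ev_sub_le v hv h.uint le_rfl (h.le_one v hv hx) h.hz (n := u.natDegree)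
    (Nat.le_succ _)
  rw [one_pow, mul_one] at h1
  rw [v_eq_of_sub_lt v hv (y := u.eval z) (by rw [h.hu]; exact h1.trans_lt hx), h.hu]

omit hv in
lemma Pole.qeval (h : Pole v p q z e u) (x : K) : q.eval x = (x - z) ^ e * u.eval x := by
  rw [h.hq]
  simp

lemma Pole.vq (h : Pole v p q z e u) {x : K} (hx : v (x - z) < 1) :
    v (q.eval x) = v (x - z) ^ e := by
  rw [h.qeval, map_mul, map_pow, h.vu v hv hx, mul_one]

lemma Pole.abs (h : Pole v p q z e u) {x : K} (hx : v (x - z) < 1) {Λ : ℝ}
    (hΛ : v (p.eval x) = Λ * v (q.eval x)) : v (x - z) ^ e * Λ = 1 := by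
  rw [h.vp v hv hx, h.vq v hv hx] at hΛ
  rw [mul_comm, ← hΛ]

/-- The cross difference. -/
lemma Pole.cross (h : Pole v p q z e u) {x y : K} (hx : v (x - z) < 1) (hy : v (y - z) < 1) :
    v (p.eval x * u.eval y - p.eval y * u.eval x) ≤ v (x - y) := by
  have h1 := ev_sub_le v hv h.pint le_rfl (h.le_one v hv hx) (h.le_one v hv hy)
    (n := p.natDegree) (Nat.le_succ _)
  have h2 := ev_sub_le v hv h.uint le_rfl (h.le_one v hv hx) (h.le_one v hv hy)
    (n := u.natDegree) (Nat.le_succ _)
  rw [one_pow, mul_one] at h1 h2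
  have e1 : p.eval x * u.eval y - p.eval y * u.eval x =
      (p.eval x - p.eval y) * u.eval y - p.eval y * (u.eval x - u.eval y) := by ring
  rw [e1]
  refine (av_sub_le v hv _ _).trans (max_le ?_ ?_)
  · rw [map_mul, h.vu v hv hy, mul_one]
    exact h1
  · rw [map_mul, h.vp v hv hy, one_mul]
    exact h2

lemma Pole.pair (h : Pole v p q z e u) {x y : K} {ρ : ℝ} (hρ0 : 0 < ρ) (hρ1 : ρ < 1)
    (hx : v (x - z) = ρ) (hy : v (y - z) = ρ) (hxy : v (x - y) < ρ) :
    v (p.eval x / q.eval x - p.eval y / q.eval y) = v (x - y) * (ρ ^ (e + 1))⁻¹ := by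
  have hx1 : v (x - z) < 1 := by rw [hx]; exact hρ1
  have hy1 : v (y - z) < 1 := by rw [hy]; exact hρ1
  rcases eq_or_ne x y with rfl | hne
  · simp
  have hpos : 0 < v (x - y) := v.pos (sub_ne_zero.2 hne)
  have hqx : v (q.eval x) = ρ ^ e := by rw [h.vq v hv hx1, hx]
  have hqy : v (q.eval y) = ρ ^ e := by rw [h.vq v hv hy1, hy]
  have hqx0 : q.eval x ≠ 0 := by
    intro h0
    rw [h0, map_zero] at hqx
    have : 0 < ρ ^ e := by positivity
    linarith
  have hqy0 : q.eval y ≠ 0 := by
    intro h0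
    rw [h0, map_zero] at hqy
    have : 0 < ρ ^ e := by positivity
    linarith
  have e1 : p.eval x / q.eval x - p.eval y / q.eval y =
      (p.eval x * q.eval y - p.eval y * q.eval x) / (q.eval x * q.eval y) := by
    field_simp
  have e2 : p.eval x * q.eval y - p.eval y * q.eval x =
      -(p.eval x * u.eval y * ((x - z) ^ e - (y - z) ^ e)) +
        (x - z) ^ e * (p.eval x * u.eval y - p.eval y * u.eval x) := by
    rw [h.qeval, h.qeval]
    ring
  have e3 : v (-(p.eval x * u.eval y * ((x - z) ^ e - (y - z) ^ e))) =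
      v (x - y) * ρ ^ (e - 1) := by
    rw [v.map_neg, map_mul, map_mul, h.vp v hv hx1, h.vu v hv hy1, one_mul, one_mul,
      pow_sub_pow' v hv h.he h.hve hρ0 hy (by rw [sub_sub_sub_cancel_right]; exact hxy),
      sub_sub_sub_cancel_right]
  have e4 : v ((x - z) ^ e * (p.eval x * u.eval y - p.eval y * u.eval x)) <
      v (x - y) * ρ ^ (e - 1) := by
    rw [map_mul, map_pow, hx]
    have h5 : ρ ^ e < ρ ^ (e - 1) := pow_lt_pow_right_of_lt_one₀ hρ0 hρ1 (by have := h.he; omega)
    calc ρ ^ e * v (p.eval x * u.eval y - p.eval y * u.eval x) ≤ ρ ^ e * v (x - y) :=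
          mul_le_mul_of_nonneg_left (h.cross v hv hx1 hy1) (by positivity)
      _ < ρ ^ (e - 1) * v (x - y) := mul_lt_mul_of_pos_right h5 hpos
      _ = v (x - y) * ρ ^ (e - 1) := mul_comm _ _
  rw [e1, map_div₀, e2, v_add_of_lt v hv (by rw [e3]; exact e4), e3, map_mul, hqx, hqy]
  obtain ⟨n, hn⟩ : ∃ n, e = n + 1 := ⟨e - 1, by have := h.he; omega⟩
  rw [hn, Nat.add_sub_cancel]
  field_simp
  ring

lemma Pole.few (h : Pole v p q z e u) {ρ Λ r : ℝ} (hρ0 : 0 < ρ) (hρ1 : ρ < 1)
    (hρΛ : ρ ^ e * Λ = 1) (hr : r < Λ) (lam : K) (t : Fin (e + 1) → K)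
    (ht : ∀ i, v (t i - z) = ρ) (hd : ∀ i j, i ≠ j → v (t i - t j) = ρ)
    (hin : ∀ i, v (p.eval (t i) / q.eval (t i) + lam) ≤ r) : False := by
  have ht1 : ∀ i, v (t i - z) < 1 := fun i => by rw [ht i]; exact hρ1
  have hz1 : v (z - z) < 1 := by rw [sub_self, map_zero]; exact one_pos
  refine few_core v hv h.he hρ0 hρΛ (a := p.eval z / u.eval z) ?_ (fun i => t i - z)
    (fun i => p.eval (t i) / q.eval (t i)) ht ?_ ?_ ?_
  · rw [map_div₀, h.hp, h.hu, div_one]
  · intro i j hij
    rw [sub_sub_sub_cancel_right]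
    exact hd i j hij
  · intro i
    have e1 : p.eval (t i) / q.eval (t i) - p.eval (t 0) / q.eval (t 0) =
      (p.eval (t i) / q.eval (t i) + lam) - (p.eval (t 0) / q.eval (t 0) + lam) := by ring
    rw [e1]
    exact ((av_sub_le v hv _ _).trans (max_le (hin i) (hin 0))).trans_lt hr
  · intro i
    have hu0 : u.eval (t i) ≠ 0 := by
      intro h0
      have := h.vu v hv (ht1 i)
      rw [h0, map_zero] at this
      exact zero_ne_one this
    have hz0 : u.eval z ≠ 0 := by
      intro h0
      have := h.hu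
      rw [h0, map_zero] at this
      exact zero_ne_one this
    have hs0 : t i - z ≠ 0 := by
      intro h0
      have := ht i
      rw [h0, map_zero] at this
      exact hρ0.ne this
    have e1 : p.eval (t i) / q.eval (t i) * (t i - z) ^ e - p.eval z / u.eval z =
        (p.eval (t i) * u.eval z - p.eval z * u.eval (t i)) / (u.eval (t i) * u.eval z) := by
      rw [h.qeval]
      field_simp
    rw [e1, map_div₀, map_mul, h.vu v hv (ht1 i), h.hu, mul_one, div_one]
    exact (h.cross v hv (ht1 i) hz1).trans_lt (ht1 i)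

/-! ### The points near infinity -/

/-- A pole of order `e` at infinity. -/
structure PoleInf (v : AbsoluteValue K ℝ) (p q : K[X]) (e : ℕ) : Prop where
  pint : ∀ i, v (p.coeff i) ≤ 1
  qint : ∀ i, v (q.coeff i) ≤ 1
  hdeg : p.natDegree = q.natDegree + e
  he : 0 < e
  hve : v (e : K) = 1
  hp : v p.leadingCoeff = 1
  hq : v q.leadingCoeff = 1

/-- The leading term. -/
lemma lead_le {f : K[X]} (hf : ∀ i, v (f.coeff i) ≤ 1) {x : K} {R : ℝ} (hR : 1 < R)
    (hx : v x ≤ R) : v (f.eval x - f.leadingCoeff * x ^ f.natDegree) * R ≤ R ^ f.natDegree := by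
  have h1 : f.eval x - f.leadingCoeff * x ^ f.natDegree = f.eraseLead.eval x := by
    have := congrArg (fun q : K[X] => q.eval x) f.eraseLead_add_C_mul_X_pow
    simp only [eval_add, eval_mul, eval_C, eval_pow, eval_X] at this
    rw [← this]
    ring
  rw [h1]
  rcases Nat.eq_zero_or_pos f.natDegree with h0 | h0
  · have h3 : f.eraseLead = 0 := by
      rw [eq_C_of_natDegree_eq_zero h0]
      simp
    rw [h3, eval_zero, map_zero, zero_mul]
    positivity
  · have h3 : v (f.eraseLead.eval x) ≤ R ^ (f.natDegree - 1) := by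
      refine ev_le v hv (fun i => ?_) hR.le hx f.eraseLead_natDegree_le
      rcases eq_or_ne i f.natDegree with h | h
      · rw [h, eraseLead_coeff_natDegree, map_zero]; exact zero_le_one
      · rw [eraseLead_coeff_of_ne _ h]; exact hf i
    calc v (f.eraseLead.eval x) * R ≤ R ^ (f.natDegree - 1) * R :=
          mul_le_mul_of_nonneg_right h3 (by linarith)
      _ = R ^ f.natDegree := by rw [← pow_succ, Nat.sub_add_cancel h0]

lemma lead_sub_le {f : K[X]} (hf : ∀ i, v (f.coeff i) ≤ 1) {x y : K} {R : ℝ} (hR : 1 < R)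
    (hx : v x ≤ R) (hy : v y ≤ R) :
    v (f.eval x - f.eval y - f.leadingCoeff * (x ^ f.natDegree - y ^ f.natDegree)) * R ^ 2 ≤
      v (x - y) * R ^ f.natDegree := by
  have h1 : f.eval x - f.eval y - f.leadingCoeff * (x ^ f.natDegree - y ^ f.natDegree) =
      f.eraseLead.eval x - f.eraseLead.eval y := by
    have h1 := congrArg (fun q : K[X] => q.eval x) f.eraseLead_add_C_mul_X_pow
    have h2 := congrArg (fun q : K[X] => q.eval y) f.eraseLead_add_C_mul_X_pow
    simp only [eval_add, eval_mul, eval_C, eval_pow, eval_X] at h1 h2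
    rw [← h1, ← h2]
    ring
  rw [h1]
  rcases Nat.lt_or_ge f.natDegree 2 with h0 | h0
  · -- the remainder is constant
    have h3 : f.eraseLead.natDegree = 0 := by
      have := f.eraseLead_natDegree_le
      omega
    rw [eq_C_of_natDegree_eq_zero h3]
    simp only [eval_C, sub_self, map_zero, zero_mul]
    have := v.nonneg (x - y)
    positivity
  · have h3 : v (f.eraseLead.eval x - f.eraseLead.eval y) ≤
        v (x - y) * R ^ (f.natDegree - 2) := by
      refine ev_sub_le v hv (fun i => ?_) hR.le hx hy ?_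
      · rcases eq_or_ne i f.natDegree with h | h
        · rw [h, eraseLead_coeff_natDegree, map_zero]; exact zero_le_one
        · rw [eraseLead_coeff_of_ne _ h]; exact hf i
      · have := f.eraseLead_natDegree_le
        omega
    calc v (f.eraseLead.eval x - f.eraseLead.eval y) * R ^ 2 ≤
          v (x - y) * R ^ (f.natDegree - 2) * R ^ 2 :=
          mul_le_mul_of_nonneg_right h3 (by positivity)
      _ = v (x - y) * R ^ f.natDegree := by
          rw [mul_assoc, ← pow_add, Nat.sub_add_cancel h0]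

lemma lead_eq {f : K[X]} (hf : ∀ i, v (f.coeff i) ≤ 1) (hl : v f.leadingCoeff = 1) {x : K}
    (hx : 1 < v x) : v (f.eval x) = v x ^ f.natDegree := by
  have h1 := lead_le v hv hf hx le_rfl
  have h2 : v (f.leadingCoeff * x ^ f.natDegree) = v x ^ f.natDegree := by
    rw [map_mul, map_pow, hl, one_mul]
  rw [← h2]
  refine v_eq_of_sub_lt v hv ?_
  rw [h2]
  have h3 : 0 < v x ^ f.natDegree := by positivity
  have h4 : v (f.eval x - f.leadingCoeff * x ^ f.natDegree) * v x < v x ^ f.natDegree * v x :=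
    h1.trans_lt (lt_mul_of_one_lt_right h3 hx)
  exact lt_of_mul_lt_mul_right h4 (by linarith)

lemma PoleInf.abs {p q : K[X]} {e : ℕ} (h : PoleInf v p q e) {x : K} (hx : 1 < v x) {Λ : ℝ}
    (hΛ : v (p.eval x) = Λ * v (q.eval x)) : v x ^ e = Λ := by
  rw [lead_eq v hv h.pint h.hp hx, lead_eq v hv h.qint h.hq hx, h.hdeg, pow_add, mul_comm Λ] at hΛ
  exact mul_left_cancel₀ (by positivity) hΛ

lemma PoleInf.pair {p q : K[X]} {e : ℕ} (h : PoleInf v p q e) {x y : K} {R : ℝ} (hR : 1 < R)
    (hx : v x = R) (hy : v y = R) (hxy : v (x - y) < R) :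
    v (p.eval x / q.eval x - p.eval y / q.eval y) = v (x - y) * R ^ (e - 1) := by
  have hR0 : 0 < R := by linarith
  rcases eq_or_ne x y with rfl | hne
  · simp
  have hpos : 0 < v (x - y) := v.pos (sub_ne_zero.2 hne)
  set D := p.natDegree with hD
  set n := q.natDegree with hn
  set a := p.leadingCoeff with ha
  set b := q.leadingCoeff with hb
  have hqx : v (q.eval x) = R ^ n := by rw [lead_eq v hv h.qint h.hq (by rw [hx]; exact hR), hx]
  have hqy : v (q.eval y) = R ^ n := by rw [lead_eq v hv h.qint h.hq (by rw [hy]; exact hR), hy]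
  have hpy : v (p.eval y) = R ^ D := by rw [lead_eq v hv h.pint h.hp (by rw [hy]; exact hR), hy]
  have hqx0 : q.eval x ≠ 0 := by
    intro h0
    rw [h0, map_zero] at hqx
    have : 0 < R ^ n := by positivity
    linarith
  have hqy0 : q.eval y ≠ 0 := by
    intro h0
    rw [h0, map_zero] at hqy
    have : 0 < R ^ n := by positivity
    linarith
  have e1 : p.eval x / q.eval x - p.eval y / q.eval y =
      (p.eval x * q.eval y - p.eval y * q.eval x) / (q.eval x * q.eval y) := by
    field_simp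
  -- the differences
  have p1 := lead_sub_le v hv h.pint hR hx.le hy.le
  have q1 := lead_sub_le v hv h.qint hR hx.le hy.le
  have p2 := lead_le v hv h.pint hR hy.le
  have q2 := lead_le v hv h.qint hR hy.le
  have pd := ev_sub_le v hv (f := p) h.pint hR.le hx.le hy.le (n := D - 1) (by omega)
  rw [← hD, ← ha] at p1 p2
  rw [← hn, ← hb] at q1 q2
  set A1 := p.eval x - p.eval y - a * (x ^ D - y ^ D) with hA1
  set B1 := q.eval x - q.eval y - b * (x ^ n - y ^ n) with hB1
  set A2 := p.eval y - a * y ^ D with hA2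
  set B2 := q.eval y - b * y ^ n with hB2
  have hDn : D = n + e := h.hdeg
  have hpow : x ^ D * y ^ n - y ^ D * x ^ n = (x * y) ^ n * (x ^ e - y ^ e) := by
    rw [hDn, pow_add, pow_add]
    ring
  have e2 : p.eval x * q.eval y - p.eval y * q.eval x =
      a * b * ((x * y) ^ n * (x ^ e - y ^ e)) +
        (A1 * (b * y ^ n) + (p.eval x - p.eval y) * B2 - p.eval y * B1 -
          A2 * (b * (x ^ n - y ^ n))) := by
    rw [← hpow, hA1, hB1, hA2, hB2]
    ring
  set T := v (x - y) * R ^ (D + n - 1) with hT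
  have hD1 : 1 ≤ D := by have := h.he; have := h.hdeg; omega
  have e3 : v (a * b * ((x * y) ^ n * (x ^ e - y ^ e))) = T := by
    rw [map_mul, map_mul, h.hp, h.hq, one_mul, one_mul, map_mul, map_pow, map_mul, hx, hy,
      pow_sub_pow' v hv h.he h.hve hR0 hy hxy, hT]
    have : D + n - 1 = n + n + (e - 1) := by have := h.he; have := h.hdeg; omega
    rw [this, pow_add, pow_add, mul_pow]
    ring
  have hTR : T * R = v (x - y) * R ^ (D + n) := by
    rw [hT, mul_assoc, ← pow_succ]
    congr 2
    omega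
  -- the four error terms are at most `T / R`
  have err : ∀ w : K, v w * R ≤ T → v w < T := by
    intro w hw
    have hTpos : 0 < T := by positivity
    have : v w * R < T * R := hw.trans_lt (lt_mul_of_one_lt_right hTpos hR)
    exact lt_of_mul_lt_mul_right this hR0.le
  have t1 : v (A1 * (b * y ^ n)) < T := by
    apply err
    rw [map_mul, map_mul, h.hq, one_mul, map_pow, hy]
    have : v A1 * R ^ n * R * R ≤ T * R := by
      rw [hTR, pow_add]
      calc v A1 * R ^ n * R * R = v A1 * R ^ 2 * R ^ n := by ring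
        _ ≤ v (x - y) * R ^ D * R ^ n := mul_le_mul_of_nonneg_right p1 (by positivity)
        _ = v (x - y) * (R ^ D * R ^ n) := by ring
    exact le_of_mul_le_mul_right this hR0
  have t2 : v ((p.eval x - p.eval y) * B2) < T := by
    apply err
    rw [map_mul]
    have h5 : v (p.eval x - p.eval y) * R ≤ v (x - y) * R ^ D := by
      calc v (p.eval x - p.eval y) * R ≤ v (x - y) * R ^ (D - 1) * R :=
            mul_le_mul_of_nonneg_right pd hR0.le
        _ = v (x - y) * R ^ D := by rw [mul_assoc, ← pow_succ, Nat.sub_add_cancel hD1]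
    have : v (p.eval x - p.eval y) * v B2 * R * R ≤ T * R := by
      rw [hTR, pow_add]
      calc v (p.eval x - p.eval y) * v B2 * R * R =
            (v (p.eval x - p.eval y) * R) * (v B2 * R) := by ring
        _ ≤ (v (x - y) * R ^ D) * R ^ n :=
            mul_le_mul h5 q2 (by positivity) (by positivity)
        _ = v (x - y) * (R ^ D * R ^ n) := by ring
    exact le_of_mul_le_mul_right this hR0
  have t3 : v (p.eval y * B1) < T := by
    apply err
    rw [map_mul, hpy]
    have : R ^ D * v B1 * R * R ≤ T * R := by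
      rw [hTR, pow_add]
      calc R ^ D * v B1 * R * R = R ^ D * (v B1 * R ^ 2) := by ring
        _ ≤ R ^ D * (v (x - y) * R ^ n) := mul_le_mul_of_nonneg_left q1 (by positivity)
        _ = v (x - y) * (R ^ D * R ^ n) := by ring
    exact le_of_mul_le_mul_right this hR0
  have t4 : v (A2 * (b * (x ^ n - y ^ n))) < T := by
    apply err
    rw [map_mul, map_mul, h.hq, one_mul]
    have h5 : v (x ^ n - y ^ n) * R ≤ v (x - y) * R ^ n := by
      rcases Nat.eq_zero_or_pos n with h0 | h0
      · rw [h0]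
        simp
      · have h6 := ev_sub_le v hv (f := X ^ n) (fun i => by
          rw [coeff_X_pow]
          split_ifs <;> simp) hR.le hx.le hy.le (n := n - 1) (by
            rw [natDegree_X_pow]; omega)
        simp only [eval_pow, eval_X] at h6
        calc v (x ^ n - y ^ n) * R ≤ v (x - y) * R ^ (n - 1) * R :=
              mul_le_mul_of_nonneg_right h6 hR0.le
          _ = v (x - y) * R ^ n := by rw [mul_assoc, ← pow_succ, Nat.sub_add_cancel h0]
    have : v A2 * v (x ^ n - y ^ n) * R * R ≤ T * R := by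
      rw [hTR, pow_add]
      calc v A2 * v (x ^ n - y ^ n) * R * R = (v A2 * R) * (v (x ^ n - y ^ n) * R) := by ring
        _ ≤ R ^ D * (v (x - y) * R ^ n) := mul_le_mul p2 h5 (by positivity) (by positivity)
        _ = v (x - y) * (R ^ D * R ^ n) := by ring
    exact le_of_mul_le_mul_right this hR0
  have e4 : v (A1 * (b * y ^ n) + (p.eval x - p.eval y) * B2 - p.eval y * B1 -
          A2 * (b * (x ^ n - y ^ n))) < T := by
    refine (av_sub_le v hv _ _).trans_lt (max_lt ((av_sub_le v hv _ _).trans_lt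
      (max_lt ((hv _ _).trans_lt (max_lt t1 t2)) t3)) t4)
  rw [e1, map_div₀, e2, v_add_of_lt v hv (by rw [e3]; exact e4), e3, map_mul, hqx, hqy, hT]
  have : D + n - 1 = n + n + (e - 1) := by have := h.he; have := h.hdeg; omega
  rw [this, pow_add, pow_add]
  field_simp

lemma PoleInf.few {p q : K[X]} {e : ℕ} (h : PoleInf v p q e) {R Λ r : ℝ} (hR : 1 < R)
    (hRΛ : R ^ e = Λ) (hr : r < Λ) (lam : K) (t : Fin (e + 1) → K) (ht : ∀ i, v (t i) = R)
    (hd : ∀ i j, i ≠ j → v (t i - t j) = R)
    (hin : ∀ i, v (p.eval (t i) / q.eval (t i) + lam) ≤ r) : False := by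
  have hR0 : 0 < R := by linarith
  have ht0 : ∀ i, t i ≠ 0 := by
    intro i h0
    have := ht i
    rw [h0, map_zero] at this
    exact hR0.ne this
  have hb0 : q.leadingCoeff ≠ 0 := by
    intro h0
    have := h.hq
    rw [h0, map_zero] at this
    exact zero_ne_one this
  refine few_core v hv h.he (ρ := R⁻¹) (Λ := Λ) (inv_pos.2 hR0) ?_
    (a := p.leadingCoeff / q.leadingCoeff) ?_ (fun i => (t i)⁻¹)
    (fun i => p.eval (t i) / q.eval (t i)) ?_ ?_ ?_ ?_
  · rw [← hRΛ, inv_pow, inv_mul_cancel₀ (by positivity)]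
  · rw [map_div₀, h.hp, h.hq, div_one]
  · intro i
    rw [map_inv₀, ht]
  · intro i j hij
    have e1 : (t i)⁻¹ - (t j)⁻¹ = (t j - t i) / (t i * t j) := by
      have := ht0 i
      have := ht0 j
      field_simp
    rw [e1, map_div₀, map_mul, ht, ht, hd j i (Ne.symm hij)]
    field_simp
  · intro i
    have e1 : p.eval (t i) / q.eval (t i) - p.eval (t 0) / q.eval (t 0) =
      (p.eval (t i) / q.eval (t i) + lam) - (p.eval (t 0) / q.eval (t 0) + lam) := by ring
    rw [e1]
    exact ((av_sub_le v hv _ _).trans (max_le (hin i) (hin 0))).trans_lt hr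
  · intro i
    set x := t i with hx
    have hvx : v x = R := ht i
    have hqx : v (q.eval x) = R ^ q.natDegree := by
      rw [lead_eq v hv h.qint h.hq (by rw [hvx]; exact hR), hvx]
    have hqx0 : q.eval x ≠ 0 := by
      intro h0
      rw [h0, map_zero] at hqx
      have : 0 < R ^ q.natDegree := by positivity
      linarith
    have hx0 : x ≠ 0 := ht0 i
    have e1 : p.eval x / q.eval x * x⁻¹ ^ e - p.leadingCoeff / q.leadingCoeff =
        (q.leadingCoeff * (p.eval x - p.leadingCoeff * x ^ p.natDegree) -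
          p.leadingCoeff * x ^ e * (q.eval x - q.leadingCoeff * x ^ q.natDegree)) /
          (q.leadingCoeff * x ^ e * q.eval x) := by
      have hxe : x ^ e ≠ 0 := pow_ne_zero _ hx0
      rw [h.hdeg, pow_add, inv_pow, ← div_eq_mul_inv, div_div, div_sub_div _ _
        (mul_ne_zero hqx0 hxe) hb0, div_eq_div_iff (mul_ne_zero (mul_ne_zero hqx0 hxe) hb0)
        (mul_ne_zero (mul_ne_zero hb0 hxe) hqx0)]
      ring
    have p2 := lead_le v hv h.pint hR hvx.le
    have q2 := lead_le v hv h.qint hR hvx.le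
    have hden : v (q.leadingCoeff * x ^ e * q.eval x) = R ^ p.natDegree := by
      rw [map_mul, map_mul, h.hq, one_mul, map_pow, hvx, hqx, h.hdeg, ← pow_add]
      congr 1
      omega
    have hnum : v (q.leadingCoeff * (p.eval x - p.leadingCoeff * x ^ p.natDegree) -
          p.leadingCoeff * x ^ e * (q.eval x - q.leadingCoeff * x ^ q.natDegree)) * R ≤
          R ^ p.natDegree := by
      rw [← le_div_iff₀ hR0]
      refine (av_sub_le v hv _ _).trans (max_le ?_ ?_)
      · rw [map_mul, h.hq, one_mul, le_div_iff₀ hR0]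
        exact p2
      · rw [map_mul, map_mul, h.hp, one_mul, map_pow, hvx, le_div_iff₀ hR0, mul_assoc]
        calc R ^ e * (v (q.eval x - q.leadingCoeff * x ^ q.natDegree) * R) ≤
              R ^ e * R ^ q.natDegree := mul_le_mul_of_nonneg_left q2 (by positivity)
          _ = R ^ p.natDegree := by rw [h.hdeg, ← pow_add]; congr 1; omega
    show v (p.eval x / q.eval x * x⁻¹ ^ e - p.leadingCoeff / q.leadingCoeff) < 1
    rw [e1, map_div₀, hden, div_lt_one (by positivity)]
    have h5 : 0 < R ^ p.natDegree := by positivity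
    exact lt_of_mul_lt_mul_right (hnum.trans_lt (lt_mul_of_one_lt_right h5 hR)) hR0.le

end ultra

/-! ### The colouring -/

section main

variable {K : Type} [Field K]

/-- The local data. -/
structure LocData (v : AbsoluteValue K ℝ) (p q : K[X]) (Z : Finset K) (e : K → ℕ)
    (u : K → K[X]) (einf d : ℕ) : Prop where
  pole : ∀ z ∈ Z, Pole v p q z (e z) (u z)
  sep : ∀ z ∈ Z, ∀ z' ∈ Z, z ≠ z' → v (z - z') = 1
  pint : ∀ i, v (p.coeff i) ≤ 1
  small : ∀ x, v x ≤ 1 → v (q.eval x) < 1 → ∃ z ∈ Z, v (x - z) < 1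
  sum : ∑ z ∈ Z, e z + einf = d

/-- The points which are mapped into the disc. -/
def Ins (v : AbsoluteValue K ℝ) (p q : K[X]) (lam : K) (r : ℝ) : Set K :=
  {x | v x ≤ r ∧ q.eval x ≠ 0 ∧ v (p.eval x / q.eval x + lam) ≤ r}

theorem colouring (v : AbsoluteValue K ℝ) (hv : IsNonarchimedean v) {p q : K[X]} {Z : Finset K}
    {e : K → ℕ} {u : K → K[X]} {einf d : ℕ} (D : LocData v p q Z e u einf d) (hd : 0 < d)
    {lam : K} {r σ : ℝ} (hσ : 1 < σ) (hr1 : 1 ≤ r) (hrΛ : r < v lam) (ρ : K → ℝ) (E : K → ℕ)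
    (hρ0 : ∀ z ∈ Z, 0 < ρ z) (hρ : ∀ z ∈ Z, ρ z ^ e z * v lam = 1)
    (hE : ∀ z ∈ Z, σ ^ E z * ρ z = v lam) (hn : ∀ z ∈ Z, 2 ≤ e z → ∃ n, ρ z * σ ^ n = r)
    (hnr : ∃ n, σ ^ n = r) (Einf : ℕ)
    (hinf : 1 < r → PoleInf v p q einf ∧ r ^ einf = v lam ∧ σ ^ Einf = r ^ (einf - 1) ∧
      1 ≤ Einf) :
    ∃ (χ : K → Fin d) (c : Fin d → ℕ), (∀ j, 1 ≤ c j) ∧
      ∀ x ∈ Ins v p q lam r, ∀ y ∈ Ins v p q lam r,
        (χ x = χ y → v (p.eval x / q.eval x - p.eval y / q.eval y) =
          σ ^ c (χ x) * v (x - y)) ∧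
        (χ x ≠ χ y → ∃ n < c (χ x), v (x - y) * σ ^ n = r) := by
  classical
  set Λ := v lam with hΛ
  have hΛ1 : 1 < Λ := hr1.trans_lt hrΛ
  have hr0 : 0 < r := by linarith
  have hρ1 : ∀ z ∈ Z, ρ z < 1 := by
    intro z hz
    by_contra h
    push Not at h
    have h1 : 1 ≤ ρ z ^ e z := one_le_pow₀ h
    have h2 := hρ z hz
    nlinarith
  have hE1 : ∀ z ∈ Z, 1 ≤ E z := by
    intro z hz
    by_contra h
    have h0 : E z = 0 := by omega
    have h1 := hE z hz
    rw [h0, pow_zero, one_mul] at h1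
    have := hρ1 z hz
    linarith
  -- the nearest pole
  let pl : K → Option K := fun x => if h : ∃ z ∈ Z, v (x - z) < 1 then some h.choose else none
  have hpl_some : ∀ x z, pl x = some z → z ∈ Z ∧ v (x - z) < 1 := by
    intro x z h
    by_cases h1 : ∃ z ∈ Z, v (x - z) < 1
    · have h2 : pl x = some h1.choose := by simp only [pl, dif_pos h1]
      rw [h2] at h
      have h3 : h1.choose = z := Option.some.inj h
      rw [← h3]
      exact h1.choose_spec
    · have h2 : pl x = none := by simp only [pl, dif_neg h1]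
      rw [h2] at h
      exact absurd h (by simp)
  have hpl_none : ∀ x, pl x = none → ¬ ∃ z ∈ Z, v (x - z) < 1 := by
    intro x h h1
    have h2 : pl x = some h1.choose := by simp only [pl, dif_pos h1]
    rw [h2] at h
    exact absurd h (by simp)
  set I := Ins v p q lam r with hI
  have hφ : ∀ x ∈ I, v (p.eval x) = Λ * v (q.eval x) := by
    rintro x ⟨_, h2, h3⟩
    have e1 : p.eval x / q.eval x = (p.eval x / q.eval x + lam) - lam := by ring
    have e2 : v (p.eval x / q.eval x) = Λ := by
      rw [e1, v_sub_of_lt' v hv (h3.trans_lt hrΛ)]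
    have hq : v (q.eval x) ≠ 0 := (v.pos h2).ne'
    rw [map_div₀, div_eq_iff hq] at e2
    exact e2
  have hsome : ∀ x ∈ I, ∀ z, pl x = some z → v (x - z) = ρ z := by
    intro x hx z hz
    obtain ⟨h1, h2⟩ := hpl_some x z hz
    have h3 := (D.pole z h1).abs v hv h2 (hφ x hx)
    have h4 := hρ z h1
    have h5 : v (x - z) ^ e z = ρ z ^ e z :=
      mul_right_cancel₀ (by linarith : Λ ≠ 0) (h3.trans h4.symm)
    exact (pow_left_inj₀ (v.nonneg _) (hρ0 z h1).le (D.pole z h1).he.ne').1 h5
  have hnone : ∀ x ∈ I, pl x = none → 1 < r ∧ v x = r := by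
    intro x hx h
    have h1 := hpl_none x h
    have h2 : 1 < v x := by
      by_contra hcon
      push Not at hcon
      apply h1
      refine D.small x hcon ?_
      have h3 := hφ x hx
      have h4 := ev_le v hv (f := p) D.pint le_rfl hcon (n := p.natDegree) le_rfl
      rw [one_pow] at h4
      by_contra h5
      push Not at h5
      nlinarith
    have hr : 1 < r := h2.trans_le hx.1
    obtain ⟨h3, h4, _, _⟩ := hinf hr
    refine ⟨hr, ?_⟩
    have h5 := h3.abs v hv h2 (hφ x hx)
    exact (pow_left_inj₀ (v.nonneg _) hr0.le h3.he.ne').1 (h5.trans h4.symm)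
  let ρo : Option K → ℝ := fun o => o.elim r ρ
  let Eo : Option K → ℕ := fun o => o.elim Einf E
  let eo : Option K → ℕ := fun o => o.elim einf e
  have hρo : ∀ x ∈ I, 0 < ρo (pl x) := by
    intro x hx
    rcases h : pl x with _ | z
    · exact hr0
    · exact hρ0 z (hpl_some x z h).1
  have hEo : ∀ x ∈ I, 1 ≤ Eo (pl x) := by
    intro x hx
    rcases h : pl x with _ | z
    · exact (hinf (hnone x hx h).1).2.2.2
    · exact hE1 z (hpl_some x z h).1
  -- distance of two points near the same pole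
  have hle : ∀ x ∈ I, ∀ y ∈ I, pl x = pl y → v (x - y) ≤ ρo (pl x) := by
    intro x hx y hy hxy
    rcases h : pl x with _ | z
    · have h1 := (hnone x hx h).2
      have h2 := (hnone y hy (hxy ▸ h)).2
      exact (av_sub_le v hv _ _).trans (max_le h1.le h2.le)
    · have h1 := hsome x hx z h
      have h2 := hsome y hy z (hxy ▸ h)
      have := av_sub_le v hv (x - z) (y - z)
      rw [sub_sub_sub_cancel_right] at this
      exact this.trans (max_le h1.le h2.le)
  let R : K → K → Prop := fun x y => pl x = pl y ∧ v (x - y) < ρo (pl x)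
  have hfew : ∀ t : Fin (d + 1) → K, (∀ i, t i ∈ I) → (∀ i j, i ≠ j → ¬ R (t i) (t j)) →
      False := by
    intro t ht hR
    let T : Finset (Option K) := insert none (Z.image some)
    have hT : ∀ i ∈ (Finset.univ : Finset (Fin (d + 1))), pl (t i) ∈ T := by
      intro i _
      rcases h : pl (t i) with _ | z
      · exact Finset.mem_insert_self _ _
      · exact Finset.mem_insert_of_mem (Finset.mem_image_of_mem _ (hpl_some _ _ h).1)
    have hcard := Finset.card_eq_sum_card_fiberwise hT
    have hsum : ∑ o ∈ T, eo o = d := by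
      rw [Finset.sum_insert (by simp), Finset.sum_image (fun a _ b _ h => Option.some.inj h)]
      show einf + ∑ z ∈ Z, e z = d
      rw [add_comm]
      exact D.sum
    obtain ⟨o, hoT, ho⟩ : ∃ o ∈ T, eo o <
        ((Finset.univ : Finset (Fin (d + 1))).filter (fun i => pl (t i) = o)).card := by
      by_contra hcon
      push Not at hcon
      have h1 := Finset.sum_le_sum hcon
      rw [← hcard, hsum, Finset.card_univ, Fintype.card_fin] at h1
      omega
    obtain ⟨f⟩ : Nonempty (Fin (eo o + 1) ↪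
        {i // i ∈ (Finset.univ : Finset (Fin (d + 1))).filter (fun i => pl (t i) = o)}) := by
      apply Function.Embedding.nonempty_of_card_le
      rw [Fintype.card_fin, Fintype.card_coe]
      exact ho
    have hf : ∀ j, pl (t (f j).1) = o := fun j => (Finset.mem_filter.1 (f j).2).2
    have hdist : ∀ i j, i ≠ j → v (t (f i).1 - t (f j).1) = ρo o := by
      intro i j hij
      have h1 : (f i).1 ≠ (f j).1 := fun h => hij (f.injective (Subtype.ext h))
      have h2 := hR _ _ h1
      have h3 := hle _ (ht (f i).1) _ (ht (f j).1) ((hf i).trans (hf j).symm)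
      rw [hf i] at h3
      refine le_antisymm h3 ?_
      by_contra h4
      push Not at h4
      apply h2
      refine ⟨(hf i).trans (hf j).symm, ?_⟩
      rw [hf i]
      exact h4
    rcases o with _ | z
    · have h0 := hnone _ (ht (f 0).1) (hf 0)
      obtain ⟨h3, h4, _, _⟩ := hinf h0.1
      exact h3.few v hv h0.1 h4 hrΛ lam (fun j => t (f j).1)
        (fun j => (hnone _ (ht _) (hf j)).2) hdist (fun j => (ht (f j).1).2.2)
    · have hz := (hpl_some _ _ (hf 0)).1
      exact (D.pole z hz).few v hv (hρ0 z hz) (hρ1 z hz) (hρ z hz) hrΛ lam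
        (fun j => t (f j).1) (fun j => hsome _ (ht _) z (hf j)) hdist
        (fun j => (ht (f j).1).2.2)
  obtain ⟨χ, hχ⟩ := exists_colouring_iff I R hd
    (fun x hx => ⟨rfl, by rw [sub_self, map_zero]; exact hρo x hx⟩)
    (fun x _ y _ h => ⟨h.1.symm, by rw [v.map_sub, ← h.1]; exact h.2⟩)
    (fun x _ y _ z _ h h' => ⟨h.1.trans h'.1, by
      have h1 := hv (x - y) (y - z)
      rw [sub_add_sub_cancel] at h1
      exact h1.trans_lt (max_lt h.2 (by rw [h.1]; exact h'.2))⟩) hfew
  let c : Fin d → ℕ := fun j => if h : ∃ x ∈ I, χ x = j then Eo (pl h.choose) else 1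
  have hc : ∀ x ∈ I, c (χ x) = Eo (pl x) := by
    intro x hx
    have h1 : ∃ x' ∈ I, χ x' = χ x := ⟨x, hx, rfl⟩
    have h2 : c (χ x) = Eo (pl h1.choose) := by simp only [c, dif_pos h1]
    obtain ⟨h3, h4⟩ := h1.choose_spec
    rw [h2, ((hχ _ h3 _ hx).1 h4).1]
  refine ⟨χ, c, ?_, ?_⟩
  · intro j
    by_cases h1 : ∃ x ∈ I, χ x = j
    · obtain ⟨x, hx, rfl⟩ := h1
      rw [hc x hx]
      exact hEo x hx
    · have : c j = 1 := by simp only [c, dif_neg h1]
      rw [this]
  · intro x hx y hy
    rw [hc x hx]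
    refine ⟨fun h => ?_, fun h => ?_⟩
    · obtain ⟨h1, h2⟩ := (hχ x hx y hy).1 h
      rcases h3 : pl x with _ | z
      · rw [h3] at h1 h2
        obtain ⟨h4, _, h5, _⟩ := hinf (hnone x hx h3).1
        rw [h4.pair v hv (hnone x hx h3).1 (hnone x hx h3).2 (hnone y hy h1.symm).2 h2]
        show v (x - y) * r ^ (einf - 1) = σ ^ Einf * v (x - y)
        rw [h5, mul_comm]
      · rw [h3] at h1 h2
        have hz := (hpl_some x z h3).1
        rw [(D.pole z hz).pair v hv (hρ0 z hz) (hρ1 z hz) (hsome x hx z h3)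
          (hsome y hy z h1.symm) h2]
        show v (x - y) * (ρ z ^ (e z + 1))⁻¹ = σ ^ E z * v (x - y)
        have h5 : (ρ z ^ (e z + 1))⁻¹ = σ ^ E z := by
          have hρz := hρ0 z hz
          have h6 := hρ z hz
          have h7 := hE z hz
          apply inv_eq_of_mul_eq_one_right
          rw [pow_succ]
          calc ρ z ^ e z * ρ z * σ ^ E z = ρ z ^ e z * (σ ^ E z * ρ z) := by ring
            _ = 1 := by rw [h7]; exact h6
        rw [h5, mul_comm]
    · have hnR : ¬ R x y := fun h' => h ((hχ x hx y hy).2 h')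
      obtain ⟨nr, hnr'⟩ := hnr
      rcases h3 : pl x with _ | z <;> rcases h4 : pl y with _ | z'
      · refine ⟨0, hEo x hx |>.trans_eq (by rw [h3]), ?_⟩
        rw [pow_zero, mul_one]
        have h5 := hle x hx y hy (h3.trans h4.symm)
        rw [h3] at h5
        refine le_antisymm h5 ?_
        by_contra h6
        push Not at h6
        exact hnR ⟨h3.trans h4.symm, by rw [h3]; exact h6⟩
      · refine ⟨0, hEo x hx |>.trans_eq (by rw [h3]), ?_⟩
        rw [pow_zero, mul_one]
        obtain ⟨h5, h6⟩ := hnone x hx h3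
        obtain ⟨hz', h7⟩ := hpl_some y z' h4
        have h8 := (D.pole z' hz').le_one v hv h7
        rw [v_sub_of_lt v hv (by rw [h6]; exact h8.trans_lt h5), h6]
      · refine ⟨0, hEo x hx |>.trans_eq (by rw [h3]), ?_⟩
        rw [pow_zero, mul_one]
        obtain ⟨h5, h6⟩ := hnone y hy h4
        obtain ⟨hz', h7⟩ := hpl_some x z h3
        have h8 := (D.pole z hz').le_one v hv h7
        rw [v_sub_of_lt' v hv (by rw [h6]; exact h8.trans_lt h5), h6]
      · obtain ⟨hz, h5⟩ := hpl_some x z h3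
        obtain ⟨hz', h6⟩ := hpl_some y z' h4
        have hρz := hρ0 z hz
        show ∃ n < E z, v (x - y) * σ ^ n = r
        rcases eq_or_ne z z' with hzz | hzz
        · subst hzz
          have hxz := hsome x hx z h3
          have hyz := hsome y hy z h4
          have h7 : v (x - y) = ρ z := by
            have h8 := hle x hx y hy (h3.trans h4.symm)
            rw [h3] at h8
            refine le_antisymm h8 ?_
            by_contra h9
            push Not at h9
            exact hnR ⟨h3.trans h4.symm, by rw [h3]; exact h9⟩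
          rcases Nat.lt_or_ge (e z) 2 with he2 | he2
          · exfalso
            have he1 : e z = 1 := by have := (D.pole z hz).he; omega
            refine (D.pole z hz).few v hv hρz (hρ1 z hz) (hρ z hz) hrΛ lam
              (fun i => if i.val = 0 then x else y) ?_ ?_ ?_
            · intro i
              split_ifs
              · exact hxz
              · exact hyz
            · intro i j hij
              have hi := i.isLt
              have hj := j.isLt
              have hij' : i.val ≠ j.val := fun h => hij (Fin.ext h)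
              by_cases hi0 : i.val = 0
              · have hj0 : j.val ≠ 0 := by omega
                rw [if_pos hi0, if_neg hj0]
                exact h7
              · have hj0 : j.val = 0 := by omega
                rw [if_neg hi0, if_pos hj0, v.map_sub]
                exact h7
            · intro i
              split_ifs
              · exact hx.2.2
              · exact hy.2.2
          · obtain ⟨n, hn'⟩ := hn z hz he2
            refine ⟨n, ?_, by rw [h7]; exact hn'⟩
            have h8 : σ ^ n < σ ^ E z := by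
              have h9 := hE z hz
              have : σ ^ n * ρ z < σ ^ E z * ρ z := by
                rw [h9, mul_comm, hn']
                exact hrΛ
              exact lt_of_mul_lt_mul_right this hρz.le
            exact (pow_lt_pow_iff_right₀ hσ).1 h8
        · refine ⟨nr, ?_, ?_⟩
          · have h8 : σ ^ nr < σ ^ E z := by
              have h9 := hE z hz
              have h10 : σ ^ E z * ρ z ≤ σ ^ E z * 1 :=
                mul_le_mul_of_nonneg_left (hρ1 z hz).le (by positivity)
              rw [hnr']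
              linarith
            exact (pow_lt_pow_iff_right₀ hσ).1 h8
          · have e1 : x - y = (z - z') + ((x - z) - (y - z')) := by ring
            have h8 : v ((x - z) - (y - z')) < 1 :=
              (av_sub_le v hv _ _).trans_lt (max_lt h5 h6)
            have h9 := D.sep z hz z' hz' hzz
            rw [e1, v_add_of_lt v hv (by rw [h9]; exact h8), h9, one_mul]
            exact hnr'

end main

/-! ### Assembly at one place -/

section place

variable {K : Type} [Field K] [NumberField K]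

lemma nonarch (v : FinitePlace K) : IsNonarchimedean v.1 := fun x y => FinitePlace.add_le v x y

lemma norm_homog_le {L : Type} [NormedField L] [IsUltrametricDist L] {f : L[X]} {d : ℕ}
    (hf : ∀ i, ‖f.coeff i‖ ≤ 1) (x y : L) : ‖homog f d (x, y)‖ ≤ max ‖x‖ ‖y‖ ^ d := by
  unfold homog
  have hM : 0 ≤ max ‖x‖ ‖y‖ := (norm_nonneg x).trans (le_max_left _ _)
  refine IsUltrametricDist.norm_sum_le_of_forall_le_of_nonneg (by positivity) fun i hi => ?_
  have hi' := Finset.mem_range.1 hi
  rw [norm_mul, norm_mul, norm_pow, norm_pow]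
  calc ‖f.coeff i‖ * ‖x‖ ^ i * ‖y‖ ^ (d - i) ≤
        1 * max ‖x‖ ‖y‖ ^ i * max ‖x‖ ‖y‖ ^ (d - i) := by
        gcongr
        · exact hf i
        · exact le_max_left _ _
        · exact le_max_right _ _
    _ = max ‖x‖ ‖y‖ ^ d := by rw [one_mul, ← pow_add]; congr 1; omega

lemma potGood (v : FinitePlace K) {p q : K[X]} {d : ℕ} (hp : ∀ i, v (p.coeff i) ≤ 1)
    (hq : ∀ i, v (q.coeff i) ≤ 1) (hqd : q.natDegree ≤ d) (hres : v (resultant p q d d) = 1)
    {lam : K} (hl : v lam ≤ 1) : PotGoodRed v (p + C lam * q) q d := by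
  obtain ⟨L, i1, i2, i3, ι, hι⟩ := exists_ultra_field v
  refine ⟨L, i1, i2, i3, ι, hι, 1, 0, 0, 1, 1, by ring, ?_, ?_⟩
  · rw [norm_one, one_pow, one_mul, hι]
    have : resultant (p + C lam * q) q d d = resultant p q d d := by
      rw [mul_comm (C lam)]
      exact resultant_add_mul_left _ _ _ _ _ (by simp) hqd
    rw [this, hres]
  · rintro x y P Q rfl rfl
    have h1 : ∀ i, ‖((p + C lam * q).map ι).coeff i‖ ≤ 1 := by
      intro i
      rw [coeff_map, hι, coeff_add, coeff_C_mul]
      refine (FinitePlace.add_le v _ _).trans (max_le (hp i) ?_)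
      rw [map_mul]
      exact mul_le_one₀ hl (apply_nonneg v _) (hq i)
    have h2 : ∀ i, ‖(q.map ι).coeff i‖ ≤ 1 := by
      intro i
      rw [coeff_map, hι]
      exact hq i
    rw [Real.exp_zero, one_mul]
    simp only [one_mul, zero_mul, add_zero, zero_add, sub_zero]
    exact max_le (norm_homog_le h1 x y) (norm_homog_le h2 x y)

theorem expRed (v : FinitePlace K) {p q : K[X]} (hcop : IsCoprime p q) {Z : Finset K}
    {e : K → ℕ} {u : K → K[X]} {einf d : ℕ} (D : LocData v.1 p q Z e u einf d) (hd : 2 ≤ d)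
    (hq : ∀ i, v (q.coeff i) ≤ 1) (hqd : q.natDegree + einf = d)
    (hpd : p.natDegree ≤ d) (hpd' : einf ≠ 0 → p.natDegree = d) (hplc : v p.leadingCoeff = 1)
    (hqlc : v q.leadingCoeff = 1) (hres : v (resultant p q d d) = 1) (heinf : einf ≠ 1)
    {lam : K} {r σ : ℝ} {b m : ℕ} (hσ : 1 < σ) (hr1 : 1 ≤ r) (hrΛ : r < v lam) (ρ : K → ℝ)
    (E : K → ℕ) (hρ0 : ∀ z ∈ Z, 0 < ρ z) (hρ : ∀ z ∈ Z, ρ z ^ e z * v lam = 1)
    (hE : ∀ z ∈ Z, σ ^ E z * ρ z = v lam) (hn : ∀ z ∈ Z, 2 ≤ e z → ∃ n, ρ z * σ ^ n = r)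
    (hnr : ∃ n, σ ^ n = r) (Einf : ℕ) (hr : einf = 0 → r = 1)
    (hinf : einf ≠ 0 → 1 < r ∧ v (einf : K) = 1 ∧ r ^ einf = v lam ∧
      σ ^ Einf = r ^ (einf - 1) ∧ 1 ≤ Einf)
    (hb : v lam ^ (2 * d) * r ^ (d * (d - 1)) ≤ σ ^ b)
    (hpow : ∀ (z w : K) (i j : ℤ), v z = r * σ ^ i → v w = r * σ ^ j →
      ∃ e : K, v z = v w * v e ^ m) :
    ExpRed v m d b (p + C lam * q) q d := by
  have hv := nonarch v
  set f := p + C lam * q with hf
  have hΛ1 : 1 < v lam := hr1.trans_lt hrΛ
  have hr0 : 0 < r := by linarith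
  have hfc : ∀ i, f.coeff i = p.coeff i + lam * q.coeff i := fun i => by
    rw [hf, coeff_add, coeff_C_mul]
  have hfle : f.natDegree ≤ d := by
    refine (natDegree_add_le _ _).trans (max_le hpd ((natDegree_C_mul_le _ _).trans ?_))
    omega
  have hp := D.pint
  -- the leading coefficient
  obtain ⟨hlc0, hlc1, hlcΛ⟩ : f.coeff d ≠ 0 ∧ 1 ≤ v (f.coeff d) ∧ v (f.coeff d) ≤ v lam := by
    rcases eq_or_ne einf 0 with h0 | h0
    · have hqd' : q.natDegree = d := by omega
      have h1 : v (q.coeff d) = 1 := by rw [← hqd']; exact hqlc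
      have h2 : v (f.coeff d) = v lam := by
        rw [hfc]
        have h3 : v (lam * q.coeff d) = v lam := by rw [map_mul, h1, mul_one]
        rw [G.Translates.add_eq_of_lt v (by rw [h3]; exact (hp d).trans_lt hΛ1), h3]
      refine ⟨?_, by rw [h2]; exact hΛ1.le, h2.le⟩
      intro h3
      rw [h3, map_zero] at h2
      linarith
    · have h1 : f.coeff d = p.coeff d := by
        rw [hfc, coeff_eq_zero_of_natDegree_lt (show q.natDegree < d by omega), mul_zero, add_zero]
      have h2 : v (f.coeff d) = 1 := by rw [h1, ← hpd' h0]; exact hplc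
      refine ⟨?_, h2.ge, by rw [h2]; exact hΛ1.le⟩
      intro h3
      rw [h3, map_zero] at h2
      exact zero_ne_one h2
  have hfd : f.natDegree = d := le_antisymm hfle (le_natDegree_of_ne_zero hlc0)
  set lc := f.coeff d with hlc
  have hlcp : 0 < v lc := by linarith
  have hinv : lc⁻¹ ≠ 0 := inv_ne_zero hlc0
  -- the coefficients
  have hcoef : ∀ i ≤ d, v (f.coeff i) ≤ v lc * r ^ (d - i) ∧
      v (q.coeff i) * r ^ (i + 1) < v lc * r ^ d := by
    intro i hi
    rcases eq_or_ne einf 0 with h0 | h0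
    · have hqd' : q.natDegree = d := by omega
      have h1 : v (q.coeff d) = 1 := by rw [← hqd']; exact hqlc
      have h2 : v lc = v lam := by
        rw [hlc, hfc]
        have h3 : v (lam * q.coeff d) = v lam := by rw [map_mul, h1, mul_one]
        rw [G.Translates.add_eq_of_lt v (by rw [h3]; exact (hp d).trans_lt hΛ1), h3]
      rw [h2, hr h0, one_pow, one_pow, one_pow, mul_one, mul_one]
      refine ⟨?_, (hq i).trans_lt hΛ1⟩
      rw [hfc]
      refine (FinitePlace.add_le v _ _).trans (max_le ((hp i).trans hΛ1.le) ?_)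
      rw [map_mul]
      exact mul_le_of_le_one_right (by linarith) (hq i)
    · obtain ⟨h1, _, h2, _⟩ := hinf h0
      have he2 : 2 ≤ einf := by omega
      rcases Nat.lt_or_ge q.natDegree i with h3 | h3
      · have h4 : q.coeff i = 0 := coeff_eq_zero_of_natDegree_lt h3
        have h5 : 0 < v lc * r ^ d := by positivity
        rw [hfc, h4, mul_zero, add_zero, map_zero, zero_mul]
        refine ⟨(hp i).trans ?_, h5⟩
        exact one_le_mul_of_one_le_of_one_le hlc1 (one_le_pow₀ hr1)
      · constructor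
        · have h6 : v (f.coeff i) ≤ v lam := by
            rw [hfc]
            refine (FinitePlace.add_le v _ _).trans (max_le ((hp i).trans hΛ1.le) ?_)
            rw [map_mul]
            exact mul_le_of_le_one_right (by linarith) (hq i)
          calc v (f.coeff i) ≤ v lam := h6
            _ = r ^ einf := h2.symm
            _ ≤ r ^ (d - i) := pow_le_pow_right₀ hr1 (by omega)
            _ ≤ v lc * r ^ (d - i) := le_mul_of_one_le_left (by positivity) hlc1
        · calc v (q.coeff i) * r ^ (i + 1) ≤ 1 * r ^ (i + 1) :=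
                mul_le_mul_of_nonneg_right (hq i) (by positivity)
            _ = r ^ (i + 1) := one_mul _
            _ < r ^ d := pow_lt_pow_right₀ h1 (by omega)
            _ ≤ v lc * r ^ d := le_mul_of_one_le_left (by positivity) hlc1
  have hfeval : ∀ x, f.eval x = p.eval x + lam * q.eval x := fun x => by
    rw [hf]
    simp
  -- the points inside
  have hins : ∀ x ∈ Inside v (C lc⁻¹ * f) (C lc⁻¹ * q) r, x ∈ Ins v.1 p q lam r := by
    rintro x ⟨h1, h2⟩
    have h3 : v (f.eval x) ≤ r * v (q.eval x) := by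
      rw [eval_mul, eval_C, eval_mul, eval_C, map_mul, map_mul, mul_left_comm] at h2
      exact le_of_mul_le_mul_left h2 (FinitePlace.pos_iff.2 hinv)
    have h4 : q.eval x ≠ 0 := by
      intro h0
      rw [h0, map_zero, mul_zero] at h3
      have h5 : v (f.eval x) = 0 := le_antisymm h3 (apply_nonneg v _)
      have h6 : f.eval x = 0 := (map_eq_zero v).1 h5
      rw [hfeval, h0, mul_zero, add_zero] at h6
      obtain ⟨a, b', hab⟩ := hcop
      have := congrArg (eval x) hab
      rw [eval_add, eval_mul, eval_mul, h6, h0, mul_zero, mul_zero, add_zero, eval_one] at this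
      exact zero_ne_one this
    refine ⟨h1, h4, ?_⟩
    have h5 : p.eval x / q.eval x + lam = f.eval x / q.eval x := by
      rw [hfeval]
      field_simp
    have h6 : 0 < v (q.eval x) := FinitePlace.pos_iff.2 h4
    show v (p.eval x / q.eval x + lam) ≤ r
    rw [h5, map_div₀, div_le_iff₀ h6]
    exact h3
  obtain ⟨χ, c, hc1, hc2⟩ := colouring v.1 hv D (by omega) hσ hr1 hrΛ ρ E hρ0 hρ hE hn hnr Einf
    (fun h => by
      have h0 : einf ≠ 0 := fun h0 => by
        rw [hr h0] at h
        exact lt_irrefl _ h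
      obtain ⟨_, h2, h3, h4, h5⟩ := hinf h0
      exact ⟨⟨hp, hq, by rw [hpd' h0, hqd], by omega, h2, hplc, hqlc⟩, h3, h4, h5⟩)
  refine ⟨1, 0, 0, 1, lc, C lc⁻¹ * f, C lc⁻¹ * q, r, σ, ⟨by simp, hlc0, ?_⟩, ?_, ?_, ?_, hr0, hσ,
    ?_, ?_, ⟨χ, c, hc1, ?_⟩, hpow⟩
  · intro x y
    simp only [homog_C_mul, one_mul, zero_mul, add_zero, zero_add]
    constructor
    · rw [mul_inv_cancel_left₀ hlc0]
    · rw [mul_inv_cancel_left₀ hlc0]
  · rw [Monic, leadingCoeff_mul, leadingCoeff_C, leadingCoeff, hfd, ← hlc,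
      inv_mul_cancel₀ hlc0]
  · rw [natDegree_C_mul hinv, hfd]
  · rw [natDegree_C_mul hinv]
    omega
  · intro i hi
    obtain ⟨h1, h2⟩ := hcoef i hi
    rw [coeff_C_mul, coeff_C_mul, map_mul, map_mul, map_inv₀]
    constructor
    · rw [inv_mul_le_iff₀ hlcp]
      exact h1
    · rw [mul_assoc, inv_mul_lt_iff₀ hlcp]
      exact h2
  · rw [resultant_C_mul_left, resultant_C_mul_right]
    have : resultant f q d d = resultant p q d d := by
      rw [hf, mul_comm (C lam)]
      exact resultant_add_mul_left _ _ _ _ _ (by simp) (by omega)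
    rw [this, map_mul, map_mul, hres, mul_one, map_pow, map_inv₀, ← mul_pow, ← mul_inv,
      inv_pow, inv_mul_eq_div, le_div_iff₀ (by positivity)]
    calc r ^ (d * (d - 1)) * (v lc * v lc) ^ d = v lc ^ (2 * d) * r ^ (d * (d - 1)) := by
          rw [← pow_two, ← pow_mul, mul_comm]
      _ ≤ v lam ^ (2 * d) * r ^ (d * (d - 1)) :=
          mul_le_mul_of_nonneg_right (pow_le_pow_left₀ hlcp.le hlcΛ _) (by positivity)
      _ ≤ σ ^ b := hb
  · intro x hx y hy
    have hx' := hins x hx
    have hy' := hins y hy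
    obtain ⟨h1, h2⟩ := hc2 x hx' y hy'
    refine ⟨fun h => ?_, h2⟩
    have h3 := h1 h
    have e1 : ∀ x, q.eval x ≠ 0 → (C lc⁻¹ * f).eval x / (C lc⁻¹ * q).eval x =
        p.eval x / q.eval x + lam := by
      intro x hx0
      rw [eval_mul, eval_C, eval_mul, eval_C, hfeval, mul_div_mul_left _ _ hinv]
      field_simp
    rw [e1 x hx'.2.1, e1 y hy'.2.1, add_sub_add_right_eq_sub]
    exact h3

/-! ### Almost all places -/

open Filter

lemma ev_unit {x : K} (hx : x ≠ 0) : ∀ᶠ v : FinitePlace K in cofinite, v x = 1 := by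
  obtain ⟨F, hF⟩ := exists_finset_places ({x} : Finset K)
  refine eventually_cofinite.2 (F.finite_toSet.subset ?_)
  intro v hv
  by_contra h
  exact hv (hF v h x (Finset.mem_singleton_self x) hx)

lemma ev_int (x : K) : ∀ᶠ v : FinitePlace K in cofinite, v x ≤ 1 := by
  rcases eq_or_ne x 0 with rfl | hx
  · exact Eventually.of_forall fun v => by rw [map_zero]; exact zero_le_one
  · exact (ev_unit hx).mono fun v hv => hv.le

lemma ev_coeff (f : K[X]) : ∀ᶠ v : FinitePlace K in cofinite, ∀ i, v (f.coeff i) ≤ 1 := by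
  have h := (eventually_all_finset (Finset.range (f.natDegree + 1))
    (l := (cofinite : Filter (FinitePlace K))) (p := fun i v => v (f.coeff i) ≤ 1)).2
    (fun i _ => ev_int (f.coeff i))
  refine h.mono fun v hv i => ?_
  rcases Nat.lt_or_ge f.natDegree i with hi | hi
  · rw [coeff_eq_zero_of_natDegree_lt hi, map_zero]
    exact zero_le_one
  · exact hv i (Finset.mem_range.2 (by omega))

omit [NumberField K] in
lemma one_le_prod (v : AbsoluteValue K ℝ) (x : K) (s : Multiset K)
    (h : ∀ a ∈ s, 1 ≤ v (x - a)) : 1 ≤ v ((s.map fun a => X - C a).prod.eval x) := by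
  induction s using Multiset.induction_on with
  | empty => simp
  | cons a s ih =>
    rw [Multiset.map_cons, Multiset.prod_cons, eval_mul, map_mul]
    refine one_le_mul_of_one_le_of_one_le ?_ (ih fun b hb => h b (Multiset.mem_cons_of_mem hb))
    simpa using h a (Multiset.mem_cons_self a s)

end place


lemma ne_zero_of_lt {K : Type} [Field K] [NumberField K] (v : FinitePlace K) {c : K} {k : ℕ}
    (h : 1 < v (c ^ k)) : c ≠ 0 := by
  rintro rfl
  rcases Nat.eq_zero_or_pos k with hk | hk
  · rw [hk, pow_zero, map_one] at h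
    exact lt_irrefl _ h
  · rw [zero_pow hk.ne', map_zero] at h
    linarith

lemma pow_cond {K : Type} [Field K] [NumberField K] (v : FinitePlace K) {c : K} (hc : c ≠ 0)
    {k l m : ℕ} (hl : 0 < l) (hg : m ∣ k / Nat.gcd l k) {r σ : ℝ} (hr : 0 < r) (hσ : 0 < σ)
    (hσl : σ ^ l = v (c ^ k)) (z w : K) (i j : ℤ) (hz : v z = r * σ ^ i)
    (hw : v w = r * σ ^ j) : ∃ e : K, v z = v w * v e ^ m := by
  have hzp : 0 < v z := by rw [hz]; positivity
  have hwp : 0 < v w := by rw [hw]; positivity
  have hz0 : z ≠ 0 := FinitePlace.pos_iff.1 hzp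
  have hw0 : w ≠ 0 := FinitePlace.pos_iff.1 hwp
  have hy : v (z / w) = σ ^ (i - j) := by
    rw [map_div₀, hz, hw, mul_div_mul_left _ _ hr.ne', zpow_sub₀ hσ.ne']
  have h1 : v (z / w) ^ l = v (c ^ (i - j)) ^ k := by
    rw [hy, map_zpow₀, ← zpow_natCast, ← zpow_mul, mul_comm (i - j), zpow_mul, zpow_natCast, hσl,
      map_pow, ← zpow_natCast, ← zpow_natCast, ← zpow_mul, ← zpow_mul, mul_comm (i - j)]
  obtain ⟨y, hy'⟩ := G.Translates.root_val v (div_ne_zero hz0 hw0) (zpow_ne_zero (i - j) hc) hl h1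
  obtain ⟨s, hs⟩ := hg
  refine ⟨y ^ s, ?_⟩
  rw [map_pow, ← pow_mul, mul_comm s m, ← hs, ← hy', map_div₀, mul_div_cancel₀ _ hwp.ne']

end Fam

open Fam Filter in
theorem family_nice (K : Type) [Field K] [NumberField K] (p q : K[X]) (hcop : IsCoprime p q)
    (hd : 2 ≤ max p.natDegree q.natDegree) (hpq : p.natDegree ≠ q.natDegree + 1)
    (hsp : q.Splits) (m k : ℕ) (hm : 1 ≤ m)
    (hk : ∀ z : K, 2 ≤ q.rootMultiplicity z → m ∣ k / Nat.gcd (q.rootMultiplicity z) k)
    (hk' : q.natDegree < p.natDegree → m ∣ k / Nat.gcd (p.natDegree - q.natDegree) k)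
    (hk1 : m ∣ 2 * k) :
    ∃ (S : Finset (FinitePlace K)) (b : ℕ), ∀ c : K,
      NiceR S m (max p.natDegree q.natDegree) b (p + C (c ^ k) * q) q
        (max p.natDegree q.natDegree) := by
  classical
  set d := max p.natDegree q.natDegree with hddef
  have hq0 : q ≠ 0 := by
    rintro rfl
    rw [isCoprime_zero_right] at hcop
    have := natDegree_eq_zero_of_isUnit hcop
    rw [this, natDegree_zero] at hddef
    simp at hddef
    omega
  have hp0 : p ≠ 0 := by
    rintro rfl
    rw [isCoprime_zero_left] at hcop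
    have := natDegree_eq_zero_of_isUnit hcop
    rw [this, natDegree_zero] at hddef
    simp at hddef
    omega
  set Z := q.roots.toFinset with hZdef
  set e : K → ℕ := fun z => q.rootMultiplicity z with hedef
  choose u hu hu' using fun z => exists_eq_pow_rootMultiplicity_mul_and_not_dvd q hq0 z
  have hZ : ∀ z ∈ Z, q.eval z = 0 := by
    intro z hz
    rw [hZdef, Multiset.mem_toFinset, mem_roots hq0] at hz
    exact hz
  have he1 : ∀ z ∈ Z, 1 ≤ e z := fun z hz => (rootMultiplicity_pos hq0).2 (hZ z hz)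
  have hpz : ∀ z ∈ Z, p.eval z ≠ 0 := by
    intro z hz h0
    obtain ⟨a, b', hab⟩ := hcop
    have := congrArg (eval z) hab
    rw [eval_add, eval_mul, eval_mul, h0, hZ z hz, mul_zero, mul_zero, add_zero, eval_one] at this
    exact zero_ne_one this
  have huz : ∀ z, (u z).eval z ≠ 0 := fun z h => hu' z (dvd_iff_isRoot.2 h)
  set einf := p.natDegree - q.natDegree with heinf
  have hsum : ∑ z ∈ Z, e z = q.natDegree := by
    have h1 := Multiset.toFinset_sum_count_eq q.roots
    rw [splits_iff_card_roots.1 hsp] at h1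
    rw [← h1]
    exact Finset.sum_congr rfl fun z _ => (count_roots q).symm
  have hdd : q.natDegree + einf = d := by omega
  have hres : resultant p q d d ≠ 0 := res_ne hd hcop rfl
  -- the places
  have hev : ∀ᶠ v : FinitePlace K in cofinite, LocData v.1 p q Z e u einf d ∧
      (∀ i, v (q.coeff i) ≤ 1) ∧ v p.leadingCoeff = 1 ∧ v q.leadingCoeff = 1 ∧
      v (resultant p q d d) = 1 ∧ (einf ≠ 0 → v (einf : K) = 1) := by
    have a1 := ev_coeff p
    have a2 := ev_coeff q
    have a3 := ev_unit (leadingCoeff_ne_zero.2 hp0)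
    have a4 := ev_unit (leadingCoeff_ne_zero.2 hq0)
    have a5 := ev_unit hres
    have a6 : ∀ᶠ v : FinitePlace K in cofinite, einf ≠ 0 → v (einf : K) = 1 := by
      rcases eq_or_ne einf 0 with h0 | h0
      · exact Eventually.of_forall fun v h => absurd h0 h
      · exact (ev_unit (x := (einf : K)) (by exact_mod_cast h0)).mono fun v hv _ => hv
    have a7 : ∀ᶠ v : FinitePlace K in cofinite, ∀ z ∈ Z, (∀ i, v ((u z).coeff i) ≤ 1) ∧
        v z ≤ 1 ∧ v (e z : K) = 1 ∧ v (p.eval z) = 1 ∧ v ((u z).eval z) = 1 := by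
      refine (eventually_all_finset Z).2 fun z hz => ?_
      exact (ev_coeff (u z)).and ((ev_int z).and ((ev_unit (x := (e z : K)) (by
        have := he1 z hz
        have : e z ≠ 0 := by omega
        exact_mod_cast this)).and ((ev_unit (hpz z hz)).and (ev_unit (huz z)))))
    have a8 : ∀ᶠ v : FinitePlace K in cofinite, ∀ z ∈ Z, ∀ z' ∈ Z, z ≠ z' → v (z - z') = 1 := by
      refine (eventually_all_finset Z).2 fun z _ => (eventually_all_finset Z).2 fun z' _ => ?_
      rcases eq_or_ne z z' with h0 | h0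
      · exact Eventually.of_forall fun v h => absurd h0 h
      · exact (ev_unit (sub_ne_zero.2 h0)).mono fun v hv _ => hv
    filter_upwards [a1, a2, a3, a4, a5, a6, a7, a8] with v b1 b2 b3 b4 b5 b6 b7 b8
    refine ⟨⟨fun z hz => ?_, b8, b1, fun x hx hqx => ?_, ?_⟩, b2, b3, b4, b5, b6⟩
    · obtain ⟨c1, c2, c3, c4, c5⟩ := b7 z hz
      exact ⟨b1, c1, hu z, c2, he1 z hz, c3, c4, c5⟩
    · by_contra hcon
      push Not at hcon
      have h1 : 1 ≤ v.1 ((q.roots.map fun a => X - C a).prod.eval x) := by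
        refine one_le_prod v.1 x _ fun a ha => hcon a ?_
        rw [hZdef, Multiset.mem_toFinset]
        exact ha
      have h2 : v.1 (q.eval x) = v.1 ((q.roots.map fun a => X - C a).prod.eval x) := by
        have h3 := hsp.eq_prod_roots
        conv_lhs => rw [h3]
        rw [eval_mul, eval_C, map_mul]
        have h4 : v.1 q.leadingCoeff = 1 := b4
        rw [h4, one_mul]
      rw [h2] at hqx
      linarith
    · rw [hsum]
      exact hdd
  set S : Finset (FinitePlace K) := (eventually_cofinite.1 hev).toFinset with hS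
  have hgood : ∀ v : FinitePlace K, v ∉ S → LocData v.1 p q Z e u einf d ∧
      (∀ i, v (q.coeff i) ≤ 1) ∧ v p.leadingCoeff = 1 ∧ v q.leadingCoeff = 1 ∧
      v (resultant p q d d) = 1 ∧ (einf ≠ 0 → v (einf : K) = 1) := by
    intro v hv
    rw [hS, Set.Finite.mem_toFinset, Set.mem_ofPred_eq, not_not] at hv
    exact hv
  have hpd : p.natDegree ≤ d := le_max_left _ _
  have hpd' : einf ≠ 0 → p.natDegree = d := by intro h; omega
  have heinf1 : einf ≠ 1 := by omega
  have heinf2 : einf ≠ 0 → 2 ≤ einf := fun h => by omega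
  by_cases hcase : (∃ z ∈ Z, 2 ≤ e z) ∨ einf ≠ 0
  · -- some multiplicity is at least two
    have hmk : m ∣ k := by
      rcases hcase with ⟨z, _, hz2⟩ | h0
      · exact (hk z hz2).trans (Nat.div_dvd_of_dvd (Nat.gcd_dvd_right _ _))
      · exact (hk' (by omega)).trans (Nat.div_dvd_of_dvd (Nat.gcd_dvd_right _ _))
    obtain ⟨l, hl, hl1, hl2⟩ := exists_level (Z.image e ∪ (if einf = 0 then ∅ else {einf}))
      (k := k) (m := m) (by
        intro a ha
        rcases Finset.mem_union.1 ha with ha | ha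
        · obtain ⟨z, hz, rfl⟩ := Finset.mem_image.1 ha
          refine ⟨he1 z hz, ?_⟩
          rcases Nat.lt_or_ge (e z) 2 with h2 | h2
          · have : e z = 1 := by have := he1 z hz; omega
            rw [this, Nat.gcd_one_left, Nat.div_one]
            exact hmk
          · exact hk z h2
        · split_ifs at ha with h0
          · simp at ha
          · rw [Finset.mem_singleton] at ha
            rw [ha]
            exact ⟨Nat.pos_of_ne_zero h0, hk' (by omega)⟩) hmk
    have hlz : ∀ z ∈ Z, e z ∣ l := fun z hz =>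
      hl1 _ (Finset.mem_union_left _ (Finset.mem_image_of_mem _ hz))
    have hlinf : einf ≠ 0 → einf ∣ l := fun h0 => hl1 _ (Finset.mem_union_right _ (by
      rw [if_neg h0]
      exact Finset.mem_singleton_self _))
    refine ⟨S, l * (2 * d + d * (d - 1)), fun c v hv => ?_⟩
    obtain ⟨D, g1, g2, g3, g4, g5⟩ := hgood v hv
    rcases le_or_gt (v (c ^ k)) 1 with hlam | hlam
    · left
      exact potGood v D.pint g1 (by omega) g4 hlam
    · right
      have hc0 := ne_zero_of_lt v hlam
      obtain ⟨σ, hσ1, hσl⟩ := G.Translates.exists_root hlam hl.ne'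
      have hσ0 : 0 < σ := by linarith
      -- the radius
      obtain ⟨nr, hnr1, hnr2⟩ : ∃ nr : ℕ, (einf = 0 → nr = 0) ∧ (einf ≠ 0 → nr * einf = l) := by
        by_cases h0 : einf = 0
        · exact ⟨0, fun _ => rfl, fun h => absurd h0 h⟩
        · exact ⟨l / einf, fun h => absurd h h0, fun _ => Nat.div_mul_cancel (hlinf h0)⟩
      have hnrl : nr < l := by
        by_cases h0 : einf = 0
        · rw [hnr1 h0]; exact hl
        · have h1 := hnr2 h0
          have h2 : 2 ≤ einf := heinf2 h0
          have h3 : nr * 2 ≤ nr * einf := Nat.mul_le_mul_left _ h2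
          have h4 : 0 < nr := by
            rcases Nat.eq_zero_or_pos nr with h5 | h5
            · rw [h5, zero_mul] at h1
              exact absurd h1 hl.ne
            · exact h5
          calc nr < nr * 2 := by linarith
            _ ≤ nr * einf := h3
            _ = l := h1
      have hrle : σ ^ nr ≤ v (c ^ k) := by
        rw [← hσl]
        exact pow_le_pow_right₀ hσ1.le hnrl.le
      refine expRed v hcop D hd g1 hdd hpd hpd' g2 g3 g4 heinf1 (r := σ ^ nr) (σ := σ) hσ1
        (one_le_pow₀ hσ1.le) ?_ (fun z => (σ ^ (l / e z))⁻¹) (fun z => l + l / e z) ?_ ?_ ?_ ?_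
        ⟨nr, rfl⟩ (nr * (einf - 1)) ?_ ?_ ?_ ?_
      · rw [← hσl]
        exact pow_lt_pow_right₀ hσ1 hnrl
      · intro z _
        positivity
      · intro z hz
        rw [inv_pow, ← pow_mul, Nat.div_mul_cancel (hlz z hz), hσl]
        exact inv_mul_cancel₀ (by linarith)
      · intro z _
        rw [pow_add, hσl]
        field_simp
      · intro z _ _
        refine ⟨l / e z + nr, ?_⟩
        rw [pow_add]
        field_simp
      · intro h0
        rw [hnr1 h0, pow_zero]
      · intro h0
        have h1 := hnr2 h0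
        have h4 : nr ≠ 0 := by
          rintro h5
          rw [h5, zero_mul] at h1
          exact hl.ne h1
        refine ⟨one_lt_pow₀ hσ1 h4, g5 h0, ?_, ?_, ?_⟩
        · rw [← pow_mul, h1, hσl]
        · rw [pow_mul]
        · have : 1 ≤ einf - 1 := Nat.le_sub_of_add_le (heinf2 h0)
          exact Nat.mul_pos (Nat.pos_of_ne_zero h4) this
      · have e1 : σ ^ (l * (2 * d + d * (d - 1))) =
            v (c ^ k) ^ (2 * d) * v (c ^ k) ^ (d * (d - 1)) := by
          rw [← pow_add, ← hσl, ← pow_mul]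
        rw [e1]
        exact mul_le_mul_of_nonneg_left (pow_le_pow_left₀ (by positivity) hrle _)
          (by positivity)
      · intro z w i j hz hw
        exact pow_cond v hc0 hl hl2 (pow_pos hσ0 nr) hσ0 hσl z w i j hz hw
  · -- all multiplicities are one
    push Not at hcase
    obtain ⟨hc1, hc2⟩ := hcase
    have he : ∀ z ∈ Z, e z = 1 := fun z hz => by
      have h1 := he1 z hz
      have h2 := hc1 z hz
      omega
    refine ⟨S, 2 * d + d * (d - 1), fun c v hv => ?_⟩
    obtain ⟨D, g1, g2, g3, g4, g5⟩ := hgood v hv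
    rcases le_or_gt (v (c ^ k)) 1 with hlam | hlam
    · left
      exact potGood v D.pint g1 (by omega) g4 hlam
    · right
      have hc0 := ne_zero_of_lt v hlam
      have hΛ0 : 0 < v (c ^ k) := by linarith
      refine expRed v hcop D hd g1 hdd hpd hpd' g2 g3 g4 heinf1 (r := 1) (σ := v (c ^ k) ^ 2)
        (one_lt_pow₀ hlam (by norm_num)) le_rfl hlam (fun _ => (v (c ^ k))⁻¹) (fun _ => 1)
        ?_ ?_ ?_ ?_ ⟨0, pow_zero _⟩ 0 (fun _ => rfl) (fun h => absurd hc2 h) ?_ ?_
      · intro z _
        positivity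
      · intro z hz
        rw [he z hz, pow_one]
        exact inv_mul_cancel₀ hΛ0.ne'
      · intro z _
        rw [pow_one, pow_two]
        exact mul_inv_cancel_right₀ hΛ0.ne' _
      · intro z hz h2
        rw [he z hz] at h2
        omega
      · rw [one_pow, mul_one, ← pow_mul]
        exact pow_le_pow_right₀ hlam.le (by nlinarith [Nat.zero_le (d * (d - 1))])
      · intro z w i j hz hw
        obtain ⟨s, hs⟩ := hk1
        refine ⟨c ^ ((s : ℤ) * (i - j)), ?_⟩
        have hcp : 0 < v c := FinitePlace.pos_iff.2 hc0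
        have e1 : v (c ^ ((s : ℤ) * (i - j))) ^ m = (v (c ^ k) ^ 2) ^ (i - j) := by
          rw [map_zpow₀, map_pow, ← zpow_natCast, ← zpow_natCast, ← zpow_natCast, ← zpow_mul,
            ← zpow_mul, ← zpow_mul]
          congr 1
          have : (2 * k : ℤ) = m * s := by exact_mod_cast hs
          push_cast
          linear_combination (-(i - j)) * this
        rw [e1, hz, hw, one_mul, one_mul, ← zpow_add₀ (by positivity)]
        congr 1
        ring

end Pool.Agent.MP90787a.P1
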