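import Mathlib
import Pool.Agent.Lib.MP_90787a_nt.P1.Base
import Pool.Agent.Lib.MP_90787a_nt.G.Translates
import Pool.Agent.Lib.MP_90787a_nt.R.Weights
import Pool.Agent.Lib.MP_90787a_nt.R.Bad

/-!
MP_90787a_nt, module FAM1: the families with one pole.
-/

set_option autoImplicit false

namespace Pool.Agent.MP90787a.P1

open Polynomial NumberField Height Pool.Agent.UBC90787a

namespace Fam1

open Pool.Agent.MP90787a.G.Translates Finset

/-! ### Potentially good reduction from integral coefficients -/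

theorem potGood_of_int {K : Type} [Field K] [NumberField K] (v : FinitePlace K) {p q : K[X]}
    {d : ℕ} (hp : ∀ i, v (p.coeff i) ≤ 1) (hq : ∀ i, v (q.coeff i) ≤ 1)
    (hres : v (resultant p q d d) = 1) : PotGoodRed v p q d := by
  obtain ⟨L, _, _, _, ι, hι⟩ := exists_ultra_field v
  refine ⟨L, _, inferInstance, inferInstance, ι, hι, 1, 0, 0, 1, 1, by ring, ?_, ?_⟩
  · rw [norm_one, one_pow, one_mul, hι, hres]
  · intro a b P Q hP hQ
    rw [Real.exp_zero]
    have e1 : (1 * a + 0 * b, 0 * a + 1 * b) = ((a, b) : L × L) := by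
      ext <;> simp
    rw [e1] at hP hQ
    set m := max ‖a‖ ‖b‖ with hm
    have hm0 : 0 ≤ m := (norm_nonneg a).trans (le_max_left _ _)
    have hform : ∀ p : K[X], (∀ i, v (p.coeff i) ≤ 1) →
        ‖homog (p.map ι) d (a, b)‖ ≤ m ^ d := by
      intro p hp
      unfold homog
      refine IsUltrametricDist.norm_sum_le_of_forall_le_of_nonneg (by positivity) ?_
      intro i hi
      have hi' := mem_range.1 hi
      rw [coeff_map, norm_mul, norm_mul, norm_pow, norm_pow, hι, mul_assoc]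
      calc v (p.coeff i) * (‖a‖ ^ i * ‖b‖ ^ (d - i)) ≤ 1 * (m ^ i * m ^ (d - i)) := by
            refine mul_le_mul (hp i) ?_ (by positivity) zero_le_one
            gcongr
            · exact le_max_left _ _
            · exact le_max_right _ _
        _ = m ^ d := by
            rw [one_mul, ← pow_add]
            congr 1
            omega
    have hPb := hform p hp
    have hQb := hform q hq
    rw [← hP] at hPb
    rw [← hQ] at hQb
    refine max_le ?_ ?_
    · simpa only [one_mul, zero_mul, sub_zero] using hPb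
    · simpa only [one_mul, zero_mul, sub_zero] using hQb

/-! ### Colourings -/

/-- If an equivalence relation on a set has no `d + 1` pairwise inequivalent elements, its classes
are the colours of a colouring with `d` colours. -/
theorem exists_colouring' {α : Type} (P : Set α) (r : α → α → Prop) {d : ℕ} (hd : 0 < d)
    (hrefl : ∀ x ∈ P, r x x)
    (hsymm : ∀ x ∈ P, ∀ y ∈ P, r x y → r y x)
    (htrans : ∀ x ∈ P, ∀ y ∈ P, ∀ z ∈ P, r x y → r y z → r x z)
    (h : ∀ t : Fin (d + 1) → α, (∀ i, t i ∈ P) → (∀ i j, i ≠ j → ¬ r (t i) (t j)) → False) :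
    ∃ c : α → Fin d, ∀ x ∈ P, ∀ y ∈ P, (c x = c y ↔ r x y) := by
  classical
  obtain ⟨c, hc⟩ := R.exists_colouring P r hd hsymm htrans h
  -- canonical representatives
  have hrep : ∃ f : α → α, (∀ x ∈ P, f x ∈ P ∧ r x (f x)) ∧
      ∀ x ∈ P, ∀ y ∈ P, r x y → f x = f y := by
    let S : Setoid P :=
      { r := fun x y => r x.1 y.1
        iseqv := ⟨fun x => hrefl x.1 x.2, fun {x y} h => hsymm x.1 x.2 y.1 y.2 h,
          fun {x y z} h1 h2 => htrans x.1 x.2 y.1 y.2 z.1 z.2 h1 h2⟩ }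
    refine ⟨fun x => if hx : x ∈ P then (Quotient.out (s := S) (Quotient.mk S ⟨x, hx⟩)).1 else x,
      fun x hx => ?_, fun x hx y hy hxy => ?_⟩
    · simp only [dif_pos hx]
      refine ⟨(Quotient.out (s := S) (Quotient.mk S ⟨x, hx⟩)).2, ?_⟩
      have h1 : S.r (Quotient.out (s := S) (Quotient.mk S ⟨x, hx⟩)) ⟨x, hx⟩ :=
        Quotient.exact (s := S) (Quotient.out_eq _)
      exact hsymm _ (Quotient.out (s := S) (Quotient.mk S ⟨x, hx⟩)).2 _ hx h1
    · simp only [dif_pos hx, dif_pos hy]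
      have h1 : Quotient.mk S ⟨x, hx⟩ = Quotient.mk S ⟨y, hy⟩ := Quotient.sound (s := S) hxy
      rw [h1]
  obtain ⟨f, hf1, hf2⟩ := hrep
  refine ⟨fun x => c (f x), fun x hx y hy => ⟨fun hxy => ?_, fun hxy => ?_⟩⟩
  · have h1 := hc _ (hf1 x hx).1 _ (hf1 y hy).1 hxy
    exact htrans _ hx _ (hf1 x hx).1 _ hy (hf1 x hx).2
      (htrans _ (hf1 x hx).1 _ (hf1 y hy).1 _ hy h1 (hsymm _ hy _ (hf1 y hy).1 (hf1 y hy).2))
  · show c (f x) = c (f y)
    rw [hf2 x hx y hy hxy]

/-! ### Homogeneous forms and translations -/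

section homog

variable {K : Type} [Field K]

theorem homog_add' (p q : K[X]) (d : ℕ) (x : K × K) :
    homog (p + q) d x = homog p d x + homog q d x := by
  unfold homog
  rw [← Finset.sum_add_distrib]
  refine Finset.sum_congr rfl fun i _ => ?_
  rw [coeff_add]
  ring

theorem coeff_taylor_top {p : K[X]} {d : ℕ} (hp : p.natDegree ≤ d) (a : K) :
    (taylor a p).coeff d = p.coeff d := by
  rcases hp.lt_or_eq with h | h
  · rw [coeff_eq_zero_of_natDegree_lt h, coeff_eq_zero_of_natDegree_lt]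
    rwa [natDegree_taylor]
  · rw [← h, coeff_taylor_natDegree]
    rfl

theorem homog_taylor {p : K[X]} {d : ℕ} (hp : p.natDegree ≤ d) (a x y : K) :
    homog p d (x + a * y, y) = homog (taylor a p) d (x, y) := by
  by_cases hy : y = 0
  · subst hy
    rw [mul_zero, add_zero, homog_infty, homog_infty, coeff_taylor_top hp]
  · rw [homog_of_ne hp (x := (x + a * y, y)) hy,
      homog_of_ne (by rwa [natDegree_taylor]) (x := (x, y)) hy, taylor_eval]
    congr 2
    show (x + a * y) / y = x / y + a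
    field_simp

end homog

/-! ### The local analysis -/

section core

variable {K : Type} [Field K] [NumberField K] (v : FinitePlace K)

theorem sub_le (x y : K) : v (x - y) ≤ max (v x) (v y) := by
  have := FinitePlace.add_le v x (-y)
  rwa [map_neg_eq_map, ← sub_eq_add_neg] at this

theorem nonarch : IsNonarchimedean (v.val : AbsoluteValue K ℝ) := fun x y =>
  FinitePlace.add_le v x y

theorem sub_comm' (x y : K) : v (x - y) = v (y - x) := by
  rw [← map_neg_eq_map v (x - y), neg_sub]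

/-- `|u ^ d - 1| = |u - 1|` if `|u - 1| < 1` and `|d| = 1`. -/
theorem pow_sub_one {d : ℕ} (hvd : v (d : K) = 1) {u : K} (hu : v (u - 1) < 1) :
    v (u ^ d - 1) = v (u - 1) := by
  have hu1 : v u = 1 := by
    have h1 : u = (u - 1) + 1 := by ring
    rw [h1, add_eq_of_lt v (by rwa [map_one]), map_one]
  have hpow : ∀ i : ℕ, v (u ^ i - 1) < 1 := by
    intro i
    rw [← mul_geom_sum, map_mul]
    have h2 : v (∑ j ∈ range i, u ^ j) ≤ 1 := by
      refine sum_le v _ _ zero_le_one fun j _ => ?_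
      rw [map_pow, hu1, one_pow]
    calc v (u - 1) * v (∑ j ∈ range i, u ^ j) ≤ v (u - 1) * 1 :=
          mul_le_mul_of_nonneg_left h2 (apply_nonneg v _)
      _ < 1 := by rwa [mul_one]
  rw [← mul_geom_sum, map_mul]
  have h3 : v (∑ i ∈ range d, u ^ i) = 1 := by
    have h4 : ∑ i ∈ range d, u ^ i = ∑ i ∈ range d, (u ^ i - 1) + (d : K) := by
      rw [Finset.sum_sub_distrib, Finset.sum_const, Finset.card_range, nsmul_eq_mul, mul_one]
      ring
    rw [h4, add_eq_of_lt v, hvd]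
    rw [hvd]
    rcases Nat.eq_zero_or_pos d with h0 | h0
    · subst h0
      simp
    · have h5 : ∃ M : ℝ, 0 ≤ M ∧ M < 1 ∧ ∀ i ∈ range d, v (u ^ i - 1) ≤ M := by
        refine ⟨(range d).sup' ⟨0, Finset.mem_range.mpr h0⟩ (fun i => v (u ^ i - 1)), ?_, ?_, ?_⟩
        · exact (apply_nonneg v _).trans
            (Finset.le_sup' (fun i => v (u ^ i - 1)) (Finset.mem_range.mpr h0))
        · rw [Finset.sup'_lt_iff]
          exact fun i _ => hpow i
        · exact fun i hi => Finset.le_sup' (fun i => v (u ^ i - 1)) hi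
      obtain ⟨M, hM0, hM1, hM⟩ := h5
      exact (sum_le v _ _ hM0 hM).trans_lt hM1
  rw [h3, mul_one]

/-- Differences of powers. -/
theorem pow_sub_pow {d : ℕ} (hd : 1 ≤ d) (hvd : v (d : K) = 1) {x y : K} {r : ℝ} (hx0 : x ≠ 0)
    (hx : v x = r) (hxy : v (x - y) < r) : v (x ^ d - y ^ d) = r ^ (d - 1) * v (x - y) := by
  have hr0 : 0 < r := by rw [← hx]; exact FinitePlace.pos_iff.mpr hx0
  have h1 : v (y / x - 1) = v (x - y) / r := by
    have e : y / x - 1 = (y - x) / x := by field_simp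
    rw [e, map_div₀, hx, sub_comm' v]
  have h2 := pow_sub_one v hvd (u := y / x) (by rw [h1, div_lt_one hr0]; exact hxy)
  have h3 : x ^ d - y ^ d = -(x ^ d * ((y / x) ^ d - 1)) := by
    rw [div_pow]
    field_simp
    ring
  rw [h3, map_neg_eq_map, map_mul, map_pow, h2, h1, hx]
  have e : r ^ d = r ^ (d - 1) * r := by rw [← pow_succ, Nat.sub_add_cancel hd]
  rw [e]
  field_simp

variable {T : K[X]} {d : ℕ} {μ γ : K} {R : ℝ}

theorem lip (hTi : ∀ i, v (T.coeff i) ≤ 1) {x y : K} (hx : v x ≤ 1) (hy : v y ≤ 1) :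
    v (T.eval x - T.eval y) ≤ v (x - y) :=
  Pool.Agent.MP90787a.R.quot_le_one v.val (nonarch v) hTi hx hy

/-- Points of the disc which are mapped into the disc. -/
theorem inside_abs (hd : 1 ≤ d) (hTi : ∀ i, v (T.coeff i) ≤ 1) (hT0 : v (T.coeff 0) = 1)
    (hR : 1 < R) (hμ : v μ = R ^ d) (hγ : γ ≠ 0) {x : K}
    (hx : x ∈ Inside v (C γ⁻¹ * (T + C μ * X ^ d)) (C γ⁻¹ * X ^ d) R⁻¹) :
    x ≠ 0 ∧ v x = R⁻¹ ∧ v (T.eval x + μ * x ^ d) ≤ R⁻¹ * R⁻¹ ^ d := by
  obtain ⟨h1, h2⟩ := hx
  have hR0 : 0 < R := by linarith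
  have hr1 : R⁻¹ < 1 := inv_lt_one_of_one_lt₀ hR
  have hγ0 : 0 < v γ⁻¹ := FinitePlace.pos_iff.mpr (inv_ne_zero hγ)
  simp only [eval_mul, eval_C, eval_add, eval_pow, eval_X] at h2
  rw [map_mul, map_mul, mul_left_comm] at h2
  have h3 : v (T.eval x + μ * x ^ d) ≤ R⁻¹ * v (x ^ d) := le_of_mul_le_mul_left h2 hγ0
  have hTx : v (T.eval x) = 1 := by
    have e : T.eval x = (T.eval x - T.eval 0) + T.coeff 0 := by
      rw [coeff_zero_eq_eval_zero]
      ring
    rw [e, add_eq_of_lt v, hT0]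
    rw [hT0]
    refine (lip v hTi (h1.trans hr1.le) (by rw [map_zero]; exact zero_le_one)).trans_lt ?_
    rw [sub_zero]
    exact h1.trans_lt hr1
  have hxd : v (x ^ d) ≤ 1 := by
    rw [map_pow]
    exact pow_le_one₀ (apply_nonneg v _) (h1.trans hr1.le)
  have h4 : v (T.eval x + μ * x ^ d) < 1 := by
    refine h3.trans_lt ?_
    calc R⁻¹ * v (x ^ d) ≤ R⁻¹ * 1 := mul_le_mul_of_nonneg_left hxd (by positivity)
      _ < 1 := by rwa [mul_one]
  have h5 : v (μ * x ^ d) = 1 := by
    have e : μ * x ^ d = (T.eval x + μ * x ^ d) + -T.eval x := by ring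
    rw [e, add_eq_of_lt v (by rwa [map_neg_eq_map, hTx]), map_neg_eq_map, hTx]
  rw [map_mul, map_pow, hμ, ← mul_pow] at h5
  have h6 : R * v x = 1 := by
    have hnn : 0 ≤ R * v x := mul_nonneg hR0.le (apply_nonneg v _)
    exact (pow_eq_one_iff_of_nonneg hnn (by omega)).mp h5
  have h7 : v x = R⁻¹ := eq_inv_of_mul_eq_one_right h6
  refine ⟨?_, h7, ?_⟩
  · rintro rfl
    rw [map_zero] at h7
    have : 0 < R⁻¹ := by positivity
    linarith
  · rwa [map_pow, h7] at h3

/-- The values of the map. -/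
theorem quot_eq (hγ : γ ≠ 0) {x : K} (hx : x ≠ 0) :
    (C γ⁻¹ * (T + C μ * X ^ d)).eval x / (C γ⁻¹ * X ^ d : K[X]).eval x =
      T.eval x / x ^ d + μ := by
  simp only [eval_mul, eval_C, eval_add, eval_pow, eval_X]
  have h1 : x ^ d ≠ 0 := pow_ne_zero _ hx
  field_simp

/-- Expansion. -/
theorem expand (hd : 1 ≤ d) (hTi : ∀ i, v (T.coeff i) ≤ 1) (hvd : v (d : K) = 1)
    (hR : 1 < R) {x y : K} (hx0 : x ≠ 0) (hy0 : y ≠ 0) (hx : v x = R⁻¹) (hy : v y = R⁻¹)
    (hTx : v (T.eval x) = 1) (hxy : v (x - y) < R⁻¹) :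
    v ((T.eval x / x ^ d + μ) - (T.eval y / y ^ d + μ)) = R ^ (d + 1) * v (x - y) := by
  have hR0 : 0 < R := by linarith
  have hr1 : R⁻¹ < 1 := inv_lt_one_of_one_lt₀ hR
  rcases eq_or_ne x y with rfl | hne
  · simp
  have hpos : 0 < v (x - y) := FinitePlace.pos_iff.mpr (sub_ne_zero.mpr hne)
  have e : (T.eval x / x ^ d + μ) - (T.eval y / y ^ d + μ) =
      (x ^ d * (T.eval x - T.eval y) + -(T.eval x * (x ^ d - y ^ d))) / (x ^ d * y ^ d) := by
    field_simp
    ring
  have h1 : v (-(T.eval x * (x ^ d - y ^ d))) = R⁻¹ ^ (d - 1) * v (x - y) := by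
    rw [map_neg_eq_map, map_mul, hTx, one_mul]
    exact pow_sub_pow v hd hvd hx0 hx hxy
  have h2 : v (x ^ d * (T.eval x - T.eval y)) < R⁻¹ ^ (d - 1) * v (x - y) := by
    rw [map_mul, map_pow, hx]
    calc R⁻¹ ^ d * v (T.eval x - T.eval y) ≤ R⁻¹ ^ d * v (x - y) :=
          mul_le_mul_of_nonneg_left (lip v hTi (by rw [hx]; exact hr1.le)
            (by rw [hy]; exact hr1.le)) (by positivity)
      _ < R⁻¹ ^ (d - 1) * v (x - y) := by
          apply mul_lt_mul_of_pos_right _ hpos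
          exact pow_lt_pow_right_of_lt_one₀ (by positivity) hr1 (by omega)
  rw [e, map_div₀, add_eq_of_lt v (by rwa [h1]), h1, map_mul, map_pow, map_pow, hx, hy]
  have e2 : R⁻¹ ^ d = R⁻¹ ^ (d - 1) * R⁻¹ := by rw [← pow_succ, Nat.sub_add_cancel hd]
  have e3 : R ^ (d + 1) * (R⁻¹ ^ d * R⁻¹ ^ d) = R⁻¹ ^ (d - 1) := by
    have e4 : R ^ (d + 1) * R⁻¹ ^ d = R := by
      rw [pow_succ, inv_pow]
      field_simp
    rw [← mul_assoc, e4, e2]
    field_simp
  have hne2 : R⁻¹ ^ d * R⁻¹ ^ d ≠ 0 := by positivity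
  rw [div_eq_iff hne2, mul_right_comm, e3]

/-- There are at most `d` classes. -/
theorem few (hd : 1 ≤ d) (hTi : ∀ i, v (T.coeff i) ≤ 1)
    (hR : 1 < R) (hμ : v μ = R ^ d) (t : Fin (d + 1) → K) (ht0 : ∀ i, t i ≠ 0)
    (ht : ∀ i, v (t i) = R⁻¹)
    (ht' : ∀ i, v (T.eval (t i) + μ * t i ^ d) ≤ R⁻¹ * R⁻¹ ^ d)
    (hdist : ∀ i j, i ≠ j → v (t i - t j) = R⁻¹) : False := by
  have hR0 : 0 < R := by linarith
  have hr0 : 0 < R⁻¹ := by positivity
  have hr1 : R⁻¹ < 1 := inv_lt_one_of_one_lt₀ hR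
  set s : Fin (d + 1) → K := fun i => t i / t 0 with hs
  refine Pool.Agent.MP90787a.R.monic_few v.val (nonarch v) (X ^ d - 1 : K[X]) (monic_X_pow_sub_C 1 (by omega)) ?_ ?_ s
    (fun i => ?_) ?_ ?_
  · have := natDegree_X_pow_sub_C (n := d) (r := (1 : K))
    rwa [map_one] at this
  · intro i
    show v _ ≤ 1
    rw [coeff_sub, coeff_X_pow, coeff_one]
    refine (sub_le v _ _).trans (max_le ?_ ?_)
    · split_ifs <;> simp
    · split_ifs <;> simp
  · show v _ ≤ 1
    simp only [hs]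
    rw [map_div₀, ht, ht, div_self hr0.ne']
  · intro i j hij
    show v _ = 1
    have e : s i - s j = (t i - t j) / t 0 := by
      simp only [hs]
      rw [sub_div]
    rw [e, map_div₀, hdist i j hij, ht, div_self hr0.ne']
  · intro i
    show v _ < 1
    have hrd : R⁻¹ * R⁻¹ ^ d ≤ R⁻¹ := mul_le_of_le_one_right hr0.le (pow_le_one₀ hr0.le hr1.le)
    have h1 : v (μ * (t i ^ d - t 0 ^ d)) ≤ R⁻¹ := by
      have e : μ * (t i ^ d - t 0 ^ d) = ((T.eval (t i) + μ * t i ^ d) -
          (T.eval (t 0) + μ * t 0 ^ d)) - (T.eval (t i) - T.eval (t 0)) := by ring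
      rw [e]
      refine (sub_le v _ _).trans (max_le ((sub_le v _ _).trans (max_le ((ht' i).trans hrd)
        ((ht' 0).trans hrd))) ?_)
      refine (lip v hTi (by rw [ht]; exact hr1.le) (by rw [ht]; exact hr1.le)).trans ?_
      exact (sub_le v _ _).trans (max_le (ht i).le (ht 0).le)
    rw [map_mul, hμ] at h1
    have e : eval (s i) (X ^ d - 1 : K[X]) = (t i ^ d - t 0 ^ d) / t 0 ^ d := by
      have a2 := ht0 0
      simp only [eval_sub, eval_pow, eval_X, eval_one, hs, div_pow, sub_div]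
      rw [div_self (pow_ne_zero _ a2)]
    rw [e, map_div₀, map_pow, ht, inv_pow, div_inv_eq_mul, mul_comm]
    exact h1.trans_lt hr1

/-- The colouring. -/
theorem colour (hd : 1 ≤ d) (hTi : ∀ i, v (T.coeff i) ≤ 1) (hT0 : v (T.coeff 0) = 1)
    (hvd : v (d : K) = 1) (hR : 1 < R) (hμ : v μ = R ^ d) (hγ : γ ≠ 0) :
    ∃ (χ : K → Fin d) (e : Fin d → ℕ), (∀ j, 1 ≤ e j) ∧
      ∀ x ∈ Inside v (C γ⁻¹ * (T + C μ * X ^ d)) (C γ⁻¹ * X ^ d) R⁻¹,
      ∀ y ∈ Inside v (C γ⁻¹ * (T + C μ * X ^ d)) (C γ⁻¹ * X ^ d) R⁻¹,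
        (χ x = χ y → v ((C γ⁻¹ * (T + C μ * X ^ d)).eval x / (C γ⁻¹ * X ^ d : K[X]).eval x -
          (C γ⁻¹ * (T + C μ * X ^ d)).eval y / (C γ⁻¹ * X ^ d : K[X]).eval y) =
            (R ^ (d + 1)) ^ e (χ x) * v (x - y)) ∧
        (χ x ≠ χ y → ∃ n < e (χ x), v (x - y) * (R ^ (d + 1)) ^ n = R⁻¹) := by
  have hR0 : 0 < R := by linarith
  have hr0 : 0 < R⁻¹ := by positivity
  have hr1 : R⁻¹ < 1 := inv_lt_one_of_one_lt₀ hR
  have key := fun x (hx : x ∈ Inside v (C γ⁻¹ * (T + C μ * X ^ d)) (C γ⁻¹ * X ^ d) R⁻¹) =>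
    inside_abs v hd hTi hT0 hR hμ hγ hx
  obtain ⟨χ, hχ⟩ := exists_colouring' (Inside v (C γ⁻¹ * (T + C μ * X ^ d)) (C γ⁻¹ * X ^ d) R⁻¹)
    (fun x y => v (x - y) < R⁻¹) (d := d) (by omega)
    (fun x _ => by rw [sub_self, map_zero]; exact hr0)
    (fun x _ y _ h => by rwa [sub_comm' v])
    (fun x _ y _ z _ h1 h2 => by
      have := FinitePlace.add_le v (x - y) (y - z)
      rw [sub_add_sub_cancel] at this
      exact this.trans_lt (max_lt h1 h2))
    (fun t ht hdist => few v hd hTi hR hμ t (fun i => (key _ (ht i)).1)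
      (fun i => (key _ (ht i)).2.1) (fun i => (key _ (ht i)).2.2) (fun i j hij =>
        le_antisymm ((sub_le v _ _).trans (max_le (key _ (ht i)).2.1.le (key _ (ht j)).2.1.le))
          (not_lt.mp (hdist i j hij))))
  refine ⟨χ, fun _ => 1, fun _ => le_rfl, fun x hx y hy => ⟨fun h => ?_, fun h => ?_⟩⟩
  · obtain ⟨hx0, hxr, hxs⟩ := key x hx
    obtain ⟨hy0, hyr, hys⟩ := key y hy
    rw [quot_eq hγ hx0, quot_eq hγ hy0, pow_one]
    have hTx : v (T.eval x) = 1 := by
      have e : T.eval x = (T.eval x - T.eval 0) + T.coeff 0 := by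
        rw [coeff_zero_eq_eval_zero]
        ring
      rw [e, add_eq_of_lt v, hT0]
      rw [hT0]
      refine (lip v hTi (by rw [hxr]; exact hr1.le)
        (by rw [map_zero]; exact zero_le_one)).trans_lt ?_
      rw [sub_zero, hxr]
      exact hr1
    exact expand v hd hTi hvd hR hx0 hy0 hxr hyr hTx ((hχ x hx y hy).mp h)
  · refine ⟨0, one_pos, ?_⟩
    rw [pow_zero, mul_one]
    refine le_antisymm ((sub_le v _ _).trans (max_le (key x hx).2.1.le (key y hy).2.1.le)) ?_
    exact not_lt.mp (fun h' => h ((hχ x hx y hy).mpr h'))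

/-- The absolute value of the resultant. -/
theorem res_val (hd : 1 ≤ d) (hTd : T.natDegree ≤ d) (hT0 : v (T.coeff 0) = 1)
    (hR : 1 < R) (hvγ : v γ = R ^ d) :
    v (resultant (C γ⁻¹ * (T + C μ * X ^ d)) (C γ⁻¹ * X ^ d) d d) = R⁻¹ ^ (2 * (d * d)) := by
  have hR0 : 0 < R := by linarith
  have hdeg : (T + C μ * X ^ d).natDegree ≤ d :=
    natDegree_add_le_of_degree_le hTd (natDegree_C_mul_X_pow_le _ _)
  have hc : (T + C μ * X ^ d).coeff 0 = T.coeff 0 := by
    rw [coeff_add, coeff_C_mul, coeff_X_pow, if_neg (by omega), mul_zero, add_zero]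
  rw [resultant_C_mul_left, resultant_C_mul_right, resultant_X_pow_right _ _ _ hdeg, hc]
  simp only [map_mul, map_pow, map_neg_eq_map, map_one, one_pow, one_mul, hT0, mul_one, map_inv₀,
    hvγ]
  rw [← inv_pow, ← pow_mul, ← pow_add]
  congr 1
  ring

end core

end Fam1

open Fam1 G.Translates in
theorem one_pole_nice (K : Type) [Field K] [NumberField K] (p : K[X]) (a : K) (d : ℕ)
    (hd : 2 ≤ d) (hp : p.natDegree ≤ d) (hpa : p.eval a ≠ 0) (m k : ℕ)
    (hm : m ∣ (d + 1) * (k / Nat.gcd d k)) :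
    ∃ (S : Finset (FinitePlace K)) (b : ℕ), ∀ c : K,
      NiceR S m d b (p + C (c ^ k) * (X - C a) ^ d) ((X - C a) ^ d) d := by
  classical
  set T : K[X] := taylor a p with hT
  have hTd : T.natDegree ≤ d := by rw [hT, natDegree_taylor]; exact hp
  have hT0 : T.coeff 0 = p.eval a := taylor_coeff_zero a p
  obtain ⟨S, hS⟩ := exists_finset_places ((Finset.range (d + 1)).image T.coeff ∪
    (Finset.range (d + 1)).image p.coeff ∪
    (Finset.range (d + 1)).image (((X - C a) ^ d : K[X]).coeff) ∪ {a, p.eval a, (d : K)})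
  refine ⟨S, d, fun c v hv => ?_⟩
  have hv' := hS v hv
  have hco : ∀ f : K[X], f.natDegree ≤ d → (∀ i ∈ Finset.range (d + 1), f.coeff i ≠ 0 →
      v (f.coeff i) = 1) → ∀ i, v (f.coeff i) ≤ 1 := by
    intro f hf h i
    rcases eq_or_ne (f.coeff i) 0 with h0 | h0
    · rw [h0, map_zero]
      exact zero_le_one
    · refine (h i ?_ h0).le
      rw [Finset.mem_range]
      by_contra hlt
      exact h0 (coeff_eq_zero_of_natDegree_lt (by omega))
  have hTi : ∀ i, v (T.coeff i) ≤ 1 := hco T hTd fun i hi h0 => hv' _ (by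
    simp only [Finset.mem_union, Finset.mem_image]
    exact Or.inl (Or.inl (Or.inl ⟨i, hi, rfl⟩))) h0
  have hpi : ∀ i, v (p.coeff i) ≤ 1 := hco p hp fun i hi h0 => hv' _ (by
    simp only [Finset.mem_union, Finset.mem_image]
    exact Or.inl (Or.inl (Or.inr ⟨i, hi, rfl⟩))) h0
  have hqd : ((X - C a) ^ d : K[X]).natDegree = d := by
    rw [natDegree_pow, natDegree_X_sub_C, mul_one]
  have hqi : ∀ i, v (((X - C a) ^ d : K[X]).coeff i) ≤ 1 := hco _ hqd.le fun i hi h0 => hv' _ (by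
    simp only [Finset.mem_union, Finset.mem_image]
    exact Or.inl (Or.inr ⟨i, hi, rfl⟩)) h0
  have hva : v a ≤ 1 := by
    rcases eq_or_ne a 0 with h0 | h0
    · rw [h0, map_zero]
      exact zero_le_one
    · exact (hv' a (by simp) h0).le
  have hvpa : v (p.eval a) = 1 := hv' _ (by simp) hpa
  have hvd : v (d : K) = 1 := hv' _ (by simp) (by
    have : d ≠ 0 := by omega
    exact_mod_cast this)
  have hvT0 : v (T.coeff 0) = 1 := by rw [hT0]; exact hvpa
  obtain ⟨lam, hlam⟩ : ∃ lam : K, lam = c ^ k := ⟨_, rfl⟩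
  rw [← hlam]
  have hNd : (p + C lam * (X - C a) ^ d).natDegree ≤ d :=
    natDegree_add_le_of_degree_le hp ((natDegree_C_mul_le _ _).trans hqd.le)
  rcases le_or_gt (v lam) 1 with hl | hl
  · left
    refine potGood_of_int v (fun i => ?_) hqi ?_
    · rw [coeff_add, coeff_C_mul]
      refine (FinitePlace.add_le v _ _).trans (max_le (hpi i) ?_)
      rw [map_mul]
      exact mul_le_one₀ hl (apply_nonneg v _) (hqi i)
    · rw [resultant_X_sub_C_pow_right _ _ _ _ hNd]
      simp only [eval_add, eval_mul, eval_C, eval_pow, eval_sub, eval_X, sub_self]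
      rw [zero_pow (by omega), mul_zero, add_zero]
      simp only [map_mul, map_pow, map_neg_eq_map, map_one, one_pow, one_mul, hvpa]
  · right
    obtain ⟨R, hR, hRd⟩ := exists_root hl (n := d) (by omega)
    have hR0 : 0 < R := by linarith
    have hr0 : 0 < R⁻¹ := by positivity
    have hr1 : R⁻¹ < 1 := inv_lt_one_of_one_lt₀ hR
    have hRd1 : 1 < R ^ d := by rw [hRd]; exact hl
    set μ : K := lam - a with hμd
    set γ : K := T.coeff d + μ with hγd
    have hμ : v μ = R ^ d := by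
      rw [hμd, sub_eq_add_neg, add_comm, add_eq_of_lt v, hRd]
      rw [map_neg_eq_map]
      exact hva.trans_lt hl
    have hvγ : v γ = R ^ d := by
      rw [hγd, add_eq_of_lt v, hμ]
      rw [hμ]
      exact (hTi d).trans_lt hRd1
    have hγ : γ ≠ 0 := by
      rw [← FinitePlace.pos_iff (w := v), hvγ]
      positivity
    have hPc : ∀ i, (C γ⁻¹ * (T + C μ * X ^ d)).coeff i =
        γ⁻¹ * (T.coeff i + if i = d then μ else 0) := by
      intro i
      rw [coeff_C_mul, coeff_add, coeff_C_mul_X_pow]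
    have hPd : (C γ⁻¹ * (T + C μ * X ^ d)).coeff d = 1 := by
      rw [hPc, if_pos rfl]
      exact inv_mul_cancel₀ hγ
    have hPdeg : (C γ⁻¹ * (T + C μ * X ^ d)).natDegree ≤ d :=
      (natDegree_C_mul_le _ _).trans
        (natDegree_add_le_of_degree_le hTd (natDegree_C_mul_X_pow_le _ _))
    have hPdeg' : (C γ⁻¹ * (T + C μ * X ^ d)).natDegree = d :=
      le_antisymm hPdeg (le_natDegree_of_ne_zero (by rw [hPd]; exact one_ne_zero))
    have hQdeg : (C γ⁻¹ * X ^ d : K[X]).natDegree ≤ d := natDegree_C_mul_X_pow_le _ _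
    refine ⟨1, a, 0, 1, γ, C γ⁻¹ * (T + C μ * X ^ d), C γ⁻¹ * X ^ d, R⁻¹, R ^ (d + 1), ?_, ?_,
      hPdeg', hQdeg, hr0, one_lt_pow₀ hR (by omega), ?_, ?_,
      colour v (by omega) hTi hvT0 hvd hR hμ hγ, ?_⟩
    · -- conjugation
      refine ⟨by rw [mul_one, mul_zero, sub_zero]; exact one_ne_zero, hγ, fun x y => ?_⟩
      have e1 : (1 * x + a * y, 0 * x + 1 * y) = ((x + a * y, y) : K × K) := by
        ext <;> simp
      have hX : taylor a ((X - C a) ^ d : K[X]) = X ^ d := by
        rw [taylor_pow, map_sub, taylor_X, taylor_C, add_sub_cancel_right]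
      have hN : taylor a (p + C lam * (X - C a) ^ d) = T + C lam * X ^ d := by
        rw [map_add, taylor_mul, taylor_C, hX]
      rw [e1, homog_taylor hNd, homog_taylor hqd.le, hN, hX, homog_C_mul, homog_C_mul,
        homog_add', homog_add', homog_C_mul, homog_C_mul]
      constructor
      · rw [hμd]
        field_simp
        ring
      · field_simp
        ring
    · rw [Monic, leadingCoeff, hPdeg', hPd]
    · intro i hi
      constructor
      · rcases hi.lt_or_eq with h | h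
        · rw [hPc, if_neg h.ne, add_zero, map_mul, map_inv₀, hvγ, ← inv_pow]
          calc R⁻¹ ^ d * v (T.coeff i) ≤ R⁻¹ ^ d * 1 :=
                mul_le_mul_of_nonneg_left (hTi i) (by positivity)
            _ ≤ R⁻¹ ^ (d - i) := by
                rw [mul_one]
                exact pow_le_pow_of_le_one hr0.le hr1.le (by omega)
        · rw [h, hPd, map_one, Nat.sub_self, pow_zero]
      · rw [coeff_C_mul_X_pow]
        split_ifs with h
        · rw [map_inv₀, hvγ, ← inv_pow]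
          calc R⁻¹ ^ d * R⁻¹ ^ (i + 1) < R⁻¹ ^ d * 1 := by
                apply mul_lt_mul_of_pos_left _ (by positivity)
                exact pow_lt_one₀ hr0.le hr1 (by omega)
            _ = R⁻¹ ^ d := mul_one _
        · rw [map_zero, zero_mul]
          positivity
    · rw [res_val v (by omega) hTd hvT0 hR hvγ]
      apply le_of_eq
      obtain ⟨n, rfl⟩ : ∃ n, d = n + 1 := ⟨d - 1, by omega⟩
      rw [Nat.add_sub_cancel, ← pow_mul, inv_pow, inv_pow, inv_mul_eq_div, eq_div_iff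
        (by positivity), inv_mul_eq_iff_eq_mul₀ (by positivity), ← pow_add]
      congr 1
      ring
    · -- power condition
      intro z w i j hz hw
      have hσ0 : (0 : ℝ) < R ^ (d + 1) := by positivity
      have hz0 : z ≠ 0 := by
        rw [← FinitePlace.pos_iff (w := v), hz]
        positivity
      have hw0 : w ≠ 0 := by
        rw [← FinitePlace.pos_iff (w := v), hw]
        positivity
      have hlam0 : lam ≠ 0 := by
        rw [← FinitePlace.pos_iff (w := v)]
        linarith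
      have hk0 : k ≠ 0 := by
        rintro rfl
        rw [hlam, pow_zero, map_one] at hl
        exact lt_irrefl _ hl
      have hc0 : c ≠ 0 := by
        rintro rfl
        rw [hlam, zero_pow hk0] at hlam0
        exact hlam0 rfl
      -- `t = i - j`, `|z / w| = R ^ ((d + 1) t)`
      have hzw : v (z / w) = R ^ (((d : ℤ) + 1) * (i - j)) := by
        rw [map_div₀, hz, hw, mul_div_mul_left _ _ hr0.ne', ← zpow_sub₀ hσ0.ne', ← zpow_natCast R,
          ← zpow_mul]
        push_cast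
        rfl
      set y : K := z / w * lam ^ (-(i - j)) with hy
      have hvy : v y = R ^ (i - j) := by
        rw [hy, map_mul, hzw, map_zpow₀, ← hRd, ← zpow_natCast R, ← zpow_mul,
          ← zpow_add₀ hR0.ne']
        congr 1
        ring
      have hy0 : y ≠ 0 := by
        rw [← FinitePlace.pos_iff (w := v), hvy]
        positivity
      have hpow : v y ^ d = v (c ^ (i - j)) ^ k := by
        rw [hvy, map_zpow₀, ← zpow_natCast, ← zpow_mul, ← zpow_natCast, ← zpow_mul, mul_comm,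
          mul_comm (i - j) (k : ℤ), zpow_mul, zpow_mul, zpow_natCast, zpow_natCast, hRd, hlam,
          map_pow]
      obtain ⟨y', hy'⟩ := root_val v hy0 (c := c ^ (i - j)) (zpow_ne_zero _ hc0)
        (n := d) (k := k) (by omega) hpow
      obtain ⟨s, hs⟩ := hm
      refine ⟨y' ^ s, ?_⟩
      have h1 : v (z / w) = v (y' ^ s) ^ m := by
        rw [hzw, mul_comm ((d : ℤ) + 1), zpow_mul, ← hvy, hy']
        have : ((v y' ^ (k / Nat.gcd d k)) ^ ((d : ℤ) + 1) : ℝ) =
            (v y' ^ (k / Nat.gcd d k)) ^ (d + 1) := by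
          exact_mod_cast rfl
        rw [this, ← pow_mul, mul_comm (k / Nat.gcd d k), hs, map_pow, ← pow_mul, mul_comm s m]
      rw [← h1, map_div₀]
      have : v w ≠ 0 := by
        rw [Ne, map_eq_zero]
        exact hw0
      field_simp

end Pool.Agent.MP90787a.P1
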