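import Pool.Agent.Lib.MP_90787a_nt.P1.Fam

set_option autoImplicit false

/-!
The families `p / q + c ^ k` with `q` a product of powers of linear factors, uniformly in `p` and
the poles.
-/

namespace Pool.Agent.MP90787a.P1

open Polynomial NumberField Height Pool.Agent.UBC90787a

namespace FamU

open Pool.Agent.MP90787a.T Pool.Agent.MP90787a.R
open Fam Finset

section place

variable {K : Type} [Field K] [NumberField K]

theorem expRed_unif (v : FinitePlace K) {p q : K[X]} (hcop : IsCoprime p q) {Z : Finset K}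
    {e : K → ℕ} {u : K → K[X]} {einf d : ℕ} (D : LocData v.1 p q Z e u einf d) (hd : 2 ≤ d)
    (hq : ∀ i, v (q.coeff i) ≤ 1) (hqd : q.natDegree + einf = d)
    (hpd : p.natDegree ≤ d) (hpd' : einf ≠ 0 → p.natDegree = d)
    (hplc : einf ≠ 0 → v p.leadingCoeff = 1)
    (hqlc : v q.leadingCoeff = 1) (hres : v (resultant p q d d) = 1) (heinf : einf ≠ 1)
    {lam : K} {r σ : ℝ} {b m : ℕ} (hσ : 1 < σ) (hr1 : 1 ≤ r) (hrΛ : r < v lam) (ρ : K → ℝ)
    (E : K → ℕ) (hρ0 : ∀ z ∈ Z, 0 < ρ z) (hρ : ∀ z ∈ Z, ρ z ^ e z * v lam = 1)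
    (hE : ∀ z ∈ Z, σ ^ E z * ρ z = v lam) (hn : ∀ z ∈ Z, 2 ≤ e z → ∃ n, ρ z * σ ^ n = r)
    (hnr : ∃ n, σ ^ n = r) (Einf : ℕ) (hr : einf = 0 → r = 1)
    (hinf : einf ≠ 0 → 1 < r ∧ v (einf : K) = 1 ∧ r ^ einf = v lam ∧
      σ ^ Einf = r ^ (einf - 1) ∧ 1 ≤ Einf)
    (hb : v lam ^ (2 * d) * r ^ (d * (d - 1)) ≤ σ ^ b)
    (hpow : ∀ (z w : K) (i j : ℤ), v z = r * σ ^ i → v w = r * σ ^ j →
      ∃ e : K, v z = v w * v e ^ m) :
    ExpRed v m d b (p + C lam * q) q d := by
  have hv := nonarch v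
  set f := p + C lam * q with hf
  have hΛ1 : 1 < v lam := hr1.trans_lt hrΛ
  have hr0 : 0 < r := by linarith
  have hfc : ∀ i, f.coeff i = p.coeff i + lam * q.coeff i := fun i => by
    rw [hf, coeff_add, coeff_C_mul]
  have hfle : f.natDegree ≤ d := by
    refine (natDegree_add_le _ _).trans (max_le hpd ((natDegree_C_mul_le _ _).trans ?_))
    omega
  have hp := D.pint
  -- the leading coefficient
  obtain ⟨hlc0, hlc1, hlcΛ⟩ : f.coeff d ≠ 0 ∧ 1 ≤ v (f.coeff d) ∧ v (f.coeff d) ≤ v lam := by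
    rcases eq_or_ne einf 0 with h0 | h0
    · have hqd' : q.natDegree = d := by omega
      have h1 : v (q.coeff d) = 1 := by rw [← hqd']; exact hqlc
      have h2 : v (f.coeff d) = v lam := by
        rw [hfc]
        have h3 : v (lam * q.coeff d) = v lam := by rw [map_mul, h1, mul_one]
        rw [G.Translates.add_eq_of_lt v (by rw [h3]; exact (hp d).trans_lt hΛ1), h3]
      refine ⟨?_, by rw [h2]; exact hΛ1.le, h2.le⟩
      intro h3
      rw [h3, map_zero] at h2
      linarith
    · have h1 : f.coeff d = p.coeff d := by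
        rw [hfc, coeff_eq_zero_of_natDegree_lt (show q.natDegree < d by omega), mul_zero, add_zero]
      have h2 : v (f.coeff d) = 1 := by rw [h1, ← hpd' h0]; exact hplc h0
      refine ⟨?_, h2.ge, by rw [h2]; exact hΛ1.le⟩
      intro h3
      rw [h3, map_zero] at h2
      exact zero_ne_one h2
  have hfd : f.natDegree = d := le_antisymm hfle (le_natDegree_of_ne_zero hlc0)
  set lc := f.coeff d with hlc
  have hlcp : 0 < v lc := by linarith
  have hinv : lc⁻¹ ≠ 0 := inv_ne_zero hlc0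
  -- the coefficients
  have hcoef : ∀ i ≤ d, v (f.coeff i) ≤ v lc * r ^ (d - i) ∧
      v (q.coeff i) * r ^ (i + 1) < v lc * r ^ d := by
    intro i hi
    rcases eq_or_ne einf 0 with h0 | h0
    · have hqd' : q.natDegree = d := by omega
      have h1 : v (q.coeff d) = 1 := by rw [← hqd']; exact hqlc
      have h2 : v lc = v lam := by
        rw [hlc, hfc]
        have h3 : v (lam * q.coeff d) = v lam := by rw [map_mul, h1, mul_one]
        rw [G.Translates.add_eq_of_lt v (by rw [h3]; exact (hp d).trans_lt hΛ1), h3]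
      rw [h2, hr h0, one_pow, one_pow, one_pow, mul_one, mul_one]
      refine ⟨?_, (hq i).trans_lt hΛ1⟩
      rw [hfc]
      refine (FinitePlace.add_le v _ _).trans (max_le ((hp i).trans hΛ1.le) ?_)
      rw [map_mul]
      exact mul_le_of_le_one_right (by linarith) (hq i)
    · obtain ⟨h1, _, h2, _⟩ := hinf h0
      have he2 : 2 ≤ einf := by omega
      rcases Nat.lt_or_ge q.natDegree i with h3 | h3
      · have h4 : q.coeff i = 0 := coeff_eq_zero_of_natDegree_lt h3
        have h5 : 0 < v lc * r ^ d := by positivity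
        rw [hfc, h4, mul_zero, add_zero, map_zero, zero_mul]
        refine ⟨(hp i).trans ?_, h5⟩
        exact one_le_mul_of_one_le_of_one_le hlc1 (one_le_pow₀ hr1)
      · constructor
        · have h6 : v (f.coeff i) ≤ v lam := by
            rw [hfc]
            refine (FinitePlace.add_le v _ _).trans (max_le ((hp i).trans hΛ1.le) ?_)
            rw [map_mul]
            exact mul_le_of_le_one_right (by linarith) (hq i)
          calc v (f.coeff i) ≤ v lam := h6
            _ = r ^ einf := h2.symm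
            _ ≤ r ^ (d - i) := pow_le_pow_right₀ hr1 (by omega)
            _ ≤ v lc * r ^ (d - i) := le_mul_of_one_le_left (by positivity) hlc1
        · calc v (q.coeff i) * r ^ (i + 1) ≤ 1 * r ^ (i + 1) :=
                mul_le_mul_of_nonneg_right (hq i) (by positivity)
            _ = r ^ (i + 1) := one_mul _
            _ < r ^ d := pow_lt_pow_right₀ h1 (by omega)
            _ ≤ v lc * r ^ d := le_mul_of_one_le_left (by positivity) hlc1
  have hfeval : ∀ x, f.eval x = p.eval x + lam * q.eval x := fun x => by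
    rw [hf]
    simp
  -- the points inside
  have hins : ∀ x ∈ Inside v (C lc⁻¹ * f) (C lc⁻¹ * q) r, x ∈ Ins v.1 p q lam r := by
    rintro x ⟨h1, h2⟩
    have h3 : v (f.eval x) ≤ r * v (q.eval x) := by
      rw [eval_mul, eval_C, eval_mul, eval_C, map_mul, map_mul, mul_left_comm] at h2
      exact le_of_mul_le_mul_left h2 (FinitePlace.pos_iff.2 hinv)
    have h4 : q.eval x ≠ 0 := by
      intro h0
      rw [h0, map_zero, mul_zero] at h3
      have h5 : v (f.eval x) = 0 := le_antisymm h3 (apply_nonneg v _)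
      have h6 : f.eval x = 0 := (map_eq_zero v).1 h5
      rw [hfeval, h0, mul_zero, add_zero] at h6
      obtain ⟨a, b', hab⟩ := hcop
      have := congrArg (eval x) hab
      rw [eval_add, eval_mul, eval_mul, h6, h0, mul_zero, mul_zero, add_zero, eval_one] at this
      exact zero_ne_one this
    refine ⟨h1, h4, ?_⟩
    have h5 : p.eval x / q.eval x + lam = f.eval x / q.eval x := by
      rw [hfeval]
      field_simp
    have h6 : 0 < v (q.eval x) := FinitePlace.pos_iff.2 h4
    show v (p.eval x / q.eval x + lam) ≤ r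
    rw [h5, map_div₀, div_le_iff₀ h6]
    exact h3
  obtain ⟨χ, c, hc1, hc2⟩ := colouring v.1 hv D (by omega) hσ hr1 hrΛ ρ E hρ0 hρ hE hn hnr Einf
    (fun h => by
      have h0 : einf ≠ 0 := fun h0 => by
        rw [hr h0] at h
        exact lt_irrefl _ h
      obtain ⟨_, h2, h3, h4, h5⟩ := hinf h0
      exact ⟨⟨hp, hq, by rw [hpd' h0, hqd], by omega, h2, hplc h0, hqlc⟩, h3, h4, h5⟩)
  refine ⟨1, 0, 0, 1, lc, C lc⁻¹ * f, C lc⁻¹ * q, r, σ, ⟨by simp, hlc0, ?_⟩, ?_, ?_, ?_, hr0, hσ,
    ?_, ?_, ⟨χ, c, hc1, ?_⟩, hpow⟩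
  · intro x y
    simp only [homog_C_mul, one_mul, zero_mul, add_zero, zero_add]
    constructor
    · rw [mul_inv_cancel_left₀ hlc0]
    · rw [mul_inv_cancel_left₀ hlc0]
  · rw [Monic, leadingCoeff_mul, leadingCoeff_C, leadingCoeff, hfd, ← hlc,
      inv_mul_cancel₀ hlc0]
  · rw [natDegree_C_mul hinv, hfd]
  · rw [natDegree_C_mul hinv]
    omega
  · intro i hi
    obtain ⟨h1, h2⟩ := hcoef i hi
    rw [coeff_C_mul, coeff_C_mul, map_mul, map_mul, map_inv₀]
    constructor
    · rw [inv_mul_le_iff₀ hlcp]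
      exact h1
    · rw [mul_assoc, inv_mul_lt_iff₀ hlcp]
      exact h2
  · rw [resultant_C_mul_left, resultant_C_mul_right]
    have : resultant f q d d = resultant p q d d := by
      rw [hf, mul_comm (C lam)]
      exact resultant_add_mul_left _ _ _ _ _ (by simp) (by omega)
    rw [this, map_mul, map_mul, hres, mul_one, map_pow, map_inv₀, ← mul_pow, ← mul_inv,
      inv_pow, inv_mul_eq_div, le_div_iff₀ (by positivity)]
    calc r ^ (d * (d - 1)) * (v lc * v lc) ^ d = v lc ^ (2 * d) * r ^ (d * (d - 1)) := by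
          rw [← pow_two, ← pow_mul, mul_comm]
      _ ≤ v lam ^ (2 * d) * r ^ (d * (d - 1)) :=
          mul_le_mul_of_nonneg_right (pow_le_pow_left₀ hlcp.le hlcΛ _) (by positivity)
      _ ≤ σ ^ b := hb
  · intro x hx y hy
    have hx' := hins x hx
    have hy' := hins y hy
    obtain ⟨h1, h2⟩ := hc2 x hx' y hy'
    refine ⟨fun h => ?_, h2⟩
    have h3 := h1 h
    have e1 : ∀ x, q.eval x ≠ 0 → (C lc⁻¹ * f).eval x / (C lc⁻¹ * q).eval x =
        p.eval x / q.eval x + lam := by
      intro x hx0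
      rw [eval_mul, eval_C, eval_mul, eval_C, hfeval, mul_div_mul_left _ _ hinv]
      field_simp
    rw [e1 x hx'.2.1, e1 y hy'.2.1, add_sub_add_right_eq_sub]
    exact h3

/-! ### Integrality of products -/

lemma int_mul (v : FinitePlace K) {f g : K[X]} (hf : ∀ i, v (f.coeff i) ≤ 1)
    (hg : ∀ i, v (g.coeff i) ≤ 1) (i : ℕ) : v ((f * g).coeff i) ≤ 1 := by
  rw [coeff_mul]
  refine G.Translates.sum_le v _ _ zero_le_one fun a _ => ?_
  rw [map_mul]
  exact mul_le_one₀ (hf _) (apply_nonneg v _) (hg _)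

lemma int_one (v : FinitePlace K) (i : ℕ) : v ((1 : K[X]).coeff i) ≤ 1 := by
  rw [coeff_one]
  split_ifs <;> simp

lemma int_pow (v : FinitePlace K) {f : K[X]} (hf : ∀ i, v (f.coeff i) ≤ 1) (n : ℕ) :
    ∀ i, v ((f ^ n).coeff i) ≤ 1 := by
  induction n with
  | zero => rw [pow_zero]; exact int_one v
  | succ n ih => rw [pow_succ]; exact int_mul v ih hf

lemma int_prod (v : FinitePlace K) {ι : Type} (s : Finset ι) (f : ι → K[X])
    (hf : ∀ j ∈ s, ∀ i, v ((f j).coeff i) ≤ 1) : ∀ i, v ((∏ j ∈ s, f j).coeff i) ≤ 1 := by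
  classical
  induction s using Finset.induction_on with
  | empty => rw [prod_empty]; exact int_one v
  | insert a s ha ih =>
    rw [prod_insert ha]
    exact int_mul v (hf a (mem_insert_self a s)) (ih fun j hj => hf j (mem_insert_of_mem hj))

lemma int_lin (v : FinitePlace K) {z : K} (hz : v z ≤ 1) (i : ℕ) :
    v ((X - C z : K[X]).coeff i) ≤ 1 := by
  rw [sub_eq_add_neg, ← C_neg, coeff_add, coeff_X, coeff_C]
  refine (FinitePlace.add_le v _ _).trans (max_le ?_ ?_)
  · split_ifs <;> simp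
  · split_ifs
    · rwa [map_neg_eq_map]
    · simp

/-- The denominator with given zeros. -/
noncomputable def den (Z : Finset K) (e : K → ℕ) : K[X] := ∏ z ∈ Z, (X - C z) ^ e z

omit [NumberField K] in
lemma den_monic (Z : Finset K) (e : K → ℕ) : (den Z e).Monic :=
  monic_prod_of_monic _ _ fun z _ => (monic_X_sub_C z).pow _

omit [NumberField K] in
lemma den_natDegree (Z : Finset K) (e : K → ℕ) : (den Z e).natDegree = ∑ z ∈ Z, e z := by
  unfold den
  rw [natDegree_prod_of_monic _ _ fun z _ => (monic_X_sub_C z).pow _]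
  refine sum_congr rfl fun z _ => ?_
  rw [natDegree_pow, natDegree_X_sub_C, mul_one]

omit [NumberField K] in
lemma den_eval (Z : Finset K) (e : K → ℕ) (x : K) :
    (den Z e).eval x = ∏ z ∈ Z, (x - z) ^ e z := by
  unfold den
  rw [eval_prod]
  refine prod_congr rfl fun z _ => ?_
  simp

omit [NumberField K] in
lemma den_coprime {Z : Finset K} {e : K → ℕ} {p : K[X]} (hp : ∀ z ∈ Z, p.eval z ≠ 0) :
    IsCoprime p (den Z e) := by
  refine IsCoprime.prod_right fun z hz => IsCoprime.pow_right ?_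
  refine ((irreducible_X_sub_C z).coprime_iff_not_dvd.2 ?_).symm
  rw [dvd_iff_isRoot]
  exact hp z hz

lemma den_int (v : FinitePlace K) {Z : Finset K} {e : K → ℕ} (hZ : ∀ z ∈ Z, v z ≤ 1) :
    ∀ i, v ((den Z e).coeff i) ≤ 1 :=
  int_prod v _ _ fun z hz => int_pow v (int_lin v (hZ z hz)) _

/-- The resultant is a unit. -/
lemma den_resultant (v : FinitePlace K) {Z : Finset K} {e : K → ℕ} {p : K[X]} {d : ℕ}
    (hpd : p.natDegree ≤ d) (hqd : ∑ z ∈ Z, e z ≤ d) (hpz : ∀ z ∈ Z, v (p.eval z) = 1)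
    (hlc : ∑ z ∈ Z, e z ≠ d → v (p.coeff d) = 1) : v (resultant p (den Z e) d d) = 1 := by
  have h1 : v (resultant p (den Z e) d (den Z e).natDegree) = 1 := by
    unfold den
    rw [resultant_prod_right _ _ _ _ hpd (by
      simp)]
    rw [map_prod]
    refine prod_eq_one fun z hz => ?_
    rw [natDegree_pow, natDegree_X_sub_C, mul_one, resultant_X_sub_C_pow_right _ _ _ _ hpd,
      map_mul, map_pow, map_pow, map_neg_eq_map, map_one, one_pow, hpz z hz, one_pow, one_mul]
  rw [den_natDegree] at h1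
  obtain ⟨k, hk⟩ := Nat.exists_eq_add_of_le hqd
  have h2 : resultant p (den Z e) d d =
      p.coeff d ^ k * resultant p (den Z e) d (∑ z ∈ Z, e z) := by
    conv_lhs => rw [show resultant p (den Z e) d d =
      resultant p (den Z e) d (∑ z ∈ Z, e z + k) by rw [← hk]]
    rw [resultant_add_right_deg _ _ _ _ _ (den_natDegree Z e).le]
  rw [h2, map_mul, h1, mul_one, map_pow]
  rcases Nat.eq_zero_or_pos k with h0 | h0
  · rw [h0, pow_zero]
  · rw [hlc (by omega), one_pow]

/-- The local data at one place. -/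
structure Loc (v : FinitePlace K) (Z : Finset K) (e : K → ℕ) (p : K[X]) : Prop where
  pint : ∀ i, v (p.coeff i) ≤ 1
  zint : ∀ z ∈ Z, v z ≤ 1
  sep : ∀ z ∈ Z, ∀ z' ∈ Z, z ≠ z' → v (z - z') = 1
  pz : ∀ z ∈ Z, v (p.eval z) = 1
  he : ∀ z ∈ Z, 1 ≤ e z ∧ v (e z : K) = 1
  inf : ∑ z ∈ Z, e z < p.natDegree → v p.leadingCoeff = 1 ∧
    v ((p.natDegree - ∑ z ∈ Z, e z : ℕ) : K) = 1

lemma Loc.data {v : FinitePlace K} {Z : Finset K} {e : K → ℕ} {p : K[X]} (h : Loc v Z e p)
    [DecidableEq K] {d : ℕ} (hd : max p.natDegree (∑ z ∈ Z, e z) = d) :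
    LocData v.1 p (den Z e) Z e (fun z => den (Z.erase z) e) (p.natDegree - ∑ z ∈ Z, e z) d := by
  refine ⟨fun z hz => ⟨h.pint, ?_, ?_, h.zint z hz, (h.he z hz).1, (h.he z hz).2, h.pz z hz, ?_⟩,
    h.sep, h.pint, fun x hx hqx => ?_, ?_⟩
  · exact den_int v fun z' hz' => h.zint z' (mem_of_mem_erase hz')
  · unfold den
    rw [mul_prod_erase Z (fun z => (X - C z) ^ e z) hz]
  · rw [den_eval]
    show v _ = 1
    rw [map_prod]
    refine prod_eq_one fun z' hz' => ?_
    rw [map_pow, h.sep z hz z' (mem_of_mem_erase hz') (ne_of_mem_erase hz').symm, one_pow]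
  · by_contra hcon
    push Not at hcon
    have h1 : 1 ≤ v.1 ((den Z e).eval x) := by
      rw [den_eval, map_prod]
      have h2 : ∏ z ∈ Z, (1 : ℝ) ≤ ∏ z ∈ Z, v.1 ((x - z) ^ e z) := by
        refine Finset.prod_le_prod (fun _ _ => zero_le_one) fun z hz => ?_
        rw [map_pow]
        exact one_le_pow₀ (hcon z hz)
      rwa [prod_const_one] at h2
    linarith
  · omega

open Classical in
/-- The families at one place, some multiplicity at least two. -/
theorem Loc.multi {v : FinitePlace K} {Z : Finset K} {e : K → ℕ} {p : K[X]} (h : Loc v Z e p)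
    {d m k l : ℕ} (hd : 2 ≤ d) (hmax : max p.natDegree (∑ z ∈ Z, e z) = d)
    (hne : p.natDegree ≠ ∑ z ∈ Z, e z + 1) (hl : 0 < l) (hl2 : m ∣ k / Nat.gcd l k)
    (hlz : ∀ z ∈ Z, e z ∣ l)
    (hlinf' : ∑ z ∈ Z, e z < p.natDegree → p.natDegree - ∑ z ∈ Z, e z ∣ l) (c : K) :
    PotGoodRed v (p + C (c ^ k) * den Z e) (den Z e) d ∨
      ExpRed v m d (l * (2 * d + d * (d - 1))) (p + C (c ^ k) * den Z e) (den Z e) d := by
  obtain ⟨einf, heinf⟩ : ∃ n, n = p.natDegree - ∑ z ∈ Z, e z := ⟨_, rfl⟩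
  have D := h.data hmax
  rw [← heinf] at D
  have g1 := den_int v h.zint (e := e)
  have g3 : v (den Z e).leadingCoeff = 1 := by rw [(den_monic Z e).leadingCoeff, map_one]
  have hqd : (den Z e).natDegree + einf = d := by rw [den_natDegree]; omega
  have hpd : p.natDegree ≤ d := by omega
  have hpd' : einf ≠ 0 → p.natDegree = d := fun h => by omega
  have g2 : einf ≠ 0 → v p.leadingCoeff = 1 := fun h0 => (h.inf (by omega)).1
  have g5 : einf ≠ 0 → v (einf : K) = 1 := fun h0 => by
    rw [heinf]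
    exact (h.inf (by omega)).2
  have g4 : v (resultant p (den Z e) d d) = 1 := by
    refine den_resultant v hpd (by omega) h.pz fun h0 => ?_
    have h1 : ∑ z ∈ Z, e z < p.natDegree := by omega
    have h2 : p.natDegree = d := by omega
    rw [← h2]
    exact (h.inf h1).1
  have hcop : IsCoprime p (den Z e) := den_coprime fun z hz h0 => by
    have := h.pz z hz
    rw [h0, map_zero] at this
    exact zero_ne_one this
  have heinf1 : einf ≠ 1 := by omega
  have heinf2 : einf ≠ 0 → 2 ≤ einf := fun h => by omega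
  have hlinf : einf ≠ 0 → einf ∣ l := fun h0 => by
    rw [heinf]
    exact hlinf' (by omega)
  rcases le_or_gt (v (c ^ k)) 1 with hlam | hlam
  · left
    exact potGood v D.pint g1 (by omega) g4 hlam
  · right
    have hc0 := ne_zero_of_lt v hlam
    obtain ⟨σ, hσ1, hσl⟩ := G.Translates.exists_root hlam hl.ne'
    have hσ0 : 0 < σ := by linarith
    -- the radius
    obtain ⟨nr, hnr1, hnr2⟩ : ∃ nr : ℕ, (einf = 0 → nr = 0) ∧ (einf ≠ 0 → nr * einf = l) := by
      by_cases h0 : einf = 0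
      · exact ⟨0, fun _ => rfl, fun h => absurd h0 h⟩
      · exact ⟨l / einf, fun h => absurd h h0, fun _ => Nat.div_mul_cancel (hlinf h0)⟩
    have hnrl : nr < l := by
      by_cases h0 : einf = 0
      · rw [hnr1 h0]; exact hl
      · have h1 := hnr2 h0
        have h2 : 2 ≤ einf := heinf2 h0
        have h3 : nr * 2 ≤ nr * einf := Nat.mul_le_mul_left _ h2
        have h4 : 0 < nr := by
          rcases Nat.eq_zero_or_pos nr with h5 | h5
          · rw [h5, zero_mul] at h1
            exact absurd h1 hl.ne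
          · exact h5
        calc nr < nr * 2 := by linarith
          _ ≤ nr * einf := h3
          _ = l := h1
    have hrle : σ ^ nr ≤ v (c ^ k) := by
      rw [← hσl]
      exact pow_le_pow_right₀ hσ1.le hnrl.le
    refine expRed_unif v hcop D hd g1 hqd hpd hpd' g2 g3 g4 heinf1 (r := σ ^ nr) (σ := σ) hσ1
      (one_le_pow₀ hσ1.le) ?_ (fun z => (σ ^ (l / e z))⁻¹) (fun z => l + l / e z) ?_ ?_ ?_ ?_
      ⟨nr, rfl⟩ (nr * (einf - 1)) ?_ ?_ ?_ ?_
    · rw [← hσl]
      exact pow_lt_pow_right₀ hσ1 hnrl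
    · intro z _
      positivity
    · intro z hz
      rw [inv_pow, ← pow_mul, Nat.div_mul_cancel (hlz z hz), hσl]
      exact inv_mul_cancel₀ (by linarith)
    · intro z _
      rw [pow_add, hσl]
      field_simp
    · intro z _ _
      refine ⟨l / e z + nr, ?_⟩
      rw [pow_add]
      field_simp
    · intro h0
      rw [hnr1 h0, pow_zero]
    · intro h0
      have h1 := hnr2 h0
      have h4 : nr ≠ 0 := by
        rintro h5
        rw [h5, zero_mul] at h1
        exact hl.ne h1
      refine ⟨one_lt_pow₀ hσ1 h4, g5 h0, ?_, ?_, ?_⟩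
      · rw [← pow_mul, h1, hσl]
      · rw [pow_mul]
      · have : 1 ≤ einf - 1 := Nat.le_sub_of_add_le (heinf2 h0)
        exact Nat.mul_pos (Nat.pos_of_ne_zero h4) this
    · have e1 : σ ^ (l * (2 * d + d * (d - 1))) =
          v (c ^ k) ^ (2 * d) * v (c ^ k) ^ (d * (d - 1)) := by
        rw [← pow_add, ← hσl, ← pow_mul]
      rw [e1]
      exact mul_le_mul_of_nonneg_left (pow_le_pow_left₀ (by positivity) hrle _)
        (by positivity)
    · intro z w i j hz hw
      exact pow_cond v hc0 hl hl2 (pow_pos hσ0 nr) hσ0 hσl z w i j hz hw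

open Classical in
/-- The families at one place, simple poles. -/
theorem Loc.simple {v : FinitePlace K} {Z : Finset K} {e : K → ℕ} {p : K[X]} (h : Loc v Z e p)
    {d m k : ℕ} (hd : 2 ≤ d) (hmax : max p.natDegree (∑ z ∈ Z, e z) = d)
    (he : ∀ z ∈ Z, e z = 1) (hc2 : ¬ ∑ z ∈ Z, e z < p.natDegree) (hk1 : m ∣ 2 * k) (c : K) :
    PotGoodRed v (p + C (c ^ k) * den Z e) (den Z e) d ∨
      ExpRed v m d (2 * d + d * (d - 1)) (p + C (c ^ k) * den Z e) (den Z e) d := by
  have D := h.data hmax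
  rw [show p.natDegree - ∑ z ∈ Z, e z = 0 by omega] at D
  have g1 := den_int v h.zint (e := e)
  have g3 : v (den Z e).leadingCoeff = 1 := by rw [(den_monic Z e).leadingCoeff, map_one]
  have hqd : (den Z e).natDegree + 0 = d := by rw [den_natDegree]; omega
  have hpd : p.natDegree ≤ d := by omega
  have g4 : v (resultant p (den Z e) d d) = 1 := by
    refine den_resultant v hpd (by omega) h.pz fun h0 => ?_
    exact absurd (by omega) h0
  have hcop : IsCoprime p (den Z e) := den_coprime fun z hz h0 => by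
    have := h.pz z hz
    rw [h0, map_zero] at this
    exact zero_ne_one this
  rcases le_or_gt (v (c ^ k)) 1 with hlam | hlam
  · left
    exact potGood v D.pint g1 (by omega) g4 hlam
  · right
    have hc0 := ne_zero_of_lt v hlam
    have hΛ0 : 0 < v (c ^ k) := by linarith
    refine expRed_unif v hcop D hd g1 hqd hpd (fun h => absurd rfl h) (fun h => absurd rfl h) g3 g4
      (by omega) (r := 1) (σ := v (c ^ k) ^ 2)
      (one_lt_pow₀ hlam (by norm_num)) le_rfl hlam (fun _ => (v (c ^ k))⁻¹) (fun _ => 1)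
      ?_ ?_ ?_ ?_ ⟨0, pow_zero _⟩ 0 (fun _ => rfl) (fun h => absurd rfl h) ?_ ?_
    · intro z _
      positivity
    · intro z hz
      rw [he z hz, pow_one]
      exact inv_mul_cancel₀ hΛ0.ne'
    · intro z _
      rw [pow_one, pow_two]
      exact mul_inv_cancel_right₀ hΛ0.ne' _
    · intro z hz h2
      rw [he z hz] at h2
      omega
    · rw [one_pow, mul_one, ← pow_mul]
      exact pow_le_pow_right₀ hlam.le (by nlinarith [Nat.zero_le (d * (d - 1))])
    · intro z w i j hz hw
      obtain ⟨s, hs⟩ := hk1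
      refine ⟨c ^ ((s : ℤ) * (i - j)), ?_⟩
      have hcp : 0 < v c := FinitePlace.pos_iff.2 hc0
      have e1 : v (c ^ ((s : ℤ) * (i - j))) ^ m = (v (c ^ k) ^ 2) ^ (i - j) := by
        rw [map_zpow₀, map_pow, ← zpow_natCast, ← zpow_natCast, ← zpow_natCast, ← zpow_mul,
          ← zpow_mul, ← zpow_mul]
        congr 1
        have : (2 * k : ℤ) = m * s := by exact_mod_cast hs
        push_cast
        linear_combination (-(i - j)) * this
      rw [e1, hz, hw, one_mul, one_mul, ← zpow_add₀ (by positivity)]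
      congr 1
      ring

end place

end FamU

lemma ExpRed.mono {K : Type} [Field K] {v : K → ℝ} {m q₀ b b' : ℕ} {p q : K[X]} {d : ℕ}
    (hres0 : ∀ x : K, 0 ≤ v x) (hb : b ≤ b') (h : ExpRed v m q₀ b p q d) :
    ExpRed v m q₀ b' p q d := by
  obtain ⟨a₁, a₂, a₃, a₄, γ, P, Q, r, σ, h1, h2, h3, h4, h5, h6, h7, h8, h9, h10⟩ := h
  refine ⟨a₁, a₂, a₃, a₄, γ, P, Q, r, σ, h1, h2, h3, h4, h5, h6, h7, h8.trans ?_, h9, h10⟩
  exact mul_le_mul_of_nonneg_left (pow_le_pow_right₀ h6.le hb) (hres0 _)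

open FamU Fam in
lemma exists_level_le (S : Finset ℕ) {k m : ℕ} (hS : ∀ a ∈ S, 0 < a ∧ m ∣ k / Nat.gcd a k)
    (hk : m ∣ k) : ∃ l : ℕ, 0 < l ∧ (∀ a ∈ S, a ∣ l) ∧ m ∣ k / Nat.gcd l k ∧ l ∣ ∏ a ∈ S, a := by
  classical
  induction S using Finset.induction_on with
  | empty => exact ⟨1, one_pos, by simp, by simpa using hk, one_dvd _⟩
  | insert a S ha ih =>
    obtain ⟨l, hl, h1, h2, h5⟩ := ih (fun b hb => hS b (Finset.mem_insert_of_mem hb))
    obtain ⟨h3, h4⟩ := hS a (Finset.mem_insert_self a S)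
    refine ⟨Nat.lcm a l, Nat.lcm_pos h3 hl, ?_, good_lcm h3.ne' hl.ne' h4 h2, ?_⟩
    · intro b hb
      rcases Finset.mem_insert.1 hb with rfl | hb
      · exact Nat.dvd_lcm_left _ _
      · exact (h1 b hb).trans (Nat.dvd_lcm_right _ _)
    · rw [Finset.prod_insert ha]
      exact Nat.lcm_dvd (Dvd.intro _ rfl) (h5.trans (Dvd.intro_left _ rfl))

open FamU Fam in
/-- The families `p / q + c ^ k` where `q` is a product of powers of linear factors, uniformly. -/
theorem multi_nice (K : Type) [Field K] [NumberField K] (d m k : ℕ) (hd : 2 ≤ d) (hk1 : m ∣ 2 * k)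
    (v : FinitePlace K) (p : K[X]) (Z : Finset K) (e : K → ℕ) (h : Loc v Z e p)
    (hmax : max p.natDegree (∑ z ∈ Z, e z) = d) (hne : p.natDegree ≠ ∑ z ∈ Z, e z + 1)
    (he : ∀ z ∈ Z, e z = 1 ∨ m ∣ k / Nat.gcd (e z) k)
    (hinf : ∑ z ∈ Z, e z < p.natDegree → m ∣ k / Nat.gcd (p.natDegree - ∑ z ∈ Z, e z) k) (c : K) :
      PotGoodRed v (p + C (c ^ k) * den Z e) (den Z e) d ∨
        ExpRed v m d (d.factorial * (2 * d + d * (d - 1))) (p + C (c ^ k) * den Z e)
          (den Z e) d := by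
  classical
  by_cases hmk : m ∣ k
  · obtain ⟨l, hl, hl1, hl2, hl3⟩ :=
      exists_level_le ((Finset.Icc 1 d).filter fun a => m ∣ k / Nat.gcd a k) (k := k) (m := m) (by
        intro a ha
        rw [Finset.mem_filter, Finset.mem_Icc] at ha
        exact ⟨ha.1.1, ha.2⟩) hmk
    have hld : l ≤ d.factorial := by
      refine Nat.le_of_dvd (Nat.factorial_pos d) (hl3.trans ?_)
      have h0 : ∏ a ∈ Finset.Icc 1 d, a = d.factorial := by
        rw [← Finset.prod_range_add_one_eq_factorial, Finset.range_eq_Ico,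
          Finset.prod_Ico_add' (fun i => i) 0 d 1]
        rfl
      rw [← h0]
      exact Finset.prod_dvd_prod_of_subset _ _ _ (Finset.filter_subset _ _)
    refine (h.multi hd hmax hne hl hl2 (fun z hz => ?_) (fun h0 => ?_) c).imp id fun h1 =>
      h1.mono (fun x => apply_nonneg v x) (Nat.mul_le_mul_right _ hld)
    · refine hl1 _ ?_
      rw [Finset.mem_filter, Finset.mem_Icc]
      have h1 : e z ≤ ∑ z ∈ Z, e z := Finset.single_le_sum (fun _ _ => Nat.zero_le _) hz
      refine ⟨⟨(h.he z hz).1, by omega⟩, ?_⟩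
      rcases he z hz with h2 | h2
      · rw [h2, Nat.gcd_one_left, Nat.div_one]
        exact hmk
      · exact h2
    · refine hl1 _ ?_
      rw [Finset.mem_filter, Finset.mem_Icc]
      exact ⟨⟨by omega, by omega⟩, hinf h0⟩
  · have hdvd : ∀ a, m ∣ k / Nat.gcd a k → m ∣ k := fun a h =>
      h.trans (Nat.div_dvd_of_dvd (Nat.gcd_dvd_right _ _))
    refine (h.simple hd hmax (fun z hz => ?_) (fun h0 => hmk (hdvd _ (hinf h0))) hk1 c).imp id
      fun h1 => h1.mono (fun x => apply_nonneg v x) ?_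
    · rcases he z hz with h2 | h2
      · exact h2
      · exact absurd (hdvd _ h2) hmk
    · exact Nat.le_mul_of_pos_left _ (Nat.factorial_pos d)

end Pool.Agent.MP90787a.P1
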