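import Pool.Agent.Lib.MP_90787a_nt.P1.Fam1
import Pool.Agent.Lib.MP_90787a_nt.P1.FamU
import Pool.Agent.Lib.MP_90787a_nt.G.PencilE

set_option autoImplicit false

/-!
The families `p / (z - a) ^ d + c ^ k`, uniformly in `p` and `a`.
-/

namespace Pool.Agent.MP90787a.P1

open Polynomial NumberField Height Pool.Agent.UBC90787a

open Fam1 G.Translates in
/-- The families with one pole, at one place. -/
theorem one_pole_local {K : Type} [Field K] [NumberField K] (v : FinitePlace K) {p : K[X]} {a : K}
    {d : ℕ} (hd : 2 ≤ d) (hp : p.natDegree ≤ d) {m k : ℕ}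
    (hm : m ∣ (d + 1) * (k / Nat.gcd d k)) (hpi : ∀ i, v (p.coeff i) ≤ 1) (hva : v a ≤ 1)
    (hvpa : v (p.eval a) = 1) (hvd : v (d : K) = 1) (c : K) :
    PotGoodRed v (p + C (c ^ k) * (X - C a) ^ d) ((X - C a) ^ d) d ∨
      ExpRed v m d d (p + C (c ^ k) * (X - C a) ^ d) ((X - C a) ^ d) d := by
  classical
  set T : K[X] := taylor a p with hT
  have hTd : T.natDegree ≤ d := by rw [hT, natDegree_taylor]; exact hp
  have hT0 : T.coeff 0 = p.eval a := taylor_coeff_zero a p
  have hTi : ∀ i, v (T.coeff i) ≤ 1 := G.PencilE.taylor_coeff_le_one v hpi hva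
  have hqd : ((X - C a) ^ d : K[X]).natDegree = d := by
    rw [natDegree_pow, natDegree_X_sub_C, mul_one]
  have hqi : ∀ i, v (((X - C a) ^ d : K[X]).coeff i) ≤ 1 :=
    FamU.int_pow v (FamU.int_lin v hva) d
  have hvT0 : v (T.coeff 0) = 1 := by rw [hT0]; exact hvpa
  obtain ⟨lam, hlam⟩ : ∃ lam : K, lam = c ^ k := ⟨_, rfl⟩
  rw [← hlam]
  have hNd : (p + C lam * (X - C a) ^ d).natDegree ≤ d :=
    natDegree_add_le_of_degree_le hp ((natDegree_C_mul_le _ _).trans hqd.le)
  rcases le_or_gt (v lam) 1 with hl | hl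
  · left
    refine potGood_of_int v (fun i => ?_) hqi ?_
    · rw [coeff_add, coeff_C_mul]
      refine (FinitePlace.add_le v _ _).trans (max_le (hpi i) ?_)
      rw [map_mul]
      exact mul_le_one₀ hl (apply_nonneg v _) (hqi i)
    · rw [resultant_X_sub_C_pow_right _ _ _ _ hNd]
      simp only [eval_add, eval_mul, eval_C, eval_pow, eval_sub, eval_X, sub_self]
      rw [zero_pow (by omega), mul_zero, add_zero]
      simp only [map_mul, map_pow, map_neg_eq_map, map_one, one_pow, one_mul, hvpa]
  · right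
    obtain ⟨R, hR, hRd⟩ := exists_root hl (n := d) (by omega)
    have hR0 : 0 < R := by linarith
    have hr0 : 0 < R⁻¹ := by positivity
    have hr1 : R⁻¹ < 1 := inv_lt_one_of_one_lt₀ hR
    have hRd1 : 1 < R ^ d := by rw [hRd]; exact hl
    set μ : K := lam - a with hμd
    set γ : K := T.coeff d + μ with hγd
    have hμ : v μ = R ^ d := by
      rw [hμd, sub_eq_add_neg, add_comm, add_eq_of_lt v, hRd]
      rw [map_neg_eq_map]
      exact hva.trans_lt hl
    have hvγ : v γ = R ^ d := by
      rw [hγd, add_eq_of_lt v, hμ]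
      rw [hμ]
      exact (hTi d).trans_lt hRd1
    have hγ : γ ≠ 0 := by
      rw [← FinitePlace.pos_iff (w := v), hvγ]
      positivity
    have hPc : ∀ i, (C γ⁻¹ * (T + C μ * X ^ d)).coeff i =
        γ⁻¹ * (T.coeff i + if i = d then μ else 0) := by
      intro i
      rw [coeff_C_mul, coeff_add, coeff_C_mul_X_pow]
    have hPd : (C γ⁻¹ * (T + C μ * X ^ d)).coeff d = 1 := by
      rw [hPc, if_pos rfl]
      exact inv_mul_cancel₀ hγ
    have hPdeg : (C γ⁻¹ * (T + C μ * X ^ d)).natDegree ≤ d :=
      (natDegree_C_mul_le _ _).trans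
        (natDegree_add_le_of_degree_le hTd (natDegree_C_mul_X_pow_le _ _))
    have hPdeg' : (C γ⁻¹ * (T + C μ * X ^ d)).natDegree = d :=
      le_antisymm hPdeg (le_natDegree_of_ne_zero (by rw [hPd]; exact one_ne_zero))
    have hQdeg : (C γ⁻¹ * X ^ d : K[X]).natDegree ≤ d := natDegree_C_mul_X_pow_le _ _
    refine ⟨1, a, 0, 1, γ, C γ⁻¹ * (T + C μ * X ^ d), C γ⁻¹ * X ^ d, R⁻¹, R ^ (d + 1), ?_, ?_,
      hPdeg', hQdeg, hr0, one_lt_pow₀ hR (by omega), ?_, ?_,
      colour v (by omega) hTi hvT0 hvd hR hμ hγ, ?_⟩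
    · -- conjugation
      refine ⟨by rw [mul_one, mul_zero, sub_zero]; exact one_ne_zero, hγ, fun x y => ?_⟩
      have e1 : (1 * x + a * y, 0 * x + 1 * y) = ((x + a * y, y) : K × K) := by
        ext <;> simp
      have hX : taylor a ((X - C a) ^ d : K[X]) = X ^ d := by
        rw [taylor_pow, map_sub, taylor_X, taylor_C, add_sub_cancel_right]
      have hN : taylor a (p + C lam * (X - C a) ^ d) = T + C lam * X ^ d := by
        rw [map_add, taylor_mul, taylor_C, hX]
      rw [e1, homog_taylor hNd, homog_taylor hqd.le, hN, hX, homog_C_mul, homog_C_mul,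
        homog_add', homog_add', homog_C_mul, homog_C_mul]
      constructor
      · rw [hμd]
        field_simp
        ring
      · field_simp
        ring
    · rw [Monic, leadingCoeff, hPdeg', hPd]
    · intro i hi
      constructor
      · rcases hi.lt_or_eq with h | h
        · rw [hPc, if_neg h.ne, add_zero, map_mul, map_inv₀, hvγ, ← inv_pow]
          calc R⁻¹ ^ d * v (T.coeff i) ≤ R⁻¹ ^ d * 1 :=
                mul_le_mul_of_nonneg_left (hTi i) (by positivity)
            _ ≤ R⁻¹ ^ (d - i) := by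
                rw [mul_one]
                exact pow_le_pow_of_le_one hr0.le hr1.le (by omega)
        · rw [h, hPd, map_one, Nat.sub_self, pow_zero]
      · rw [coeff_C_mul_X_pow]
        split_ifs with h
        · rw [map_inv₀, hvγ, ← inv_pow]
          calc R⁻¹ ^ d * R⁻¹ ^ (i + 1) < R⁻¹ ^ d * 1 := by
                apply mul_lt_mul_of_pos_left _ (by positivity)
                exact pow_lt_one₀ hr0.le hr1 (by omega)
            _ = R⁻¹ ^ d := mul_one _
        · rw [map_zero, zero_mul]
          positivity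
    · rw [res_val v (by omega) hTd hvT0 hR hvγ]
      apply le_of_eq
      obtain ⟨n, rfl⟩ : ∃ n, d = n + 1 := ⟨d - 1, by omega⟩
      rw [Nat.add_sub_cancel, ← pow_mul, inv_pow, inv_pow, inv_mul_eq_div, eq_div_iff
        (by positivity), inv_mul_eq_iff_eq_mul₀ (by positivity), ← pow_add]
      congr 1
      ring
    · -- power condition
      intro z w i j hz hw
      have hσ0 : (0 : ℝ) < R ^ (d + 1) := by positivity
      have hz0 : z ≠ 0 := by
        rw [← FinitePlace.pos_iff (w := v), hz]
        positivity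
      have hw0 : w ≠ 0 := by
        rw [← FinitePlace.pos_iff (w := v), hw]
        positivity
      have hlam0 : lam ≠ 0 := by
        rw [← FinitePlace.pos_iff (w := v)]
        linarith
      have hk0 : k ≠ 0 := by
        rintro rfl
        rw [hlam, pow_zero, map_one] at hl
        exact lt_irrefl _ hl
      have hc0 : c ≠ 0 := by
        rintro rfl
        rw [hlam, zero_pow hk0] at hlam0
        exact hlam0 rfl
      -- `t = i - j`, `|z / w| = R ^ ((d + 1) t)`
      have hzw : v (z / w) = R ^ (((d : ℤ) + 1) * (i - j)) := by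
        rw [map_div₀, hz, hw, mul_div_mul_left _ _ hr0.ne', ← zpow_sub₀ hσ0.ne', ← zpow_natCast R,
          ← zpow_mul]
        push_cast
        rfl
      set y : K := z / w * lam ^ (-(i - j)) with hy
      have hvy : v y = R ^ (i - j) := by
        rw [hy, map_mul, hzw, map_zpow₀, ← hRd, ← zpow_natCast R, ← zpow_mul,
          ← zpow_add₀ hR0.ne']
        congr 1
        ring
      have hy0 : y ≠ 0 := by
        rw [← FinitePlace.pos_iff (w := v), hvy]
        positivity
      have hpow : v y ^ d = v (c ^ (i - j)) ^ k := by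
        rw [hvy, map_zpow₀, ← zpow_natCast, ← zpow_mul, ← zpow_natCast, ← zpow_mul, mul_comm,
          mul_comm (i - j) (k : ℤ), zpow_mul, zpow_mul, zpow_natCast, zpow_natCast, hRd, hlam,
          map_pow]
      obtain ⟨y', hy'⟩ := root_val v hy0 (c := c ^ (i - j)) (zpow_ne_zero _ hc0)
        (n := d) (k := k) (by omega) hpow
      obtain ⟨s, hs⟩ := hm
      refine ⟨y' ^ s, ?_⟩
      have h1 : v (z / w) = v (y' ^ s) ^ m := by
        rw [hzw, mul_comm ((d : ℤ) + 1), zpow_mul, ← hvy, hy']
        have : ((v y' ^ (k / Nat.gcd d k)) ^ ((d : ℤ) + 1) : ℝ) =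
            (v y' ^ (k / Nat.gcd d k)) ^ (d + 1) := by
          exact_mod_cast rfl
        rw [this, ← pow_mul, mul_comm (k / Nat.gcd d k), hs, map_pow, ← pow_mul, mul_comm s m]
      rw [← h1, map_div₀]
      have : v w ≠ 0 := by
        rw [Ne, map_eq_zero]
        exact hw0
      field_simp

end Pool.Agent.MP90787a.P1
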