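import Pool.Agent.Lib.MP_90787a_nt.P1.Defs

set_option autoImplicit false

/-!
Explicit rational maps with potentially good or expanding reduction outside `S`.
-/

namespace Pool.Agent.MP90787a.P1

open Polynomial NumberField

/-- The coefficients of `f` are integral outside `S`. -/
def IntS {K : Type} [Field K] [NumberField K] (S : Finset (FinitePlace K)) (f : K[X]) : Prop :=
  ∀ v : FinitePlace K, v ∉ S → ∀ i : ℕ, v (f.coeff i) ≤ 1

/-- `x` is a unit outside `S`. -/
def UnitS {K : Type} [Field K] [NumberField K] (S : Finset (FinitePlace K)) (x : K) : Prop :=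
  x ≠ 0 ∧ ∀ v : FinitePlace K, v ∉ S → v x = 1

/-- Explicit rational maps `p / q` of degree `d` with potentially good or expanding reduction
outside `S`, with exponent `m`. -/
inductive Fam {K : Type} [Field K] [NumberField K] (S : Finset (FinitePlace K)) (d m : ℕ) :
    K[X] → K[X] → Prop
  /-- Polynomials `f`; outside `S`, either `f` is integral or `|f_i| ≤ r ^ (d - i)` for all `i`,
  where `|disc f| = r ^ (d (d - 1))`. -/
  | poly (f : K[X]) : m ∣ d - 1 → f.natDegree = d → UnitS S f.leadingCoeff →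
      (∀ v : FinitePlace K, v ∉ S → (∀ i, v (f.coeff i) ≤ 1) ∨
        ∀ i ≤ d, v (f.coeff i) ^ (d * (d - 1)) ≤ v (discr f) ^ (d - i)) → Fam S d m f 1
  /-- The maps `p / z ^ d`; outside `S`, either `p` is integral or `|p_i| ≤ r ^ i` for all `i`, with
  equality for `i = d`, where `|disc p| = r ^ (d (d - 1))`. -/
  | pole (p : K[X]) : m ∣ d + 1 → p.natDegree ≤ d → UnitS S (p.coeff 0) →
      (∀ v : FinitePlace K, v ∉ S → (∀ i, v (p.coeff i) ≤ 1) ∨
        ((∀ i ≤ d, v (p.coeff i) ^ (d * (d - 1)) ≤ v (discr p) ^ i) ∧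
          v (p.coeff d) ^ (d * (d - 1)) = v (discr p) ^ d)) → Fam S d m p (X ^ d)
  /-- The maps `c F / G` where `F / G` has good reduction outside `S` and, outside `S`, `|c|` is an
  `m`-th power, `F` has `d` different finite zeros in the residue field if `|c| > 1`, and `G` has
  `d` different zeros `≠ 0` (one of which may be infinite) if `|c| < 1`. -/
  | dil (F G : K[X]) (c : K) : IsCoprime F G → max F.natDegree G.natDegree = d → IntS S F →
      IntS S G → UnitS S (resultant F G d d) → c ≠ 0 →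
      (∀ v : FinitePlace K, v ∉ S → (∃ e : K, v c = v e ^ m) ∧
        (1 < v c → v (F.coeff d) = 1 ∧ v (discr F) = 1) ∧
        (v c < 1 → v (G.coeff 0) = 1 ∧ v (discr (G.reflect d)) = 1)) → Fam S d m (C c * F) G
  /-- The polynomials `g + c ^ k h`. -/
  | pencil (g h A A' : K[X]) (c : K) (k : ℕ) : g.natDegree = d →
      (h.natDegree ≤ 1 ∧ m ∣ (d - 1) * (k / Nat.gcd (d - h.natDegree) k) ∨
        h.natDegree + 2 ≤ d ∧ m ∣ k / Nat.gcd (d - h.natDegree) k) →
      UnitS S ((d - h.natDegree : ℕ) : K) → IntS S g → IntS S h → IntS S A → IntS S A' →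
      A * h + A' * derivative h = 1 → UnitS S g.leadingCoeff → UnitS S h.leadingCoeff →
      Fam S d m (g + C (c ^ k) * h) 1
  /-- The maps `p / (z - a) ^ d + c ^ k`. -/
  | single (p : K[X]) (a c : K) (k : ℕ) : m ∣ (d + 1) * (k / Nat.gcd d k) → UnitS S (d : K) →
      p.natDegree ≤ d → IntS S p → IntS S (C a) → UnitS S (p.eval a) →
      Fam S d m (p + C (c ^ k) * (X - C a) ^ d) ((X - C a) ^ d)
  /-- The maps `p / q + c ^ k`, where `q` is the product of the `(z - a) ^ e a`, `a ∈ Z`. -/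
  | multi (p q : K[X]) (Z : Finset K) (e : K → ℕ) (c : K) (k : ℕ) : m ∣ 2 * k →
      q = ∏ a ∈ Z, (X - C a) ^ e a → max p.natDegree q.natDegree = d → IntS S p →
      (∀ a ∈ Z, IntS S (C a) ∧ UnitS S (p.eval a) ∧ UnitS S (e a : K) ∧
        (e a = 1 ∨ m ∣ k / Nat.gcd (e a) k) ∧ ∀ a' ∈ Z, a ≠ a' → UnitS S (a - a')) →
      (q.natDegree < p.natDegree → UnitS S p.leadingCoeff ∧
        UnitS S ((p.natDegree - q.natDegree : ℕ) : K) ∧ p.natDegree ≠ q.natDegree + 1 ∧
        m ∣ k / Nat.gcd (p.natDegree - q.natDegree) k) → Fam S d m (p + C (c ^ k) * q) q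

end Pool.Agent.MP90787a.P1
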