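import Pool.Agent.Lib.MP_90787a_nt.P1.Base
import Pool.Agent.Lib.MP_90787a_nt.G.ExpTree
import Pool.Agent.Lib.MP_90787a_nt.R.Ultra

set_option autoImplicit false

/-!
Polynomials with good or expanding reduction.
-/

namespace Pool.Agent.MP90787a.P1

open Polynomial NumberField Height Pool.Agent.UBC90787a

namespace Poly

/-! ### Forms -/

section forms

variable {L : Type*} [Field L] {d : ℕ}

lemma homog_const (c : L) (x y : L) : homog (C c) d (x, y) = c * y ^ d := by
  unfold homog
  rw [Finset.sum_eq_single 0]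
  · simp
  · intro i _ hi
    rw [coeff_C, if_neg hi]
    ring
  · intro h
    exact absurd (Finset.mem_range.mpr (Nat.succ_pos d)) h

/-- Translations of forms. -/
lemma homog_taylor {p : L[X]} (hp : p.natDegree = d) (t x y : L) :
    homog p d (x + t * y, y) = homog (taylor t p) d (x, y) := by
  rcases eq_or_ne y 0 with rfl | hy
  · rw [mul_zero, add_zero, homog_infty, homog_infty]
    have h := coeff_taylor_natDegree (r := t) (f := p)
    rw [hp] at h
    rw [h, ← hp, coeff_natDegree]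
  · rw [homog_of_ne hp.le (by simpa using hy),
      homog_of_ne (by rw [natDegree_taylor, hp]) (by simpa using hy), taylor_eval]
    congr 2
    field_simp

end forms

/-! ### Good reduction -/

theorem good_aux {L : Type} [NormedField L] [IsUltrametricDist L] {g : L[X]} {d : ℕ}
    (hg : g.natDegree = d) (hd : 2 ≤ d) {t s : L} {r : ℝ} (hs : ‖s‖ ^ 2 = r) (hs0 : s ≠ 0)
    (h1 : ‖g.leadingCoeff‖ * r ^ (d - 1) = 1)
    (hc : ∀ i < d, ‖(taylor t g - C t).coeff i‖ ≤ ‖g.leadingCoeff‖ * r ^ (d - i)) (x y : L) :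
    ‖s ^ (d - 1) * (s⁻¹ * homog g d (s * x + (t * s⁻¹) * y, 0 * x + s⁻¹ * y) -
      (t * s⁻¹) * homog (1 : L[X]) d (s * x + (t * s⁻¹) * y, 0 * x + s⁻¹ * y))‖ ≤
      max ‖x‖ ‖y‖ ^ d ∧
    ‖s ^ (d - 1) * (s * homog (1 : L[X]) d (s * x + (t * s⁻¹) * y, 0 * x + s⁻¹ * y) -
      0 * homog g d (s * x + (t * s⁻¹) * y, 0 * x + s⁻¹ * y))‖ ≤ max ‖x‖ ‖y‖ ^ d := by
  have hsn : 0 < ‖s‖ := norm_pos_iff.mpr hs0
  have hm : 0 ≤ max ‖x‖ ‖y‖ := (norm_nonneg x).trans (le_max_left _ _)
  have e1 : s * x + (t * s⁻¹) * y = s * x + t * (s⁻¹ * y) := by ring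
  have e2 : 0 * x + s⁻¹ * y = s⁻¹ * y := by ring
  have hone : homog (1 : L[X]) d (s * x + t * (s⁻¹ * y), s⁻¹ * y) = (s⁻¹ * y) ^ d := by
    have := homog_const (d := d) (1 : L) (s * x + t * (s⁻¹ * y)) (s⁻¹ * y)
    rw [C_1, one_mul] at this
    exact this
  rw [e1, e2, hone, homog_taylor hg]
  constructor
  · have e3 : s ^ (d - 1) * (s⁻¹ * homog (taylor t g) d (s * x, s⁻¹ * y) -
        (t * s⁻¹) * (s⁻¹ * y) ^ d) =
        ∑ i ∈ Finset.range (d + 1), s ^ (d - 2) *
          ((taylor t g - C t).coeff i * (s * x) ^ i * (s⁻¹ * y) ^ (d - i)) := by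
      have e4 : s ^ (d - 1) = s ^ (d - 2) * s := by
        rw [← pow_succ]; congr 1; omega
      have e5 : homog (taylor t g) d (s * x, s⁻¹ * y) - t * (s⁻¹ * y) ^ d =
          homog (taylor t g - C t) d (s * x, s⁻¹ * y) := by
        rw [homog_sub, homog_const]
      rw [← Finset.mul_sum]
      have e6 : homog (taylor t g - C t) d (s * x, s⁻¹ * y) = ∑ i ∈ Finset.range (d + 1),
          ((taylor t g - C t).coeff i * (s * x) ^ i * (s⁻¹ * y) ^ (d - i)) := rfl
      rw [← e6, ← e5, e4]
      field_simp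
    rw [e3]
    refine IsUltrametricDist.norm_sum_le_of_forall_le_of_nonneg (by positivity) fun i hi => ?_
    rw [Finset.mem_range] at hi
    have hcoef : ‖(taylor t g - C t).coeff i‖ ≤ ‖g.leadingCoeff‖ * r ^ (d - i) := by
      rcases Nat.lt_or_ge i d with hid | hid
      · exact hc i hid
      · have hid' : i = d := by omega
        subst hid'
        rw [coeff_sub, coeff_C, if_neg (by omega), sub_zero, ← hg, coeff_taylor_natDegree,
          Nat.sub_self, pow_zero, mul_one]
    have h2 : ‖(taylor t g - C t).coeff i‖ * ‖s‖ ^ (d - 2) * ‖s‖ ^ i ≤ ‖s‖ ^ (d - i) := by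
      calc ‖(taylor t g - C t).coeff i‖ * ‖s‖ ^ (d - 2) * ‖s‖ ^ i
          ≤ (‖g.leadingCoeff‖ * r ^ (d - i)) * ‖s‖ ^ (d - 2) * ‖s‖ ^ i := by gcongr
        _ = (‖g.leadingCoeff‖ * r ^ (d - 1)) * ‖s‖ ^ (d - i) := by
            rw [← hs, ← pow_mul, ← pow_mul, mul_assoc, mul_assoc, mul_assoc, ← pow_add, ← pow_add,
              ← pow_add]
            congr 2
            omega
        _ = ‖s‖ ^ (d - i) := by rw [h1, one_mul]
    have h3 : ‖x‖ ^ i * ‖y‖ ^ (d - i) ≤ max ‖x‖ ‖y‖ ^ d := by
      calc ‖x‖ ^ i * ‖y‖ ^ (d - i) ≤ max ‖x‖ ‖y‖ ^ i * max ‖x‖ ‖y‖ ^ (d - i) :=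
            mul_le_mul (pow_le_pow_left₀ (norm_nonneg _) (le_max_left _ _) _)
              (pow_le_pow_left₀ (norm_nonneg _) (le_max_right _ _) _)
              (by positivity) (by positivity)
        _ = max ‖x‖ ‖y‖ ^ d := by
            rw [← pow_add]; congr 1; omega
    simp only [norm_mul, norm_pow, norm_inv, mul_pow, inv_pow]
    calc ‖s‖ ^ (d - 2) * (‖(taylor t g - C t).coeff i‖ * (‖s‖ ^ i * ‖x‖ ^ i) *
          ((‖s‖ ^ (d - i))⁻¹ * ‖y‖ ^ (d - i)))
        = (‖(taylor t g - C t).coeff i‖ * ‖s‖ ^ (d - 2) * ‖s‖ ^ i) * (‖s‖ ^ (d - i))⁻¹ *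
            (‖x‖ ^ i * ‖y‖ ^ (d - i)) := by ring
      _ ≤ ‖s‖ ^ (d - i) * (‖s‖ ^ (d - i))⁻¹ * max ‖x‖ ‖y‖ ^ d := by gcongr
      _ = max ‖x‖ ‖y‖ ^ d := by
          rw [mul_inv_cancel₀ (by positivity), one_mul]
  · have e3 : s ^ (d - 1) * (s * (s⁻¹ * y) ^ d - 0 * homog (taylor t g) d (s * x, s⁻¹ * y)) =
        y ^ d := by
      have e4 : s ^ d = s ^ (d - 1) * s := by
        rw [← pow_succ]; congr 1; omega
      rw [zero_mul, sub_zero, ← mul_assoc, ← e4, ← mul_pow, ← mul_assoc,
        mul_inv_cancel₀ hs0, one_mul]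
    rw [e3, norm_pow]
    exact pow_le_pow_left₀ (norm_nonneg _) (le_max_right _ _) _

end Poly

theorem potGoodRed_of_good {K : Type} [Field K] [NumberField K] (v : FinitePlace K) {f : K[X]}
    (hd : 2 ≤ f.natDegree) (h : G.Good v f) : PotGoodRed v f 1 f.natDegree := by
  obtain ⟨t, r, hE, hR⟩ := h
  obtain ⟨hr, _, hc⟩ := hE
  obtain ⟨L, _, _, _, ι, hι⟩ := exists_ultra_field v
  have ha0 : f.leadingCoeff ≠ 0 := by
    rw [Ne, leadingCoeff_eq_zero]
    rintro rfl
    simp at hd
  have hιa : ι f.leadingCoeff ≠ 0 := (map_ne_zero ι).mpr ha0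
  -- an element of absolute value `r`
  obtain ⟨e, he⟩ := IsAlgClosed.exists_pow_nat_eq (ι f.leadingCoeff)⁻¹
    (n := f.natDegree - 1) (by omega)
  have hen : ‖e‖ = r := by
    have h1 : ‖e‖ ^ (f.natDegree - 1) = r ^ (f.natDegree - 1) := by
      rw [← norm_pow, he, norm_inv, hι]
      have hv : (v f.leadingCoeff : ℝ) ≠ 0 := by
        intro h0
        rw [h0, zero_mul] at hR
        exact zero_ne_one hR
      field_simp
      linarith
    exact (pow_left_inj₀ (norm_nonneg e) hr.le (by omega)).mp h1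
  obtain ⟨s, hs⟩ := IsAlgClosed.exists_pow_nat_eq e (n := 2) (by omega)
  have hsn : ‖s‖ ^ 2 = r := by rw [← norm_pow, hs, hen]
  have hs0 : s ≠ 0 := by
    rintro rfl
    rw [norm_zero] at hsn
    norm_num at hsn
    linarith
  refine ⟨L, inferInstance, inferInstance, inferInstance, ι, hι, s, ι t * s⁻¹, 0, s⁻¹,
    s ^ (f.natDegree - 1), ?_, ?_, ?_⟩
  · rw [mul_zero, sub_zero, mul_inv_cancel₀ hs0]
  · rw [resultant_one_right, coeff_natDegree, map_pow, norm_pow, norm_pow, hι, ← pow_mul]
    have e1 : ‖s‖ ^ ((f.natDegree - 1) * (2 * f.natDegree)) =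
        (r ^ (f.natDegree - 1)) ^ f.natDegree := by
      rw [← hsn, ← pow_mul, ← pow_mul]
      congr 1
      ring
    rw [e1, ← mul_pow, mul_comm, hR, one_pow]
  · intro x y P Q hP hQ
    have hg : (f.map ι).natDegree = f.natDegree := natDegree_map ι
    have hlc : ‖(f.map ι).leadingCoeff‖ = v f.leadingCoeff := by
      rw [leadingCoeff_map, hι]
    have hmain := Poly.good_aux (g := f.map ι) (t := ι t) hg hd hsn hs0 (by rw [hlc]; exact hR)
      (fun i hi => by
        have h1 : (taylor (ι t) (f.map ι) - C (ι t)).coeff i = ι ((conjPoly f 1 t).coeff i) := by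
          rw [conjPoly_one, coeff_sub, coeff_sub, map_sub, coeff_C, coeff_C, ← coeff_map]
          congr 1
          · congr 1
            rw [taylor_apply, taylor_apply, Polynomial.map_comp]
            simp
          · split_ifs <;> simp
        rw [h1, hι, hlc]
        exact hc i hi) x y
    rw [Real.exp_zero, one_mul, hP, hQ, Polynomial.map_one]
    exact max_le hmain.1 hmain.2

namespace Poly

open G.LocSimple

/-! ### Expanding reduction -/

section expanding

variable {K : Type} [Field K] [NumberField K] {u : FinitePlace K}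

/-- The points of the disc with centre `t` and radius `r` which are mapped into the disc. -/
def Pts (u : FinitePlace K) (f : K[X]) (t : K) (r : ℝ) : Set K :=
  {x | u (x - t) ≤ r ∧ u (f.eval x - t) ≤ r}

omit [NumberField K] in
/-- The derivative of a product of linear factors, at a point. -/
lemma deriv_prod [DecidableEq K] (A : Finset K) (p : K) :
    (derivative (∏ y ∈ A, (X - C y))).eval p = ∑ y ∈ A, ∏ z ∈ A.erase y, (p - z) := by
  rw [derivative_prod_finset, eval_finsetSum]
  refine Finset.sum_congr rfl fun y _ => ?_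
  rw [eval_mul, eval_prod]
  simp

/-- Among `d + 1` points of the disc mapped into the disc, two are close. -/
lemma few {f : K[X]} (hd : 2 ≤ f.natDegree) {t : K} {r : ℝ} (hr : 0 < r) (Y : Finset K)
    (hcard : Y.card = f.natDegree + 1) (hY : ∀ x ∈ Y, u (f.eval x - t) ≤ r)
    (hfar : ∀ x ∈ Y, ∀ y ∈ Y, x ≠ y → r < u (x - y) * u (f.derivative.eval x)) : False := by
  classical
  set W : K → ℝ := fun x => ∏ y ∈ Y.erase x, u (x - y) with hW
  have hne : Y.Nonempty := by
    rw [← Finset.card_pos, hcard]; omega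
  obtain ⟨p, hpY, hp⟩ := Y.exists_min_image W hne
  have hu0 : ∀ x : K, 0 ≤ u x := fun x => apply_nonneg u x
  have hdist : ∀ x ∈ Y, ∀ y ∈ Y, x ≠ y → 0 < u (x - y) := fun x _ y _ hxy =>
    FinitePlace.pos_iff.mpr (sub_ne_zero.mpr hxy)
  have hWpos : ∀ x ∈ Y, 0 < W x := fun x hx => Finset.prod_pos fun y hy => by
    rw [Finset.mem_erase] at hy
    exact hdist x hx y hy.2 (Ne.symm hy.1)
  set g : K[X] := f - C t with hg
  have hgd : g.natDegree = f.natDegree := by rw [hg, natDegree_sub_C]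
  have hder : derivative g = derivative f := by rw [hg]; simp
  have hint : g = Lagrange.interpolate Y (fun x : K => x) (fun x => g.eval x) := by
    apply Lagrange.eq_interpolate_of_eval_eq _ (Set.injOn_id _)
    · rw [hcard]
      refine (degree_le_natDegree).trans_lt ?_
      rw [hgd]
      exact_mod_cast Nat.lt_succ_self _
    · intro i _
      rfl
  have hD : f.derivative.eval p = ∑ x ∈ Y, g.eval x *
      (derivative (Lagrange.basis Y (fun x : K => x) x)).eval p := by
    rw [← hder]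
    conv_lhs => rw [hint]
    rw [Lagrange.interpolate_apply, derivative_sum, eval_finsetSum]
    refine Finset.sum_congr rfl fun x _ => ?_
    rw [derivative_C_mul, eval_mul, eval_C]
  have hl : 0 < u (f.derivative.eval p) := by
    obtain ⟨y, hy, hyp⟩ : ∃ y ∈ Y, y ≠ p := by
      by_contra hcon
      push Not at hcon
      have : Y ⊆ {p} := fun y hy => Finset.mem_singleton.mpr (hcon y hy)
      have := Finset.card_le_card this
      rw [hcard, Finset.card_singleton] at this
      omega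
    have h1 := hfar p hpY y hy (Ne.symm hyp)
    by_contra hcon
    have h2 : u (f.derivative.eval p) = 0 := le_antisymm (not_lt.mp hcon) (hu0 _)
    rw [h2, mul_zero] at h1
    linarith
  have hbasis : ∀ x ∈ Y, (derivative (Lagrange.basis Y (fun x : K => x) x)).eval p =
      (∏ y ∈ Y.erase x, (x - y)⁻¹) * ∑ y ∈ Y.erase x, ∏ z ∈ (Y.erase x).erase y, (p - z) := by
    intro x hx
    have e : Lagrange.basis Y (fun x : K => x) x =
        C (∏ y ∈ Y.erase x, (x - y)⁻¹) * ∏ y ∈ Y.erase x, (X - C y) := by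
      unfold Lagrange.basis Lagrange.basisDivisor
      rw [Finset.prod_mul_distrib, map_prod]
    rw [e, derivative_C_mul, eval_mul, eval_C, deriv_prod]
  have hlt : u (f.derivative.eval p) < u (f.derivative.eval p) := by
    conv_lhs => rw [hD]
    refine pl_sum_lt _ _ hl fun x hx => ?_
    have hgx : u (g.eval x) ≤ r := by
      rw [hg, eval_sub, eval_C]; exact hY x hx
    rw [hbasis x hx, map_mul, map_mul, map_prod]
    have hinv : ∏ y ∈ Y.erase x, u ((x - y)⁻¹) = (W x)⁻¹ := by
      rw [hW]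
      simp only [map_inv₀]
      rw [Finset.prod_inv_distrib]
    rw [hinv]
    -- the sum over the remaining points
    have hsum : ∀ y ∈ Y.erase x, y ≠ p → x ≠ p → ∏ z ∈ (Y.erase x).erase y, (p - z) = 0 := by
      intro y _ hyp hxp
      refine Finset.prod_eq_zero (i := p) ?_ (sub_self p)
      rw [Finset.mem_erase, Finset.mem_erase]
      exact ⟨Ne.symm hyp, Ne.symm hxp, hpY⟩
    by_cases hxp : x = p
    · subst hxp
      have h1 : u (∑ y ∈ Y.erase x, ∏ z ∈ (Y.erase x).erase y, (x - z)) <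
          W x * u (f.derivative.eval x) / r := by
        have hWx := hWpos x hx
        refine pl_sum_lt _ _ (by positivity) fun y hy => ?_
        have hy' := hy
        rw [Finset.mem_erase] at hy'
        rw [map_prod]
        have h2 : W x = u (x - y) * ∏ z ∈ (Y.erase x).erase y, u (x - z) :=
          (Finset.mul_prod_erase _ _ hy).symm
        have h3 := hfar x hx y hy'.2 (Ne.symm hy'.1)
        have h4 : 0 < ∏ z ∈ (Y.erase x).erase y, u (x - z) := by
          refine Finset.prod_pos fun z hz => ?_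
          rw [Finset.mem_erase, Finset.mem_erase] at hz
          exact hdist x hx z hz.2.2 (Ne.symm hz.2.1)
        rw [lt_div_iff₀ hr, h2]
        calc (∏ z ∈ (Y.erase x).erase y, u (x - z)) * r
            < (∏ z ∈ (Y.erase x).erase y, u (x - z)) * (u (x - y) * u (f.derivative.eval x)) :=
              mul_lt_mul_of_pos_left h3 h4
          _ = _ := by ring
      have hWx := hWpos x hx
      calc u (g.eval x) * ((W x)⁻¹ * u (∑ y ∈ Y.erase x, ∏ z ∈ (Y.erase x).erase y, (x - z)))
          ≤ r * ((W x)⁻¹ * u (∑ y ∈ Y.erase x, ∏ z ∈ (Y.erase x).erase y, (x - z))) :=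
            mul_le_mul_of_nonneg_right hgx (mul_nonneg (by positivity) (hu0 _))
        _ < r * ((W x)⁻¹ * (W x * u (f.derivative.eval x) / r)) := by
            refine mul_lt_mul_of_pos_left (mul_lt_mul_of_pos_left h1 (by positivity)) hr
        _ = u (f.derivative.eval x) := by field_simp
    · have hpx : p ∈ Y.erase x := Finset.mem_erase.mpr ⟨Ne.symm hxp, hpY⟩
      rw [Finset.sum_eq_single p (fun y hy hyp => hsum y hy hyp hxp) (fun h => absurd hpx h),
        map_prod]
      have hxp' : x ∈ Y.erase p := Finset.mem_erase.mpr ⟨hxp, hx⟩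
      have h2 : W p = u (p - x) * ∏ z ∈ (Y.erase x).erase p, u (p - z) := by
        rw [Finset.erase_right_comm]
        exact (Finset.mul_prod_erase _ _ hxp').symm
      have h3 := hfar p hpY x hx (Ne.symm hxp)
      have h4 : 0 < u (p - x) := hdist p hpY x hx (Ne.symm hxp)
      have hWx := hWpos x hx
      have h5 : ∏ z ∈ (Y.erase x).erase p, u (p - z) = W p / u (p - x) := by
        rw [h2]; field_simp
      rw [h5]
      have h6 : (W x)⁻¹ * (W p / u (p - x)) ≤ 1 / u (p - x) := by
        rw [← mul_div_assoc]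
        refine div_le_div_of_nonneg_right ?_ h4.le
        rw [inv_mul_le_iff₀ hWx, mul_one]
        exact hp x hx
      calc u (g.eval x) * ((W x)⁻¹ * (W p / u (p - x))) ≤ r * (1 / u (p - x)) := by
            refine mul_le_mul hgx h6 (by have := (hWpos p hpY).le; positivity) hr.le
        _ < u (f.derivative.eval p) := by
            rw [mul_one_div, div_lt_iff₀ h4, mul_comm]
            exact h3
  exact lt_irrefl _ hlt

/-- Nearby points have the same expansion factor. -/
lemma same_factor {f : K[X]} (hd : 2 ≤ f.natDegree) {t : K} {r σ : ℝ} (hr : 0 < r) (hσ : 1 < σ)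
    (hloc : ∀ x : K, u (x - t) ≤ r → u (f.eval x - t) ≤ r →
      (∃ i : ℕ, 1 ≤ i ∧ u (f.derivative.eval x) = σ ^ i) ∧
      (∀ n : ℕ, 2 ≤ n →
        u ((conjPoly f 1 x).coeff n) * r ^ (n - 1) < u (f.derivative.eval x) ^ n))
    {x y : K} (hx : x ∈ Pts u f t r) (hy : y ∈ Pts u f t r)
    (h : u (x - y) * u (f.derivative.eval x) ≤ r) :
    u (f.derivative.eval y) = u (f.derivative.eval x) := by
  obtain ⟨⟨i, hi1, hi⟩, hcx⟩ := hloc x hx.1 hx.2
  obtain ⟨⟨j, hj1, hj⟩, hcy⟩ := hloc y hy.1 hy.2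
  have hσ0 : 0 < σ := by linarith
  have hlx : 0 < u (f.derivative.eval x) := by rw [hi]; positivity
  have hly : 0 < u (f.derivative.eval y) := by rw [hj]; positivity
  -- a small element
  obtain ⟨c, hc⟩ := exists_one_lt u
  obtain ⟨N, hN⟩ := pow_unbounded_of_one_lt
    (max (u (f.derivative.eval x)) (u (f.derivative.eval y)) / r) hc
  set z : K := (c ^ N)⁻¹ with hz
  have hc0 : c ≠ 0 := by
    rintro rfl
    rw [map_zero] at hc
    linarith
  have hz0 : 0 < u z := FinitePlace.pos_iff.mpr (inv_ne_zero (pow_ne_zero _ hc0))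
  have hzu : u z * max (u (f.derivative.eval x)) (u (f.derivative.eval y)) ≤ r := by
    rw [hz, map_inv₀, map_pow, inv_mul_le_iff₀ (by positivity)]
    rw [div_lt_iff₀ hr] at hN
    exact hN.le
  have hzx : u z * u (f.derivative.eval x) ≤ r :=
    (mul_le_mul_of_nonneg_left (le_max_left _ _) hz0.le).trans hzu
  have hzy : u z * u (f.derivative.eval y) ≤ r :=
    (mul_le_mul_of_nonneg_left (le_max_right _ _) hz0.le).trans hzu
  have h1 := G.ExpTree.expand hd hr hly hcy (x := y + z) (y := y)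
    (by rw [add_sub_cancel_left]; exact hzy)
    (by rw [sub_self, map_zero, zero_mul]; exact hr.le)
  have hyx : u (y - x) * u (f.derivative.eval x) ≤ r := by rw [pl_sub_comm]; exact h
  have h2 := G.ExpTree.expand hd hr hlx hcx (x := y + z) (y := y)
    (by
      have e : y + z - x = (y - x) + z := by ring
      rw [e]
      have h3 := FinitePlace.add_le u (y - x) z
      rcases le_max_iff.mp h3 with h4 | h4
      · exact (mul_le_mul_of_nonneg_right h4 hlx.le).trans hyx
      · exact (mul_le_mul_of_nonneg_right h4 hlx.le).trans hzx)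
    hyx
  rw [h1, add_sub_cancel_left] at h2
  exact mul_right_cancel₀ hz0.ne' h2

/-- The colouring of the points. -/
theorem colouring {f : K[X]} (hd : 2 ≤ f.natDegree) {t : K} {r σ : ℝ} (hr : 0 < r) (hσ : 1 < σ)
    (hloc : ∀ x : K, u (x - t) ≤ r → u (f.eval x - t) ≤ r →
      (∃ i : ℕ, 1 ≤ i ∧ u (f.derivative.eval x) = σ ^ i) ∧
      (∀ n : ℕ, 2 ≤ n →
        u ((conjPoly f 1 x).coeff n) * r ^ (n - 1) < u (f.derivative.eval x) ^ n) ∧
      ∀ y : K, u (y - t) ≤ r → u (f.eval y - t) ≤ r → r < u (x - y) * u (f.derivative.eval x) →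
        ∃ j : ℕ, u (x - y) * σ ^ j = r) :
    ∃ (χ : K → Fin f.natDegree) (e : Fin f.natDegree → ℕ), (∀ j, 1 ≤ e j) ∧
      ∀ x ∈ Pts u f t r, ∀ y ∈ Pts u f t r,
        (χ x = χ y → u (f.eval x - f.eval y) = σ ^ e (χ x) * u (x - y)) ∧
        (χ x ≠ χ y → ∃ n < e (χ x), u (x - y) * σ ^ n = r) := by
  classical
  have hσ0 : 0 < σ := by linarith
  have hloc' : ∀ x : K, u (x - t) ≤ r → u (f.eval x - t) ≤ r →
      (∃ i : ℕ, 1 ≤ i ∧ u (f.derivative.eval x) = σ ^ i) ∧
      (∀ n : ℕ, 2 ≤ n →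
        u ((conjPoly f 1 x).coeff n) * r ^ (n - 1) < u (f.derivative.eval x) ^ n) :=
    fun x h1 h2 => ⟨(hloc x h1 h2).1, (hloc x h1 h2).2.1⟩
  let Rel : K → K → Prop := fun x y => u (x - y) * u (f.derivative.eval x) ≤ r
  have hsame : ∀ x ∈ Pts u f t r, ∀ y ∈ Pts u f t r, Rel x y →
      u (f.derivative.eval y) = u (f.derivative.eval x) := fun x hx y hy h =>
    same_factor hd hr hσ hloc' hx hy h
  have hrefl : ∀ x, Rel x x := fun x => by
    show u (x - x) * _ ≤ r
    rw [sub_self, map_zero, zero_mul]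
    exact hr.le
  have hsymm : ∀ x ∈ Pts u f t r, ∀ y ∈ Pts u f t r, Rel x y → Rel y x := by
    intro x hx y hy h
    show u (y - x) * u (f.derivative.eval y) ≤ r
    rw [hsame x hx y hy h, pl_sub_comm]
    exact h
  have htrans : ∀ x ∈ Pts u f t r, ∀ y ∈ Pts u f t r, ∀ z ∈ Pts u f t r,
      Rel x y → Rel y z → Rel x z := by
    intro x hx y hy z hz h1 h2
    have h3 := hsame x hx y hy h1
    have h2' : u (y - z) * u (f.derivative.eval x) ≤ r := by rw [← h3]; exact h2
    rcases le_max_iff.mp (pl_tri (u := u) x y z) with h4 | h4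
    · exact (mul_le_mul_of_nonneg_right h4 (apply_nonneg u _)).trans h1
    · exact (mul_le_mul_of_nonneg_right h4 (apply_nonneg u _)).trans h2'
  obtain ⟨c, hc⟩ := Pool.Agent.MP90787a.R.exists_colouring (Pts u f t r) Rel (d := f.natDegree) (by omega)
    hsymm htrans (by
      intro T hT1 hT2
      have hinj : Function.Injective T := by
        intro i j hij
        by_contra hne
        exact hT2 i j hne (by rw [hij]; exact hrefl _)
      refine few (u := u) hd (t := t) hr (Finset.univ.image T) ?_ ?_ ?_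
      · rw [Finset.card_image_of_injective _ hinj, Finset.card_univ, Fintype.card_fin]
      · intro x hx
        obtain ⟨i, _, rfl⟩ := Finset.mem_image.mp hx
        exact (hT1 i).2
      · intro x hx y hy hxy
        obtain ⟨i, _, rfl⟩ := Finset.mem_image.mp hx
        obtain ⟨j, _, rfl⟩ := Finset.mem_image.mp hy
        have := hT2 i j (fun h => hxy (by rw [h]))
        exact not_le.mp this)
  -- representatives of the classes
  let S : Setoid (Pts u f t r) :=
    { r := fun x y => Rel x.1 y.1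
      iseqv := ⟨fun x => hrefl _, fun {x y} h => hsymm _ x.2 _ y.2 h,
        fun {x y z} h1 h2 => htrans _ x.2 _ y.2 _ z.2 h1 h2⟩ }
  let rep : K → K := fun x => if hx : x ∈ Pts u f t r then
    ((Quotient.mk S ⟨x, hx⟩).out : Pts u f t r).1 else x
  have hrep : ∀ x ∈ Pts u f t r, rep x ∈ Pts u f t r ∧ Rel (rep x) x := by
    intro x hx
    have e : rep x = ((Quotient.mk S ⟨x, hx⟩).out : Pts u f t r).1 := dif_pos hx
    rw [e]
    refine ⟨Subtype.property _, ?_⟩
    exact Quotient.mk_out (s := S) (⟨x, hx⟩ : Pts u f t r)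
  have hrep2 : ∀ x ∈ Pts u f t r, ∀ y ∈ Pts u f t r, Rel x y → rep x = rep y := by
    intro x hx y hy h
    have e1 : rep x = ((Quotient.mk S ⟨x, hx⟩).out : Pts u f t r).1 := dif_pos hx
    have e2 : rep y = ((Quotient.mk S ⟨y, hy⟩).out : Pts u f t r).1 := dif_pos hy
    rw [e1, e2]
    have h1 : Quotient.mk S ⟨x, hx⟩ = Quotient.mk S ⟨y, hy⟩ := Quotient.sound h
    rw [h1]
  let χ : K → Fin f.natDegree := fun x => c (rep x)
  have hχ : ∀ x ∈ Pts u f t r, ∀ y ∈ Pts u f t r, (χ x = χ y ↔ Rel x y) := by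
    intro x hx y hy
    constructor
    · intro h
      have h1 := hc _ (hrep x hx).1 _ (hrep y hy).1 h
      have h2 := hsymm _ (hrep x hx).1 _ hx (hrep x hx).2
      exact htrans _ hx _ (hrep x hx).1 _ hy h2
        (htrans _ (hrep x hx).1 _ (hrep y hy).1 _ hy h1 (hrep y hy).2)
    · intro h
      show c (rep x) = c (rep y)
      rw [hrep2 x hx y hy h]
  -- the exponents
  have hexp : ∀ j : Fin f.natDegree, ∃ i : ℕ, 1 ≤ i ∧ ∀ x ∈ Pts u f t r, χ x = j →
      u (f.derivative.eval x) = σ ^ i := by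
    intro j
    by_cases h : ∃ x ∈ Pts u f t r, χ x = j
    · obtain ⟨x, hx, hxj⟩ := h
      obtain ⟨i, hi1, hi⟩ := (hloc x hx.1 hx.2).1
      refine ⟨i, hi1, fun y hy hyj => ?_⟩
      rw [← hi]
      exact hsame x hx y hy ((hχ x hx y hy).mp (by rw [hxj, hyj]))
    · exact ⟨1, le_rfl, fun x hx hxj => absurd ⟨x, hx, hxj⟩ h⟩
  choose e he1 he using hexp
  refine ⟨χ, e, he1, fun x hx y hy => ⟨fun h => ?_, fun h => ?_⟩⟩
  · have h1 := (hχ x hx y hy).mp h
    have h2 := he (χ x) x hx rfl
    have hlx : 0 < u (f.derivative.eval x) := by rw [h2]; positivity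
    rw [← h2]
    refine G.ExpTree.expand hd hr hlx (hloc x hx.1 hx.2).2.1 ?_ ?_
    · rw [sub_self, map_zero, zero_mul]; exact hr.le
    · rw [pl_sub_comm]; exact h1
  · have h1 : ¬ Rel x y := fun h' => h ((hχ x hx y hy).mpr h')
    have h2 : r < u (x - y) * u (f.derivative.eval x) := not_le.mp h1
    obtain ⟨n, hn⟩ := (hloc x hx.1 hx.2).2.2 y hy.1 hy.2 h2
    refine ⟨n, ?_, hn⟩
    have h3 := he (χ x) x hx rfl
    rw [h3] at h2
    by_contra hcon
    push Not at hcon
    have h4 : σ ^ e (χ x) ≤ σ ^ n := pow_le_pow_right₀ hσ.le hcon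
    have h5 := mul_le_mul_of_nonneg_left h4 (apply_nonneg u (x - y))
    rw [hn] at h5
    linarith

end expanding

end Poly

theorem expRed_of_exp {K : Type} [Field K] [NumberField K] (v : FinitePlace K) {f : K[X]} {m b : ℕ}
    (hd : 2 ≤ f.natDegree) (h : G.Exp v m b f) :
    PotGoodRed v f 1 f.natDegree ∨ ExpRed v m f.natDegree (b * f.natDegree) f 1 f.natDegree := by
  obtain ⟨t, r, σ, hE, hσ, hb, hloc, hquot⟩ := h
  obtain ⟨hr, hR1, hc⟩ := hE
  rcases hR1.eq_or_lt with hR | hR
  · exact Or.inl (potGoodRed_of_good v hd ⟨t, r, ⟨hr, hR1, hc⟩, hR.symm⟩)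
  right
  have ha0 : f.leadingCoeff ≠ 0 := by
    rw [Ne, leadingCoeff_eq_zero]
    rintro rfl
    simp at hd
  set a := f.leadingCoeff with ha
  have hva : 0 < v a := FinitePlace.pos_iff.mpr ha0
  set P : K[X] := C a⁻¹ * conjPoly f 1 t with hP
  have hPc : ∀ i, P.coeff i = a⁻¹ * (conjPoly f 1 t).coeff i := fun i => by
    rw [hP, coeff_C_mul]
  have hcd : (conjPoly f 1 t).coeff f.natDegree = a := by
    rw [conjPoly_one, coeff_sub, coeff_C, if_neg (by omega), sub_zero, coeff_taylor_natDegree]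
  have hPd1 : P.coeff f.natDegree = 1 := by
    rw [hPc, hcd, inv_mul_cancel₀ ha0]
  have hPle : P.natDegree ≤ f.natDegree := by
    rw [hP]
    refine (natDegree_C_mul_le _ _).trans ?_
    rw [conjPoly_one]
    rw [natDegree_sub_C, natDegree_taylor]
  have hPd : P.natDegree = f.natDegree :=
    natDegree_eq_of_le_of_coeff_ne_zero hPle (by rw [hPd1]; exact one_ne_zero)
  have hPm : P.Monic := by
    rw [Monic, leadingCoeff, hPd, hPd1]
  have hPe : ∀ x, P.eval x = a⁻¹ * (f.eval (x + t) - t) := by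
    intro x
    rw [hP, eval_mul, eval_C, conjPoly_one, eval_sub, eval_C, taylor_eval]
  have hins : ∀ x, x ∈ Inside (fun x => v x) P (C a⁻¹) r ↔ x + t ∈ Poly.Pts v f t r := by
    intro x
    unfold Inside Poly.Pts
    simp only [Set.mem_ofPred_eq]
    rw [add_sub_cancel_right, hPe, eval_C, map_mul, map_inv₀]
    have : (v a)⁻¹ * v (f.eval (x + t) - t) ≤ r * (v a)⁻¹ ↔ v (f.eval (x + t) - t) ≤ r := by
      rw [mul_comm]
      exact mul_le_mul_iff_left₀ (by positivity)
    rw [this]
  obtain ⟨χ, e, he1, he⟩ := Poly.colouring (u := v) hd hr hσ hloc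
  refine ⟨1, t, 0, 1, a, P, C a⁻¹, r, σ, ?_, hPm, hPd, ?_, hr, hσ, ?_, ?_, ?_, hquot⟩
  · refine ⟨by simp, ha0, fun x y => ?_⟩
    have e1 : 1 * x + t * y = x + t * y := by ring
    have e2 : 0 * x + 1 * y = y := by ring
    have hCa : homog (C a⁻¹) f.natDegree (x, y) = a⁻¹ * y ^ f.natDegree := Poly.homog_const _ _ _
    have hPh : homog P f.natDegree (x, y) =
        a⁻¹ * (homog f f.natDegree (x + t * y, y) - t * y ^ f.natDegree) := by
      rw [hP, homog_C_mul, conjPoly_one, homog_sub, Poly.homog_const, Poly.homog_taylor rfl]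
    rw [e1, e2, hCa, hPh]
    constructor
    · field_simp
      ring
    · have h1 : homog (1 : K[X]) f.natDegree (x + t * y, y) = y ^ f.natDegree := by
        have := Poly.homog_const (d := f.natDegree) (1 : K) (x + t * y) y
        rw [C_1, one_mul] at this
        exact this
      rw [h1]
      field_simp
      ring
  · rw [natDegree_C]; omega
  · intro i hi
    constructor
    · rw [hPc, map_mul, map_inv₀]
      rcases Nat.lt_or_ge i f.natDegree with hid | hid
      · rw [inv_mul_le_iff₀ hva]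
        exact hc i hid
      · have : i = f.natDegree := by omega
        subst this
        rw [hcd, inv_mul_cancel₀ hva.ne', Nat.sub_self, pow_zero]
    · rw [coeff_C]
      split_ifs with h0
      · subst h0
        rw [map_inv₀, inv_mul_lt_iff₀ hva, zero_add, pow_one]
        have h1 : r ^ f.natDegree = r ^ (f.natDegree - 1) * r := by
          rw [← pow_succ]; congr 1; omega
        rw [h1, ← mul_assoc]
        calc r = 1 * r := (one_mul r).symm
          _ < _ := mul_lt_mul_of_pos_right hR hr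
      · rw [map_zero, zero_mul]
        positivity
  · rw [resultant_C_right, hPd1, one_pow, one_mul, map_pow, map_inv₀]
    have h1 : (v a * r ^ (f.natDegree - 1)) ^ f.natDegree ≤ (σ ^ b) ^ f.natDegree :=
      pow_le_pow_left₀ (by positivity) hb _
    rw [mul_pow, ← pow_mul, ← pow_mul] at h1
    rw [inv_pow, ← div_eq_inv_mul, le_div_iff₀ (by positivity)]
    have e1 : (f.natDegree - 1) * f.natDegree = f.natDegree * (f.natDegree - 1) := Nat.mul_comm _ _
    rw [e1] at h1
    linarith
  · refine ⟨fun x => χ (x + t), e, he1, fun x hx y hy => ?_⟩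
    have hx' := (hins x).mp hx
    have hy' := (hins y).mp hy
    obtain ⟨h1, h2⟩ := he _ hx' _ hy'
    have e3 : x + t - (y + t) = x - y := by ring
    rw [e3] at h1 h2
    refine ⟨fun h => ?_, h2⟩
    have e4 : P.eval x / (C a⁻¹ : K[X]).eval x - P.eval y / (C a⁻¹ : K[X]).eval y =
        f.eval (x + t) - f.eval (y + t) := by
      rw [hPe, hPe, eval_C, eval_C]
      field_simp
      ring
    show v (P.eval x / (C a⁻¹ : K[X]).eval x - P.eval y / (C a⁻¹ : K[X]).eval y) = _
    rw [e4]
    exact h1 h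

end Pool.Agent.MP90787a.P1
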