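import Pool.Agent.Lib.MP_90787a_nt.G.PencilE
import Pool.Agent.Lib.MP_90787a_nt.P1.Poly

set_option autoImplicit false

/-!
The pencils `g + c ^ k h`, uniformly in `g` and `h`.
-/

namespace Pool.Agent.MP90787a.P1

open Polynomial NumberField Height Pool.Agent.UBC90787a Pool.Agent.MP90787a.G

open PencilE Translates LocSimple in
/-- The pencils `g + c ^ k h` at one place. -/
theorem pencil_local {K : Type} [Field K] [NumberField K] (v : FinitePlace K) {g h A₀ B₀ : K[X]}
    (hd : 2 ≤ g.natDegree) (hAB₀ : A₀ * h + B₀ * derivative h = 1)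
    (hgh : h.natDegree ≤ 1 ∨ h.natDegree + 2 ≤ g.natDegree) {k m : ℕ}
    (hm : m ∣ (if h.natDegree ≤ 1 then g.natDegree - 1 else 1) *
      (k / Nat.gcd (g.natDegree - h.natDegree) k))
    (hgc : ∀ i, v (g.coeff i) ≤ 1) (hhc : ∀ i, v (h.coeff i) ≤ 1)
    (hAc : ∀ i, v (A₀.coeff i) ≤ 1) (hBc : ∀ i, v (B₀.coeff i) ≤ 1)
    (hlc : v g.leadingCoeff = 1) (hhl : v h.leadingCoeff = 1)
    (hde1 : v ((g.natDegree - h.natDegree : ℕ) : K) = 1) (c₀ : K) :
    Good v (g + C (c₀ ^ k) * h) ∨ Exp v m (g.natDegree - 1) (g + C (c₀ ^ k) * h) := by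
  classical
  obtain ⟨d, hdd⟩ : ∃ d, d = g.natDegree := ⟨_, rfl⟩
  obtain ⟨e, hee⟩ : ∃ e, e = h.natDegree := ⟨_, rfl⟩
  obtain ⟨c, hcdef⟩ : ∃ c : K, c = c₀ ^ k := ⟨_, rfl⟩
  rw [← hcdef]
  rw [← hdd, ← hee] at hgh hm hde1
  rw [← hdd] at hd ⊢
  have hed : e < d := by omega
  have hfd : (g + C c * h).natDegree = d := by
    rw [natDegree_add_eq_left_of_natDegree_lt, ← hdd]
    exact lt_of_le_of_lt (natDegree_C_mul_le c h) (by omega)
  have hfc : ∀ i, (g + C c * h).coeff i = g.coeff i + c * h.coeff i := fun i => by
    rw [coeff_add, coeff_C_mul]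
  have hflc : (g + C c * h).leadingCoeff = g.leadingCoeff := by
    rw [leadingCoeff, hfd, hfc, coeff_eq_zero_of_natDegree_lt (show h.natDegree < d by omega),
      mul_zero, add_zero, leadingCoeff, ← hdd]
  have hvlc : v (g + C c * h).leadingCoeff = 1 := by rw [hflc, hlc]
  have hcont : ∀ i, (g + C c * h).coeff i = (conjPoly (g + C c * h) 1 0).coeff i := fun i => by
    rw [conjPoly_zero]
  rcases le_or_gt (v c) 1 with hc | hc
  · left
    refine ⟨0, 1, ⟨one_pos, ?_, fun i _ => ?_⟩, ?_⟩
    · rw [hvlc, one_pow, mul_one]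
    · rw [← hcont, hvlc, one_pow, mul_one, hfc]
      refine (FinitePlace.add_le v _ _).trans (max_le (hgc i) ?_)
      rw [map_mul]
      exact mul_le_one₀ hc (apply_nonneg v _) (hhc i)
    · rw [hvlc, one_pow, mul_one]
  right
  obtain ⟨r, hr1, hrd⟩ := exists_root hc (n := d - e) (by omega)
  have hr0 : 0 < r := by linarith
  have hrle : ∀ {i j : ℕ}, i ≤ j → r ^ i ≤ r ^ j := fun hij => pow_le_pow_right₀ hr1.le hij
  have hrlt : ∀ {i j : ℕ}, i < j → r ^ i < r ^ j := fun hij => pow_lt_pow_right₀ hr1 hij
  obtain ⟨f, hf⟩ : ∃ f, f = g + C c * h := ⟨_, rfl⟩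
  have hfev : ∀ x, f.eval x = g.eval x + c * h.eval x := fun x => by
    rw [hf, eval_add, eval_mul, eval_C]
  have hfdev : ∀ x, (derivative f).eval x = (derivative g).eval x + c * (derivative h).eval x :=
    fun x => by
    rw [hf, derivative_add, derivative_C_mul, eval_add, eval_mul, eval_C]
  rw [← hf] at hfd hvlc hcont hfc hflc ⊢
  have hd2 : 2 ≤ f.natDegree := by omega
  have hE : EscapeDisc v f 0 r := by
    refine ⟨hr0, ?_, fun i hi => ?_⟩
    · rw [hvlc, one_mul]
      exact one_le_pow₀ hr1.le
    · rw [← hcont, hvlc, one_mul, hfd, hfc]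
      refine (FinitePlace.add_le v _ _).trans (max_le ((hgc i).trans (one_le_pow₀ hr1.le)) ?_)
      rcases Nat.lt_or_ge e i with h2 | h2
      · rw [coeff_eq_zero_of_natDegree_lt (show h.natDegree < i by omega), mul_zero, map_zero]
        positivity
      · rw [map_mul, ← hrd]
        calc r ^ (d - e) * v (h.coeff i) ≤ r ^ (d - e) * 1 :=
              mul_le_mul_of_nonneg_left (hhc i) (by positivity)
          _ = r ^ (d - e) := mul_one _
          _ ≤ r ^ (d - i) := hrle (by omega)
  have hEx : ∀ x : K, v x ≤ r → EscapeDisc v f x r := fun x hx =>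
    recentre_le v hd2 hE (by rwa [sub_zero])
  -- Taylor coefficients
  have hcn : ∀ x : K, v x ≤ r → ∀ n : ℕ, 1 ≤ n →
      v ((conjPoly f 1 x).coeff n) * r ^ (n - 1) ≤ r ^ (d - 1) := by
    intro x hx n hn
    rcases lt_trichotomy n d with h1 | h1 | h1
    · have h2 := (hEx x hx).2.2 n (by omega)
      rw [hvlc, one_mul, hfd] at h2
      calc v ((conjPoly f 1 x).coeff n) * r ^ (n - 1) ≤ r ^ (d - n) * r ^ (n - 1) :=
            mul_le_mul_of_nonneg_right h2 (by positivity)
        _ = r ^ (d - 1) := by rw [← pow_add]; congr 1; omega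
    · have h2 : (conjPoly f 1 x).coeff n = f.leadingCoeff := by
        rw [conj_coeff (by omega), h1, ← hfd, ← leadingCoeff_taylor x f, leadingCoeff,
          natDegree_taylor]
      rw [h2, hvlc, one_mul, h1]
    · have h2 : (conjPoly f 1 x).coeff n = 0 := by
        rw [conj_coeff (by omega)]
        apply coeff_eq_zero_of_natDegree_lt
        rw [natDegree_taylor]; omega
      rw [h2, map_zero, zero_mul]
      positivity
  -- derivative at the large points
  have hderA : ∀ x : K, v x = r → v (f.eval x) ≤ r → v (f.derivative.eval x) = r ^ (d - 1) := by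
    intro x hxr hfx
    have e1 : x * (derivative f).eval x = ((aux g).eval x + c * (aux h).eval x +
        (d : K) * f.eval x) + -(((d - e : ℕ) : K) * (c * h.eval x)) := by
      rw [hfdev, mul_add, aux_eval, hfev, Nat.cast_sub (by omega), mul_left_comm x c, aux_eval,
        ← hdd, ← hee]
      ring
    have h6 : r * r ^ (d - 1) = r ^ d := by
      rw [← pow_succ']; congr 1; omega
    have h7 : v (-(((d - e : ℕ) : K) * (c * h.eval x))) = r ^ d := by
      rw [map_neg_eq_map, map_mul, hde1, one_mul, map_mul, ← hrd,
        eval_eq_pow v hhc hhl (by rw [hxr]; exact hr1), ← hee, hxr, ← pow_add]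
      congr 1; omega
    have h8 : v ((aux g).eval x) ≤ r ^ (d - 1) :=
      eval_le v (aux_coeff_le v hgc) hr1.le hxr.le (by
        have := aux_natDegree g (by omega)
        omega)
    have h9 : v (c * (aux h).eval x) ≤ r ^ (d - 1) := by
      rcases Nat.eq_zero_or_pos e with h0 | h0
      · have : aux h = 0 := by
          have h1 : h = C (h.coeff 0) := eq_C_of_natDegree_eq_zero (by omega)
          unfold aux
          rw [← hee, h0, h1]
          simp
        rw [this, eval_zero, mul_zero, map_zero]
        positivity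
      · rw [map_mul, ← hrd]
        have h1 : v ((aux h).eval x) ≤ r ^ (e - 1) :=
          eval_le v (aux_coeff_le v hhc) hr1.le hxr.le (by
            have := aux_natDegree h (by omega)
            omega)
        calc r ^ (d - e) * v ((aux h).eval x) ≤ r ^ (d - e) * r ^ (e - 1) :=
              mul_le_mul_of_nonneg_left h1 (by positivity)
          _ = r ^ (d - 1) := by rw [← pow_add]; congr 1; omega
    have h10 : v ((d : K) * f.eval x) ≤ r ^ (d - 1) := by
      rw [map_mul]
      calc v (d : K) * v (f.eval x) ≤ 1 * r :=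
            mul_le_mul (natCast_le v d) hfx (apply_nonneg v _) zero_le_one
        _ = r ^ 1 := by rw [one_mul, pow_one]
        _ ≤ r ^ (d - 1) := hrle (by omega)
    have h11 : v ((aux g).eval x + c * (aux h).eval x + (d : K) * f.eval x) ≤ r ^ (d - 1) :=
      (FinitePlace.add_le v _ _).trans (max_le ((FinitePlace.add_le v _ _).trans
        (max_le h8 h9)) h10)
    have h5 : v (x * (derivative f).eval x) = r ^ d := by
      rw [e1, add_eq_of_lt v (by rw [h7]; exact h11.trans_lt (hrlt (by omega))), h7]
    rw [map_mul, hxr, ← h6] at h5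
    exact mul_left_cancel₀ hr0.ne' h5
  -- two large points
  have hlarge : ∀ x y : K, v x ≤ r → v y ≤ r → v (f.eval x) ≤ r → v (f.eval y) ≤ r →
      v (f.derivative.eval y) = r ^ (d - 1) → r < v (x - y) * r ^ (d - 1) → v (x - y) = r := by
    intro x y hx hy hfx hfy hder hlt
    rcases ((pl_sub_le_max x y).trans (max_le hx hy)).lt_or_eq with h1 | h1
    · exfalso
      have h2 := expand hd2 (x := x) (hEx y hy) (by rw [hvlc, one_mul, hfd]; exact hder) h1
      rw [hvlc, one_mul, hfd] at h2
      have h3 : v (f.eval x - f.eval y) ≤ r := (pl_sub_le_max _ _).trans (max_le hfx hfy)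
      rw [h2] at h3
      linarith
    · exact h1
  have hc0 : c ≠ 0 := by
    rintro rfl
    rw [map_zero] at hc
    linarith
  have hc₀ : c₀ ≠ 0 := by
    rintro rfl
    rcases Nat.eq_zero_or_pos k with hk | hk
    · rw [hcdef, hk, pow_zero, map_one] at hc
      exact lt_irrefl _ hc
    · exact hc0 (by rw [hcdef, zero_pow hk.ne'])
  -- values
  have hval : ∀ (y₁ : K) (s : ℤ), v y₁ = r ^ s →
      ∃ y : K, r ^ s = v y ^ (k / Nat.gcd (d - e) k) := by
    intro y₁ s hy₁
    have hy0 : y₁ ≠ 0 := by
      rintro rfl
      rw [map_zero] at hy₁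
      have : 0 < r ^ s := by positivity
      linarith
    obtain ⟨y, hy⟩ := root_val v hy0 (zpow_ne_zero s hc₀) (n := d - e) (k := k) (by omega) (by
      rw [hy₁, map_zpow₀, ← zpow_natCast, ← zpow_natCast, ← zpow_mul, ← zpow_mul,
        mul_comm s, mul_comm s, zpow_mul, zpow_mul, zpow_natCast, zpow_natCast, hrd, hcdef,
        map_pow])
    exact ⟨y, by rw [← hy₁, hy]⟩
  by_cases he1 : e ≤ 1
  · -- all the admissible points are large or `e = 1`
    rw [if_pos he1] at hm
    have hder : ∀ x : K, v x ≤ r → v (f.eval x) ≤ r → v (f.derivative.eval x) = r ^ (d - 1) := by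
      intro x hx hfx
      rcases hx.lt_or_eq with h1 | h1
      · rcases Nat.eq_zero_or_pos e with h0 | h0
        · exfalso
          have h2 : h = C (h.coeff 0) := eq_C_of_natDegree_eq_zero (by omega)
          have h3 : v (c * h.eval x) = r ^ d := by
            have h4 : h.leadingCoeff = h.coeff 0 := by rw [leadingCoeff, ← hee, h0]
            rw [h2, eval_C, map_mul, ← h4, hhl, mul_one, ← hrd, h0, Nat.sub_zero]
          have h4 : v (g.eval x) < r ^ d := eval_lt v hgc hr1 h1 (n := d) (by omega) (by omega)
          rw [hfev, add_eq_of_lt v (by rw [h3]; exact h4), h3] at hfx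
          have h5 : r ^ 1 < r ^ d := hrlt (by omega)
          rw [pow_one] at h5
          linarith
        · have h2 : h.natDegree ≤ 1 := by omega
          have h3 : v ((derivative h).eval x) = 1 := by
            have h4 : (derivative h).eval x = h.coeff 1 := by
              conv_lhs => rw [eq_X_add_C_of_natDegree_le_one h2]
              simp
            have h5 : h.leadingCoeff = h.coeff 1 := by
              rw [leadingCoeff]; congr 1; omega
            rw [h4, ← h5, hhl]
          have h4 : v ((derivative g).eval x) < r ^ (d - 1) :=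
            eval_lt v (derivative_coeff_le v hgc) hr1 h1 (n := d - 1) (by omega)
              ((natDegree_derivative_le g).trans (by omega))
          have h5 : v (c * (derivative h).eval x) = r ^ (d - 1) := by
            rw [map_mul, h3, mul_one, ← hrd]; congr 1; omega
          rw [hfdev, add_eq_of_lt v (by rw [h5]; exact h4), h5]
      · exact hderA x h1 hfx
    refine ⟨0, r, r ^ (d - 1), hE, one_lt_pow₀ hr1 (by omega), ?_, ?_, ?_⟩
    · rw [hvlc, one_mul, hfd]
      exact le_self_pow₀ (one_le_pow₀ hr1.le) (by omega)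
    · intro x hx hfx
      rw [sub_zero] at hx hfx
      refine ⟨⟨1, le_rfl, by rw [hder x hx hfx, pow_one]⟩, fun n hn => ?_, ?_⟩
      · rw [hder x hx hfx, ← pow_mul]
        refine (hcn x hx n (by omega)).trans_lt (hrlt ?_)
        calc d - 1 = (d - 1) * 1 := (mul_one _).symm
          _ < (d - 1) * n := Nat.mul_lt_mul_of_pos_left (by omega) (by omega)
      · intro y hy hfy hlt
        rw [sub_zero] at hy hfy
        rw [hder x hx hfx] at hlt
        exact ⟨0, by rw [pow_zero, mul_one]; exact hlarge x y hx hy hfx hfy (hder y hy hfy) hlt⟩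
    · intro z w i j hz hw
      have hσ0 : (0:ℝ) < r ^ (d - 1) := by positivity
      have hw0 : w ≠ 0 := by
        rintro rfl
        rw [map_zero] at hw
        have : 0 < r * (r ^ (d - 1)) ^ j := by positivity
        linarith
      have hz0 : z ≠ 0 := by
        rintro rfl
        rw [map_zero] at hz
        have : 0 < r * (r ^ (d - 1)) ^ i := by positivity
        linarith
      -- an element with absolute value `r ^ s`
      obtain ⟨y₁, hy₁⟩ : ∃ y₁ : K, v y₁ = r ^ (i - j) := by
        rcases Nat.eq_zero_or_pos e with h0 | h0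
        · refine ⟨c ^ (i - j) * (w / z), ?_⟩
          have h1 : (r : ℝ) ^ d = r ^ (d - 1) * r := by
            rw [← pow_succ]; congr 1; omega
          have h2 : v c = r ^ (d - 1) * r := by rw [← hrd, h0, Nat.sub_zero, h1]
          rw [map_mul, map_zpow₀, map_div₀, hz, hw, h2, mul_zpow, zpow_sub₀ hσ0.ne']
          have h3 : (r ^ (d - 1)) ^ i ≠ 0 := by positivity
          have h4 : (r ^ (d - 1)) ^ j ≠ 0 := by positivity
          field_simp
        · refine ⟨(z * c ^ (-i)) ^ (i - j), ?_⟩
          have h2 : v c = r ^ (d - 1) := by rw [← hrd]; congr 1; omega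
          have h3 : v (z * c ^ (-i)) = r := by
            rw [map_mul, map_zpow₀, hz, h2, mul_assoc, ← zpow_add₀ hσ0.ne', add_neg_cancel,
              zpow_zero, mul_one]
          rw [map_zpow₀, h3]
      obtain ⟨y, hy⟩ := hval y₁ (i - j) hy₁
      obtain ⟨q, hq⟩ := hm
      refine ⟨y ^ q, ?_⟩
      have h1 : (r ^ (d - 1)) ^ (i - j) = v (y ^ q) ^ m := by
        rw [map_pow, ← pow_mul, mul_comm q m, ← hq, mul_comm (d - 1), pow_mul, ← hy,
          ← zpow_natCast, ← zpow_natCast, ← zpow_mul, ← zpow_mul, mul_comm]
      rw [hz, hw, ← h1, mul_assoc, ← zpow_add₀ hσ0.ne']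
      congr 2
      ring
  · -- `e ≥ 2`
    rw [if_neg he1, one_mul] at hm
    have hd' : e + 2 ≤ d := by omega
    have hrde : r < r ^ (d - e) := by
      calc r = r ^ 1 := (pow_one r).symm
        _ < r ^ (d - e) := hrlt (by omega)
    have htype : ∀ x : K, v x ≤ r → v (f.eval x) ≤ r →
        v x = r ∨ (v x ≤ 1 ∧ v (h.eval x) < 1) := by
      intro x hx hfx
      rcases hx.lt_or_eq with h1 | h1
      · right
        rcases le_or_gt (v x) 1 with h2 | h2
        · refine ⟨h2, ?_⟩
          have h3 : v (c * h.eval x) ≤ r := by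
            have e1 : c * h.eval x = f.eval x - g.eval x := by rw [hfev]; ring
            rw [e1]
            exact (pl_sub_le_max _ _).trans
              (max_le hfx ((eval_le_one v hgc h2).trans hr1.le))
          rw [map_mul, ← hrd] at h3
          by_contra hcon
          push Not at hcon
          have h4 : r ^ (d - e) * 1 ≤ r ^ (d - e) * v (h.eval x) :=
            mul_le_mul_of_nonneg_left hcon (by positivity)
          linarith
        · exfalso
          have h3 : v (h.eval x) = v x ^ e := by
            rw [eval_eq_pow v hhc hhl h2, hee]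
          have h4 : v (g.eval x) ≤ v x ^ d := eval_le v hgc h2.le le_rfl (by omega)
          have h5 : v x ^ d < v (c * h.eval x) := by
            rw [map_mul, ← hrd, h3]
            have h6 : v x ^ (d - e) < r ^ (d - e) := pow_lt_pow_left₀ h1 (by linarith) (by omega)
            calc v x ^ d = v x ^ (d - e) * v x ^ e := by rw [← pow_add]; congr 1; omega
              _ < r ^ (d - e) * v x ^ e := mul_lt_mul_of_pos_right h6 (by positivity)
          have h6 : v (f.eval x) = v (c * h.eval x) := by
            rw [hfev, add_eq_of_lt v (h4.trans_lt h5)]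
          rw [h6, map_mul, ← hrd, h3] at hfx
          have h7 : 1 ≤ v x ^ e := one_le_pow₀ h2.le
          have h8 : r ^ (d - e) * 1 ≤ r ^ (d - e) * v x ^ e :=
            mul_le_mul_of_nonneg_left h7 (by positivity)
          linarith
      · left; exact h1
    have hderB : ∀ x : K, v x ≤ 1 → v (h.eval x) < 1 →
        v (f.derivative.eval x) = r ^ (d - e) := by
      intro x hx1 hxh
      have h1 : v ((derivative g).eval x) ≤ 1 := eval_le_one v (derivative_coeff_le v hgc) hx1
      have h2 : v ((derivative h).eval x) ≤ 1 := eval_le_one v (derivative_coeff_le v hhc) hx1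
      have h3 : v (A₀.eval x) ≤ 1 := eval_le_one v hAc hx1
      have h4 : v (B₀.eval x) ≤ 1 := eval_le_one v hBc hx1
      have h5 : A₀.eval x * h.eval x + B₀.eval x * (derivative h).eval x = 1 := by
        have := congrArg (fun p : K[X] => p.eval x) hAB₀
        simpa using this
      have h6 : v (A₀.eval x * h.eval x) < 1 := by
        rw [map_mul]
        calc v (A₀.eval x) * v (h.eval x) ≤ 1 * v (h.eval x) :=
              mul_le_mul_of_nonneg_right h3 (apply_nonneg v _)
          _ < 1 := by rw [one_mul]; exact hxh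
      have h7 : v (B₀.eval x * (derivative h).eval x) = 1 := by
        have e1 : B₀.eval x * (derivative h).eval x = -(A₀.eval x * h.eval x) + 1 := by
          rw [← h5]; ring
        rw [e1, add_eq_of_lt v (by rw [map_neg_eq_map, map_one]; exact h6), map_one]
      have h8 : v ((derivative h).eval x) = 1 := by
        apply le_antisymm h2
        rw [map_mul] at h7
        rw [← h7]
        calc v (B₀.eval x) * v ((derivative h).eval x) ≤ 1 * v ((derivative h).eval x) :=
              mul_le_mul_of_nonneg_right h4 (apply_nonneg v _)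
          _ = v ((derivative h).eval x) := one_mul _
      have h9 : v (c * (derivative h).eval x) = r ^ (d - e) := by
        rw [map_mul, h8, mul_one, hrd]
      rw [hfdev, add_eq_of_lt v (by rw [h9, hrd]; exact h1.trans_lt hc), h9]
    have htay : ∀ x : K, v x ≤ 1 → ∀ i, v ((taylor x f).coeff i) ≤ r ^ (d - e) := by
      intro x hx i
      rw [hf, map_add, coeff_add]
      refine (FinitePlace.add_le v _ _).trans (max_le
        ((taylor_coeff_le_one v hgc hx i).trans (one_le_pow₀ hr1.le)) ?_)
      have e1 : (taylor x (C c * h)).coeff i = c * (taylor x h).coeff i := by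
        rw [taylor_mul, taylor_C, coeff_C_mul]
      rw [e1, map_mul, hrd]
      calc v c * v ((taylor x h).coeff i) ≤ v c * 1 :=
            mul_le_mul_of_nonneg_left (taylor_coeff_le_one v hhc hx i) (by linarith)
        _ = v c := mul_one _
    refine ⟨0, r, r, hE, hr1, by rw [hvlc, one_mul, hfd], ?_, ?_⟩
    · intro x hx hfx
      rw [sub_zero] at hx hfx
      rcases htype x hx hfx with hxr | ⟨hx1, hxh⟩
      · refine ⟨⟨d - 1, by omega, hderA x hxr hfx⟩, fun n hn => ?_, ?_⟩
        · rw [hderA x hxr hfx, ← pow_mul]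
          refine (hcn x hx n (by omega)).trans_lt (hrlt ?_)
          calc d - 1 = (d - 1) * 1 := (mul_one _).symm
            _ < (d - 1) * n := Nat.mul_lt_mul_of_pos_left (by omega) (by omega)
        · intro y hy hfy hlt
          rw [sub_zero] at hy hfy
          rw [hderA x hxr hfx] at hlt
          refine ⟨0, ?_⟩
          rw [pow_zero, mul_one]
          rcases htype y hy hfy with hyr | ⟨hy1, hyh⟩
          · exact hlarge x y hx hy hfx hfy (hderA y hyr hfy) hlt
          · rw [sub_eq_add_neg, pl_add_eq (by rw [pl_neg, hxr]; linarith), hxr]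
      · refine ⟨⟨d - e, by omega, hderB x hx1 hxh⟩, fun n hn => ?_, ?_⟩
        · rw [hderB x hx1 hxh, ← pow_mul, conj_coeff (by omega)]
          calc v ((taylor x f).coeff n) * r ^ (n - 1) ≤ r ^ (d - e) * r ^ (n - 1) :=
                mul_le_mul_of_nonneg_right (htay x hx1 n) (by positivity)
            _ = r ^ (d - e + (n - 1)) := by rw [← pow_add]
            _ < r ^ ((d - e) * n) := hrlt (by
                obtain ⟨a, ha⟩ : ∃ a, d - e = a + 2 := ⟨d - e - 2, by omega⟩
                obtain ⟨b, hb⟩ : ∃ b, n = b + 2 := ⟨n - 2, by omega⟩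
                rw [ha, hb]
                have : b + 2 - 1 = b + 1 := by omega
                rw [this]
                nlinarith)
        · intro y hy hfy hlt
          rw [sub_zero] at hy hfy
          rw [hderB x hx1 hxh] at hlt
          rcases htype y hy hfy with hyr | ⟨hy1, hyh⟩
          · refine ⟨0, ?_⟩
            rw [pow_zero, mul_one, pl_sub_comm, sub_eq_add_neg,
              pl_add_eq (by rw [pl_neg, hyr]; linarith), hyr]
          · refine ⟨1, ?_⟩
            rcases ((pl_sub_le_max x y).trans (max_le hx1 hy1)).lt_or_eq with h1 | h1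
            · exfalso
              have h2 := expand_small v (by positivity) hy1 (htay y hy1) (hderB y hy1 hyh) h1
              have h3 : v (f.eval x - f.eval y) ≤ r :=
                (pl_sub_le_max _ _).trans (max_le hfx hfy)
              rw [h2] at h3
              linarith
            · rw [h1, one_mul, pow_one]
    · intro z w i j hz hw
      have hw0 : w ≠ 0 := by
        rintro rfl
        rw [map_zero] at hw
        have : 0 < r * r ^ j := by positivity
        linarith
      obtain ⟨y, hy⟩ := hval (z / w) (i - j) (by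
        rw [map_div₀, hz, hw, zpow_sub₀ hr0.ne']
        have h4 : r ^ j ≠ 0 := by positivity
        field_simp)
      obtain ⟨q, hq⟩ := hm
      refine ⟨y ^ q, ?_⟩
      have h1 : r ^ (i - j) = v (y ^ q) ^ m := by
        rw [map_pow, ← pow_mul, mul_comm q m, ← hq, ← hy]
      rw [hz, hw, ← h1, mul_assoc, ← zpow_add₀ hr0.ne']
      congr 2
      ring

end Pool.Agent.MP90787a.P1
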