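import Pool.Agent.Lib.MP_90787a_nt.P1.Base

set_option autoImplicit false

/-!
The resultant of two binary forms under a linear change of coordinates.
-/

namespace Pool.Agent.MP90787a.P1.Res

open Polynomial NumberField Height Pool.Agent.UBC90787a

section formal

variable {L : Type} [Field L]

/-- Multiplicativity of the resultant for formal degrees. -/
lemma resultant_mul_formal (f₁ f₂ g : L[X]) (m₁ m₂ n : ℕ) (h1 : f₁.natDegree ≤ m₁)
    (h2 : f₂.natDegree ≤ m₂) (hf1 : f₁ ≠ 0) (hf2 : f₂ ≠ 0) (hn : g.natDegree ≤ n) :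
    resultant (f₁ * f₂) g (m₁ + m₂) n = resultant f₁ g m₁ n * resultant f₂ g m₂ n := by
  obtain ⟨k₁, rfl⟩ := Nat.exists_eq_add_of_le h1
  obtain ⟨k₂, rfl⟩ := Nat.exists_eq_add_of_le h2
  have e0 : f₁.natDegree + k₁ + (f₂.natDegree + k₂) =
      (f₁.natDegree + f₂.natDegree) + (k₁ + k₂) := by ring
  rw [e0, resultant_add_left_deg _ _ _ _ _ (natDegree_mul hf1 hf2).le,
    resultant_mul_left f₁ f₂ g n hn, resultant_add_left_deg _ _ _ _ _ le_rfl,
    resultant_add_left_deg _ _ _ _ _ le_rfl, mul_add, pow_add, pow_add]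
  ring

/-- The linear form with a given zero. -/
noncomputable def lin (r : L × L) : L[X] := C r.2 * X - C r.1

lemma eval_lin (r : L × L) (t : L) : (lin r).eval t = wd (t, 1) r := by
  unfold lin wd
  simp only [eval_sub, eval_mul, eval_C, eval_X]
  ring

lemma natDegree_lin (r : L × L) : (lin r).natDegree ≤ 1 := by
  unfold lin
  refine (natDegree_sub_le _ _).trans (max_le ?_ ?_)
  · exact (natDegree_C_mul_le _ _).trans natDegree_X_le
  · rw [natDegree_C]
    exact zero_le_one

lemma lin_ne_zero {r : L × L} (hr : r ≠ 0) : lin r ≠ 0 := by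
  intro h
  apply hr
  have h1 : (lin r).coeff 1 = 0 := by rw [h, coeff_zero]
  have h0 : (lin r).coeff 0 = 0 := by rw [h, coeff_zero]
  unfold lin at h1 h0
  simp [coeff_C] at h1 h0
  exact Prod.ext h0 h1

lemma resultant_lin (r : L × L) (g : L[X]) (n : ℕ) (hn : g.natDegree ≤ n) :
    resultant (lin r) g 1 n = homog g n r := by
  by_cases h : r.2 = 0
  · have e1 : lin r = C (-r.1) := by
      unfold lin
      rw [h, C_0, zero_mul, zero_sub, C_neg]
    have e2 : r = (r.1, 0) := Prod.ext rfl h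
    rw [e1, resultant_C_left, one_mul, pow_one]
    conv_rhs => rw [e2, homog_infty]
    rw [neg_pow r.1, mul_comm _ (g.coeff n), mul_assoc, ← mul_assoc ((-1 : L) ^ n), ← mul_pow]
    simp
  · have e1 : lin r = C r.2 * (X - C (r.1 / r.2)) := by
      unfold lin
      rw [mul_sub, ← C_mul, mul_div_cancel₀ _ h]
    rw [e1, resultant_C_mul_left, resultant_X_sub_C_left _ _ _ hn, homog_of_ne hn h]

/-- The resultant with a product of linear forms. -/
lemma resultant_prod_lin {ι : Type} (s : Finset ι) (r : ι → L × L) (hr : ∀ i ∈ s, r i ≠ 0)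
    (g : L[X]) (n : ℕ) (hn : g.natDegree ≤ n) :
    resultant (∏ i ∈ s, lin (r i)) g s.card n = ∏ i ∈ s, homog g n (r i) ∧
      (∏ i ∈ s, lin (r i)).natDegree ≤ s.card := by
  classical
  induction s using Finset.induction_on with
  | empty => simp
  | insert a s ha ih =>
    obtain ⟨ih1, ih2⟩ := ih (fun i hi => hr i (Finset.mem_insert_of_mem hi))
    rw [Finset.prod_insert ha, Finset.prod_insert ha, Finset.card_insert_of_notMem ha, add_comm]
    constructor
    · rw [resultant_mul_formal _ _ _ _ _ _ (natDegree_lin _) ih2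
        (lin_ne_zero (hr a (Finset.mem_insert_self a s))) ?_ hn, ih1, resultant_lin _ _ _ hn]
      exact Finset.prod_ne_zero_iff.2 (fun i hi => lin_ne_zero
        (hr i (Finset.mem_insert_of_mem hi)))
    · exact natDegree_mul_le.trans (add_le_add (natDegree_lin _) ih2)

/-- The product formula for the resultant. -/
lemma resultant_eq_prod [Infinite L] {p q : L[X]} {d : ℕ} (hp : p.natDegree ≤ d)
    (hq : q.natDegree ≤ d) (c : L) (r : Fin d → L × L) (hr : ∀ i, r i ≠ 0)
    (h : ∀ t, homog p d (t, 1) = c * ∏ i, wd (t, 1) (r i)) :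
    resultant p q d d = c ^ d * ∏ i, homog q d (r i) := by
  have e1 : p = C c * ∏ i, lin (r i) := by
    refine Polynomial.funext (fun t => ?_)
    rw [← homog_one hp, h, eval_mul, eval_C, eval_prod]
    simp only [eval_lin]
  have h1 := (resultant_prod_lin Finset.univ r (fun i _ => hr i) q d hq).1
  rw [Finset.card_univ, Fintype.card_fin] at h1
  rw [e1, resultant_C_mul_left, h1]

/-- The factorisation of a form. -/
lemma exists_factor [IsAlgClosed L] {g : L[X]} {d : ℕ} (hg : g.natDegree ≤ d) :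
    ∃ (c : L) (r : Fin d → L × L), (∀ i, r i ≠ 0) ∧
      ∀ x, homog g d x = c * ∏ i, wd x (r i) := by
  have hsp : g.Splits := IsAlgClosed.splits g
  have hcard : Multiset.card g.roots = g.natDegree := (splits_iff_card_roots.mp hsp)
  obtain ⟨r, hr⟩ := exists_fin_of_multiset (g.roots.map (fun r => ((r, 1) : L × L)) +
    Multiset.replicate (d - g.natDegree) ((1, 0) : L × L)) d (by
      rw [Multiset.card_add, Multiset.card_map, hcard, Multiset.card_replicate]
      omega)
  have hprod : ∀ F : L × L → L, ∏ i, F (r i) = (g.roots.map (fun a => F (a, 1))).prod *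
      F (1, 0) ^ (d - g.natDegree) := by
    intro F
    rw [Finset.prod_eq_multiset_prod]
    have e0 : Multiset.map (fun i => F (r i)) Finset.univ.val =
        Multiset.map F (Multiset.map r Finset.univ.val) := by
      rw [Multiset.map_map]
      rfl
    rw [e0, hr, Multiset.map_add,
      Multiset.prod_add, Multiset.map_map, Multiset.map_replicate, Multiset.prod_replicate]
    rfl
  have hmem : ∀ i, r i ∈ g.roots.map (fun r => ((r, 1) : L × L)) +
      Multiset.replicate (d - g.natDegree) ((1, 0) : L × L) := by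
    intro i
    rw [← hr]
    exact Multiset.mem_map_of_mem r (Finset.mem_univ i)
  refine ⟨g.leadingCoeff * (-1) ^ (d - g.natDegree), r, ?_, ?_⟩
  · intro i h0
    rcases Multiset.mem_add.mp (hmem i) with h1 | h1
    · obtain ⟨a, ha, hra⟩ := Multiset.mem_map.mp h1
      have := congrArg Prod.snd (hra.trans h0)
      simp at this
    · have h2 := Multiset.eq_of_mem_replicate h1
      have := congrArg Prod.fst (h2.symm.trans h0)
      simp at this
  · intro x
    rw [homog_eq_prod hg, hprod (fun y => wd x y)]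
    have e2 : (fun r => x.1 - r * x.2) = (fun a => wd x (a, 1)) := by
      funext r
      unfold wd
      ring
    have e3 : wd x (1, 0) = - x.2 := by
      unfold wd
      ring
    have e4 : (-x.2) ^ (d - g.natDegree) = (-1) ^ (d - g.natDegree) * x.2 ^ (d - g.natDegree) := by
      rw [neg_pow]
    have e5 : ((-1 : L) ^ (d - g.natDegree)) * (-1) ^ (d - g.natDegree) = 1 := by
      rw [← mul_pow]
      simp
    rw [e2, e3, e4]
    linear_combination (-(g.leadingCoeff * (Multiset.map (fun a => wd x (a, 1)) g.roots).prod *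
      x.2 ^ (d - g.natDegree))) * e5

/-- The resultant of a pair of forms composed with a linear map. -/
lemma resultant_comp [IsAlgClosed L] {p q p' q' : L[X]} {d : ℕ} {a₁ a₂ a₃ a₄ : L}
    (hdet : a₁ * a₄ - a₂ * a₃ ≠ 0) (hp : p.natDegree ≤ d) (hq : q.natDegree ≤ d)
    (hp' : p'.natDegree ≤ d) (hq' : q'.natDegree ≤ d)
    (h1 : ∀ x y, homog p d (a₁ * x + a₂ * y, a₃ * x + a₄ * y) = homog p' d (x, y))
    (h2 : ∀ x y, homog q d (a₁ * x + a₂ * y, a₃ * x + a₄ * y) = homog q' d (x, y)) :
    resultant p' q' d d = (a₁ * a₄ - a₂ * a₃) ^ (d * d) * resultant p q d d := by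
  have : Infinite L := IsAlgClosed.instInfinite
  obtain ⟨c, r, hr, hc⟩ := exists_factor hp
  have e1 := resultant_eq_prod hp hq c r hr (fun t => hc (t, 1))
  have e2 := resultant_eq_prod hp' hq' c
    (fun i => (a₄ * (r i).1 - a₂ * (r i).2, a₁ * (r i).2 - a₃ * (r i).1)) (by
      intro i h0
      apply hr i
      have g1 := congrArg Prod.fst h0
      have g2 := congrArg Prod.snd h0
      simp only [Prod.fst_zero, Prod.snd_zero] at g1 g2
      have f1 : (a₁ * a₄ - a₂ * a₃) * (r i).1 = 0 := by linear_combination a₁ * g1 + a₂ * g2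
      have f2 : (a₁ * a₄ - a₂ * a₃) * (r i).2 = 0 := by linear_combination a₃ * g1 + a₄ * g2
      exact Prod.ext ((mul_eq_zero.1 f1).resolve_left hdet)
        ((mul_eq_zero.1 f2).resolve_left hdet)) (by
      intro t
      rw [← h1, hc]
      congr 1
      refine Finset.prod_congr rfl (fun i _ => ?_)
      unfold wd
      ring)
  rw [e1, e2, mul_left_comm]
  congr 1
  have e3 : ∀ i, homog q' d (a₄ * (r i).1 - a₂ * (r i).2, a₁ * (r i).2 - a₃ * (r i).1) =
      (a₁ * a₄ - a₂ * a₃) ^ d * homog q d (r i) := by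
    intro i
    rw [← h2, ← homog_smul]
    congr 1
    ext
    · simp only [Prod.smul_fst, smul_eq_mul]
      ring
    · simp only [Prod.smul_snd, smul_eq_mul]
      ring
  simp only [e3]
  rw [Finset.prod_mul_distrib, Finset.prod_const, Finset.card_univ, Fintype.card_fin, ← pow_mul]

/-- The resultant of two linear combinations. -/
lemma resultant_lincomb {P Q : L[X]} {d : ℕ} (hP : P.natDegree ≤ d) (hQ : Q.natDegree ≤ d)
    (a₁ a₂ a₃ a₄ : L) (hdet : a₁ * a₄ - a₂ * a₃ ≠ 0) :
    resultant (C a₁ * P + C a₂ * Q) (C a₃ * P + C a₄ * Q) d d =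
      (a₁ * a₄ - a₂ * a₃) ^ d * resultant P Q d d := by
  have hd1 : ∀ a : L, (C a * P).natDegree ≤ d := fun a => (natDegree_C_mul_le _ _).trans hP
  have hd2 : ∀ a : L, (C a * Q).natDegree ≤ d := fun a => (natDegree_C_mul_le _ _).trans hQ
  by_cases h : a₁ = 0
  · subst h
    rw [C_0, zero_mul, zero_add, zero_mul, zero_sub]
    have ha2 : a₂ ≠ 0 := by
      rintro rfl
      simp at hdet
    have e1 : C a₃ * P + C a₄ * Q = C a₃ * P + (C a₂ * Q) * C (a₄ / a₂) := by
      congr 1
      rw [mul_assoc, mul_comm Q, ← mul_assoc, ← C_mul, mul_div_cancel₀ _ ha2]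
    rw [e1, resultant_add_mul_right _ _ _ _ _ (by rw [natDegree_C, zero_add]) (hd2 a₂),
      resultant_C_mul_left, resultant_C_mul_right, resultant_comm, neg_pow (a₂ * a₃), mul_pow]
    have e2 : (-1 : L) ^ (d * d) = (-1) ^ d := by
      rcases Nat.even_or_odd d with h | h
      · rw [h.neg_one_pow, (h.mul_left d).neg_one_pow]
      · rw [h.neg_one_pow, (h.mul h).neg_one_pow]
    rw [e2]
    ring
  · have e1 : C a₃ * P + C a₄ * Q = C ((a₁ * a₄ - a₂ * a₃) / a₁) * Q +
        (C a₁ * P + C a₂ * Q) * C (a₃ / a₁) := by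
      have f1 : a₃ = a₁ * (a₃ / a₁) := by field_simp
      have f2 : a₄ = (a₁ * a₄ - a₂ * a₃) / a₁ + a₂ * (a₃ / a₁) := by
        field_simp
        ring
      have g1 : C a₃ = C a₁ * C (a₃ / a₁) := by rw [← C_mul, ← f1]
      have g2 : C a₄ = C ((a₁ * a₄ - a₂ * a₃) / a₁) + C a₂ * C (a₃ / a₁) := by
        rw [← C_mul, ← C_add, ← f2]
      rw [g1, g2]
      ring
    have e3 : C a₁ * P + C a₂ * Q = C a₁ * P + Q * C a₂ := by ring
    have hd3 : (C a₁ * P + C a₂ * Q).natDegree ≤ d :=
      (natDegree_add_le _ _).trans (max_le (hd1 a₁) (hd2 a₂))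
    rw [e1, resultant_add_mul_right _ _ _ _ _ (by rw [natDegree_C, zero_add]) hd3,
      resultant_C_mul_right, e3,
      resultant_add_mul_left _ _ _ _ _ (by rw [natDegree_C, zero_add]) hQ,
      resultant_C_mul_left, ← mul_assoc, ← mul_pow, div_mul_cancel₀ _ h]

end formal

section conj

/-- Values of forms under ring homomorphisms. -/
lemma map_homog {R S : Type*} [CommSemiring R] [CommSemiring S] (φ : R →+* S) (p : R[X]) (d : ℕ)
    (x : R × R) : φ (homog p d x) = homog (p.map φ) d (φ x.1, φ x.2) := by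
  unfold homog
  rw [map_sum]
  refine Finset.sum_congr rfl (fun i _ => ?_)
  rw [map_mul, map_mul, map_pow, map_pow, coeff_map]

variable {K : Type} [Field K] [Infinite K]

lemma forms_map {L : Type} [Field L] (ι : K →+* L) {p P Q : K[X]} {d : ℕ}
    {a₁ a₂ a₃ a₄ γ b₁ b₂ : K}
    (h : ∀ x y : K, homog p d (a₁ * x + a₂ * y, a₃ * x + a₄ * y) =
      γ * (b₁ * homog P d (x, y) + b₂ * homog Q d (x, y))) (x y : L) :
    homog (p.map ι) d (ι a₁ * x + ι a₂ * y, ι a₃ * x + ι a₄ * y) =
      ι γ * (ι b₁ * homog (P.map ι) d (x, y) + ι b₂ * homog (Q.map ι) d (x, y)) := by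
  set c : K →+* MvPolynomial (Fin 2) K := MvPolynomial.C with hc
  have key : homog (p.map c) d (c a₁ * MvPolynomial.X 0 + c a₂ * MvPolynomial.X 1,
      c a₃ * MvPolynomial.X 0 + c a₄ * MvPolynomial.X 1) =
      c γ * (c b₁ * homog (P.map c) d (MvPolynomial.X 0, MvPolynomial.X 1) +
        c b₂ * homog (Q.map c) d (MvPolynomial.X 0, MvPolynomial.X 1)) := by
    refine MvPolynomial.funext (fun s => ?_)
    have hid : (MvPolynomial.eval s).comp c = RingHom.id K := by
      ext z
      simp [hc]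
    have hev : ∀ z : K, MvPolynomial.eval s (c z) = z := by
      intro z
      simp [hc]
    simp only [map_mul, map_add, map_homog, Polynomial.map_map, hid, Polynomial.map_id, hev,
      MvPolynomial.eval_X]
    exact h _ _
  have h1 := congrArg (MvPolynomial.eval₂Hom ι ![x, y]) key
  have hid : (MvPolynomial.eval₂Hom ι ![x, y]).comp c = ι := by
    ext z
    simp [hc]
  have hev : ∀ z : K, MvPolynomial.eval₂Hom ι ![x, y] (c z) = ι z := by
    intro z
    simp [hc]
  simp only [map_mul, map_add, map_homog, Polynomial.map_map, hid, hev,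
    MvPolynomial.eval₂Hom_X'] at h1
  simpa using h1

/-- Conjugation is preserved by field extensions. -/
lemma conj_map {L : Type} [Field L] (ι : K →+* L) {p q P Q : K[X]} {d : ℕ}
    {a₁ a₂ a₃ a₄ γ : K} (h : Conj p q P Q d a₁ a₂ a₃ a₄ γ) :
    Conj (p.map ι) (q.map ι) (P.map ι) (Q.map ι) d (ι a₁) (ι a₂) (ι a₃) (ι a₄) (ι γ) := by
  obtain ⟨h1, h2, h3⟩ := h
  refine ⟨?_, ?_, fun x y => ⟨forms_map ι (fun x y => (h3 x y).1) x y,
    forms_map ι (fun x y => (h3 x y).2) x y⟩⟩
  · intro h0
    apply h1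
    apply ι.injective
    rw [map_sub, map_mul, map_mul, h0, map_zero]
  · exact (map_ne_zero ι).2 h2

lemma homog_add {L : Type*} [Field L] (p q : L[X]) (d : ℕ) (x : L × L) :
    homog (p + q) d x = homog p d x + homog q d x := by
  unfold homog
  rw [← Finset.sum_add_distrib]
  refine Finset.sum_congr rfl (fun i _ => ?_)
  rw [coeff_add]
  ring

lemma resultant_eq_algClosed {L : Type} [Field L] [IsAlgClosed L] {p q P Q : L[X]} {d : ℕ}
    {a₁ a₂ a₃ a₄ γ : L} (h : Conj p q P Q d a₁ a₂ a₃ a₄ γ) (hp : p.natDegree ≤ d)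
    (hq : q.natDegree ≤ d) (hP : P.natDegree ≤ d) (hQ : Q.natDegree ≤ d) :
    resultant p q d d * (a₁ * a₄ - a₂ * a₃) ^ (d * d) =
      (a₁ * a₄ - a₂ * a₃) ^ d * (γ ^ (2 * d) * resultant P Q d d) := by
  obtain ⟨h1, h2, h3⟩ := h
  have hd : ∀ a b : L, (C a * P + C b * Q).natDegree ≤ d := fun a b =>
    (natDegree_add_le _ _).trans (max_le ((natDegree_C_mul_le _ _).trans hP)
      ((natDegree_C_mul_le _ _).trans hQ))
  have e1 := resultant_comp h1 hp hq (p' := C γ * (C a₁ * P + C a₂ * Q))
    (q' := C γ * (C a₃ * P + C a₄ * Q)) ((natDegree_C_mul_le _ _).trans (hd _ _))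
    ((natDegree_C_mul_le _ _).trans (hd _ _)) (by
      intro x y
      rw [(h3 x y).1, homog_C_mul, homog_add, homog_C_mul, homog_C_mul]) (by
      intro x y
      rw [(h3 x y).2, homog_C_mul, homog_add, homog_C_mul, homog_C_mul])
  rw [resultant_C_mul_left, resultant_C_mul_right, resultant_lincomb hP hQ _ _ _ _ h1] at e1
  rw [mul_comm, ← e1, two_mul, pow_add]
  ring

end conj

end Pool.Agent.MP90787a.P1.Res

namespace Pool.Agent.MP90787a.P1

open Polynomial NumberField Height Pool.Agent.UBC90787a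

theorem Conj.resultant_eq {K : Type} [Field K] [Infinite K] {p q P Q : K[X]} {d : ℕ}
    {a₁ a₂ a₃ a₄ γ : K} (h : Conj p q P Q d a₁ a₂ a₃ a₄ γ) (hp : p.natDegree ≤ d)
    (hq : q.natDegree ≤ d) (hP : P.natDegree ≤ d) (hQ : Q.natDegree ≤ d) :
    resultant p q d d * (a₁ * a₄ - a₂ * a₃) ^ (d * (d - 1)) =
      γ ^ (2 * d) * resultant P Q d d := by
  have h1 := Res.resultant_eq_algClosed (Res.conj_map (algebraMap K (AlgebraicClosure K)) h)
    (natDegree_map_le.trans hp) (natDegree_map_le.trans hq) (natDegree_map_le.trans hP)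
    (natDegree_map_le.trans hQ)
  rw [resultant_map_map, resultant_map_map] at h1
  simp only [← map_mul, ← map_sub, ← map_pow] at h1
  have h2 := (algebraMap K (AlgebraicClosure K)).injective h1
  have hne : (a₁ * a₄ - a₂ * a₃) ^ d ≠ 0 := pow_ne_zero _ h.1
  refine mul_left_cancel₀ hne ?_
  rw [← h2]
  have e1 : d * d = d + d * (d - 1) := by
    cases d with
    | zero => rfl
    | succ d =>
      rw [Nat.add_sub_cancel]
      ring
  rw [e1, pow_add]
  ring

end Pool.Agent.MP90787a.P1
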