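import Pool.Agent.Lib.MP_90787a_nt.P1.Sep
import Pool.Agent.Lib.MP_90787a_nt.P1.Fam1
import Pool.Agent.Lib.MP_90787a_nt.P1.Res

set_option autoImplicit false

/-!
Families with separable bad reduction.
-/

namespace Pool.Agent.MP90787a.P1

open Polynomial NumberField Height Pool.Agent.UBC90787a

/-- Composition of conjugations. -/
lemma Conj.trans {K : Type} [Field K] {p q P Q P' Q' : K[X]} {d : ℕ}
    {a₁ a₂ a₃ a₄ γ b₁ b₂ b₃ b₄ δ : K} (h : Conj p q P Q d a₁ a₂ a₃ a₄ γ)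
    (h' : Conj P Q P' Q' d b₁ b₂ b₃ b₄ δ) :
    Conj p q P' Q' d (a₁ * b₁ + a₂ * b₃) (a₁ * b₂ + a₂ * b₄) (a₃ * b₁ + a₄ * b₃)
      (a₃ * b₂ + a₄ * b₄) (γ * δ) := by
  obtain ⟨h1, h2, h3⟩ := h
  obtain ⟨h1', h2', h3'⟩ := h'
  refine ⟨?_, mul_ne_zero h2 h2', fun x y => ?_⟩
  · have := mul_ne_zero h1 h1'
    intro h0
    apply this
    rw [← h0]
    ring
  · have e1 : ((a₁ * b₁ + a₂ * b₃) * x + (a₁ * b₂ + a₂ * b₄) * y,
        (a₃ * b₁ + a₄ * b₃) * x + (a₃ * b₂ + a₄ * b₄) * y) =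
        (a₁ * (b₁ * x + b₂ * y) + a₂ * (b₃ * x + b₄ * y),
          a₃ * (b₁ * x + b₂ * y) + a₄ * (b₃ * x + b₄ * y)) := by
      ext <;> ring
    obtain ⟨h4, h5⟩ := h3 (b₁ * x + b₂ * y) (b₃ * x + b₄ * y)
    obtain ⟨h6, h7⟩ := h3' x y
    rw [e1, h4, h5, h6, h7]
    constructor <;> ring

lemma ExpRed.of_conj {K : Type} [Field K] {v : K → ℝ} {m q₀ b : ℕ} {p q p' q' : K[X]} {d : ℕ}
    {a₁ a₂ a₃ a₄ γ : K} (h' : ExpRed v m q₀ b p' q' d) (h : Conj p q p' q' d a₁ a₂ a₃ a₄ γ) :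
    ExpRed v m q₀ b p q d := by
  obtain ⟨b₁, b₂, b₃, b₄, δ, P, Q, r, σ, h1, h2⟩ := h'
  exact ⟨_, _, _, _, _, P, Q, r, σ, h.trans h1, h2⟩

namespace SepFam

section place

variable {K : Type} [Field K] [NumberField K] {v : FinitePlace K}

/-- The condition on values. -/
lemma pow_of_zpow {ρ σ : ℝ} (hρ : 0 < ρ) {t : ℤ} (hσ : σ = ρ ^ t) {m : ℕ} (hm : (m : ℤ) ∣ t)
    (z w : K) (i j : ℤ) (hz : v z = ρ * σ ^ i) (hw : v w = ρ * σ ^ j) :
    ∃ e : K, v z = v w * v e ^ m := by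
  obtain ⟨s, rfl⟩ := hm
  refine ⟨(z ^ (-j) * w ^ i) ^ s, ?_⟩
  have hσ0 : 0 < σ := by rw [hσ]; positivity
  have h1 : v (z ^ (-j) * w ^ i) = ρ ^ (i - j) := by
    rw [map_mul, map_zpow₀, map_zpow₀, hz, hw, mul_zpow, mul_zpow, ← zpow_mul, ← zpow_mul]
    have e1 : σ ^ (i * -j) * σ ^ (j * i) = 1 := by
      rw [← zpow_add₀ hσ0.ne', show i * -j + j * i = 0 by ring, zpow_zero]
    calc ρ ^ (-j) * σ ^ (i * -j) * (ρ ^ i * σ ^ (j * i)) =
        ρ ^ (-j) * ρ ^ i * (σ ^ (i * -j) * σ ^ (j * i)) := by ring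
      _ = ρ ^ (i - j) := by
          rw [e1, mul_one, ← zpow_add₀ hρ.ne']
          congr 1
          ring
  rw [map_zpow₀, h1, ← zpow_natCast, ← zpow_mul, ← zpow_mul, hz, hw, mul_assoc]
  congr 1
  have h2 : ρ ^ ((i - j) * (s * m)) = σ ^ (i - j) := by
    rw [hσ, ← zpow_mul]
    congr 1
    ring
  rw [h2, ← zpow_add₀ hσ0.ne']
  congr 1
  ring

/-- The resultant with the derivative of a multiple. -/
lemma res_der {F : K[X]} {d : ℕ} (hd : 2 ≤ d) (hFd : F.natDegree = d) (a : K) :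
    v (resultant (C a * F) (derivative (C a * F)) d (d - 1)) =
      v a ^ (2 * d - 1) * (v (F.coeff d) * v (discr F)) := by
  have h1 := resultant_deriv (f := F) (natDegree_pos_iff_degree_pos.1 (by omega))
  rw [hFd] at h1
  rw [derivative_C_mul, resultant_C_mul_left, resultant_C_mul_right, h1, leadingCoeff, hFd]
  simp only [map_mul, map_pow, map_neg_eq_map, map_one, one_pow, one_mul]
  rw [← mul_assoc, ← pow_add]
  congr 2
  omega

/-- The maps `F / (N G)`. -/
theorem twist_lt {F G : K[X]} {N : K} {d m : ℕ} (hd : 2 ≤ d) (hF : ∀ i, v (F.coeff i) ≤ 1)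
    (hG : ∀ i, v (G.coeff i) ≤ 1) (hFd : F.natDegree ≤ d) (hGd : G.natDegree ≤ d)
    (hres : v (resultant F G d d) = 1) (hN0 : N ≠ 0) (hN : v N < 1) (hlc : v (F.coeff d) = 1)
    (hdisc : v (discr F) = 1) (hpow : ∃ e : K, v N = v e ^ m) :
    ExpRed v m d d F (C N * G) d := by
  obtain ⟨e, he⟩ := hpow
  have hN1 : 0 < v N := FinitePlace.pos_iff.2 hN0
  set lc := F.coeff d with hlcd
  have hlc0 : lc ≠ 0 := by
    rw [← FinitePlace.pos_iff (w := v), hlc]
    exact one_pos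
  have hFd' : F.natDegree = d := le_antisymm hFd (le_natDegree_of_ne_zero hlc0)
  have hinv : lc⁻¹ ≠ 0 := inv_ne_zero hlc0
  refine SepRed.expRed hd ⟨1, 0, 0, 1, lc, C lc⁻¹ * F, C lc⁻¹ * (C N * G), 1, v N,
    ⟨by simp, hlc0, ?_⟩, ?_, ?_, ?_, one_pos, hN1, by rwa [one_pow], ?_, ?_, ?_, ?_⟩
  · intro x y
    simp only [homog_C_mul, one_mul, zero_mul, add_zero, zero_add]
    constructor
    · rw [mul_inv_cancel_left₀ hlc0]
    · rw [mul_inv_cancel_left₀ hlc0]
  · rw [Monic, leadingCoeff_mul, leadingCoeff_C, leadingCoeff, hFd', ← hlcd,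
      inv_mul_cancel₀ hlc0]
  · rw [natDegree_C_mul hinv, hFd']
  · rw [natDegree_C_mul hinv, natDegree_C_mul hN0]
    exact hGd
  · intro i _
    rw [coeff_C_mul, coeff_C_mul, coeff_C_mul, map_mul, map_mul, map_mul, map_inv₀, hlc, inv_one,
      one_mul, one_mul, one_pow, one_pow, mul_one]
    exact ⟨hF i, mul_le_of_le_one_right hN1.le (hG i)⟩
  · rw [resultant_C_mul_left, resultant_C_mul_right, resultant_C_mul_right]
    simp only [map_mul, map_pow, map_inv₀, hlc, inv_one, one_pow, one_mul, hres, mul_one]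
  · rw [res_der hd hFd', map_inv₀, hdisc, ← hlcd, hlc]
    simp
  · intro z w i j hz hw
    rw [one_pow, one_mul] at hz hw
    refine ⟨e ^ (j - i), ?_⟩
    have h1 : v (e ^ (j - i)) ^ m = v N ^ (j - i) := by
      rw [map_zpow₀, he, ← zpow_natCast, ← zpow_natCast, ← zpow_mul, ← zpow_mul, mul_comm]
    rw [h1, hz, hw, one_div, inv_zpow, inv_zpow, ← zpow_neg, ← zpow_neg, ← zpow_add₀ hN1.ne']
    congr 1
    ring

/-- Polynomials. -/
theorem poly {f : K[X]} {d m : ℕ} (hd : 2 ≤ d) (hm : m ∣ d - 1) (hfd : f.natDegree = d)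
    (hlc : v f.leadingCoeff = 1) (h : (∀ i, v (f.coeff i) ≤ 1) ∨
      ∀ i ≤ d, v (f.coeff i) ^ (d * (d - 1)) ≤ v (discr f) ^ (d - i)) :
    PotGoodRed v f 1 d ∨ ExpRed v m d d f 1 d := by
  have hlc' : v (f.coeff d) = 1 := by rw [← hfd]; exact hlc
  by_cases hall : ∀ i, v (f.coeff i) ≤ 1
  · left
    refine Fam1.potGood_of_int v hall (fun i => ?_) ?_
    · exact FamU.int_one v i
    · rw [resultant_one_right, map_pow, hlc', one_pow]
  replace h := h.resolve_left hall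
  right
  push Not at hall
  obtain ⟨k, hk⟩ := hall
  have hkd : k < d := by
    by_contra hcon
    push Not at hcon
    rcases hcon.eq_or_lt with h0 | h0
    · rw [← h0, hlc'] at hk
      exact lt_irrefl _ hk
    · rw [coeff_eq_zero_of_natDegree_lt (by omega), map_zero] at hk
      linarith
  have hdd : d * (d - 1) ≠ 0 := by
    have : 0 < d * (d - 1) := Nat.mul_pos (by omega) (by omega)
    omega
  have hdisc1 : 1 < v (discr f) := by
    by_contra hcon
    push Not at hcon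
    have h1 := h k hkd.le
    have h2 : v (discr f) ^ (d - k) ≤ 1 := pow_le_one₀ (apply_nonneg v _) hcon
    have h3 : 1 < v (f.coeff k) ^ (d * (d - 1)) := one_lt_pow₀ hk hdd
    linarith
  obtain ⟨r, hr1, hrd⟩ := G.Translates.exists_root hdisc1 hdd
  have hr0 : 0 < r := by linarith
  have hle : ∀ i ≤ d, v (f.coeff i) ≤ r ^ (d - i) := by
    intro i hi
    have h1 := h i hi
    rw [← hrd, ← pow_mul, mul_comm (d * (d - 1)) (_ : ℕ), pow_mul r] at h1
    exact (pow_le_pow_iff_left₀ (apply_nonneg v _) (by positivity) hdd).1 h1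
  set lc := f.coeff d with hlcd
  have hlc0 : lc ≠ 0 := by
    rw [← FinitePlace.pos_iff (w := v), hlc']
    exact one_pos
  have hinv : lc⁻¹ ≠ 0 := inv_ne_zero hlc0
  have hvinv : v lc⁻¹ = 1 := by rw [map_inv₀, hlc', inv_one]
  refine SepRed.expRed hd ⟨1, 0, 0, 1, lc, C lc⁻¹ * f, C lc⁻¹ * 1, r, 1,
    ⟨by simp, hlc0, ?_⟩, ?_, ?_, ?_, hr0, one_pos, one_lt_pow₀ hr1 (by omega), ?_, ?_, ?_, ?_⟩
  · intro x y
    simp only [homog_C_mul, one_mul, zero_mul, add_zero, zero_add]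
    constructor
    · rw [mul_inv_cancel_left₀ hlc0]
    · rw [mul_inv_cancel_left₀ hlc0]
  · rw [Monic, leadingCoeff_mul, leadingCoeff_C, leadingCoeff, hfd, ← hlcd,
      inv_mul_cancel₀ hlc0]
  · rw [natDegree_C_mul hinv, hfd]
  · rw [mul_one, natDegree_C]
    omega
  · intro i hi
    rw [coeff_C_mul, coeff_C_mul, map_mul, map_mul, hvinv, one_mul, one_mul]
    refine ⟨hle i hi, ?_⟩
    rw [coeff_one]
    split_ifs with h0
    · rw [h0, pow_zero, map_one, mul_one]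
    · rw [map_zero, zero_mul]
      exact zero_le_one
  · rw [resultant_C_mul_left, resultant_C_mul_right, resultant_one_right]
    simp only [map_mul, map_pow, hvinv, one_pow, one_mul]
    rw [← hlcd, hlc', one_pow]
  · rw [res_der hd hfd, hvinv, one_pow, one_mul, ← hlcd, hlc', one_mul, hrd]
  · intro z w i j hz hw
    refine pow_of_zpow hr0 (t := ((d - 1 : ℕ) : ℤ)) ?_ (Int.natCast_dvd_natCast.2 hm) z w i j hz hw
    rw [div_one, zpow_natCast]

/-- The maps `p / z ^ d`. -/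
theorem pole {p : K[X]} {d m : ℕ} (hd : 2 ≤ d) (hm : m ∣ d + 1) (hpd : p.natDegree ≤ d)
    (hp0 : v (p.coeff 0) = 1) (h : (∀ i, v (p.coeff i) ≤ 1) ∨
      ((∀ i ≤ d, v (p.coeff i) ^ (d * (d - 1)) ≤ v (discr p) ^ i) ∧
        v (p.coeff d) ^ (d * (d - 1)) = v (discr p) ^ d)) :
    PotGoodRed v p (X ^ d) d ∨ ExpRed v m d d p (X ^ d) d := by
  by_cases hall : ∀ i, v (p.coeff i) ≤ 1
  · left
    refine Fam1.potGood_of_int v hall (fun i => ?_) ?_
    · rw [coeff_X_pow]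
      split_ifs <;> simp
    · rw [resultant_X_pow_right _ _ _ hpd]
      simp only [map_mul, map_pow, map_neg_eq_map, map_one, one_pow, one_mul, hp0]
  obtain ⟨h, hd'⟩ := h.resolve_left hall
  right
  push Not at hall
  obtain ⟨k, hk⟩ := hall
  have hkd : k ≤ d := by
    by_contra hcon
    push Not at hcon
    rw [coeff_eq_zero_of_natDegree_lt (by omega), map_zero] at hk
    linarith
  have hdd : d * (d - 1) ≠ 0 := by
    have : 0 < d * (d - 1) := Nat.mul_pos (by omega) (by omega)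
    omega
  have hdisc1 : 1 < v (discr p) := by
    by_contra hcon
    push Not at hcon
    have h1 := h k hkd
    have h2 : v (discr p) ^ k ≤ 1 := pow_le_one₀ (apply_nonneg v _) hcon
    have h3 : 1 < v (p.coeff k) ^ (d * (d - 1)) := one_lt_pow₀ hk hdd
    linarith
  obtain ⟨r, hr1, hrd⟩ := G.Translates.exists_root hdisc1 hdd
  have hr0 : 0 < r := by linarith
  have hle : ∀ i ≤ d, v (p.coeff i) ≤ r ^ i := by
    intro i hi
    have h1 := h i hi
    rw [← hrd, ← pow_mul, mul_comm (d * (d - 1)) (_ : ℕ), pow_mul r] at h1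
    exact (pow_le_pow_iff_left₀ (apply_nonneg v _) (by positivity) hdd).1 h1
  have hlc : v (p.coeff d) = r ^ d := by
    rw [← hrd, ← pow_mul, mul_comm (d * (d - 1)) d, pow_mul r] at hd'
    exact (pow_left_inj₀ (apply_nonneg v _) (by positivity) hdd).1 hd'
  set lc := p.coeff d with hlcd
  have hlc0 : lc ≠ 0 := by
    rw [← FinitePlace.pos_iff (w := v), hlc]
    positivity
  have hpd' : p.natDegree = d := le_antisymm hpd (le_natDegree_of_ne_zero hlc0)
  have hinv : lc⁻¹ ≠ 0 := inv_ne_zero hlc0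
  have hvinv : v lc⁻¹ = r⁻¹ ^ d := by rw [map_inv₀, hlc, inv_pow]
  have hri : 0 < r⁻¹ := by positivity
  have hri1 : r⁻¹ < 1 := inv_lt_one_of_one_lt₀ hr1
  refine SepRed.expRed hd ⟨1, 0, 0, 1, lc, C lc⁻¹ * p, C lc⁻¹ * X ^ d, r⁻¹, r⁻¹ ^ (2 * d),
    ⟨by simp, hlc0, ?_⟩, ?_, ?_, ?_, hri, by positivity,
    pow_lt_pow_right_of_lt_one₀ hri hri1 (by omega), ?_, ?_, ?_, ?_⟩
  · intro x y
    simp only [homog_C_mul, one_mul, zero_mul, add_zero, zero_add]
    constructor
    · rw [mul_inv_cancel_left₀ hlc0]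
    · rw [mul_inv_cancel_left₀ hlc0]
  · rw [Monic, leadingCoeff_mul, leadingCoeff_C, leadingCoeff, hpd', ← hlcd,
      inv_mul_cancel₀ hlc0]
  · rw [natDegree_C_mul hinv, hpd']
  · rw [natDegree_C_mul hinv, natDegree_X_pow]
  · intro i hi
    rw [coeff_C_mul, coeff_C_mul, map_mul, map_mul, hvinv]
    constructor
    · calc r⁻¹ ^ d * v (p.coeff i) ≤ r⁻¹ ^ d * r ^ i :=
            mul_le_mul_of_nonneg_left (hle i hi) (by positivity)
        _ = r⁻¹ ^ (d - i) := by
            have : r⁻¹ ^ d = r⁻¹ ^ (d - i) * r⁻¹ ^ i := by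
              rw [← pow_add]
              congr 1
              omega
            rw [this, mul_assoc, ← mul_pow, inv_mul_cancel₀ hr0.ne', one_pow, mul_one]
    · rw [coeff_X_pow]
      split_ifs with h0
      · rw [h0, map_one, mul_one, ← pow_add]
        apply le_of_eq
        congr 1
        ring
      · rw [map_zero, mul_zero, zero_mul]
        positivity
  · rw [resultant_C_mul_left, resultant_C_mul_right, resultant_X_pow_right _ _ _ hpd]
    simp only [map_mul, map_pow, map_neg_eq_map, map_one, one_pow, hp0, hvinv, mul_one]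
    rw [← pow_mul, ← pow_mul, ← pow_add]
    congr 1
    ring
  · rw [res_der hd hpd', hvinv, ← hlcd, hlc, ← hrd, ← pow_mul]
    have h1 : r ^ d * r ^ (d * (d - 1)) = r ^ (d * d) := by
      rw [← pow_add]
      congr 1
      obtain ⟨n, rfl⟩ : ∃ n, d = n + 1 := ⟨d - 1, by omega⟩
      rw [Nat.add_sub_cancel]
      ring
    have h2 : r⁻¹ ^ (d * (2 * d - 1)) = r⁻¹ ^ (d * (d - 1)) * r⁻¹ ^ (d * d) := by
      rw [← pow_add]
      congr 1
      obtain ⟨n, rfl⟩ : ∃ n, d = n + 1 := ⟨d - 1, by omega⟩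
      rw [Nat.add_sub_cancel, show 2 * (n + 1) - 1 = 2 * n + 1 by omega]
      ring
    rw [h1, h2, mul_assoc, ← mul_pow, inv_mul_cancel₀ hr0.ne', one_pow, mul_one]
  · intro z w i j hz hw
    refine pow_of_zpow hri (t := -((d + 1 : ℕ) : ℤ)) ?_
      ((dvd_neg).2 (Int.natCast_dvd_natCast.2 hm)) z w i j hz hw
    rw [zpow_neg, zpow_natCast, div_eq_iff (by positivity), eq_inv_mul_iff_mul_eq₀ (by positivity),
      ← pow_add]
    congr 1
    omega

/-! ### Inversion -/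

omit [NumberField K] in
lemma homog_reflect {G : K[X]} {d : ℕ} (x y : K) :
    homog (G.reflect d) d (x, y) = homog G d (y, x) := by
  unfold homog
  rw [← Finset.sum_flip]
  refine Finset.sum_congr rfl fun i hi => ?_
  rw [Finset.mem_range] at hi
  rw [coeff_reflect, revAt_le (by omega), show d - (d - i) = i by omega]
  ring

omit [NumberField K] in
lemma reflect_natDegree {G : K[X]} {d : ℕ} (hG : G.natDegree ≤ d) : (G.reflect d).natDegree ≤ d :=
  natDegree_reflect_le.trans (max_le le_rfl hG)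

lemma reflect_int (v : FinitePlace K) {G : K[X]} (hG : ∀ i, v (G.coeff i) ≤ 1) (d i : ℕ) :
    v ((G.reflect d).coeff i) ≤ 1 := by
  rw [coeff_reflect]
  exact hG _

/-- The maps `F / (N G)`, the other case. -/
theorem twist_gt {F G : K[X]} {N : K} {d m : ℕ} (hd : 2 ≤ d) (hF : ∀ i, v (F.coeff i) ≤ 1)
    (hG : ∀ i, v (G.coeff i) ≤ 1) (hFd : F.natDegree ≤ d) (hGd : G.natDegree ≤ d)
    (hres : v (resultant F G d d) = 1) (hN0 : N ≠ 0) (h : 1 < v N) (h3 : v (G.coeff 0) = 1)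
    (h4 : v (discr (G.reflect d)) = 1) (hpow : ∃ e : K, v N = v e ^ m) :
    ExpRed v m d d F (C N * G) d := by
  have hinv : N⁻¹ ≠ 0 := inv_ne_zero hN0
  have hconj : Conj F (C N * G) (G.reflect d) (C N⁻¹ * F.reflect d) d 0 1 1 0 N := by
    refine ⟨by simp, hN0, fun x y => ?_⟩
    have e1 : (0 * x + 1 * y, 1 * x + 0 * y) = ((y, x) : K × K) := by
      ext <;> simp
    rw [e1, homog_C_mul, homog_C_mul, homog_reflect, homog_reflect]
    constructor
    · field_simp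
      ring
    · ring
  have hconj' : Conj F G (G.reflect d) (F.reflect d) d 0 1 1 0 1 := by
    refine ⟨by simp, one_ne_zero, fun x y => ?_⟩
    have e1 : (0 * x + 1 * y, 1 * x + 0 * y) = ((y, x) : K × K) := by
      ext <;> simp
    rw [e1, homog_reflect, homog_reflect]
    constructor <;> ring
  have hres' : v (resultant (G.reflect d) (F.reflect d) d d) = 1 := by
    have h5 := hconj'.resultant_eq hFd hGd (reflect_natDegree hGd) (reflect_natDegree hFd)
    have h6 := congrArg v h5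
    simp only [map_mul, map_pow, one_pow, one_mul, mul_zero, mul_one, zero_sub, map_neg_eq_map,
      map_one, hres] at h6
    exact h6.symm
  have hlt : v N⁻¹ < 1 := by
    rw [map_inv₀]
    exact inv_lt_one_of_one_lt₀ h
  refine ExpRed.of_conj (twist_lt (v := v) (F := G.reflect d) (G := F.reflect d) (N := N⁻¹)
    (m := m) hd (reflect_int v hG d) (reflect_int v hF d) (reflect_natDegree hGd)
    (reflect_natDegree hFd) hres' hinv hlt ?_ h4 ?_) hconj
  · rw [coeff_reflect, revAt_le le_rfl, Nat.sub_self]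
    exact h3
  · obtain ⟨e, he⟩ := hpow
    exact ⟨e⁻¹, by rw [map_inv₀, map_inv₀, he, inv_pow]⟩

/-- The maps `c F / G`. -/
theorem dil {F G : K[X]} {c : K} {d m : ℕ} (hd : 2 ≤ d) (hF : ∀ i, v (F.coeff i) ≤ 1)
    (hG : ∀ i, v (G.coeff i) ≤ 1) (hFd : F.natDegree ≤ d) (hGd : G.natDegree ≤ d)
    (hres : v (resultant F G d d) = 1) (hc0 : c ≠ 0) (hpow : ∃ e : K, v c = v e ^ m)
    (h1 : 1 < v c → v (F.coeff d) = 1 ∧ v (discr F) = 1)
    (h2 : v c < 1 → v (G.coeff 0) = 1 ∧ v (discr (G.reflect d)) = 1) :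
    PotGoodRed v (C c * F) G d ∨ ExpRed v m d d (C c * F) G d := by
  rcases eq_or_ne (v c) 1 with h | h
  · left
    refine Fam1.potGood_of_int v (fun i => ?_) hG ?_
    · rw [coeff_C_mul, map_mul, h, one_mul]
      exact hF i
    · rw [resultant_C_mul_left, map_mul, map_pow, h, one_pow, one_mul, hres]
  · right
    have hinv : c⁻¹ ≠ 0 := inv_ne_zero hc0
    have hcp : 0 < v c := FinitePlace.pos_iff.2 hc0
    have hconj : Conj (C c * F) G F (C c⁻¹ * G) d 1 0 0 1 c := by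
      refine ⟨by simp, hc0, fun x y => ?_⟩
      simp only [homog_C_mul, one_mul, zero_mul, add_zero, zero_add, true_and]
      rw [mul_inv_cancel_left₀ hc0]
    refine ExpRed.of_conj ?_ hconj
    have hpow' : ∃ e : K, v c⁻¹ = v e ^ m := by
      obtain ⟨e, he⟩ := hpow
      exact ⟨e⁻¹, by rw [map_inv₀, map_inv₀, he, inv_pow]⟩
    rcases h.lt_or_gt with h | h
    · obtain ⟨h3, h4⟩ := h2 h
      refine twist_gt hd hF hG hFd hGd hres hinv ?_ h3 h4 hpow'
      rw [map_inv₀]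
      exact (one_lt_inv₀ hcp).2 h
    · obtain ⟨h3, h4⟩ := h1 h
      refine twist_lt hd hF hG hFd hGd hres hinv ?_ h3 h4 hpow'
      rw [map_inv₀]
      exact inv_lt_one_of_one_lt₀ h

end place

end SepFam

end Pool.Agent.MP90787a.P1
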