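import Pool.Agent.Lib.MP_90787a_nt.P1.SymMap
import Pool.Agent.Lib.MP_90787a_nt.P1.PencilU
import Pool.Agent.Lib.MP_90787a_nt.P1.Fam1U
import Pool.Agent.Lib.MP_90787a_nt.P1.SepFam
import Pool.Agent.Lib.MP_90787a_nt.P1.FamDefs

set_option autoImplicit false

/-!
The main theorem and explicit members of the class, in the form of the hand-in.
-/

namespace Pool.Agent.MP90787a.P1

open Polynomial NumberField Height Pool.Agent.UBC90787a

/-- The explicit maps belong to the class. -/
theorem Fam.nice {K : Type} [Field K] [NumberField K] {S : Finset (FinitePlace K)} {d m : ℕ}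
    (hd : 2 ≤ d) {p q : K[X]} (h : Fam S d m p q) : IsCoprime p q ∧
      max p.natDegree q.natDegree = d ∧
      NiceR S m d (d.factorial * (2 * d + d * (d - 1))) p q d := by
  have hb0 : 1 ≤ d.factorial := Nat.factorial_pos d
  have hb1 : d ≤ d.factorial * (2 * d + d * (d - 1)) :=
    calc d ≤ 1 * (2 * d + d * (d - 1)) := by omega
      _ ≤ _ := Nat.mul_le_mul_right _ hb0
  have hb2 : (d - 1) * d ≤ d.factorial * (2 * d + d * (d - 1)) :=
    calc (d - 1) * d = d * (d - 1) := mul_comm _ _
      _ ≤ 1 * (2 * d + d * (d - 1)) := by omega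
      _ ≤ _ := Nat.mul_le_mul_right _ hb0
  have hmono : ∀ {v : FinitePlace K} {b : ℕ} {p q : K[X]},
      b ≤ d.factorial * (2 * d + d * (d - 1)) → PotGoodRed v p q d ∨ ExpRed v m d b p q d →
      PotGoodRed v p q d ∨ ExpRed v m d (d.factorial * (2 * d + d * (d - 1))) p q d :=
    fun hb h => h.imp id fun h1 => h1.mono (fun x => apply_nonneg _ x) hb
  cases h with
  | poly f hmd hf hlc h =>
    exact ⟨isCoprime_one_right, by rw [hf, natDegree_one]; omega, fun v hv =>
      hmono hb1 (SepFam.poly hd hmd hf (hlc.2 v hv) (h v hv))⟩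
  | pole p hmd hp h0 h =>
    have hcop : IsCoprime p (X ^ d) := by
      refine IsCoprime.pow_right (irreducible_X.coprime_iff_not_dvd.2 ?_).symm
      rw [X_dvd_iff]
      exact h0.1
    exact ⟨hcop, by rw [natDegree_X_pow]; omega, fun v hv =>
      hmono hb1 (SepFam.pole hd hmd hp (h0.2 v hv) (h v hv))⟩
  | dil F G c hcop hmax hF hG hres hc h =>
    refine ⟨(isCoprime_mul_unit_left_left (isUnit_C.2 (isUnit_iff_ne_zero.2 hc)) F q).2 hcop,
      by rw [natDegree_C_mul hc, hmax], fun v hv => ?_⟩
    obtain ⟨h1, h2, h3⟩ := h v hv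
    exact hmono hb1 (SepFam.dil hd (hF v hv) (hG v hv) (by omega) (by omega) (hres.2 v hv) hc
      h1 h2 h3)
  | pencil g h A A' c k hg hhk hS hgi hhi hAi hA'i hA hgu hhu =>
    have hh1 : h.natDegree < d := by omega
    have hdeg : (g + C (c ^ k) * h).natDegree = d := by
      rw [natDegree_add_eq_left_of_natDegree_lt, hg]
      exact lt_of_le_of_lt (natDegree_C_mul_le _ _) (by omega)
    refine ⟨isCoprime_one_right, by rw [hdeg, natDegree_one]; omega, fun v hv => ?_⟩
    have h1 := pencil_local v (g := g) (h := h) (A₀ := A) (B₀ := A') (by omega) hA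
      (hhk.imp (fun h => h.1) (fun h => by rw [hg]; exact h.1)) (k := k) (m := m)
      (by
        rw [hg]
        rcases hhk with ⟨h2, h3⟩ | ⟨h2, h3⟩
        · rw [if_pos h2]
          exact h3
        · split_ifs
          · exact h3.mul_left _
          · rwa [one_mul])
      (hgi v hv) (hhi v hv) (hAi v hv) (hA'i v hv)
      (hgu.2 v hv) (hhu.2 v hv) (by rw [hg]; exact hS.2 v hv) c
    rw [hg] at h1
    rcases h1 with h1 | h1
    · left
      have := potGoodRed_of_good v (by omega) h1
      rwa [hdeg] at this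
    · have := expRed_of_exp v (by omega) h1
      rw [hdeg] at this
      exact hmono hb2 this
  | single p a c k hk hS hp hpi ha hpa =>
    have hqd : ((X - C a) ^ d : K[X]).natDegree = d := by
      rw [natDegree_pow, natDegree_X_sub_C, mul_one]
    have hcop : IsCoprime p ((X - C a) ^ d) := by
      refine IsCoprime.pow_right ((irreducible_X_sub_C a).coprime_iff_not_dvd.2 ?_).symm
      rw [dvd_iff_isRoot]
      exact hpa.1
    refine ⟨coprime_add_mul hcop _, by rw [max_add_mul, hqd]; omega, fun v hv => ?_⟩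
    refine hmono hb1 (one_pole_local v hd hp hk (hpi v hv) ?_ (hpa.2 v hv) (hS.2 v hv) c)
    have := ha v hv 0
    rwa [coeff_C_zero] at this
  | multi p q Z e c k hk hq hmax hp hZ hinf =>
    have hqd : q.natDegree = ∑ z ∈ Z, e z := by
      rw [hq]
      exact FamU.den_natDegree Z e
    have hcop : IsCoprime p q := by
      rw [hq]
      exact FamU.den_coprime fun z hz => (hZ z hz).2.1.1
    refine ⟨coprime_add_mul hcop _, by rw [max_add_mul, hmax], fun v hv => ?_⟩
    have h1 := multi_nice K d m k hd hk v p Z e ⟨hp v hv, fun z hz => ?_,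
        fun z hz z' hz' hne => ((hZ z hz).2.2.2.2 z' hz' hne).2 v hv,
        fun z hz => (hZ z hz).2.1.2 v hv, fun z hz => ⟨?_, (hZ z hz).2.2.1.2 v hv⟩,
        fun h0 => ?_⟩ ?_ ?_ (fun z hz => (hZ z hz).2.2.2.1) ?_ c
    · unfold FamU.den at h1
      rwa [← hq] at h1
    · have := (hZ z hz).1 v hv 0
      rwa [coeff_C_zero] at this
    · have := (hZ z hz).2.2.1.1
      rcases Nat.eq_zero_or_pos (e z) with h2 | h2
      · rw [h2, Nat.cast_zero] at this
        exact absurd rfl this
      · exact h2
    · rw [← hqd] at h0 ⊢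
      obtain ⟨h2, h3, _⟩ := hinf h0
      exact ⟨h2.2 v hv, h3.2 v hv⟩
    · rw [← hqd, hmax]
    · rw [← hqd]
      intro h0
      exact (hinf (by omega)).2.2.1 h0
    · rw [← hqd]
      exact fun h0 => (hinf h0).2.2.2

end Pool.Agent.MP90787a.P1
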