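import Pool.Agent.Lib.MP_90787a_nt.P1.Base
import Pool.Agent.Lib.MP_90787a_nt.RF.GeoUltra
import Pool.Agent.Lib.MP_90787a_nt.Places

set_option autoImplicit false

/-!
A metric on the projective line adapted to a map with potentially good reduction.
-/

namespace Pool.Agent.MP90787a.P1

open Polynomial NumberField Height Pool.Agent.UBC90787a

namespace Good

section geometry

variable {L : Type} [NormedField L] {Φ : L × L → L × L} {d : ℕ}

lemma dl_smul_left {c : L} (hc : c ≠ 0) (x y : L × L) : dl (c • x) y = dl x y := by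
  have h := norm_pos_iff.2 hc
  unfold dl
  rw [wd_smul_left, norm_mul, norm_smul, mul_assoc, mul_div_mul_left _ _ h.ne']

lemma dl_smul_right {c : L} (hc : c ≠ 0) (x y : L × L) : dl x (c • y) = dl x y := by
  have h := norm_pos_iff.2 hc
  unfold dl
  rw [wd_smul_right, norm_mul, norm_smul, mul_left_comm, mul_div_mul_left _ _ h.ne']

lemma dl_le_one [IsUltrametricDist L] (x y : L × L) : dl x y ≤ 1 :=
  div_le_one_of_le₀ (ultra_wd_le x y) (by positivity)

variable [IsUltrametricDist L] [IsAlgClosed L]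

/-- The map multiplies norms. -/
lemma norm_eq (hnt : ∃ x : L, 1 < ‖x‖) (h : UMap Φ d) (hd : 1 ≤ d) (hB : Bd Φ d 0) (x : L × L) :
    ‖Φ x‖ = ‖x‖ ^ d := by
  by_cases hx : x = 0
  · subst hx
    rw [h.map_zero hd, norm_zero, zero_pow (by omega)]
  · refine le_antisymm ?_ ?_
    · have := hB x
      rwa [Real.exp_zero, one_mul] at this
    · have h1 := h.log_ge (geoUltra L hnt) hd hB hx
      have e1 : (geoUltra L hnt).k = 0 := rfl
      rw [e1, mul_zero, mul_zero, add_zero, sub_zero] at h1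
      have hx' := norm_pos_iff.2 hx
      have hΦ := norm_pos_iff.2 (h.ne_zero hd hx)
      rw [← Real.log_pow] at h1
      exact (Real.log_le_log_iff (pow_pos hx' _) hΦ).1 h1

lemma dl_map_le (hnt : ∃ x : L, 1 < ‖x‖) (h : UMap Φ d) (hd : 1 ≤ d) (hB : Bd Φ d 0)
    {x y : L × L} (hx : x ≠ 0) (hy : y ≠ 0) : dl (Φ x) (Φ y) ≤ dl x y := by
  have h1 := h.dl_le (geoUltra L hnt) hd le_rfl hB hx hy
  have e1 : (geoUltra L hnt).k = 0 := rfl
  rw [e1] at h1
  simpa using h1

/-- The distance of the images is the product of the distances to the preimages. -/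
lemma dl_prod (hnt : ∃ x : L, 1 < ‖x‖) (h : UMap Φ d) (hd : 1 ≤ d) (hB : Bd Φ d 0)
    {y : L × L} (x : L × L) {z : Fin d → L × L} (hz1 : ∀ i, Φ (z i) = Φ y)
    (hz2 : ∀ x, ‖wd (Φ x) (Φ y)‖ = ∏ i, ‖wd x (z i)‖) : dl (Φ x) (Φ y) = ∏ i, dl x (z i) := by
  have hn : ∀ i, ‖z i‖ = ‖y‖ := by
    intro i
    have h1 := norm_eq hnt h hd hB (z i)
    rw [hz1, norm_eq hnt h hd hB y] at h1
    exact ((pow_left_inj₀ (norm_nonneg _) (norm_nonneg _) (by omega)).1 h1).symm
  have h2 : ∀ i, dl x (z i) = ‖wd x (z i)‖ / (‖x‖ * ‖y‖) := by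
    intro i
    unfold dl
    rw [hn]
  rw [Finset.prod_congr rfl fun i _ => h2 i, Finset.prod_div_distrib, ← hz2, Finset.prod_const,
    Finset.card_univ, Fintype.card_fin, mul_pow, ← norm_eq hnt h hd hB x, ← norm_eq hnt h hd hB y]
  rfl

lemma dl_far (hnt : ∃ x : L, 1 < ‖x‖) (h : UMap Φ d) (hd : 1 ≤ d) (hB : Bd Φ d 0)
    {x y b : L × L} (hy : y ≠ 0) (hb : b ≠ 0) (hyb : wd y b ≠ 0)
    (hΦ : wd (Φ b) (Φ y) = 0) : dl (Φ x) (Φ y) ≤ dl x y * dl x b := by
  obtain ⟨z, hz1, hz2⟩ := h.pre (Φ y) (h.ne_zero hd hy)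
  obtain ⟨i, c, hc, hi⟩ := h.exists_parallel hd hy hz1 hz2
  have hc0 : c ≠ 0 := by
    rintro rfl
    rw [norm_zero] at hc
    exact zero_ne_one hc
  have hz0 : ∀ i, z i ≠ 0 := fun i => h.pre_ne_zero hd (h.ne_zero hd hy) (hz1 i)
  have h1 := hz2 b
  rw [hΦ, norm_zero] at h1
  obtain ⟨j, _, hj⟩ := Finset.prod_eq_zero_iff.1 h1.symm
  obtain ⟨e, he⟩ := exists_smul_of_wd_eq_zero hb (norm_eq_zero.1 hj)
  have he0 : e ≠ 0 := by
    rintro rfl
    rw [zero_smul] at he
    exact hz0 j he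
  have hij : i ≠ j := by
    rintro rfl
    rw [hi] at he
    apply hyb
    have h2 : wd (c • y) b = wd (e • b) b := by rw [he]
    rw [wd_smul_left, wd_smul_left, wd_self, mul_zero] at h2
    exact (mul_eq_zero.1 h2).resolve_left hc0
  rw [dl_prod hnt h hd hB x hz1 hz2, ← Finset.mul_prod_erase _ _ (Finset.mem_univ i),
    ← Finset.mul_prod_erase _ _ (Finset.mem_erase.2 ⟨hij.symm, Finset.mem_univ j⟩), hi, he,
    dl_smul_right hc0, dl_smul_right he0, ← mul_assoc]
  refine mul_le_of_le_one_right (mul_nonneg (dl_nonneg _ _) (dl_nonneg _ _)) ?_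
  exact Finset.prod_le_one (fun k _ => dl_nonneg _ _) (fun k _ => dl_le_one _ _)

omit [IsAlgClosed L] in
/-- Similarities preserve the distance. -/
lemma dl_similar {N : L × L → L × L} {s : ℝ} {D : L} (hs : 0 < s)
    (hN : ∀ x, ‖N x‖ = s * ‖x‖) (hw : ∀ x y, wd (N x) (N y) = D * wd x y)
    (hsurj : Function.Surjective N) (x y : L × L) :
    dl (N x) (N y) = dl x y := by
  have h1 : ‖((1, 0) : L × L)‖ = 1 := by simp [Prod.norm_def]
  have h2 : ‖((0, 1) : L × L)‖ = 1 := by simp [Prod.norm_def]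
  have h3 : wd ((1, 0) : L × L) (0, 1) = 1 := by simp [wd]
  have hle : ‖D‖ ≤ s * s := by
    have h4 := ultra_wd_le (N (1, 0)) (N (0, 1))
    rw [hw, h3, mul_one, hN, hN, h1, h2, mul_one] at h4
    exact h4
  have hge : s * s ≤ ‖D‖ := by
    obtain ⟨u, hu⟩ := hsurj (1, 0)
    obtain ⟨w, hw'⟩ := hsurj (0, 1)
    have h4 := hN u
    have h5 := hN w
    rw [hu, h1] at h4
    rw [hw', h2] at h5
    have h6 := hw u w
    rw [hu, hw', h3] at h6
    have h7 := ultra_wd_le u w
    have h8 : ‖D‖ * ‖wd u w‖ = 1 := by rw [← norm_mul, ← h6, norm_one]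
    have h9 : s * s * (‖u‖ * ‖w‖) = 1 := by
      calc s * s * (‖u‖ * ‖w‖) = (s * ‖u‖) * (s * ‖w‖) := by ring
        _ = 1 := by rw [← h4, ← h5, mul_one]
    have hu0 : 0 < ‖u‖ * ‖w‖ := by
      by_contra hcon
      have : ‖u‖ * ‖w‖ = 0 := le_antisymm (not_lt.1 hcon) (by positivity)
      rw [this, mul_zero] at h9
      exact zero_ne_one h9
    have h10 : s * s * (‖u‖ * ‖w‖) ≤ ‖D‖ * (‖u‖ * ‖w‖) := by
      rw [h9, ← h8]
      exact mul_le_mul_of_nonneg_left h7 (norm_nonneg _)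
    exact le_of_mul_le_mul_right h10 hu0
  have hDs : ‖D‖ = s * s := le_antisymm hle hge
  unfold dl
  rw [hw, norm_mul, hN, hN, hDs]
  have e1 : s * ‖x‖ * (s * ‖y‖) = s * s * (‖x‖ * ‖y‖) := by ring
  rw [e1, mul_div_mul_left _ _ (mul_pos hs hs).ne']

end geometry

section substitution

variable {K : Type} [Field K]

/-- The polynomial of `homog p d (a₁ t + a₂, a₃ t + a₄)`. -/
noncomputable def subst (p : K[X]) (d : ℕ) (a₁ a₂ a₃ a₄ : K) : K[X] :=
  ∑ i ∈ Finset.range (d + 1), C (p.coeff i) * (C a₁ * X + C a₂) ^ i * (C a₃ * X + C a₄) ^ (d - i)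

lemma eval_subst (p : K[X]) (d : ℕ) (a₁ a₂ a₃ a₄ t : K) :
    (subst p d a₁ a₂ a₃ a₄).eval t = homog p d (a₁ * t + a₂, a₃ * t + a₄) := by
  unfold subst homog
  rw [eval_finsetSum]
  refine Finset.sum_congr rfl fun i _ => ?_
  simp

lemma natDegree_lin (a b : K) : (C a * X + C b).natDegree ≤ 1 := natDegree_linear_le

lemma coeff_lin (a b : K) : (C a * X + C b).coeff 1 = a := by simp

lemma natDegree_term (c a₁ a₂ a₃ a₄ : K) {i d : ℕ} (hi : i ≤ d) :
    (C c * (C a₁ * X + C a₂) ^ i * (C a₃ * X + C a₄) ^ (d - i)).natDegree ≤ d := by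
  have h1 : ((C a₁ * X + C a₂) ^ i).natDegree ≤ i := by
    have := natDegree_pow_le_of_le i (natDegree_lin a₁ a₂)
    rwa [mul_one] at this
  have h2 : ((C a₃ * X + C a₄) ^ (d - i)).natDegree ≤ d - i := by
    have := natDegree_pow_le_of_le (d - i) (natDegree_lin a₃ a₄)
    rwa [mul_one] at this
  have h3 := natDegree_mul_le_of_le ((natDegree_C_mul_le c _).trans h1) h2
  omega

lemma natDegree_subst (p : K[X]) (d : ℕ) (a₁ a₂ a₃ a₄ : K) :
    (subst p d a₁ a₂ a₃ a₄).natDegree ≤ d := by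
  unfold subst
  refine natDegree_sum_le_of_forall_le _ _ fun i hi => ?_
  exact natDegree_term _ _ _ _ _ (Nat.lt_succ_iff.1 (Finset.mem_range.1 hi))

lemma coeff_subst (p : K[X]) (d : ℕ) (a₁ a₂ a₃ a₄ : K) :
    (subst p d a₁ a₂ a₃ a₄).coeff d = homog p d (a₁, a₃) := by
  unfold subst homog
  rw [finsetSum_coeff]
  refine Finset.sum_congr rfl fun i hi => ?_
  have hi' : i ≤ d := Nat.lt_succ_iff.1 (Finset.mem_range.1 hi)
  have h1 : ((C a₁ * X + C a₂) ^ i).natDegree ≤ i := by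
    have := natDegree_pow_le_of_le i (natDegree_lin a₁ a₂)
    rwa [mul_one] at this
  have h2 : ((C a₃ * X + C a₄) ^ (d - i)).natDegree ≤ d - i := by
    have := natDegree_pow_le_of_le (d - i) (natDegree_lin a₃ a₄)
    rwa [mul_one] at this
  have h3 := coeff_mul_add_eq_of_natDegree_le ((natDegree_C_mul_le (p.coeff i) _).trans h1) h2
  rw [Nat.add_sub_cancel' hi'] at h3
  rw [h3, coeff_C_mul]
  have h4 := coeff_pow_of_natDegree_le (m := i) (natDegree_lin a₁ a₂)
  have h5 := coeff_pow_of_natDegree_le (m := d - i) (natDegree_lin a₃ a₄)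
  rw [mul_one, coeff_lin] at h4 h5
  rw [h4, h5]

lemma subst_map {L : Type} [Field L] (ι : K →+* L) (p : K[X]) (d : ℕ) (a₁ a₂ a₃ a₄ : K) :
    (subst p d a₁ a₂ a₃ a₄).map ι = subst (p.map ι) d (ι a₁) (ι a₂) (ι a₃) (ι a₄) := by
  unfold subst
  rw [Polynomial.map_sum]
  refine Finset.sum_congr rfl fun i _ => ?_
  simp

/-- From the affine identity to the identity of forms. -/
lemma homog_of_subst {p : K[X]} {d : ℕ} (hp : p.natDegree ≤ d) {a₁ a₂ a₃ a₄ c : K}
    (h : subst p d a₁ a₂ a₃ a₄ = C c * p) (w : K × K) :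
    homog p d (a₁ * w.1 + a₂ * w.2, a₃ * w.1 + a₄ * w.2) = c * homog p d w := by
  by_cases hw : w.2 = 0
  · have e1 : w = w.1 • ((1, 0) : K × K) := by
      ext
      · simp
      · simp [hw]
    have e2 : ((a₁ * w.1 + a₂ * w.2, a₃ * w.1 + a₄ * w.2) : K × K) = w.1 • ((a₁, a₃) : K × K) := by
      ext
      · simp only [Prod.smul_fst, smul_eq_mul, hw]; ring
      · simp only [Prod.smul_snd, smul_eq_mul, hw]; ring
    rw [e2, homog_smul, ← coeff_subst p d a₁ a₂ a₃ a₄, h, coeff_C_mul]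
    conv_rhs => rw [e1]
    rw [homog_smul, homog_infty]
    ring
  · have e1 : w = w.2 • ((w.1 / w.2, 1) : K × K) := by
      ext
      · simp only [Prod.smul_fst, smul_eq_mul]
        field_simp
      · simp
    have e2 : ((a₁ * w.1 + a₂ * w.2, a₃ * w.1 + a₄ * w.2) : K × K) =
        w.2 • ((a₁ * (w.1 / w.2) + a₂, a₃ * (w.1 / w.2) + a₄) : K × K) := by
      ext
      · simp only [Prod.smul_fst, smul_eq_mul]
        field_simp
      · simp only [Prod.smul_snd, smul_eq_mul]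
        field_simp
    rw [e2, homog_smul, ← eval_subst, h, eval_mul, eval_C]
    conv_rhs => rw [e1]
    rw [homog_smul, homog_one hp]
    ring

variable {p q : K[X]} {d : ℕ}

/-- A deck transformation multiplies both forms by a constant. -/
lemma exists_const [Infinite K] (hd : 1 ≤ d) (hcop : IsCoprime p q)
    (hmax : max p.natDegree q.natDegree = d) {a₁ a₂ a₃ a₄ : K} (hdet : a₁ * a₄ - a₂ * a₃ ≠ 0)
    (hf : ∀ x, rmap p q d (mob a₁ a₂ a₃ a₄ x) = rmap p q d x) :
    ∃ c : K, subst p d a₁ a₂ a₃ a₄ = C c * p ∧ subst q d a₁ a₂ a₃ a₄ = C c * q := by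
  have hp : p.natDegree ≤ d := by omega
  have hq : q.natDegree ≤ d := by omega
  -- the identity of forms
  have key : subst p d a₁ a₂ a₃ a₄ * q = subst q d a₁ a₂ a₃ a₄ * p := by
    refine Polynomial.funext fun t => ?_
    rw [eval_mul, eval_mul, eval_subst, eval_subst]
    obtain ⟨μ, hμ, h1⟩ := vec_mob hdet (some t)
    obtain ⟨ν, hν, h2⟩ := homMap_vec hcop hmax hd (mob a₁ a₂ a₃ a₄ (some t))
    obtain ⟨ν', hν', h3⟩ := homMap_vec hcop hmax hd (some t)
    have e1 : homMap p q d (a₁ * t + a₂, a₃ * t + a₄) =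
        (μ ^ d * ν) • vec (rmap p q d (some t)) := by
      have e2 : ((a₁ * t + a₂, a₃ * t + a₄) : K × K) = μ • vec (mob a₁ a₂ a₃ a₄ (some t)) := by
        rw [← h1]
        simp [vec]
      rw [e2, homMap_hom, h2, hf, smul_smul]
    have e3 : homMap p q d (t, 1) = ν' • vec (rmap p q d (some t)) := h3
    have f1 := congrArg Prod.fst e1
    have f2 := congrArg Prod.snd e1
    have g1 := congrArg Prod.fst e3
    have g2 := congrArg Prod.snd e3
    simp only [homMap, Prod.smul_fst, Prod.smul_snd, smul_eq_mul] at f1 f2 g1 g2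
    rw [homog_one hp] at g1
    rw [homog_one hq] at g2
    rw [f1, f2, g1, g2]
    ring
  have hp0 : p ≠ 0 := by
    rintro rfl
    have hu : IsUnit q := isCoprime_zero_left.1 hcop
    rw [natDegree_zero, natDegree_eq_zero_of_isUnit hu] at hmax
    omega
  have hq0 : q ≠ 0 := by
    rintro rfl
    have hu : IsUnit p := isCoprime_zero_right.1 hcop
    rw [natDegree_zero, natDegree_eq_zero_of_isUnit hu] at hmax
    omega
  obtain ⟨r, hr⟩ : p ∣ subst p d a₁ a₂ a₃ a₄ :=
    hcop.dvd_of_dvd_mul_right ⟨subst q d a₁ a₂ a₃ a₄, by rw [key]; ring⟩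
  have hr' : subst q d a₁ a₂ a₃ a₄ = q * r := by
    have h1 : subst q d a₁ a₂ a₃ a₄ * p = (q * r) * p := by
      rw [← key, hr]
      ring
    exact mul_right_cancel₀ hp0 h1
  have hr0 : r.natDegree = 0 := by
    by_cases h0 : r = 0
    · rw [h0, natDegree_zero]
    · have d1 := natDegree_subst p d a₁ a₂ a₃ a₄
      have d2 := natDegree_subst q d a₁ a₂ a₃ a₄
      rw [hr, natDegree_mul hp0 h0] at d1
      rw [hr', natDegree_mul hq0 h0] at d2
      omega
  refine ⟨r.coeff 0, ?_, ?_⟩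
  · rw [← eq_C_of_natDegree_eq_zero hr0, hr, mul_comm]
  · rw [← eq_C_of_natDegree_eq_zero hr0, hr', mul_comm]

end substitution

/-- Vectors over the extension. -/
def ivec {K L : Type} [Field K] [Field L] (ι : K →+* L) (x : Option K) : L × L :=
  (ι (vec x).1, ι (vec x).2)

section ivec

variable {K L : Type} [Field K] [Field L] (ι : K →+* L)

lemma wd_ivec (x y : Option K) : wd (ivec ι x) (ivec ι y) = ι (wdg x y) := by
  unfold wd ivec wdg
  simp only [map_sub, map_mul]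

lemma ivec_ne_zero (x : Option K) : ivec ι x ≠ 0 := by
  intro h
  apply vec_ne_zero x
  have h1 := congrArg Prod.fst h
  have h2 := congrArg Prod.snd h
  simp only [ivec, Prod.fst_zero, Prod.snd_zero, map_eq_zero] at h1 h2
  exact Prod.ext h1 h2

end ivec

end Good

open Good in
theorem good_metric {K : Type} [Field K] [NumberField K] (v : FinitePlace K) {p q : K[X]} {d : ℕ}
    (hd : 2 ≤ d) (hcop : IsCoprime p q) (hmax : max p.natDegree q.natDegree = d)
    (h : PotGoodRed v p q d) : ∃ δ : Option K → Option K → ℝ, GM v (rmap p q d) δ := by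
  have hp : p.natDegree ≤ d := by omega
  have hq : q.natDegree ≤ d := by omega
  have hd1 : 1 ≤ d := by omega
  obtain ⟨L, _, _, _, ι, hι, a, b, c, e, γ, hdet, hγ, hbd⟩ := h
  obtain ⟨x1, hx1⟩ := exists_one_lt v
  have hnt : ∃ x : L, 1 < ‖x‖ := ⟨ι x1, by rw [hι]; exact hx1⟩
  set A := sl2 a b c e hdet with hA
  have hASL : ∀ x y, wd (A x) (A y) = wd x y := sl2_SLin a b c e hdet
  have hres : ‖γ‖ ^ (2 * d) * ‖resultant (p.map ι) (q.map ι) d d‖ = 1 := by
    rw [resultant_map_map]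
    exact hγ
  have hγ0 : γ ≠ 0 := by
    rintro rfl
    rw [norm_zero, zero_pow (by omega), zero_mul] at hγ
    exact zero_ne_one hγ
  have hp' : (p.map ι).natDegree ≤ d := by rwa [natDegree_map]
  have hq' : (q.map ι).natDegree ≤ d := by rwa [natDegree_map]
  have hU0 := umap_of_res_smul hd1 hp' hq' hres
  set Φ : L × L → L × L := fun x => A.symm (γ • homMap (p.map ι) (q.map ι) d (A x)) with hΦ
  have hU : UMap Φ d := hU0.conj A hASL
  have hB : Bd Φ d 0 := by
    intro x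
    have h1 := hbd x.1 x.2 _ _ rfl rfl
    rw [hΦ]
    beta_reduce
    rw [hA, sl2_symm_apply, sl2_apply, Prod.norm_def (x := x)]
    refine le_trans (le_of_eq ?_) h1
    rw [Prod.norm_def]
    simp only [Prod.smul_fst, Prod.smul_snd, smul_eq_mul, homMap]
    congr 1
    · congr 1
      ring
    · congr 1
      ring
  -- the vectors
  set Z : Option K → L × L := fun x => A.symm (ivec ι x) with hZ
  have hZ0 : ∀ x, Z x ≠ 0 := by
    intro x h0
    have h1 : ivec ι x = A 0 := by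
      rw [← h0, hZ]
      exact (A.apply_symm_apply _).symm
    rw [map_zero] at h1
    exact ivec_ne_zero ι x h1
  have hwdZ : ∀ x y, wd (Z x) (Z y) = ι (wdg x y) := by
    intro x y
    rw [← hASL, hZ]
    simp only [LinearEquiv.apply_symm_apply]
    exact wd_ivec ι x y
  have hZpos : ∀ x, 0 < ‖Z x‖ := fun x => norm_pos_iff.2 (hZ0 x)
  have hdl : ∀ x y, dl (Z x) (Z y) = v (wdg x y) / (‖Z x‖ * ‖Z y‖) := by
    intro x y
    unfold dl
    rw [hwdZ, hι]
  -- the action of the map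
  have hact : ∀ x, ∃ μ : L, μ ≠ 0 ∧ Φ (Z x) = μ • Z (rmap p q d x) := by
    intro x
    obtain ⟨ν, hν, h1⟩ := homMap_vec hcop hmax hd1 x
    refine ⟨γ * ι ν, mul_ne_zero hγ0 ((map_ne_zero ι).2 hν), ?_⟩
    rw [hΦ, hZ]
    beta_reduce
    rw [LinearEquiv.apply_symm_apply, ivec, homMap_map, h1, map_smul, mul_smul]
    congr 1
    rw [← map_smul]
    congr 1
    ext
    · simp [ivec]
    · simp [ivec]
  have hΦdl : ∀ x y, dl (Φ (Z x)) (Φ (Z y)) = dl (Z (rmap p q d x)) (Z (rmap p q d y)) := by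
    intro x y
    obtain ⟨μ, hμ, h1⟩ := hact x
    obtain ⟨ν, hν, h2⟩ := hact y
    rw [h1, h2, dl_smul_left hμ, dl_smul_right hν]
  have hpos : ∀ x y, x ≠ y → 0 < dl (Z x) (Z y) := by
    intro x y hxy
    rw [hdl]
    have h1 : 0 < v (wdg x y) := by
      rw [← hι]
      exact norm_pos_iff.2 ((map_ne_zero ι).2 (wdg_ne_zero hxy))
    exact div_pos h1 (mul_pos (hZpos x) (hZpos y))
  refine ⟨fun x y => dl (Z x) (Z y), ?_, ?_, hpos, ?_, ?_, ?_, ?_, ?_, ?_⟩
  · intro x y
    unfold dl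
    rw [wd_comm, norm_neg, mul_comm]
  · intro x
    unfold dl
    rw [wd_self, norm_zero, zero_div]
  · intro x y
    exact dl_le_one _ _
  · intro x y z
    exact ultra_dist_le (hZ0 x) (hZ0 y) (hZ0 z)
  · intro x y
    rw [← hΦdl]
    exact dl_map_le hnt hU hd1 hB (hZ0 x) (hZ0 y)
  · intro w w' b' hww hbw hf hδ
    beta_reduce at hδ ⊢
    have h0 : wd (Z w') (Z b') ≠ 0 := by
      rw [hwdZ, Ne, map_eq_zero]
      exact wdg_ne_zero hbw.symm
    have h1 : wd (Φ (Z b')) (Φ (Z w')) = 0 := by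
      obtain ⟨μ, hμ, h1⟩ := hact b'
      obtain ⟨ν, hν, h2⟩ := hact w'
      rw [h1, h2, hf, wd_smul_left, wd_smul_right, wd_self, mul_zero, mul_zero]
    have h2 := dl_far hnt hU hd1 hB (x := Z w) (hZ0 w') (hZ0 b') h0 h1
    rw [hΦdl, hδ] at h2
    have h3 := hpos w w' hww
    have h4 : 1 ≤ dl (Z w) (Z b') := by
      by_contra h5
      push Not at h5
      have := mul_lt_mul_of_pos_left h5 h3
      rw [mul_one] at this
      exact absurd h2 (not_le.2 this)
    exact le_antisymm (dl_le_one _ _) h4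
  · intro t p₀ p₁ p₂
    rw [hdl, hdl, hdl, hdl]
    unfold cr
    have h1 := (hZpos t).ne'
    have h2 := (hZpos p₀).ne'
    have h3 := (hZpos p₁).ne'
    have h4 := (hZpos p₂).ne'
    rw [map_div₀, map_mul, map_mul]
    by_cases h5 : v (wdg t p₂) = 0
    · rw [h5]
      simp
    by_cases h6 : v (wdg p₁ p₀) = 0
    · rw [h6]
      simp
    field_simp
  · intro a₁ a₂ a₃ a₄ hdet' hf x y
    obtain ⟨k, hk1, hk2⟩ := exists_const hd1 hcop hmax hdet' hf
    have hL1 : subst (p.map ι) d (ι a₁) (ι a₂) (ι a₃) (ι a₄) = C (ι k) * p.map ι := by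
      rw [← subst_map, hk1, Polynomial.map_mul, map_C]
    have hL2 : subst (q.map ι) d (ι a₁) (ι a₂) (ι a₃) (ι a₄) = C (ι k) * q.map ι := by
      rw [← subst_map, hk2, Polynomial.map_mul, map_C]
    -- the linear map
    set M : L × L → L × L := fun w => (ι a₁ * w.1 + ι a₂ * w.2, ι a₃ * w.1 + ι a₄ * w.2) with hM
    set N : L × L → L × L := fun w => A.symm (M (A w)) with hN
    have hMsmul : ∀ (t : L) (w : L × L), M (t • w) = t • M w := by
      intro t w
      rw [hM]
      ext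
      · simp only [Prod.smul_fst, Prod.smul_snd, smul_eq_mul]; ring
      · simp only [Prod.smul_fst, Prod.smul_snd, smul_eq_mul]; ring
    have hΦN : ∀ w, Φ (N w) = ι k • Φ w := by
      intro w
      rw [hΦ, hN]
      beta_reduce
      rw [LinearEquiv.apply_symm_apply]
      have h1 : homMap (p.map ι) (q.map ι) d (M (A w)) =
          ι k • homMap (p.map ι) (q.map ι) d (A w) := by
        unfold homMap
        rw [hM]
        ext
        · exact homog_of_subst hp' hL1 (A w)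
        · exact homog_of_subst hq' hL2 (A w)
      rw [h1, ← map_smul, smul_comm]
    have hD : ι (a₁ * a₄ - a₂ * a₃) ≠ 0 := (map_ne_zero ι).2 hdet'
    have hwN : ∀ u w, wd (N u) (N w) = ι (a₁ * a₄ - a₂ * a₃) * wd u w := by
      intro u w
      rw [← hASL, hN]
      simp only [LinearEquiv.apply_symm_apply]
      rw [← hASL u w, hM]
      unfold wd
      simp only [map_sub, map_mul]
      ring
    have hsurj : Function.Surjective N := by
      intro u
      refine ⟨A.symm ((ι (a₁ * a₄ - a₂ * a₃))⁻¹ • ((ι a₄ * (A u).1 - ι a₂ * (A u).2,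
        ι a₁ * (A u).2 - ι a₃ * (A u).1) : L × L)), ?_⟩
      rw [hN]
      beta_reduce
      rw [LinearEquiv.apply_symm_apply, hMsmul]
      have e1 : M ((ι a₄ * (A u).1 - ι a₂ * (A u).2, ι a₁ * (A u).2 - ι a₃ * (A u).1) : L × L) =
          ι (a₁ * a₄ - a₂ * a₃) • A u := by
        rw [hM]
        ext
        · simp only [map_sub, map_mul, Prod.smul_fst, smul_eq_mul]; ring
        · simp only [map_sub, map_mul, Prod.smul_snd, smul_eq_mul]; ring
      rw [e1, smul_smul, inv_mul_cancel₀ hD, one_smul, LinearEquiv.symm_apply_apply]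
    have hNn : ∀ w, ‖N w‖ ^ d = ‖ι k‖ * ‖w‖ ^ d := by
      intro w
      rw [← norm_eq hnt hU hd1 hB, hΦN, norm_smul, norm_eq hnt hU hd1 hB]
    have h1n : ‖((1, 0) : L × L)‖ = 1 := by simp [Prod.norm_def]
    set s : ℝ := ‖N (1, 0)‖ with hs
    have hsd : s ^ d = ‖ι k‖ := by
      rw [hs, hNn, h1n, one_pow, mul_one]
    have hNs : ∀ w, ‖N w‖ = s * ‖w‖ := by
      intro w
      have h1 : ‖N w‖ ^ d = (s * ‖w‖) ^ d := by rw [hNn, mul_pow, hsd]
      exact (pow_left_inj₀ (norm_nonneg _) (by positivity) (by omega)).1 h1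
    have hspos : 0 < s := by
      rw [hs, norm_pos_iff]
      intro h0
      have h1 := hwN (1, 0) (0, 1)
      rw [h0, wd_zero_left] at h1
      have h2 : wd ((1, 0) : L × L) (0, 1) = 1 := by simp [wd]
      rw [h2, mul_one] at h1
      exact hD h1.symm
    have hsim := dl_similar hspos hNs hwN hsurj (Z x) (Z y)
    -- the vectors of the images
    have hmobZ : ∀ x, ∃ μ : L, μ ≠ 0 ∧ N (Z x) = μ • Z (mob a₁ a₂ a₃ a₄ x) := by
      intro x
      obtain ⟨μ, hμ, h1⟩ := vec_mob hdet' x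
      refine ⟨ι μ, (map_ne_zero ι).2 hμ, ?_⟩
      rw [hN, hZ]
      beta_reduce
      rw [LinearEquiv.apply_symm_apply, ← map_smul]
      congr 1
      have f1 := congrArg Prod.fst h1
      have f2 := congrArg Prod.snd h1
      simp only [Prod.smul_fst, Prod.smul_snd, smul_eq_mul] at f1 f2
      rw [hM]
      ext
      · simp only [ivec, Prod.smul_fst, smul_eq_mul]
        rw [← map_mul, ← map_mul, ← map_add, f1, map_mul]
      · simp only [ivec, Prod.smul_snd, smul_eq_mul]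
        rw [← map_mul, ← map_mul, ← map_add, f2, map_mul]
    obtain ⟨μ, hμ, h1⟩ := hmobZ x
    obtain ⟨ν, hν, h2⟩ := hmobZ y
    rw [h1, h2, dl_smul_left hμ, dl_smul_right hν] at hsim
    exact hsim

end Pool.Agent.MP90787a.P1
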