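import Pool.Agent.Lib.MP_90787a_nt.P1.Base
import Pool.Agent.Lib.MP_90787a_nt.RF.Main2

set_option autoImplicit false

/-!
Places where the coefficients are integral and the resultant is a unit.
-/

namespace Pool.Agent.MP90787a.P1

open Finset Polynomial NumberField Pool.Agent.UBC90787a

/-- Integral coefficients and a resultant which is a unit give potentially good reduction. -/
theorem potGoodRed_of_integral {K : Type} [Field K] [NumberField K] (v : FinitePlace K)
    {p q : K[X]} {d : ℕ} (hp : ∀ i ≤ d, v (p.coeff i) ≤ 1) (hq : ∀ i ≤ d, v (q.coeff i) ≤ 1)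
    (hres : v (resultant p q d d) = 1) : PotGoodRed v p q d := by
  obtain ⟨L, _, _, _, ι, hι⟩ := exists_ultra_field v
  refine ⟨L, _, inferInstance, inferInstance, ι, hι, 1, 0, 0, 1, 1, by ring, ?_, ?_⟩
  · rw [norm_one, one_pow, one_mul, hι, hres]
  · intro a b P Q hP hQ
    rw [Real.exp_zero]
    have e1 : (1 * a + 0 * b, 0 * a + 1 * b) = ((a, b) : L × L) := by
      ext <;> simp
    rw [e1] at hP hQ
    set m := max ‖a‖ ‖b‖ with hm
    have hm0 : 0 ≤ m := (norm_nonneg a).trans (le_max_left _ _)
    have hterm : ∀ i ∈ range (d + 1), ‖a‖ ^ i * ‖b‖ ^ (d - i) ≤ m ^ d := by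
      intro i hi
      have hi' := mem_range.1 hi
      calc ‖a‖ ^ i * ‖b‖ ^ (d - i) ≤ m ^ i * m ^ (d - i) := by
            gcongr
            · exact le_max_left _ _
            · exact le_max_right _ _
        _ = m ^ d := by
            rw [← pow_add]
            congr 1
            omega
    have hform : ∀ p : K[X], (∀ i ≤ d, v (p.coeff i) ≤ 1) →
        ‖homog (p.map ι) d (a, b)‖ ≤ m ^ d := by
      intro p hp
      unfold homog
      refine IsUltrametricDist.norm_sum_le_of_forall_le_of_nonneg (by positivity) ?_
      intro i hi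
      rw [coeff_map, norm_mul, norm_mul, norm_pow, norm_pow, hι, mul_assoc]
      have h1 := mul_le_mul (hp i (by
        have := mem_range.1 hi
        omega)) (hterm i hi) (by positivity) zero_le_one
      rwa [one_mul] at h1
    have hPb := hform p hp
    have hQb := hform q hq
    rw [← hP] at hPb
    rw [← hQ] at hQb
    refine (max_le ?_ ?_).trans (one_mul (m ^ d)).ge
    · rwa [one_mul, one_mul, zero_mul, sub_zero]
    · rwa [one_mul, one_mul, zero_mul, sub_zero]

/-- The weights are zero outside a finite set. -/
theorem exists_weight_zero {K : Type} [Field K] [NumberField K] {p q : K[X]} {d : ℕ}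
    (hd : 2 ≤ d) (hcop : IsCoprime p q) (hmax : max p.natDegree q.natDegree = d) :
    ∃ F : Finset (FinitePlace K), ∀ v, v ∉ F → finWeight v p q d = 0 := by
  classical
  have hres := resultant_ne hd hcop hmax
  obtain ⟨F, hF⟩ := exists_finset_places (K := K) (insert (resultant p q d d)
    (((range (d + 1)).image p.coeff) ∪ ((range (d + 1)).image q.coeff)))
  refine ⟨F, fun v hv => finWeight_of_potGoodRed (potGoodRed_of_integral v ?_ ?_ ?_)⟩
  · intro i hi
    by_cases h0 : p.coeff i = 0
    · rw [h0, map_zero]
      exact zero_le_one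
    · exact (hF v hv _ (mem_insert_of_mem (mem_union_left _ (mem_image_of_mem _
        (mem_range.2 (Nat.lt_succ_of_le hi))))) h0).le
  · intro i hi
    by_cases h0 : q.coeff i = 0
    · rw [h0, map_zero]
      exact zero_le_one
    · exact (hF v hv _ (mem_insert_of_mem (mem_union_right _ (mem_image_of_mem _
        (mem_range.2 (Nat.lt_succ_of_le hi))))) h0).le
  · exact hF v hv _ (mem_insert_self _ _) hres

end Pool.Agent.MP90787a.P1
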