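import Pool.Agent.Lib.MP_90787a_nt.P1.SymB
import Pool.Agent.Lib.MP_90787a_nt.P1.Count

set_option autoImplicit false

/-!
The main theorem for rational maps with potentially good or expanding reduction.
-/

namespace Pool.Agent.MP90787a.P1

open Finset Polynomial NumberField Height Pool.Agent.UBC90787a

section aux

variable {α : Type} {f : α → α} {x : α}

lemma minimalPeriod_eq {i j : ℕ} (hi : f^[i] x ∈ Function.periodicPts f)
    (hj : f^[j] x ∈ Function.periodicPts f) :
    Function.minimalPeriod f (f^[i] x) = Function.minimalPeriod f (f^[j] x) := by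
  wlog h : i ≤ j generalizing i j
  · exact (this hj hi (by omega)).symm
  obtain ⟨k, rfl⟩ := Nat.exists_eq_add_of_le h
  rw [add_comm i k, Function.iterate_add_apply, Function.minimalPeriod_apply_iterate hi]

lemma minimalPeriod_le_encard (hx : x ∈ Function.periodicPts f)
    {B : ℕ} (hB : (Function.periodicPts f).encard ≤ B) : Function.minimalPeriod f x ≤ B := by
  have h1 : (fun n : ℕ => f^[n] x) '' (Set.Iio (Function.minimalPeriod f x)) ⊆
      Function.periodicPts f := by
    rintro _ ⟨n, _, rfl⟩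
    exact iterate_mem_periodic hx n
  have h2 := Set.encard_le_encard h1
  have h3 : ((fun n : ℕ => f^[n] x) '' (Set.Iio (Function.minimalPeriod f x))).encard =
      (Set.Iio (Function.minimalPeriod f x)).encard :=
    Function.iterate_injOn_Iio_minimalPeriod.encard_image
  have h4 : (Set.Iio (Function.minimalPeriod f x)).encard = Function.minimalPeriod f x := by
    rw [← Finset.coe_Iio, Set.encard_coe_eq_coe_finsetCard, Nat.card_Iio]
  rw [h3, h4] at h2
  exact_mod_cast h2.trans hB

end aux

/-- The bound for symmetric maps. -/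
theorem sym_bound (K : Type) [Field K] [NumberField K] (d m q₀ b : ℕ) (hd : 2 ≤ d)
    (hm : 3 ≤ m) (S : Finset (FinitePlace K)) : ∃ B : ℕ, ∀ p q : K[X], IsCoprime p q →
      max p.natDegree q.natDegree = d → NiceR S m q₀ b p q d → Sym (rmap p q d) →
      (Function.periodicPts (rmap p q d)).encard ≤ B := by
  obtain ⟨C, hC⟩ := core_unit K d m q₀ b hd hm S
  obtain ⟨C₁, hC₁⟩ := count K d 1 0 hd
  refine ⟨C + C₁ + 9, fun p q hcop hmax hnice hsym =>
    sym_of_unit hd hcop hmax (hC p q hcop hmax hnice) (fun X hX => ?_) hsym⟩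
  have h1 := hC₁ p q hcop hmax
  have h2 : (X : Set (Option K)) ⊆ {x : Option K |
      (rmap p q d)^[0] x ∈ Function.periodicPts (rmap p q d) ∧
        Function.minimalPeriod (rmap p q d) ((rmap p q d)^[0] x) ≤ 1} := by
    intro x hx
    have h3 : Function.IsFixedPt (rmap p q d) x := hX x hx
    refine ⟨⟨1, one_pos, h3⟩, ?_⟩
    exact (Function.minimalPeriod_eq_one_iff_isFixedPt.2 h3).le
  have h4 := (Set.encard_le_encard h2).trans h1
  rw [Set.encard_coe_eq_coe_finsetCard] at h4
  exact_mod_cast h4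

/-- The main theorem. -/
theorem main (K : Type) [Field K] [NumberField K] (d m q₀ b : ℕ) (hd : 2 ≤ d)
    (hm : 3 ≤ m) (S : Finset (FinitePlace K)) : ∃ B : ℕ, ∀ p q : K[X], IsCoprime p q →
      max p.natDegree q.natDegree = d → NiceR S m q₀ b p q d →
        Bdd B (Even m ∨ Sym (rmap p q d)) (rmap p q d) := by
  obtain ⟨B₁, h₁⟩ := period_bound K d m q₀ b hd hm S
  obtain ⟨B₂, h₂⟩ := tail_bound K d m q₀ b hd hm S
  obtain ⟨B₃, h₃⟩ := sym_bound K d m q₀ b hd hm S
  obtain ⟨C, hC⟩ := count K d (B₁ + B₃) B₂ hd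
  refine ⟨B₁ + B₂ + C, fun p q hcop hmax hnice => ?_⟩
  set f := rmap p q d with hf
  refine ⟨?_, ?_, ?_⟩
  · intro x hx k hk hkp
    have := (h₁ p q hcop hmax hnice x hx).1 k hk hkp
    omega
  · intro x i hx h3 h4
    have := h₂ p q hcop hmax hnice x i hx h3 h4
    rw [show B₁ + B₂ + C = (B₁ + C) + B₂ by ring, Function.iterate_add_apply]
    exact iterate_mem_periodic this _
  · have h4 : {x : Option K | ∃ i : ℕ, f^[i] x ∈ Function.periodicPts f ∧
        ((Even m ∨ Sym f) ∨ Odd (Function.minimalPeriod f (f^[i] x))) ∧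
        (x ∈ Function.periodicPts f ∨ (3 ≤ Function.minimalPeriod f (f^[i] x) ∧
          4 ≤ (Function.periodicPts f).encard))} ⊆
        {x : Option K | f^[B₂] x ∈ Function.periodicPts f ∧
          Function.minimalPeriod f (f^[B₂] x) ≤ B₁ + B₃} := by
      rintro x ⟨i, hi, hp, hx⟩
      have h5 : f^[B₂] x ∈ Function.periodicPts f := by
        rcases hx with hx | ⟨hx, hx'⟩
        · exact iterate_mem_periodic hx _
        · exact h₂ p q hcop hmax hnice x i hi hx hx'
      refine ⟨h5, ?_⟩
      rw [← minimalPeriod_eq hi h5]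
      rcases hp with (hp | hsym) | hp
      · exact ((h₁ p q hcop hmax hnice _ hi).2 hp).trans (Nat.le_add_right _ _)
      · exact (minimalPeriod_le_encard hi (h₃ p q hcop hmax hnice hsym)).trans
          (Nat.le_add_left _ _)
      · exact ((h₁ p q hcop hmax hnice _ hi).1 _ hp dvd_rfl).trans (Nat.le_add_right _ _)
    refine (Set.encard_le_encard h4).trans ((hC p q hcop hmax).trans ?_)
    exact_mod_cast (by omega : C ≤ B₁ + B₂ + C)

end Pool.Agent.MP90787a.P1
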