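import Pool.Agent.Lib.MP_90787a_nt.P1.Core

set_option autoImplicit false

/-!
The core theorems for rational maps with potentially good or expanding reduction.
-/

namespace Pool.Agent.MP90787a.P1

open Finset Polynomial NumberField Height Pool.Agent.UBC90787a
open Pool.Agent.MP90787a.G (KissT Close Tree packT_even packT_odd)

open Classical in
theorem core_pack (K : Type) [Field K] [NumberField K] (d m m' q₀ b : ℕ) (hd : 2 ≤ d)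
    (hm : m ≠ 0) (hm' : m' ∣ m) (S : Finset (FinitePlace K))
    (hpack : ∃ (L : Type) (_ : Field L) (_ : NumberField L)
      (φ : K →+* L) (D : Set L) (E : Finset K), KissT L D ∧ ∀ T : K, T ≠ 0 → T ≠ 1 → T ∉ E →
        (∀ v : FinitePlace K, v ∉ S → ∃ b : K, b ≠ 0 ∧ v T = v b ^ m) →
        (∀ v : FinitePlace K, v ∉ S → ∃ b : K, b ≠ 0 ∧ v (1 - T) = v b ^ m') →
        φ T ∈ D) :
    ∃ C : ℕ, ∀ p q : K[X], IsCoprime p q → max p.natDegree q.natDegree = d →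
      NiceR S m q₀ b p q d → ∀ (P₀ P₁ P₂ : Option K) (J : Finset (Option K)),
      P₀ ≠ P₁ → P₀ ≠ P₂ → P₁ ≠ P₂ → P₀ ∈ Inn (rmap p q d) → P₁ ∈ Inn (rmap p q d) →
      (P₂ ∈ Inn (rmap p q d) ∨ P₂ ∈ Function.periodicPts (rmap p q d)) →
      (∀ t ∈ J, t ∈ Inn (rmap p q d) ∧ t ≠ P₀ ∧ t ≠ P₁ ∧ t ≠ P₂ ∧
        ∀ v : FinitePlace K, v ∉ S → PotGoodRed v p q d →
          (∃ e : K, e ≠ 0 ∧ v (cr t P₀ P₁ P₂) = v e ^ m) ∧
            ∃ e : K, e ≠ 0 ∧ v (cr t P₁ P₀ P₂) = v e ^ m') → J.card ≤ C := by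
  obtain ⟨L, _, _, φ, D, E, hD, hE⟩ := hpack
  obtain ⟨C, hC⟩ := core_gen φ hD d q₀ b hd S
  refine ⟨C + E.card, ?_⟩
  intro p q hcop hmax hnice P₀ P₁ P₂ J h01 h02 h12 hP₀ hP₁ hP₂ hJ
  have hprep₂ : Preper (rmap p q d) P₂ := by
    rcases hP₂ with h | ⟨n, hn, h⟩
    · exact h.1
    · exact ⟨n, 0, hn, h⟩
  set τ : Option K → K := fun t => cr t P₀ P₁ P₂ with hτ
  have hinj : Set.InjOn τ J := by
    intro t ht t' ht' h
    exact cr_inj h01.symm h02 h12 (hJ t ht).2.2.2.1 (hJ t' ht').2.2.2.1 h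
  have hsplit := Finset.card_filter_add_card_filter_not (s := J) (fun t => τ t ∈ E)
  have hE1 : (J.filter fun t => τ t ∈ E).card ≤ E.card := by
    refine Finset.card_le_card_of_injOn τ (fun j hj => (Finset.mem_filter.1 hj).2) ?_
    intro a ha b hb hab
    exact hinj (Finset.mem_filter.1 ha).1 (Finset.mem_filter.1 hb).1 hab
  have hval : ∀ t ∈ J, ∀ v : FinitePlace K, v ∉ S →
      (∃ e : K, e ≠ 0 ∧ v (cr t P₀ P₁ P₂) = v e ^ m) ∧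
        ∃ e : K, e ≠ 0 ∧ v (cr t P₁ P₀ P₂) = v e ^ m' := by
    intro t ht v hv
    obtain ⟨htI, ht0, ht1, ht2, htv⟩ := hJ t ht
    rcases hnice v hv with hg | hs
    · exact htv v hv hg
    · obtain ⟨σ, _, _, h1⟩ := exp_struct v hd hm hcop hmax hs
      obtain ⟨⟨e, he, he'⟩, ⟨e₁, he₁, he₁'⟩⟩ :=
        (h1 P₀ hP₀ P₁ hP₁ P₂ hP₂ h01 h02 h12).1 t htI ht0 ht1 ht2
      refine ⟨⟨e, he, he'⟩, ?_⟩
      obtain ⟨a, ha⟩ := hm'
      refine ⟨e₁ ^ a, pow_ne_zero _ he₁, ?_⟩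
      rw [he₁', ha, map_pow, ← pow_mul, Nat.mul_comm a m']
  have key := hC p q hcop hmax P₀ P₁ P₂ (J.filter fun t => ¬ τ t ∈ E) h01 h02 h12 hP₀.1 hP₁.1
    hprep₂ ?_ ?_
  · omega
  · intro t ht
    obtain ⟨htJ, htE⟩ := Finset.mem_filter.1 ht
    obtain ⟨htI, ht0, ht1, ht2, _⟩ := hJ t htJ
    refine ⟨htI.1, ht0, ht1, ht2, hE (τ t) ?_ ?_ htE (fun v hv => (hval t htJ v hv).1) ?_⟩
    · exact cr_ne_zero ht0 ht2 h01.symm h12
    · intro h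
      have h1 := one_sub_cr h01 ht2
      have h2 : cr t P₀ P₁ P₂ = 1 := h
      rw [h2, sub_self] at h1
      exact cr_ne_zero ht1 ht2 h01 h02 h1.symm
    · intro v hv
      have h1 : 1 - τ t = cr t P₁ P₀ P₂ := one_sub_cr h01 ht2
      rw [h1]
      exact (hval t htJ v hv).2
  · intro v hv
    rcases hnice v hv with hg | hs
    · exact Or.inl (finWeight_of_potGoodRed hg)
    · obtain ⟨σ, h1, h2, h3⟩ := exp_struct v hd hm hcop hmax hs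
      obtain ⟨_, cl, hcl⟩ := h3 P₀ hP₀ P₁ hP₁ P₂ hP₂ h01 h02 h12
      refine Or.inr ⟨σ, h1, h2, cl, ?_⟩
      intro t ht t' ht' h
      obtain ⟨htI, ht0, ht1, ht2, _⟩ := hJ t (Finset.mem_filter.1 ht).1
      obtain ⟨htI', ht0', ht1', ht2', _⟩ := hJ t' (Finset.mem_filter.1 ht').1
      exact hcl t htI t' htI' ht0 ht1 ht2 ht0' ht1' ht2' h

/-- Cross ratios which are units at the places of potentially good reduction. -/
theorem core_unit (K : Type) [Field K] [NumberField K] (d m q₀ b : ℕ) (hd : 2 ≤ d)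
    (hm : 3 ≤ m) (S : Finset (FinitePlace K)) :
    ∃ C : ℕ, ∀ p q : K[X], IsCoprime p q → max p.natDegree q.natDegree = d →
      NiceR S m q₀ b p q d → ∀ (P₀ P₁ P₂ : Option K) (J : Finset (Option K)),
      P₀ ≠ P₁ → P₀ ≠ P₂ → P₁ ≠ P₂ → P₀ ∈ Inn (rmap p q d) → P₁ ∈ Inn (rmap p q d) →
      (P₂ ∈ Inn (rmap p q d) ∨ P₂ ∈ Function.periodicPts (rmap p q d)) →
      (∀ t ∈ J, t ∈ Inn (rmap p q d) ∧ t ≠ P₀ ∧ t ≠ P₁ ∧ t ≠ P₂ ∧
        ∀ v : FinitePlace K, v ∉ S → PotGoodRed v p q d →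
          v (cr t P₀ P₁ P₂) = 1 ∧ v (cr t P₁ P₀ P₂) = 1) → J.card ≤ C := by
  have hone : ∀ (v : FinitePlace K) (x : K) (n : ℕ), v x = 1 → ∃ e : K, e ≠ 0 ∧ v x = v e ^ n :=
    fun v x n h => ⟨1, one_ne_zero, by rw [h, map_one, one_pow]⟩
  rcases Nat.even_or_odd m with hev | hod
  · have hm4 : 4 ≤ m := by
      obtain ⟨a, ha⟩ := hev
      omega
    obtain ⟨C, hC⟩ := core_pack K d m 2 q₀ b hd (by omega) (even_iff_two_dvd.1 hev) S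
      (packT_even K m hm4 hev S)
    refine ⟨C, fun p q hcop hmax hnice P₀ P₁ P₂ J h01 h02 h12 hP₀ hP₁ hP₂ hJ =>
      hC p q hcop hmax hnice P₀ P₁ P₂ J h01 h02 h12 hP₀ hP₁ hP₂ fun t ht => ?_⟩
    obtain ⟨h1, h2, h3, h4, h5⟩ := hJ t ht
    exact ⟨h1, h2, h3, h4, fun v hv hg => ⟨hone v _ _ (h5 v hv hg).1, hone v _ _ (h5 v hv hg).2⟩⟩
  · obtain ⟨C, hC⟩ := core_pack K d m m q₀ b hd (by omega) dvd_rfl S (packT_odd K m hm hod S)
    refine ⟨C, fun p q hcop hmax hnice P₀ P₁ P₂ J h01 h02 h12 hP₀ hP₁ hP₂ hJ =>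
      hC p q hcop hmax hnice P₀ P₁ P₂ J h01 h02 h12 hP₀ hP₁ hP₂ fun t ht => ?_⟩
    obtain ⟨h1, h2, h3, h4, h5⟩ := hJ t ht
    exact ⟨h1, h2, h3, h4, fun v hv hg => ⟨hone v _ _ (h5 v hv hg).1, hone v _ _ (h5 v hv hg).2⟩⟩

/-- Even exponents: at the places of potentially good reduction it is enough that one of the
cross ratios has the absolute value of a square. -/
theorem core_sq (K : Type) [Field K] [NumberField K] (d m q₀ b : ℕ) (hd : 2 ≤ d)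
    (hm : 3 ≤ m) (hev : Even m) (S : Finset (FinitePlace K)) :
    ∃ C : ℕ, ∀ p q : K[X], IsCoprime p q → max p.natDegree q.natDegree = d →
      NiceR S m q₀ b p q d → ∀ (P₀ P₁ P₂ : Option K) (J : Finset (Option K)),
      P₀ ≠ P₁ → P₀ ≠ P₂ → P₁ ≠ P₂ → P₀ ∈ Inn (rmap p q d) → P₁ ∈ Inn (rmap p q d) →
      (P₂ ∈ Inn (rmap p q d) ∨ P₂ ∈ Function.periodicPts (rmap p q d)) →
      (∀ t ∈ J, t ∈ Inn (rmap p q d) ∧ t ≠ P₀ ∧ t ≠ P₁ ∧ t ≠ P₂ ∧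
        ∀ v : FinitePlace K, v ∉ S → PotGoodRed v p q d →
          v (cr t P₀ P₁ P₂) = 1 ∧ ∃ e : K, e ≠ 0 ∧ v (cr t P₁ P₀ P₂) = v e ^ 2) →
      J.card ≤ C := by
  have hone : ∀ (v : FinitePlace K) (x : K) (n : ℕ), v x = 1 → ∃ e : K, e ≠ 0 ∧ v x = v e ^ n :=
    fun v x n h => ⟨1, one_ne_zero, by rw [h, map_one, one_pow]⟩
  have hm4 : 4 ≤ m := by
    obtain ⟨a, ha⟩ := hev
    omega
  obtain ⟨C, hC⟩ := core_pack K d m 2 q₀ b hd (by omega) (even_iff_two_dvd.1 hev) S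
    (packT_even K m hm4 hev S)
  refine ⟨C, fun p q hcop hmax hnice P₀ P₁ P₂ J h01 h02 h12 hP₀ hP₁ hP₂ hJ =>
    hC p q hcop hmax hnice P₀ P₁ P₂ J h01 h02 h12 hP₀ hP₁ hP₂ fun t ht => ?_⟩
  obtain ⟨h1, h2, h3, h4, h5⟩ := hJ t ht
  exact ⟨h1, h2, h3, h4, fun v hv hg => ⟨hone v _ _ (h5 v hv hg).1, (h5 v hv hg).2⟩⟩

end Pool.Agent.MP90787a.P1
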