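import Pool.Agent.Lib.MP_90787a_nt.P1.Pack
import Pool.Agent.Lib.MP_90787a_nt.P1.Comb
import Pool.Agent.Lib.MP_90787a_nt.P1.Good

set_option autoImplicit false

/-!
The lengths of the cycles of rational maps with potentially good or expanding reduction.
-/

namespace Pool.Agent.MP90787a.P1

open Finset Polynomial NumberField Height Pool.Agent.UBC90787a

section dyn

variable {α : Type} {f : α → α} {x : α}

lemma iterate_mem_periodic (hx : x ∈ Function.periodicPts f) (n : ℕ) :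
    f^[n] x ∈ Function.periodicPts f := by
  obtain ⟨k, hk, h⟩ := hx
  exact ⟨k, hk, h.apply_iterate n⟩

lemma iterate_eq_of_lt {i j : ℕ} (hi : i < Function.minimalPeriod f x)
    (hj : j < Function.minimalPeriod f x) (h : f^[i] x = f^[j] x) : i = j :=
  Function.iterate_injOn_Iio_minimalPeriod hi hj h

/-- Periodic points which are not fixed. -/
lemma periodic_inn (hx : x ∈ Function.periodicPts f) (h : f x ≠ x) : x ∈ Inn f := by
  obtain ⟨n, hn, hper⟩ := hx
  refine ⟨⟨n, 0, hn, hper⟩, fun k hk => h ?_⟩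
  -- `f ^ k x` is fixed, hence so is `x`
  have h1 : ∀ j, f^[k + j] x = f^[k] x := by
    intro j
    induction j with
    | zero => rfl
    | succ j ih =>
      rw [← Nat.add_assoc, Function.iterate_succ_apply', ih, ← Function.iterate_succ_apply' f k x]
      exact hk
  have h2 : ∀ t, f^[n * t] x = x := fun t => (hper.mul_const t).eq
  have h3 : f^[k] x = x := by
    have h4 := h1 (n * (k + 1) - k)
    have h5 : k + (n * (k + 1) - k) = n * (k + 1) := by
      have : k ≤ n * (k + 1) := by nlinarith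
      omega
    rw [h5, h2] at h4
    exact h4.symm
  have h6 := hk
  rw [Function.iterate_succ_apply', h3] at h6
  exact h6

lemma inn_of_period (hx : x ∈ Function.periodicPts f) (h : 2 ≤ Function.minimalPeriod f x)
    (i : ℕ) : f^[i] x ∈ Inn f := by
  refine periodic_inn (iterate_mem_periodic hx i) fun hfix => ?_
  have h1 : Function.minimalPeriod f (f^[i] x) = Function.minimalPeriod f x :=
    Function.minimalPeriod_apply_iterate hx i
  have h2 : Function.minimalPeriod f (f^[i] x) = 1 := by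
    rw [Function.minimalPeriod_eq_one_iff_isFixedPt]
    exact hfix
  omega

end dyn

section gm

variable {K : Type} [Field K] {v : K → ℝ} {f : Option K → Option K} {δ : Option K → Option K → ℝ}
  {x : Option K}

/-- Distances of periodic points are constant. -/
lemma GM.const (h : GM v f δ) {y : Option K} (hx : x ∈ Function.periodicPts f)
    (hy : y ∈ Function.periodicPts f) (i : ℕ) : δ (f^[i] x) (f^[i] y) = δ x y := by
  obtain ⟨n, hn, hn'⟩ := hx
  obtain ⟨n', hm, hm'⟩ := hy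
  have h1 : ∀ i, δ (f^[i + 1] x) (f^[i + 1] y) = δ (f^[i] x) (f^[i] y) := by
    intro i
    refine R.const_of_periodic (a := fun i => δ (f^[i] x) (f^[i] y)) (N := n * n')
      (Nat.mul_pos hn hm) (fun i => ?_) (fun i => ?_) i
    · rw [Function.iterate_succ_apply', Function.iterate_succ_apply']
      exact h.lip _ _
    · rw [Function.iterate_add_apply, Function.iterate_add_apply, (hn'.mul_const n').eq,
        (hm'.const_mul n).eq]
  induction i with
  | zero => rfl
  | succ i ih => rw [h1, ih]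

/-- The distances of the points of a cycle. -/
lemma GM.orbit (h : GM v f δ) (hx : x ∈ Function.periodicPts f) : ∃ D : ℕ → ℝ, ∀ i j : ℕ,
    δ (f^[i] x) (f^[j] x) = D (gg (Function.minimalPeriod f x) i j) := by
  set N := Function.minimalPeriod f x with hN
  have hN0 : 0 < N := Function.minimalPeriod_pos_of_mem_periodicPts hx
  set D : ℕ → ℝ := fun k => δ x (f^[k] x) with hD
  have hc : ∀ i k, δ (f^[i] x) (f^[i + k] x) = D k := by
    intro i k
    rw [Function.iterate_add_apply]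
    have := h.const hx (iterate_mem_periodic hx k) i
    rw [← Function.iterate_add_apply, Nat.add_comm i k, Function.iterate_add_apply] at this
    rw [← Function.iterate_add_apply, Nat.add_comm i k, Function.iterate_add_apply]
    exact this
  have hadd : ∀ k l, D (k + l) ≤ max (D k) (D l) := by
    intro k l
    refine (h.ultra x (f^[k] x) (f^[k + l] x)).trans ?_
    rw [hc k l]
  have hper : ∀ k, D (k + N) = D k := by
    intro k
    simp only [hD]
    rw [Function.iterate_add_apply, Function.iterate_minimalPeriod]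
  have h0 : ∀ k, D 0 ≤ D k := by
    intro k
    have e : D 0 = 0 := h.self x
    rw [e]
    rcases eq_or_ne x (f^[k] x) with h1 | h1
    · simp only [hD]
      rw [← h1, h.self]
    · exact (h.pos _ _ h1).le
  have hg := R.dist_gcd hN0 hadd hper h0
  refine ⟨D, fun i j => ?_⟩
  rcases le_total i j with hij | hij
  · obtain ⟨k, rfl⟩ := Nat.exists_eq_add_of_le hij
    rw [hc, hg, gg, Nat.dist_eq_sub_of_le (by omega)]
    congr 2
    omega
  · obtain ⟨k, rfl⟩ := Nat.exists_eq_add_of_le hij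
    rw [h.symm, hc, hg, gg, Nat.dist_comm, Nat.dist_eq_sub_of_le (by omega)]
    congr 2
    omega

end gm

section bounds

variable {K : Type} [Field K] [NumberField K] {p q : K[X]} {d : ℕ}

/-- The conclusion of `core_unit`. -/
def UnitBound (S : Finset (FinitePlace K)) (p q : K[X]) (d C : ℕ) : Prop :=
  ∀ (P₀ P₁ P₂ : Option K) (J : Finset (Option K)),
      P₀ ≠ P₁ → P₀ ≠ P₂ → P₁ ≠ P₂ → P₀ ∈ Inn (rmap p q d) → P₁ ∈ Inn (rmap p q d) →
      (P₂ ∈ Inn (rmap p q d) ∨ P₂ ∈ Function.periodicPts (rmap p q d)) →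
      (∀ t ∈ J, t ∈ Inn (rmap p q d) ∧ t ≠ P₀ ∧ t ≠ P₁ ∧ t ≠ P₂ ∧
        ∀ v : FinitePlace K, v ∉ S → PotGoodRed v p q d →
          v (cr t P₀ P₁ P₂) = 1 ∧ v (cr t P₁ P₀ P₂) = 1) → J.card ≤ C

/-- The conclusion of `core_sq`. -/
def SqBound (S : Finset (FinitePlace K)) (p q : K[X]) (d C : ℕ) : Prop :=
  ∀ (P₀ P₁ P₂ : Option K) (J : Finset (Option K)),
      P₀ ≠ P₁ → P₀ ≠ P₂ → P₁ ≠ P₂ → P₀ ∈ Inn (rmap p q d) → P₁ ∈ Inn (rmap p q d) →
      (P₂ ∈ Inn (rmap p q d) ∨ P₂ ∈ Function.periodicPts (rmap p q d)) →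
      (∀ t ∈ J, t ∈ Inn (rmap p q d) ∧ t ≠ P₀ ∧ t ≠ P₁ ∧ t ≠ P₂ ∧
        ∀ v : FinitePlace K, v ∉ S → PotGoodRed v p q d →
          v (cr t P₀ P₁ P₂) = 1 ∧ ∃ e : K, e ≠ 0 ∧ v (cr t P₁ P₀ P₂) = v e ^ 2) →
      J.card ≤ C

open Classical in
lemma tri_of_unit (hd : 2 ≤ d) (hcop : IsCoprime p q) (hmax : max p.natDegree q.natDegree = d)
    {S : Finset (FinitePlace K)} {C : ℕ} (hC : UnitBound S p q d C) {x : Option K}
    (hx : x ∈ Function.periodicPts (rmap p q d)) :
    TriBound (Function.minimalPeriod (rmap p q d) x) C := by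
  intro i₀ i₁ i₂ I hi0 hi1 hi2 h01 h02 h12 hgg hI
  set f := rmap p q d with hf
  set N := Function.minimalPeriod f x with hN
  have hne : ∀ {i j : ℕ}, i < N → j < N → i ≠ j → f^[i] x ≠ f^[j] x := fun hi hj hij h =>
    hij (iterate_eq_of_lt hi hj h)
  have hN2 : 2 ≤ N := by omega
  have hinn : ∀ i, f^[i] x ∈ Inn f := inn_of_period hx hN2
  have hcard : (I.image fun j => f^[j] x).card = I.card := by
    refine Finset.card_image_of_injOn ?_
    intro a ha b hb hab
    exact iterate_eq_of_lt (hI a ha).1 (hI b hb).1 hab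
  rw [← hcard]
  refine hC (f^[i₀] x) (f^[i₁] x) (f^[i₂] x) _ (hne hi0 hi1 h01) (hne hi0 hi2 h02)
    (hne hi1 hi2 h12) (hinn _) (hinn _) (Or.inl (hinn _)) ?_
  intro t ht
  obtain ⟨j, hj, rfl⟩ := Finset.mem_image.1 ht
  obtain ⟨hjN, hj0, hj1, hj2, g0, g1, g2⟩ := hI j hj
  refine ⟨hinn _, hne hjN hi0 hj0, hne hjN hi1 hj1, hne hjN hi2 hj2, ?_⟩
  intro v _ hg
  obtain ⟨δ, hδ⟩ := good_metric v hd hcop hmax hg
  obtain ⟨D, hD⟩ := hδ.orbit hx
  have hpos : ∀ {i j : ℕ}, i < N → j < N → i ≠ j → 0 < D (gg N i j) := by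
    intro i j hi hj hij
    rw [hN, ← hD]
    exact hδ.pos _ _ (hne hi hj hij)
  have p1 := hpos hi1 hi0 h01.symm
  have p2 := hpos hi1 hi2 h12
  constructor
  · rw [hδ.cross, hD, hD, hD, hD, ← hN, g0, g2, mul_comm (D (gg N i₁ i₂))]
    exact div_self (mul_pos p1 p2).ne'
  · rw [hδ.cross, hδ.symm (f^[i₀] x) (f^[i₁] x), hD, hD, hD, hD, ← hN, g1, g2, hgg,
      mul_comm (D (gg N i₁ i₂))]
    exact div_self (mul_pos p1 p2).ne'

open Classical in
lemma two_of_sq (hd : 2 ≤ d) (hcop : IsCoprime p q) (hmax : max p.natDegree q.natDegree = d)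
    {S : Finset (FinitePlace K)} {C : ℕ} (hC : SqBound S p q d C) {x : Option K}
    (hx : x ∈ Function.periodicPts (rmap p q d)) :
    TwoBound (Function.minimalPeriod (rmap p q d) x) C := by
  intro i₀ i₁ i₂ a I hi0 hi1 hi2 hia h01 h02 h12 ha1 ha2 hgg hgga hI
  set f := rmap p q d with hf
  set N := Function.minimalPeriod f x with hN
  have hne : ∀ {i j : ℕ}, i < N → j < N → i ≠ j → f^[i] x ≠ f^[j] x := fun hi hj hij h =>
    hij (iterate_eq_of_lt hi hj h)
  have hN2 : 2 ≤ N := by omega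
  have hinn : ∀ i, f^[i] x ∈ Inn f := inn_of_period hx hN2
  have hcard : (I.image fun j => f^[j] x).card = I.card := by
    refine Finset.card_image_of_injOn ?_
    intro a ha b hb hab
    exact iterate_eq_of_lt (hI a ha).1 (hI b hb).1 hab
  rw [← hcard]
  refine hC (f^[i₀] x) (f^[i₁] x) (f^[i₂] x) _ (hne hi0 hi1 h01) (hne hi0 hi2 h02)
    (hne hi1 hi2 h12) (hinn _) (hinn _) (Or.inl (hinn _)) ?_
  intro t ht
  obtain ⟨j, hj, rfl⟩ := Finset.mem_image.1 ht
  obtain ⟨hjN, hj0, hj1, hj2, g0, g2, g1⟩ := hI j hj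
  refine ⟨hinn _, hne hjN hi0 hj0, hne hjN hi1 hj1, hne hjN hi2 hj2, ?_⟩
  intro v _ hg
  obtain ⟨δ, hδ⟩ := good_metric v hd hcop hmax hg
  obtain ⟨D, hD⟩ := hδ.orbit hx
  have hpos : ∀ {i j : ℕ}, i < N → j < N → i ≠ j → 0 < D (gg N i j) := by
    intro i j hi hj hij
    rw [hN, ← hD]
    exact hδ.pos _ _ (hne hi hj hij)
  have p1 := hpos hi1 hi0 h01.symm
  have p2 := hpos hi2 hia ha2.symm
  constructor
  · rw [hδ.cross, hD, hD, hD, hD, ← hN, g0, g2, hgg]
    exact div_self (mul_pos p1 p1).ne'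
  · refine ⟨cr (f^[i₂] x) (f^[i₀] x) (f^[i₁] x) (f^[a] x),
      cr_ne_zero (hne hi2 hi0 h02.symm) (hne hi2 hia ha2.symm) (hne hi1 hi0 h01.symm)
        (hne hi1 hia ha1.symm), ?_⟩
    have e1 : v (cr (f^[i₂] x) (f^[i₀] x) (f^[i₁] x) (f^[a] x)) =
        D (gg N i₀ i₂) / D (gg N i₁ i₀) := by
      rw [hδ.cross, hδ.symm (f^[i₂] x) (f^[i₀] x), hD, hD, hD, hD, ← hN, hgga,
        mul_comm (D (gg N i₂ a)), mul_div_mul_right _ _ p2.ne']
    rw [e1, hδ.cross, hδ.symm (f^[i₀] x) (f^[i₁] x), hD, hD, hD, hD, ← hN, g1, g2, div_pow, sq, sq]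

end bounds

/-- The period bounds. -/
theorem period_bound (K : Type) [Field K] [NumberField K] (d m q₀ b : ℕ) (hd : 2 ≤ d)
    (hm : 3 ≤ m) (S : Finset (FinitePlace K)) : ∃ B : ℕ, ∀ p q : K[X], IsCoprime p q →
      max p.natDegree q.natDegree = d → NiceR S m q₀ b p q d →
      ∀ x ∈ Function.periodicPts (rmap p q d),
        (∀ k : ℕ, Odd k → k ∣ Function.minimalPeriod (rmap p q d) x → k ≤ B) ∧
        (Even m → Function.minimalPeriod (rmap p q d) x ≤ B) := by
  obtain ⟨C, hC⟩ := core_unit K d m q₀ b hd hm S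
  obtain ⟨C₂, hC₂⟩ : ∃ C₂ : ℕ, Even m → ∀ p q : K[X], IsCoprime p q →
      max p.natDegree q.natDegree = d → NiceR S m q₀ b p q d → SqBound S p q d C₂ := by
    by_cases hev : Even m
    · obtain ⟨C₂, hC₂⟩ := core_sq K d m q₀ b hd hm hev S
      exact ⟨C₂, fun _ => hC₂⟩
    · exact ⟨0, fun h => absurd h hev⟩
  obtain ⟨B, hB⟩ := odd_bound C
  obtain ⟨B₂, hB₂⟩ := all_bound (max C C₂)
  refine ⟨max B B₂, fun p q hcop hmax hnice x hx => ⟨fun k hk hkN => ?_, fun hev => ?_⟩⟩
  · have h1 : UnitBound S p q d C := hC p q hcop hmax hnice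
    exact (hB _ (Function.minimalPeriod_pos_of_mem_periodicPts hx)
      (tri_of_unit hd hcop hmax h1 hx) k hk hkN).trans (le_max_left _ _)
  · have h1 : UnitBound S p q d C := hC p q hcop hmax hnice
    have h2 := hC₂ hev p q hcop hmax hnice
    have h3 : TriBound (Function.minimalPeriod (rmap p q d) x) (max C C₂) :=
      fun i₀ i₁ i₂ I a1 a2 a3 a4 a5 a6 a7 a8 =>
        (tri_of_unit hd hcop hmax h1 hx i₀ i₁ i₂ I a1 a2 a3 a4 a5 a6 a7 a8).trans (le_max_left _ _)
    have h4 : TwoBound (Function.minimalPeriod (rmap p q d) x) (max C C₂) :=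
      fun i₀ i₁ i₂ a I a1 a2 a3 a4 a5 a6 a7 a8 a9 a10 a11 a12 =>
        (two_of_sq hd hcop hmax h2 hx i₀ i₁ i₂ a I a1 a2 a3 a4 a5 a6 a7 a8 a9 a10 a11 a12).trans
          (le_max_right _ _)
    exact (hB₂ _ (Function.minimalPeriod_pos_of_mem_periodicPts hx) h3 h4).trans (le_max_right _ _)

end Pool.Agent.MP90787a.P1
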