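import Pool.Agent.Lib.MP_90787a_nt.P1.FamU
import Pool.Agent.Lib.MP_90787a_nt.RF.FromRes

set_option autoImplicit false

/-!
Separable bad reduction is expanding.
-/

namespace Pool.Agent.MP90787a.P1

open Polynomial NumberField Height Pool.Agent.UBC90787a

namespace Sep

open Finset

section ultra

variable {L : Type} [NormedField L] [IsUltrametricDist L]

lemma norm_add_eq {x y : L} (h : ‖x‖ < ‖y‖) : ‖x + y‖ = ‖y‖ := by
  rw [IsUltrametricDist.norm_add_eq_max_of_norm_ne_norm h.ne, max_eq_right h.le]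

lemma norm_sub_max (x y : L) : ‖x - y‖ ≤ max ‖x‖ ‖y‖ := by
  rw [sub_eq_add_neg]
  refine (IsUltrametricDist.norm_add_le_max _ _).trans_eq ?_
  rw [norm_neg]

/-- Differences of products. -/
lemma prod_lip {ι : Type} (s : Finset ι) (a b : ι → L) {δ : L} {r : ℝ} (hr : 0 < r)
    (h : ∀ j ∈ s, a j - b j = δ) (ha : ∀ j ∈ s, ‖a j‖ ≤ r) (hb : ∀ j ∈ s, ‖b j‖ ≤ r) :
    ‖∏ j ∈ s, a j - ∏ j ∈ s, b j‖ * r ≤ ‖δ‖ * r ^ s.card := by
  classical
  induction s using Finset.induction_on with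
  | empty => simp
  | insert i s hi ih =>
    have ih' := ih (fun j hj => h j (mem_insert_of_mem hj))
      (fun j hj => ha j (mem_insert_of_mem hj)) (fun j hj => hb j (mem_insert_of_mem hj))
    rw [prod_insert hi, prod_insert hi, card_insert_of_notMem hi]
    have e1 : a i * ∏ j ∈ s, a j - b i * ∏ j ∈ s, b j =
        a i * (∏ j ∈ s, a j - ∏ j ∈ s, b j) + (a i - b i) * ∏ j ∈ s, b j := by ring
    have h1 : ‖∏ j ∈ s, b j‖ ≤ r ^ s.card := by
      rw [norm_prod, ← prod_const]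
      exact prod_le_prod (fun _ _ => norm_nonneg _) fun j hj => hb j (mem_insert_of_mem hj)
    have h2 : ‖a i * (∏ j ∈ s, a j - ∏ j ∈ s, b j)‖ ≤ ‖δ‖ * r ^ s.card := by
      rw [norm_mul]
      calc ‖a i‖ * ‖∏ j ∈ s, a j - ∏ j ∈ s, b j‖ ≤ r * ‖∏ j ∈ s, a j - ∏ j ∈ s, b j‖ :=
            mul_le_mul_of_nonneg_right (ha i (mem_insert_self i s)) (norm_nonneg _)
        _ ≤ ‖δ‖ * r ^ s.card := by rw [mul_comm]; exact ih'
    have h3 : ‖(a i - b i) * ∏ j ∈ s, b j‖ ≤ ‖δ‖ * r ^ s.card := by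
      rw [norm_mul, h i (mem_insert_self i s)]
      exact mul_le_mul_of_nonneg_left h1 (norm_nonneg _)
    rw [e1, pow_succ, ← mul_assoc]
    exact mul_le_mul_of_nonneg_right
      ((IsUltrametricDist.norm_add_le_max _ _).trans (max_le h2 h3)) hr.le

/-- Polynomials are Lipschitz. -/
lemma poly_lip {Q : L[X]} {r κ : ℝ} (hr : 0 < r) (hκ : 0 ≤ κ)
    (hQ : ∀ i, ‖Q.coeff i‖ * r ^ i ≤ κ) {x y : L} (hx : ‖x‖ ≤ r) (hy : ‖y‖ ≤ r) :
    ‖Q.eval x - Q.eval y‖ * r ≤ κ * ‖x - y‖ := by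
  rw [← le_div_iff₀ hr, eval_eq_sum_range, eval_eq_sum_range, ← sum_sub_distrib]
  refine IsUltrametricDist.norm_sum_le_of_forall_le_of_nonneg (by positivity) fun i _ => ?_
  rw [le_div_iff₀ hr, ← mul_sub, norm_mul, mul_assoc]
  have h1 : ‖x ^ i - y ^ i‖ * r ≤ ‖x - y‖ * r ^ i := by
    have := prod_lip (range i) (fun _ => x) (fun _ => y) hr (δ := x - y) (fun _ _ => rfl)
      (fun _ _ => hx) (fun _ _ => hy)
    simpa using this
  calc ‖Q.coeff i‖ * (‖x ^ i - y ^ i‖ * r) ≤ ‖Q.coeff i‖ * (‖x - y‖ * r ^ i) :=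
        mul_le_mul_of_nonneg_left h1 (norm_nonneg _)
    _ = ‖Q.coeff i‖ * r ^ i * ‖x - y‖ := by ring
    _ ≤ κ * ‖x - y‖ := mul_le_mul_of_nonneg_right (hQ i) (norm_nonneg _)

lemma poly_le {Q : L[X]} {r κ : ℝ} (hκ : 0 ≤ κ) (hQ : ∀ i, ‖Q.coeff i‖ * r ^ i ≤ κ) {x : L}
    (hx : ‖x‖ ≤ r) : ‖Q.eval x‖ ≤ κ := by
  rw [eval_eq_sum_range]
  refine IsUltrametricDist.norm_sum_le_of_forall_le_of_nonneg hκ fun i _ => ?_
  rw [norm_mul, norm_pow]
  exact (mul_le_mul_of_nonneg_left (pow_le_pow_left₀ (norm_nonneg _) hx i)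
    (norm_nonneg _)).trans (hQ i)

/-- Factors of a product which attains its trivial bound attain theirs. -/
lemma eq_of_prod_eq {ι : Type} (s : Finset ι) (a : ι → ℝ) {κ : ℝ} (hκ : 0 < κ)
    (h0 : ∀ j ∈ s, 0 ≤ a j) (h : ∀ j ∈ s, a j ≤ κ) (hprod : κ ^ s.card ≤ ∏ j ∈ s, a j) :
    ∀ j ∈ s, a j = κ := by
  classical
  intro i hi
  refine le_antisymm (h i hi) ?_
  by_contra hlt
  push Not at hlt
  have h1 : ∏ j ∈ s, a j < κ ^ s.card := by
    rw [← mul_prod_erase s a hi, ← card_erase_add_one hi, pow_succ']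
    have h2 : ∏ j ∈ s.erase i, a j ≤ κ ^ (s.erase i).card := by
      rw [← prod_const]
      exact prod_le_prod (fun j hj => h0 j (mem_of_mem_erase hj))
        fun j hj => h j (mem_of_mem_erase hj)
    calc a i * ∏ j ∈ s.erase i, a j ≤ a i * κ ^ (s.erase i).card :=
          mul_le_mul_of_nonneg_left h2 (h0 i hi)
      _ < κ * κ ^ (s.erase i).card := mul_lt_mul_of_pos_right hlt (by positivity)
  linarith

/-- Roots lie in the disc. -/
lemma root_le {P : L[X]} {d : ℕ} {r : ℝ} (hd : 1 ≤ d) (hr : 0 < r) (hP : P.Monic)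
    (hPd : P.natDegree = d) (hc : ∀ i ≤ d, ‖P.coeff i‖ ≤ r ^ (d - i)) {α : L}
    (hα : P.eval α = 0) : ‖α‖ ≤ r := by
  by_contra hlt
  push Not at hlt
  have hα0 : 0 < ‖α‖ := hr.trans hlt
  rw [eval_eq_sum_range, hPd, sum_range_succ] at hα
  have h1 : P.coeff d = 1 := by rw [← hPd]; exact hP
  rw [h1, one_mul] at hα
  have h2 : ‖∑ i ∈ range d, P.coeff i * α ^ i‖ ≤ r * ‖α‖ ^ (d - 1) := by
    refine IsUltrametricDist.norm_sum_le_of_forall_le_of_nonneg (by positivity) fun i hi => ?_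
    rw [mem_range] at hi
    rw [norm_mul, norm_pow]
    calc ‖P.coeff i‖ * ‖α‖ ^ i ≤ r ^ (d - i) * ‖α‖ ^ i :=
          mul_le_mul_of_nonneg_right (hc i hi.le) (by positivity)
      _ = r * (r ^ (d - i - 1) * ‖α‖ ^ i) := by
          rw [← mul_assoc, ← pow_succ']
          congr 2
          omega
      _ ≤ r * (‖α‖ ^ (d - i - 1) * ‖α‖ ^ i) := by
          gcongr
      _ = r * ‖α‖ ^ (d - 1) := by
          rw [← pow_add]
          congr 2
          omega
  have h3 : ‖∑ i ∈ range d, P.coeff i * α ^ i‖ = ‖α‖ ^ d := by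
    rw [eq_neg_of_add_eq_zero_left hα, norm_neg, norm_pow]
  rw [h3] at h2
  have h4 : ‖α‖ ^ d = ‖α‖ * ‖α‖ ^ (d - 1) := by
    rw [← pow_succ']
    congr 1
    omega
  rw [h4] at h2
  have h5 : 0 < ‖α‖ ^ (d - 1) := by positivity
  have h6 := le_of_mul_le_mul_right h2 h5
  linarith

lemma exists_roots [IsAlgClosed L] {P : L[X]} {d : ℕ} (hP : P.Monic) (hPd : P.natDegree = d) :
    ∃ α : Fin d → L, P = ∏ i, (X - C (α i)) := by
  have hsp : P.Splits := IsAlgClosed.splits P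
  have hcard : Multiset.card P.roots = d := by
    rw [splits_iff_card_roots.mp hsp, hPd]
  obtain ⟨α, hα⟩ := exists_fin_of_multiset P.roots d hcard
  refine ⟨α, ?_⟩
  have h1 := hsp.eq_prod_roots
  rw [hP.leadingCoeff, C_1, one_mul, ← hα, Multiset.map_map] at h1
  exact h1

lemma resultant_roots {d : ℕ} (α : Fin d → L) {Q : L[X]} {n : ℕ} (hQ : Q.natDegree ≤ n) :
    resultant (∏ i, (X - C (α i))) Q d n = ∏ i, Q.eval (α i) := by
  have h1 := resultant_prod_left univ (fun i => X - C (α i)) Q n (by simp) hQ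
  have h2 : (∏ i, (X - C (α i))).natDegree = d := by
    rw [natDegree_prod_of_monic _ _ fun i _ => monic_X_sub_C _]
    simp
  rw [h2] at h1
  rw [h1]
  refine prod_congr rfl fun i _ => ?_
  rw [natDegree_X_sub_C]
  exact resultant_X_sub_C_left _ _ _ hQ

/-- The structure of the roots. -/
theorem structure_roots {P Q : L[X]} {d : ℕ} [IsAlgClosed L] (hd : 2 ≤ d) {r κ : ℝ} (hr : 0 < r)
    (hκ : 0 < κ) (hP : P.Monic) (hPd : P.natDegree = d) (hQd : Q.natDegree ≤ d)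
    (hc : ∀ i ≤ d, ‖P.coeff i‖ ≤ r ^ (d - i)) (hQ : ∀ i, ‖Q.coeff i‖ * r ^ i ≤ κ)
    (hres : ‖resultant P Q d d‖ = κ ^ d)
    (hdisc : ‖resultant P (derivative P) d (d - 1)‖ = r ^ (d * (d - 1))) :
    ∃ α : Fin d → L, P = ∏ i, (X - C (α i)) ∧ (∀ i, ‖α i‖ ≤ r) ∧ (∀ i, ‖Q.eval (α i)‖ = κ) ∧
      ∀ i j, i ≠ j → ‖α i - α j‖ = r := by
  classical
  obtain ⟨α, hα⟩ := exists_roots hP hPd
  have hroot : ∀ i, P.eval (α i) = 0 := by
    intro i
    rw [hα, eval_prod]
    exact prod_eq_zero (mem_univ i) (by simp)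
  have hle : ∀ i, ‖α i‖ ≤ r := fun i => root_le (by omega) hr hP hPd hc (hroot i)
  refine ⟨α, hα, hle, ?_, ?_⟩
  · have h1 : ‖∏ i, Q.eval (α i)‖ = κ ^ d := by
      rw [← hres]
      conv_rhs => rw [hα]
      rw [resultant_roots α hQd]
    have h2 := eq_of_prod_eq univ (fun i => ‖Q.eval (α i)‖) hκ (fun _ _ => norm_nonneg _)
      (fun i _ => poly_le hκ.le hQ (hle i)) (by rw [card_univ, Fintype.card_fin, ← h1, norm_prod])
    exact fun i => h2 i (mem_univ i)
  · have hder : (derivative P).natDegree ≤ d - 1 := by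
      rw [← hPd]
      exact natDegree_derivative_le P
    have hev : ∀ i, (derivative P).eval (α i) = ∏ j ∈ univ.erase i, (α i - α j) := by
      intro i
      conv_lhs => rw [hα]
      rw [derivative_prod_finset, eval_finsetSum, sum_eq_single i]
      · simp [eval_prod]
      · intro j _ hji
        rw [eval_mul, eval_prod]
        rw [prod_eq_zero (mem_erase.2 ⟨hji.symm, mem_univ i⟩) (by simp), zero_mul]
      · intro h
        exact absurd (mem_univ i) h
    have hdiff : ∀ i j, ‖α i - α j‖ ≤ r := fun i j =>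
      (norm_sub_max _ _).trans (max_le (hle i) (hle j))
    have hcard : ∀ i : Fin d, (univ.erase i).card = d - 1 := fun i => by
      rw [card_erase_of_mem (mem_univ i), card_univ, Fintype.card_fin]
    have h0 : ∀ i, ‖(derivative P).eval (α i)‖ ≤ r ^ (d - 1) := by
      intro i
      rw [hev, norm_prod, ← hcard i, ← prod_const]
      exact prod_le_prod (fun _ _ => norm_nonneg _) fun j _ => hdiff i j
    have h1 : ‖∏ i, (derivative P).eval (α i)‖ = (r ^ (d - 1)) ^ d := by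
      rw [← pow_mul, mul_comm (d - 1), ← hdisc]
      conv_rhs => rw [hα]
      rw [resultant_roots α (by rw [← hα]; exact hder), ← hα]
    have h2 := eq_of_prod_eq univ (fun i => ‖(derivative P).eval (α i)‖)
      (κ := r ^ (d - 1)) (by positivity) (fun _ _ => norm_nonneg _) (fun i _ => h0 i)
      (by rw [card_univ, Fintype.card_fin, ← h1, norm_prod])
    intro i j hij
    have h3 := h2 i (mem_univ i)
    simp only [hev, norm_prod] at h3
    exact eq_of_prod_eq (univ.erase i) (fun j => ‖α i - α j‖) hr (fun _ _ => norm_nonneg _)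
      (fun j _ => hdiff i j) (by rw [hcard, h3]) j (mem_erase.2 ⟨hij.symm, mem_univ j⟩)

/-- Expansion near a root. -/
theorem expand_root {P Q : L[X]} {d : ℕ} (hd : 2 ≤ d) {r κ : ℝ} (hr : 0 < r) (hκ : 0 < κ)
    (hκr : κ < r ^ (d - 1)) {α : Fin d → L} (hP : P = ∏ i, (X - C (α i)))
    (hα : ∀ i, ‖α i‖ ≤ r) (hQα : ∀ i, ‖Q.eval (α i)‖ = κ) (hsep : ∀ i j, i ≠ j → ‖α i - α j‖ = r)
    (hQ : ∀ i, ‖Q.coeff i‖ * r ^ i ≤ κ) {x y : L} (hx : ‖x‖ ≤ r) (hy : ‖y‖ ≤ r) {i : Fin d}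
    (hxi : ‖x - α i‖ < r) (hyi : ‖y - α i‖ < r) (hPy : ‖P.eval y‖ ≤ r * κ) :
    ‖P.eval x / Q.eval x - P.eval y / Q.eval y‖ = r ^ (d - 1) / κ * ‖x - y‖ := by
  classical
  have hQv : ∀ z, ‖z‖ ≤ r → ‖z - α i‖ < r → ‖Q.eval z‖ = κ := by
    intro z hz hzi
    have h1 := poly_lip hr hκ.le hQ hz (hα i)
    have h2 : ‖Q.eval z - Q.eval (α i)‖ < κ := by
      have h3 : κ * ‖z - α i‖ < κ * r := mul_lt_mul_of_pos_left hzi hκ
      exact lt_of_mul_lt_mul_right (h1.trans_lt h3) hr.le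
    have h4 : Q.eval z = (Q.eval z - Q.eval (α i)) + Q.eval (α i) := by ring
    rw [h4, norm_add_eq (by rwa [hQα]), hQα]
  have hQx := hQv x hx hxi
  have hQy := hQv y hy hyi
  rcases eq_or_ne x y with rfl | hxy
  · simp
  have hxy0 : 0 < ‖x - y‖ := norm_pos_iff.2 (sub_ne_zero.2 hxy)
  set H : L → L := fun z => ∏ j ∈ univ.erase i, (z - α j) with hH
  have hcard : (univ.erase i).card = d - 1 := by
    rw [card_erase_of_mem (mem_univ i), card_univ, Fintype.card_fin]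
  have hPe : ∀ z, P.eval z = (z - α i) * H z := by
    intro z
    rw [hP, eval_prod, hH, mul_prod_erase univ (fun j => z - α j) (mem_univ i)]
    simp
  have hdist : ∀ z, ‖z - α i‖ < r → ∀ j, j ≠ i → ‖z - α j‖ = r := by
    intro z hz j hj
    have h1 : z - α j = (z - α i) + (α i - α j) := by ring
    rw [h1, norm_add_eq (by rwa [hsep i j hj.symm]), hsep i j hj.symm]
  have hHv : ‖H x‖ = r ^ (d - 1) := by
    rw [hH, norm_prod, ← hcard, ← prod_const]
    exact prod_congr rfl fun j hj => hdist x hxi j (ne_of_mem_erase hj)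
  have hlip : ‖H x - H y‖ * r ≤ ‖x - y‖ * r ^ (d - 1) := by
    have := prod_lip (univ.erase i) (fun j => x - α j) (fun j => y - α j) hr (δ := x - y)
      (fun j _ => by ring) (fun j hj => (hdist x hxi j (ne_of_mem_erase hj)).le)
      (fun j hj => (hdist y hyi j (ne_of_mem_erase hj)).le)
    rwa [hcard] at this
  have hrd : 0 < r ^ (d - 1) := by positivity
  have hdiff : ‖P.eval x - P.eval y‖ = r ^ (d - 1) * ‖x - y‖ := by
    have e1 : P.eval x - P.eval y = (y - α i) * (H x - H y) + (x - y) * H x := by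
      rw [hPe, hPe]
      ring
    have h1 : ‖(x - y) * H x‖ = r ^ (d - 1) * ‖x - y‖ := by
      rw [norm_mul, hHv, mul_comm]
    have h2 : ‖(y - α i) * (H x - H y)‖ < ‖(x - y) * H x‖ := by
      rw [h1, norm_mul]
      rcases eq_or_ne (H x - H y) 0 with h0 | h0
      · rw [h0, norm_zero, mul_zero]
        positivity
      · calc ‖y - α i‖ * ‖H x - H y‖ < r * ‖H x - H y‖ :=
              mul_lt_mul_of_pos_right hyi (norm_pos_iff.2 h0)
          _ ≤ r ^ (d - 1) * ‖x - y‖ := by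
              rw [mul_comm r, mul_comm (r ^ (d - 1))]
              exact hlip
    rw [e1, norm_add_eq h2, h1]
  have hQx0 : Q.eval x ≠ 0 := norm_pos_iff.1 (by rw [hQx]; exact hκ)
  have hQy0 : Q.eval y ≠ 0 := norm_pos_iff.1 (by rw [hQy]; exact hκ)
  have e2 : P.eval x / Q.eval x - P.eval y / Q.eval y =
      (-(P.eval y * (Q.eval x - Q.eval y)) + (P.eval x - P.eval y) * Q.eval y) /
        (Q.eval x * Q.eval y) := by
    field_simp
    ring
  have h3 : ‖(P.eval x - P.eval y) * Q.eval y‖ = r ^ (d - 1) * ‖x - y‖ * κ := by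
    rw [norm_mul, hdiff, hQy]
  have h4 : ‖-(P.eval y * (Q.eval x - Q.eval y))‖ < ‖(P.eval x - P.eval y) * Q.eval y‖ := by
    rw [h3, norm_neg, norm_mul]
    have h5 := poly_lip hr hκ.le hQ hx hy
    have h6 : ‖P.eval y‖ * ‖Q.eval x - Q.eval y‖ ≤ κ * (κ * ‖x - y‖) := by
      calc ‖P.eval y‖ * ‖Q.eval x - Q.eval y‖ ≤ r * κ * ‖Q.eval x - Q.eval y‖ :=
            mul_le_mul_of_nonneg_right hPy (norm_nonneg _)
        _ = κ * (‖Q.eval x - Q.eval y‖ * r) := by ring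
        _ ≤ κ * (κ * ‖x - y‖) := mul_le_mul_of_nonneg_left h5 hκ.le
    refine h6.trans_lt ?_
    calc κ * (κ * ‖x - y‖) < r ^ (d - 1) * (κ * ‖x - y‖) :=
          mul_lt_mul_of_pos_right hκr (by positivity)
      _ = r ^ (d - 1) * ‖x - y‖ * κ := by ring
  rw [e2, norm_div, norm_add_eq h4, h3, norm_mul, hQx, hQy]
  field_simp

end ultra

/-- The colouring. -/
theorem colouring_sep {K : Type} [Field K] [NumberField K] (v : FinitePlace K) {P Q : K[X]} {d : ℕ}
    (hd : 2 ≤ d) {r κ : ℝ} (hr : 0 < r) (hκ : 0 < κ) (hκr : κ < r ^ (d - 1)) (hP : P.Monic)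
    (hPd : P.natDegree = d) (hQd : Q.natDegree ≤ d)
    (hc : ∀ i ≤ d, v (P.coeff i) ≤ r ^ (d - i) ∧ v (Q.coeff i) * r ^ i ≤ κ)
    (hres : v (resultant P Q d d) = κ ^ d)
    (hdisc : v (resultant P (derivative P) d (d - 1)) = r ^ (d * (d - 1))) :
    ∃ χ : K → Fin d, ∀ x ∈ Inside v P Q r, ∀ y ∈ Inside v P Q r,
      (χ x = χ y → v (P.eval x / Q.eval x - P.eval y / Q.eval y) =
        r ^ (d - 1) / κ * v (x - y)) ∧ (χ x ≠ χ y → v (x - y) = r) := by
  classical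
  obtain ⟨L, i1, i2, i3, ι, hι⟩ := exists_ultra_field v
  have hmonic : (P.map ι).Monic := hP.map ι
  have hdeg : (P.map ι).natDegree = d := by rw [natDegree_map, hPd]
  have hQL : ∀ i, ‖(Q.map ι).coeff i‖ * r ^ i ≤ κ := by
    intro i
    rw [coeff_map, hι]
    rcases Nat.lt_or_ge d i with h | h
    · rw [coeff_eq_zero_of_natDegree_lt (hQd.trans_lt h), map_zero, zero_mul]
      exact hκ.le
    · exact (hc i h).2
  obtain ⟨α, hα, hle, hQα, hsep⟩ := structure_roots hd hr hκ hmonic hdeg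
    (by rw [natDegree_map]; exact hQd)
    (fun i hi => by rw [coeff_map, hι]; exact (hc i hi).1) hQL
    (by rw [resultant_map_map, hι]; exact hres)
    (by rw [derivative_map, resultant_map_map, hι]; exact hdisc)
  -- points inside are near a root
  have hnear : ∀ x ∈ Inside v P Q r, ‖ι x‖ ≤ r ∧ ‖(P.map ι).eval (ι x)‖ ≤ r * κ ∧
      ∃ i, ‖ι x - α i‖ < r := by
    rintro x ⟨h1, h2⟩
    have h3 : ‖ι x‖ ≤ r := by rw [hι]; exact h1
    have h4 : ‖(P.map ι).eval (ι x)‖ ≤ r * κ := by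
      rw [eval_map_apply, hι]
      refine h2.trans (mul_le_mul_of_nonneg_left ?_ hr.le)
      have := poly_le hκ.le hQL h3
      rwa [eval_map_apply, hι] at this
    refine ⟨h3, h4, ?_⟩
    by_contra hcon
    push Not at hcon
    have h5 : r ^ d ≤ ‖(P.map ι).eval (ι x)‖ := by
      rw [hα, eval_prod, norm_prod]
      have h6 : ∏ i : Fin d, r = r ^ d := by simp
      rw [← h6]
      refine prod_le_prod (fun _ _ => hr.le) fun i _ => ?_
      simpa using hcon i
    have h7 : r * κ < r ^ d := by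
      calc r * κ < r * r ^ (d - 1) := mul_lt_mul_of_pos_left hκr hr
        _ = r ^ d := by rw [← pow_succ']; congr 1; omega
    linarith
  have h0 : 0 < d := by omega
  refine ⟨fun x => if h : ∃ i, ‖ι x - α i‖ < r then h.choose else ⟨0, h0⟩,
    fun x hx y hy => ?_⟩
  obtain ⟨hx1, hx2, hx3⟩ := hnear x hx
  obtain ⟨hy1, hy2, hy3⟩ := hnear y hy
  simp only [dif_pos hx3, dif_pos hy3]
  have hxs := hx3.choose_spec
  have hys := hy3.choose_spec
  refine ⟨fun h => ?_, fun h => ?_⟩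
  · rw [← h] at hys
    have := expand_root hd hr hκ hκr hα hle hQα hsep hQL hx1 hy1 hxs hys hy2
    rw [eval_map_apply, eval_map_apply, eval_map_apply, eval_map_apply, ← map_div₀, ← map_div₀,
      ← map_sub, ← map_sub, hι, hι] at this
    exact this
  · have e1 : ι (x - y) = ((ι x - α hx3.choose) + -(ι y - α hy3.choose)) +
        (α hx3.choose - α hy3.choose) := by
      rw [map_sub]
      ring
    rw [← hι, e1, norm_add_eq, hsep _ _ h]
    rw [hsep _ _ h]
    refine (IsUltrametricDist.norm_add_le_max _ _).trans_lt (max_lt hxs ?_)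
    rw [norm_neg]
    exact hys

end Sep

/-- Separable bad reduction. -/
def SepRed {K : Type} [Field K] (v : K → ℝ) (m : ℕ) (p q : K[X]) (d : ℕ) : Prop :=
  ∃ (a₁ a₂ a₃ a₄ γ : K) (P Q : K[X]) (r κ : ℝ), Conj p q P Q d a₁ a₂ a₃ a₄ γ ∧
    P.Monic ∧ P.natDegree = d ∧ Q.natDegree ≤ d ∧ 0 < r ∧ 0 < κ ∧ κ < r ^ (d - 1) ∧
    (∀ i ≤ d, v (P.coeff i) ≤ r ^ (d - i) ∧ v (Q.coeff i) * r ^ i ≤ κ) ∧
    v (resultant P Q d d) = κ ^ d ∧
    v (resultant P (derivative P) d (d - 1)) = r ^ (d * (d - 1)) ∧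
    ∀ (z w : K) (i j : ℤ), v z = r * (r ^ (d - 1) / κ) ^ i → v w = r * (r ^ (d - 1) / κ) ^ j →
      ∃ e : K, v z = v w * v e ^ m

open Pool.Agent.MP90787a.P1.Sep in
/-- Separable bad reduction is expanding. -/
theorem SepRed.expRed {K : Type} [Field K] [NumberField K] {v : FinitePlace K} {m : ℕ} {p q : K[X]}
    {d : ℕ} (hd : 2 ≤ d) (h : SepRed v m p q d) : ExpRed v m d d p q d := by
  obtain ⟨a₁, a₂, a₃, a₄, γ, P, Q, r, κ, hconj, hP, hPd, hQd, hr, hκ, hκr, hc, hres, hdisc,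
    hpow⟩ := h
  obtain ⟨χ, hχ⟩ := colouring_sep v hd hr hκ hκr hP hPd hQd hc hres hdisc
  have hσ : 1 < r ^ (d - 1) / κ := (one_lt_div hκ).2 hκr
  refine ⟨a₁, a₂, a₃, a₄, γ, P, Q, r, r ^ (d - 1) / κ, hconj, hP, hPd, hQd, hr, hσ, ?_, ?_,
    ⟨χ, fun _ => 1, fun _ => le_rfl, fun x hx y hy => ⟨fun h => ?_, fun h => ?_⟩⟩, hpow⟩
  · intro i hi
    refine ⟨(hc i hi).1, ?_⟩
    calc v (Q.coeff i) * r ^ (i + 1) = v (Q.coeff i) * r ^ i * r := by rw [pow_succ, mul_assoc]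
      _ ≤ κ * r := mul_le_mul_of_nonneg_right (hc i hi).2 hr.le
      _ < r ^ (d - 1) * r := mul_lt_mul_of_pos_right hκr hr
      _ = r ^ d := by rw [← pow_succ]; congr 1; omega
  · rw [hres, div_pow, ← pow_mul, mul_div_assoc', mul_comm (κ ^ d), mul_div_assoc,
      div_self (by positivity), mul_one, mul_comm]
  · rw [pow_one]
    exact (hχ x hx y hy).1 h
  · exact ⟨0, one_pos, by rw [pow_zero, mul_one]; exact (hχ x hx y hy).2 h⟩

end Pool.Agent.MP90787a.P1
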