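import Pool.Agent.Lib.MP_90787a_nt.P1.Tails

set_option autoImplicit false

/-!
Rational maps with symmetries.
-/

namespace Pool.Agent.MP90787a.P1

open Finset Polynomial NumberField Height Pool.Agent.UBC90787a

section mob

variable {K : Type} [Field K] {a₁ a₂ a₃ a₄ : K}

lemma cr_mob_iter (h : a₁ * a₄ - a₂ * a₃ ≠ 0) (k : ℕ) (t p₀ p₁ p₂ : Option K) :
    cr ((mob a₁ a₂ a₃ a₄)^[k] t) ((mob a₁ a₂ a₃ a₄)^[k] p₀) ((mob a₁ a₂ a₃ a₄)^[k] p₁)
      ((mob a₁ a₂ a₃ a₄)^[k] p₂) = cr t p₀ p₁ p₂ := by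
  induction k with
  | zero => rfl
  | succ k ih =>
    rw [Function.iterate_succ_apply', Function.iterate_succ_apply', Function.iterate_succ_apply',
      Function.iterate_succ_apply', cr_mob h, ih]

/-- A Möbius transformation with three fixed points is the identity. -/
lemma mob_fix (h : a₁ * a₄ - a₂ * a₃ ≠ 0) {k : ℕ} {p₀ p₁ p₂ : Option K} (h01 : p₀ ≠ p₁)
    (h02 : p₀ ≠ p₂) (h12 : p₁ ≠ p₂) (e0 : (mob a₁ a₂ a₃ a₄)^[k] p₀ = p₀)
    (e1 : (mob a₁ a₂ a₃ a₄)^[k] p₁ = p₁) (e2 : (mob a₁ a₂ a₃ a₄)^[k] p₂ = p₂) (t : Option K) :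
    (mob a₁ a₂ a₃ a₄)^[k] t = t := by
  by_cases ht : t = p₂
  · rw [ht, e2]
  · have h1 := cr_mob_iter h k t p₀ p₁ p₂
    rw [e0, e1, e2] at h1
    refine cr_inj h01.symm h02 h12 ?_ ht h1
    intro h2
    apply ht
    rw [← e2] at h2
    exact (mob_injective h).iterate k h2

open Classical in
lemma card_fix_le (h : a₁ * a₄ - a₂ * a₃ ≠ 0) {k : ℕ} (hk : ∃ x, (mob a₁ a₂ a₃ a₄)^[k] x ≠ x)
    (X : Finset (Option K)) : (X.filter fun x => (mob a₁ a₂ a₃ a₄)^[k] x = x).card ≤ 2 := by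
  by_contra hcon
  push Not at hcon
  obtain ⟨p₀, h0, p₁, h1, p₂, h2, h01, h02, h12⟩ := Finset.two_lt_card.1 hcon
  obtain ⟨x, hx⟩ := hk
  exact hx (mob_fix h h01 h02 h12 (Finset.mem_filter.1 h0).2 (Finset.mem_filter.1 h1).2
    (Finset.mem_filter.1 h2).2 x)

end mob

section sym

variable {K : Type} [Field K] {a₁ a₂ a₃ a₄ : K} {f : Option K → Option K}

lemma map_iter_mob (hf : ∀ x, f (mob a₁ a₂ a₃ a₄ x) = f x) (k : ℕ) (x : Option K) :
    f ((mob a₁ a₂ a₃ a₄)^[k] x) = f x := by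
  induction k with
  | zero => rfl
  | succ k ih => rw [Function.iterate_succ_apply', hf, ih]

lemma mob_not_periodic (hf : ∀ x, f (mob a₁ a₂ a₃ a₄ x) = f x) {k : ℕ} {x : Option K}
    (hx : x ∈ Function.periodicPts f) (hk : (mob a₁ a₂ a₃ a₄)^[k] x ≠ x) :
    (mob a₁ a₂ a₃ a₄)^[k] x ∉ Function.periodicPts f := by
  intro h
  apply hk
  exact periodic_inj (k := 1) h hx (map_iter_mob hf k x)

lemma mob_inn (hf : ∀ x, f (mob a₁ a₂ a₃ a₄ x) = f x) {k : ℕ} {x : Option K}
    (hx : x ∈ Function.periodicPts f) (hfx : f x ≠ x) (hk : (mob a₁ a₂ a₃ a₄)^[k] x ≠ x) :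
    (mob a₁ a₂ a₃ a₄)^[k] x ∈ Inn f := by
  have h1 : ∀ n, f^[n + 1] ((mob a₁ a₂ a₃ a₄)^[k] x) = f^[n + 1] x := by
    intro n
    rw [Function.iterate_succ_apply, Function.iterate_succ_apply, map_iter_mob hf]
  have hinn := periodic_inn hx hfx
  have hnp := mob_not_periodic hf hx hk
  refine ⟨?_, ?_⟩
  · obtain ⟨n, hn, hper⟩ := hx
    refine ⟨n + 1, 1, by omega, ?_⟩
    rw [h1, show (1 : ℕ) = 0 + 1 from rfl, h1, Function.iterate_succ_apply',
      Function.iterate_succ_apply', Function.iterate_zero, id_eq]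
    exact congrArg f hper
  · intro n hn
    rcases Nat.eq_zero_or_pos n with rfl | hn0
    · rw [h1] at hn
      apply hnp
      rw [Function.iterate_zero, id_eq] at hn
      rw [← hn]
      exact iterate_mem_periodic hx _
    · obtain ⟨n', rfl⟩ : ∃ n', n = n' + 1 := ⟨n - 1, by omega⟩
      rw [h1, h1] at hn
      exact hinn.2 _ hn

variable {v : K → ℝ} {δ : Option K → Option K → ℝ}

/-- Distances between the translates of periodic points. -/
lemma GM.sym_far (h : GM v f δ) (hdet : a₁ * a₄ - a₂ * a₃ ≠ 0)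
    (hf : ∀ x, f (mob a₁ a₂ a₃ a₄ x) = f x) {x y : Option K} (hx : x ∈ Function.periodicPts f)
    (hy : y ∈ Function.periodicPts f) (hxy : x ≠ y) (j : ℕ) {k : ℕ}
    (hk : (mob a₁ a₂ a₃ a₄)^[k] y ≠ y) :
    δ ((mob a₁ a₂ a₃ a₄)^[j] x) ((mob a₁ a₂ a₃ a₄)^[j + k] y) = 1 := by
  have h1 : ∀ (j : ℕ) (z : Option K), δ ((mob a₁ a₂ a₃ a₄)^[j] x) ((mob a₁ a₂ a₃ a₄)^[j] z) =
      δ x z := by
    intro j z
    induction j with
    | zero => rfl
    | succ j ih =>
      rw [Function.iterate_succ_apply', Function.iterate_succ_apply', h.mobius _ _ _ _ hdet hf, ih]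
  rw [Function.iterate_add_apply, h1]
  exact h.far x y _ hxy hk (map_iter_mob hf k y) (h.const hx hy 1)

end sym

section finish

/-- A bound for the finite subsets is a bound for the set. -/
lemma encard_le_of_finset {α : Type} {s : Set α} {B : ℕ}
    (h : ∀ X : Finset α, (∀ x ∈ X, x ∈ s) → X.card ≤ B) : s.encard ≤ B := by
  by_contra hcon
  push Not at hcon
  have h1 : ((B + 1 : ℕ) : ℕ∞) ≤ s.encard := by
    rw [Nat.cast_add, Nat.cast_one]
    exact Order.add_one_le_of_lt hcon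
  obtain ⟨t, hts, ht⟩ := Set.exists_subset_encard_eq h1
  have hfin : t.Finite := Set.finite_of_encard_eq_coe ht
  have h2 := h hfin.toFinset (fun x hx => hts ((Set.Finite.mem_toFinset hfin).1 hx))
  have h3 : t.encard = hfin.toFinset.card := hfin.encard_eq_coe_toFinset_card
  rw [h3] at ht
  have h4 : hfin.toFinset.card = B + 1 := by exact_mod_cast ht
  omega

end finish

open Classical in
/-- The number of periodic points of symmetric maps. -/
theorem sym_of_unit {K : Type} [Field K] [NumberField K] {p q : K[X]} {d : ℕ}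
    (hd : 2 ≤ d) (hcop : IsCoprime p q) (hmax : max p.natDegree q.natDegree = d)
    {S : Finset (FinitePlace K)} {C C₁ : ℕ} (hC : UnitBound S p q d C)
    (hC₁ : ∀ X : Finset (Option K), (∀ x ∈ X, rmap p q d x = x) → X.card ≤ C₁)
    (hsym : Sym (rmap p q d)) : (Function.periodicPts (rmap p q d)).encard ≤
      ((C + C₁ + 9 : ℕ) : ℕ∞) := by
  refine encard_le_of_finset fun X₀ hX₀ => ?_
  set f := rmap p q d with hf
  obtain ⟨a₁, a₂, a₃, a₄, hdet, hfα, h2, h3⟩ := hsym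
  set α := mob a₁ a₂ a₃ a₄ with hα
  have h1 : ∃ x, α^[1] x ≠ x := by
    obtain ⟨x, hx⟩ := h2
    by_contra hcon
    push Not at hcon
    apply hx
    have e : α^[2] x = α^[1] (α^[1] x) := rfl
    rw [e, hcon, hcon]
  have c0 : (X₀.filter fun x => f x = x).card ≤ C₁ :=
    hC₁ _ fun x hx => (Finset.mem_filter.1 hx).2
  have c1 : (X₀.filter fun x => α^[1] x = x).card ≤ 2 := card_fix_le hdet h1 X₀
  have c2 : (X₀.filter fun x => α^[2] x = x).card ≤ 2 := card_fix_le hdet h2 X₀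
  have hinj : Function.Injective α := mob_injective hdet
  rcases h3 with h3 | ⟨y, hy, hyα⟩
  · have c3 : (X₀.filter fun x => α^[3] x = x).card ≤ 2 := card_fix_le hdet h3 X₀
    set X := X₀.filter fun x => f x ≠ x ∧ α^[1] x ≠ x ∧ α^[2] x ≠ x ∧ α^[3] x ≠ x with hX
    have hcov : X₀ ⊆ X ∪ ((X₀.filter fun x => f x = x) ∪ ((X₀.filter fun x => α^[1] x = x) ∪
        ((X₀.filter fun x => α^[2] x = x) ∪ (X₀.filter fun x => α^[3] x = x)))) := by
      intro x hx
      simp only [hX, Finset.mem_union, Finset.mem_filter]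
      tauto
    have hcardX : X₀.card ≤ X.card + C₁ + 6 := by
      have a0 := Finset.card_le_card hcov
      have a1 := Finset.card_union_le X ((X₀.filter fun x => f x = x) ∪
        ((X₀.filter fun x => α^[1] x = x) ∪
        ((X₀.filter fun x => α^[2] x = x) ∪ (X₀.filter fun x => α^[3] x = x))))
      have a2 := Finset.card_union_le (X₀.filter fun x => f x = x)
        ((X₀.filter fun x => α^[1] x = x) ∪
        ((X₀.filter fun x => α^[2] x = x) ∪ (X₀.filter fun x => α^[3] x = x)))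
      have a3 := Finset.card_union_le (X₀.filter fun x => α^[1] x = x)
        ((X₀.filter fun x => α^[2] x = x) ∪ (X₀.filter fun x => α^[3] x = x))
      have a4 := Finset.card_union_le (X₀.filter fun x => α^[2] x = x)
        (X₀.filter fun x => α^[3] x = x)
      omega
    suffices hXC : X.card ≤ C + 3 by omega
    by_contra hcon
    push Not at hcon
    obtain ⟨x₀, hx₀, x₁, hx₁, x₂, hx₂, n01, n02, n12⟩ := Finset.two_lt_card.1 (by omega : 2 < X.card)
    have hXm : ∀ x ∈ X, x ∈ Function.periodicPts f ∧ f x ≠ x ∧ α^[1] x ≠ x ∧ α^[2] x ≠ x ∧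
        α^[3] x ≠ x := fun x hx => ⟨hX₀ x (Finset.mem_filter.1 hx).1, (Finset.mem_filter.1 hx).2⟩
    obtain ⟨p0, f0, _, _, _⟩ := hXm x₀ hx₀
    obtain ⟨p1, f1, q1, _, _⟩ := hXm x₁ hx₁
    obtain ⟨p2, f2, q2, r2, _⟩ := hXm x₂ hx₂
    have hdist : ∀ {x y : Option K} (j : ℕ) {k : ℕ}, x ∈ Function.periodicPts f →
        y ∈ Function.periodicPts f → x ≠ y → α^[k] y ≠ y → α^[j] x ≠ α^[j + k] y := by
      intro x y j k hx hy hxy hk h
      rw [Function.iterate_add_apply] at h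
      have h5 := hinj.iterate j h
      exact mob_not_periodic hfα hy hk (h5 ▸ hx)
    have key := hC (α^[0] x₀) (α^[0 + 1] x₁) (α^[0 + 2] x₂)
      (((X.erase x₀).erase x₁).erase x₂ |>.image fun x => α^[0 + 3] x)
      (hdist 0 p0 p1 n01 q1) (hdist 0 p0 p2 n02 r2) (hdist 1 p1 p2 n12 q2)
      (periodic_inn p0 f0) (mob_inn hfα p1 f1 q1) (Or.inl (mob_inn hfα p2 f2 r2)) ?_
    · rw [Finset.card_image_of_injective _ (hinj.iterate _)] at key
      have b1 := Finset.card_erase_of_mem hx₀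
      have m1 : x₁ ∈ X.erase x₀ := Finset.mem_erase.2 ⟨n01.symm, hx₁⟩
      have b2 := Finset.card_erase_of_mem m1
      have m2 : x₂ ∈ (X.erase x₀).erase x₁ :=
        Finset.mem_erase.2 ⟨n12.symm, Finset.mem_erase.2 ⟨n02.symm, hx₂⟩⟩
      have b3 := Finset.card_erase_of_mem m2
      omega
    · intro t ht
      obtain ⟨x, hx, rfl⟩ := Finset.mem_image.1 ht
      rw [Finset.mem_erase, Finset.mem_erase, Finset.mem_erase] at hx
      obtain ⟨k2, k1, k0, hxX⟩ := hx
      obtain ⟨px, fx, qx, rx, sx⟩ := hXm x hxX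
      refine ⟨mob_inn hfα px fx sx, (hdist 0 p0 px k0.symm sx).symm,
        (hdist 1 p1 px k1.symm rx).symm, (hdist 2 p2 px k2.symm qx).symm, fun v _ hg => ?_⟩
      obtain ⟨δ, hδ⟩ := good_metric v hd hcop hmax hg
      have e01 : δ (α^[0] x₀) (α^[0 + 1] x₁) = 1 := hδ.sym_far hdet hfα p0 p1 n01 0 q1
      have e02 : δ (α^[0] x₀) (α^[0 + 2] x₂) = 1 := hδ.sym_far hdet hfα p0 p2 n02 0 r2
      have e12 : δ (α^[0 + 1] x₁) (α^[0 + 2] x₂) = 1 := hδ.sym_far hdet hfα p1 p2 n12 1 q2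
      have e0t : δ (α^[0] x₀) (α^[0 + 3] x) = 1 := hδ.sym_far hdet hfα p0 px k0.symm 0 sx
      have e1t : δ (α^[0 + 1] x₁) (α^[0 + 3] x) = 1 := hδ.sym_far hdet hfα p1 px k1.symm 1 rx
      have e2t : δ (α^[0 + 2] x₂) (α^[0 + 3] x) = 1 := hδ.sym_far hdet hfα p2 px k2.symm 2 qx
      constructor
      · rw [hδ.cross, hδ.symm (α^[0 + 3] x), hδ.symm (α^[0 + 3] x), e0t, e2t, e12,
          hδ.symm (α^[0 + 1] x₁), e01]
        norm_num
      · rw [hδ.cross, hδ.symm (α^[0 + 3] x), hδ.symm (α^[0 + 3] x), e1t, e2t, e02, e01]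
        norm_num
  · set X := X₀.filter fun x => f x ≠ x ∧ α^[1] x ≠ x ∧ α^[2] x ≠ x with hX
    have hcov : X₀ ⊆ X ∪ ((X₀.filter fun x => f x = x) ∪ ((X₀.filter fun x => α^[1] x = x) ∪
        (X₀.filter fun x => α^[2] x = x))) := by
      intro x hx
      simp only [hX, Finset.mem_union, Finset.mem_filter]
      tauto
    have hcardX : X₀.card ≤ X.card + C₁ + 4 := by
      have a0 := Finset.card_le_card hcov
      have a1 := Finset.card_union_le X ((X₀.filter fun x => f x = x) ∪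
        ((X₀.filter fun x => α^[1] x = x) ∪ (X₀.filter fun x => α^[2] x = x)))
      have a2 := Finset.card_union_le (X₀.filter fun x => f x = x)
        ((X₀.filter fun x => α^[1] x = x) ∪ (X₀.filter fun x => α^[2] x = x))
      have a3 := Finset.card_union_le (X₀.filter fun x => α^[1] x = x)
        (X₀.filter fun x => α^[2] x = x)
      omega
    suffices hXC : X.card ≤ C + 2 by omega
    by_contra hcon
    push Not at hcon
    obtain ⟨x₀, hx₀, x₁, hx₁, n01⟩ := Finset.one_lt_card.1 (by omega : 1 < X.card)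
    have hyk : ∀ k, α^[k] y = y := by
      intro k
      induction k with
      | zero => rfl
      | succ k ih => rw [Function.iterate_succ_apply', ih, hyα]
    have hXm : ∀ x ∈ X, x ∈ Function.periodicPts f ∧ f x ≠ x ∧ α^[1] x ≠ x ∧ α^[2] x ≠ x ∧
        y ≠ x := by
      intro x hx
      have h5 := (Finset.mem_filter.1 hx).2
      refine ⟨hX₀ x (Finset.mem_filter.1 hx).1, h5.1, h5.2.1, h5.2.2, ?_⟩
      rintro rfl
      exact h5.2.1 (hyk 1)
    obtain ⟨p0, f0, q0, _, y0⟩ := hXm x₀ hx₀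
    obtain ⟨p1, f1, q1, _, y1⟩ := hXm x₁ hx₁
    have hdist : ∀ {x y : Option K} (j : ℕ) {k : ℕ}, x ∈ Function.periodicPts f →
        y ∈ Function.periodicPts f → x ≠ y → α^[k] y ≠ y → α^[j] x ≠ α^[j + k] y := by
      intro x y j k hx hy hxy hk h
      rw [Function.iterate_add_apply] at h
      have h5 := hinj.iterate j h
      exact mob_not_periodic hfα hy hk (h5 ▸ hx)
    have key := hC (α^[0] x₀) (α^[0 + 1] x₁) y
      ((X.erase x₀).erase x₁ |>.image fun x => α^[0 + 2] x)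
      (hdist 0 p0 p1 n01 q1) (fun h => y0 h.symm)
      (fun h => hdist 0 hy p1 y1 q1 (by rw [hyk]; exact h.symm))
      (periodic_inn p0 f0) (mob_inn hfα p1 f1 q1) (Or.inr hy) ?_
    · rw [Finset.card_image_of_injective _ (hinj.iterate _)] at key
      have b1 := Finset.card_erase_of_mem hx₀
      have m1 : x₁ ∈ X.erase x₀ := Finset.mem_erase.2 ⟨n01.symm, hx₁⟩
      have b2 := Finset.card_erase_of_mem m1
      omega
    · intro t ht
      obtain ⟨x, hx, rfl⟩ := Finset.mem_image.1 ht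
      rw [Finset.mem_erase, Finset.mem_erase] at hx
      obtain ⟨k1, k0, hxX⟩ := hx
      obtain ⟨px, fx, qx, rx, yx⟩ := hXm x hxX
      refine ⟨mob_inn hfα px fx rx, (hdist 0 p0 px k0.symm rx).symm,
        (hdist 1 p1 px k1.symm qx).symm,
        (fun h => hdist 0 hy px yx rx (by rw [hyk]; exact h.symm)), fun v _ hg => ?_⟩
      obtain ⟨δ, hδ⟩ := good_metric v hd hcop hmax hg
      have e01 : δ (α^[0] x₀) (α^[0 + 1] x₁) = 1 := hδ.sym_far hdet hfα p0 p1 n01 0 q1
      have e0t : δ (α^[0] x₀) (α^[0 + 2] x) = 1 := hδ.sym_far hdet hfα p0 px k0.symm 0 rx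
      have e1t : δ (α^[0 + 1] x₁) (α^[0 + 2] x) = 1 := hδ.sym_far hdet hfα p1 px k1.symm 1 qx
      have ey1 : δ y (α^[0 + 1] x₁) = 1 := by
        have := hδ.sym_far hdet hfα hy p1 y1 0 q1
        rwa [hyk 0] at this
      have eyt : δ y (α^[0 + 2] x) = 1 := by
        have := hδ.sym_far hdet hfα hy px yx 0 rx
        rwa [hyk 0] at this
      have ey0 : δ y (α^[0] x₀) = 1 := by
        have h5 := hδ.sym_far hdet hfα hy p0 y0 0 q0
        rw [hyk 0] at h5
        have h6 := hδ.mobius _ _ _ _ hdet hfα y x₀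
        have h7 : mob a₁ a₂ a₃ a₄ y = y := hyα
        rw [h7] at h6
        exact h6.symm.trans h5
      constructor
      · rw [hδ.cross, hδ.symm (α^[0 + 2] x), hδ.symm (α^[0 + 2] x) y, e0t, eyt,
          hδ.symm (α^[0 + 1] x₁) y, ey1, hδ.symm (α^[0 + 1] x₁), e01]
        norm_num
      · rw [hδ.cross, hδ.symm (α^[0 + 2] x), hδ.symm (α^[0 + 2] x) y, e1t, eyt,
          hδ.symm (α^[0] x₀) y, ey0, e01]
        norm_num

end Pool.Agent.MP90787a.P1
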