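import Mathlib
import Pool.Agent.Lib.MP_90787a_nt.P1.Defs

set_option autoImplicit false

/-!
The bounds `Bdd` descend to subfields.
-/

namespace Pool.Agent.MP90787a.P1

open Polynomial NumberField Height Pool.Agent.UBC90787a

namespace Transfer

section semi

variable {α β : Type} {f : α → α} {g : β → β} {Φ : α → β}

theorem isPeriodicPt_iff (hΦ : Function.Injective Φ) (h : Function.Semiconj Φ f g) {n : ℕ}
    {x : α} : Function.IsPeriodicPt g n (Φ x) ↔ Function.IsPeriodicPt f n x := by
  unfold Function.IsPeriodicPt Function.IsFixedPt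
  rw [← (h.iterate_right n).eq x]
  exact hΦ.eq_iff

theorem mem_periodicPts_iff (hΦ : Function.Injective Φ) (h : Function.Semiconj Φ f g)
    {x : α} : Φ x ∈ Function.periodicPts g ↔ x ∈ Function.periodicPts f := by
  constructor
  · rintro ⟨n, hn, hx⟩
    exact ⟨n, hn, (isPeriodicPt_iff hΦ h).mp hx⟩
  · rintro ⟨n, hn, hx⟩
    exact ⟨n, hn, (isPeriodicPt_iff hΦ h).mpr hx⟩

theorem minimalPeriod_eq (hΦ : Function.Injective Φ) (h : Function.Semiconj Φ f g) (x : α) :
    Function.minimalPeriod g (Φ x) = Function.minimalPeriod f x :=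
  Function.minimalPeriod_eq_minimalPeriod_iff.mpr fun _ => isPeriodicPt_iff hΦ h

theorem four_le (hΦ : Function.Injective Φ) (h : Function.Semiconj Φ f g)
    (h4 : 4 ≤ (Function.periodicPts f).encard) : 4 ≤ (Function.periodicPts g).encard := by
  refine h4.trans ?_
  rw [← hΦ.encard_image]
  refine Set.encard_le_encard ?_
  rintro _ ⟨x, hx, rfl⟩
  exact (mem_periodicPts_iff hΦ h).mpr hx

/-- The bounds descend along injective semiconjugacies. -/
theorem bdd_of_semiconj (hΦ : Function.Injective Φ) (h : Function.Semiconj Φ f g) {B : ℕ}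
    {E : Prop} (hg : Bdd B E g) : Bdd B E f := by
  obtain ⟨h1, h2, h3⟩ := hg
  have hit : ∀ (n : ℕ) (x : α), g^[n] (Φ x) = Φ (f^[n] x) := fun n x =>
    ((h.iterate_right n).eq x).symm
  refine ⟨?_, ?_, ?_⟩
  · intro x hx k hk hkp
    refine h1 (Φ x) ((mem_periodicPts_iff hΦ h).mpr hx) k hk ?_
    rwa [minimalPeriod_eq hΦ h]
  · intro x i hx h3' h4
    have h5 := h2 (Φ x) i (by rw [hit]; exact (mem_periodicPts_iff hΦ h).mpr hx)
      (by rw [hit, minimalPeriod_eq hΦ h]; exact h3') (four_le hΦ h h4)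
    rw [hit] at h5
    exact (mem_periodicPts_iff hΦ h).mp h5
  · refine le_trans ?_ h3
    rw [← hΦ.encard_image]
    refine Set.encard_le_encard ?_
    rintro _ ⟨x, ⟨i, hi, hp, hx⟩, rfl⟩
    refine ⟨i, ?_, ?_, ?_⟩
    · rw [hit]
      exact (mem_periodicPts_iff hΦ h).mpr hi
    · rw [hit, minimalPeriod_eq hΦ h]
      exact hp
    · rw [hit, minimalPeriod_eq hΦ h, mem_periodicPts_iff hΦ h]
      exact hx.imp id fun hx => ⟨hx.1, four_le hΦ h hx.2⟩

end semi

theorem semiconj_rmap {K L : Type} [Field K] [Field L] (φ : K →+* L) (p q : K[X]) (d : ℕ) :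
    Function.Semiconj (Option.map φ) (rmap p q d) (rmap (p.map φ) (q.map φ) d) := by
  have he : ∀ (r : K[X]) (x : K), (r.map φ).eval (φ x) = φ (r.eval x) := fun r x => by
    rw [eval_map, eval₂_at_apply]
  intro x
  rcases x with _ | x
  · by_cases h : q.coeff d = 0
    · have h' : (q.map φ).coeff d = 0 := by rw [coeff_map, h, map_zero]
      simp [rmap, h]
    · simp [rmap, h]
  · by_cases h : q.eval x = 0
    · simp only [rmap, Option.map_some, he, h, map_zero, if_true, Option.map_none]
    · have h' : φ (q.eval x) ≠ 0 := (map_ne_zero φ).mpr h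
      simp only [rmap, Option.map_some, he, h, h', if_false, map_div₀]

end Transfer

/-- The bounds descend to subfields. -/
theorem Bdd.of_map {K L : Type} [Field K] [Field L] (φ : K →+* L) {p q : K[X]} {d B : ℕ} {E : Prop}
    (h : Bdd B E (rmap (p.map φ) (q.map φ) d)) : Bdd B E (rmap p q d) :=
  Transfer.bdd_of_semiconj (Option.map_injective φ.injective) (Transfer.semiconj_rmap φ p q d) h

end Pool.Agent.MP90787a.P1
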