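import Pool.Agent.Lib.MP_90787a_nt.P1.Good
import Pool.Agent.Lib.MP_90787a_nt.P1.Transfer
import Pool.Agent.Lib.MP_90787a_nt.P1.Main
import Pool.Agent.Lib.MP_90787a_nt.P1.Fam

set_option autoImplicit false

/-!
Symmetries under extensions of the field, and the families `φ + c ^ k`.
-/

namespace Pool.Agent.MP90787a.P1

open Polynomial NumberField Height Pool.Agent.UBC90787a

lemma vec_map {K L : Type} [Field K] [Field L] (φ : K →+* L) (x : Option K) :
    vec (x.map φ) = (φ (vec x).1, φ (vec x).2) := by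
  cases x <;> simp [vec]

lemma mob_map {K L : Type} [Field K] [Field L] (φ : K →+* L) (a₁ a₂ a₃ a₄ : K) (x : Option K) :
    mob (φ a₁) (φ a₂) (φ a₃) (φ a₄) (x.map φ) = (mob a₁ a₂ a₃ a₄ x).map φ := by
  have e1 : φ a₃ * φ (vec x).1 + φ a₄ * φ (vec x).2 = φ (a₃ * (vec x).1 + a₄ * (vec x).2) := by
    simp
  have e2 : φ a₁ * φ (vec x).1 + φ a₂ * φ (vec x).2 = φ (a₁ * (vec x).1 + a₂ * (vec x).2) := by
    simp
  unfold mob pt
  rw [vec_map]
  by_cases h : a₃ * (vec x).1 + a₄ * (vec x).2 = 0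
  · rw [if_pos (by rw [e1, h, map_zero]), if_pos h]
    rfl
  · rw [if_neg (by rwa [e1, map_eq_zero]), if_neg h, Option.map_some, map_div₀, e1, e2]

/-- Symmetries are preserved under extensions. -/
theorem Sym.map {K L : Type} [Field K] [Infinite K] [Field L] (φ : K →+* L) {p q : K[X]} {d : ℕ}
    (hd : 1 ≤ d) (hcop : IsCoprime p q) (hmax : max p.natDegree q.natDegree = d)
    (h : Sym (rmap p q d)) : Sym (rmap (p.map φ) (q.map φ) d) := by
  obtain ⟨a₁, a₂, a₃, a₄, hdet, hf, h2, h3⟩ := h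
  obtain ⟨c, hc1, hc2⟩ := Good.exists_const hd hcop hmax hdet hf
  have hp : p.natDegree ≤ d := by omega
  have hq : q.natDegree ≤ d := by omega
  have hdetL : φ a₁ * φ a₄ - φ a₂ * φ a₃ ≠ 0 := by
    rw [← map_mul, ← map_mul, ← map_sub]
    exact (map_ne_zero φ).2 hdet
  have hcopL : IsCoprime (p.map φ) (q.map φ) := hcop.map (mapRingHom φ)
  have hmaxL : max (p.map φ).natDegree (q.map φ).natDegree = d := by
    rw [natDegree_map, natDegree_map, hmax]
  have hc1L : Good.subst (p.map φ) d (φ a₁) (φ a₂) (φ a₃) (φ a₄) = C (φ c) * p.map φ := by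
    rw [← Good.subst_map, hc1, Polynomial.map_mul, map_C]
  have hc2L : Good.subst (q.map φ) d (φ a₁) (φ a₂) (φ a₃) (φ a₄) = C (φ c) * q.map φ := by
    rw [← Good.subst_map, hc2, Polynomial.map_mul, map_C]
  have hfL : ∀ y : Option L, rmap (p.map φ) (q.map φ) d (mob (φ a₁) (φ a₂) (φ a₃) (φ a₄) y) =
      rmap (p.map φ) (q.map φ) d y := by
    intro y
    obtain ⟨ν, hν, h1⟩ := vec_mob hdetL y
    obtain ⟨μ, hμ, h4⟩ := homMap_vec hcopL hmaxL hd (mob (φ a₁) (φ a₂) (φ a₃) (φ a₄) y)
    obtain ⟨μ', hμ', h4'⟩ := homMap_vec hcopL hmaxL hd y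
    have e1 := Good.homog_of_subst (by rw [natDegree_map]; exact hp) hc1L (vec y)
    have e2 := Good.homog_of_subst (by rw [natDegree_map]; exact hq) hc2L (vec y)
    have e3 : homMap (p.map φ) (q.map φ) d (ν • vec (mob (φ a₁) (φ a₂) (φ a₃) (φ a₄) y)) =
        φ c • homMap (p.map φ) (q.map φ) d (vec y) := by
      rw [← h1]
      exact Prod.ext e1 e2
    rw [homMap_hom, h4, h4', smul_smul, smul_smul] at e3
    have hne : ν ^ d * μ ≠ 0 := mul_ne_zero (pow_ne_zero _ hν) hμ
    refine eq_of_smul (t := (ν ^ d * μ)⁻¹ * (φ c * μ')) ?_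
    rw [mul_smul, ← e3, smul_smul, inv_mul_cancel₀ hne, one_smul]
  have hiter : ∀ (n : ℕ) (x : Option K), (mob (φ a₁) (φ a₂) (φ a₃) (φ a₄))^[n] (x.map φ) =
      ((mob a₁ a₂ a₃ a₄)^[n] x).map φ := by
    intro n x
    induction n with
    | zero => rfl
    | succ n ih => rw [Function.iterate_succ_apply', ih, mob_map, Function.iterate_succ_apply']
  have hinj : Function.Injective (Option.map φ) := Option.map_injective φ.injective
  refine ⟨φ a₁, φ a₂, φ a₃, φ a₄, hdetL, hfL, ?_, ?_⟩
  · obtain ⟨x, hx⟩ := h2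
    exact ⟨x.map φ, fun h => hx (hinj (by rw [← hiter, h]))⟩
  · rcases h3 with ⟨x, hx⟩ | ⟨y, hy, hy'⟩
    · exact Or.inl ⟨x.map φ, fun h => hx (hinj (by rw [← hiter, h]))⟩
    · refine Or.inr ⟨y.map φ, ?_, ?_⟩
      · exact (Transfer.mem_periodicPts_iff hinj (Transfer.semiconj_rmap φ p q d)).2 hy
      · rw [mob_map, hy']

lemma Bdd.mono {α : Type} {B : ℕ} {E E' : Prop} {f : α → α} (h : E → E') (hf : Bdd B E' f) :
    Bdd B E f := by
  refine ⟨hf.1, hf.2.1, (Set.encard_le_encard ?_).trans hf.2.2⟩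
  rintro x ⟨i, hi, hp, hx⟩
  exact ⟨i, hi, hp.imp h id, hx⟩

lemma coprime_add_mul {K : Type} [Field K] {p q : K[X]} (h : IsCoprime p q) (c : K) :
    IsCoprime (p + C c * q) q := by
  rw [mul_comm]
  exact h.add_mul_left_left (C c)

lemma max_add_mul {K : Type} [Field K] (p q : K[X]) (c : K) :
    max (p + C c * q).natDegree q.natDegree = max p.natDegree q.natDegree := by
  have h1 : (C c * q).natDegree ≤ q.natDegree := natDegree_C_mul_le c q
  rcases le_or_gt p.natDegree q.natDegree with h | h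
  · rw [max_eq_right h]
    refine max_eq_right ((natDegree_add_le _ _).trans (max_le h h1))
  · rw [natDegree_add_eq_left_of_natDegree_lt (h1.trans_lt h)]

/-- The families `φ + c ^ k`. -/
theorem family_bdd (K : Type) [Field K] [NumberField K] (p q : K[X]) (hcop : IsCoprime p q)
    (hd : 2 ≤ max p.natDegree q.natDegree) (hpq : p.natDegree ≠ q.natDegree + 1)
    (m k : ℕ) (hm : 3 ≤ m)
    (hk : ∀ z : AlgebraicClosure K, 2 ≤ (q.map (algebraMap K (AlgebraicClosure K))).rootMultiplicity z →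
      m ∣ k / Nat.gcd ((q.map (algebraMap K (AlgebraicClosure K))).rootMultiplicity z) k)
    (hk' : q.natDegree < p.natDegree → m ∣ k / Nat.gcd (p.natDegree - q.natDegree) k)
    (hk1 : m ∣ 2 * k) : ∃ B : ℕ, ∀ c : K,
      Bdd B (Even m ∨ Sym (rmap (p + C (c ^ k) * q) q (max p.natDegree q.natDegree)))
        (rmap (p + C (c ^ k) * q) q (max p.natDegree q.natDegree)) := by
  set L := q.SplittingField with hL
  have : NumberField L := NumberField.of_module_finite K L
  set φ : K →+* L := algebraMap K L with hφ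
  set d := max p.natDegree q.natDegree with hdd
  have hmaxL : max (p.map φ).natDegree (q.map φ).natDegree = d := by
    rw [natDegree_map, natDegree_map]
  obtain ⟨S, b, hS⟩ := family_nice L (p.map φ) (q.map φ) (hcop.map (mapRingHom φ))
    (by rw [hmaxL]; exact hd) (by rw [natDegree_map, natDegree_map]; exact hpq)
    (SplittingField.splits q) m k (by omega) (by
      intro z hz
      set j : L →+* AlgebraicClosure K := (IsAlgClosed.lift : L →ₐ[K] AlgebraicClosure K).toRingHom
        with hj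
      have e1 : (q.map φ).rootMultiplicity z =
          (q.map (algebraMap K (AlgebraicClosure K))).rootMultiplicity (j z) := by
        rw [eq_rootMultiplicity_map j.injective, Polynomial.map_map]
        congr 2
        exact (IsAlgClosed.lift : L →ₐ[K] AlgebraicClosure K).comp_algebraMap
      rw [e1] at hz ⊢
      exact hk _ hz) (by rw [natDegree_map, natDegree_map]; exact hk') hk1
  rw [hmaxL] at hS
  obtain ⟨B, hB⟩ := main L d m d b hd hm S
  refine ⟨B, fun c => ?_⟩
  have e1 : (p + C (c ^ k) * q).map φ = p.map φ + C ((φ c) ^ k) * q.map φ := by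
    rw [Polynomial.map_add, Polynomial.map_mul, map_C, map_pow]
  have h1 := hB ((p + C (c ^ k) * q).map φ) (q.map φ)
    ((coprime_add_mul hcop _).map (mapRingHom φ)) (by
      rw [natDegree_map, natDegree_map, max_add_mul]) (by
      rw [e1]
      exact hS (φ c))
  refine Bdd.of_map φ (Bdd.mono ?_ h1)
  exact Or.imp id (Sym.map φ (by omega) (coprime_add_mul hcop _) (max_add_mul p q _))

end Pool.Agent.MP90787a.P1
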