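import Pool.Agent.Lib.MP_90787a_nt.P1.Periods

set_option autoImplicit false

/-!
Tails of rational maps with potentially good or expanding reduction.
-/

namespace Pool.Agent.MP90787a.P1

open Finset Polynomial NumberField Height Pool.Agent.UBC90787a

section dyn

variable {α : Type} {f : α → α} {x : α}

lemma inn_of_tail {i : ℕ} (hi : f^[i] x ∈ Function.periodicPts f)
    (h2 : 2 ≤ Function.minimalPeriod f (f^[i] x)) : x ∈ Inn f := by
  have hinn := inn_of_period hi h2
  obtain ⟨n, hn, hper⟩ := hi
  refine ⟨⟨n + i, i, by omega, ?_⟩, fun k hk => ?_⟩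
  · rw [Function.iterate_add_apply]
    exact hper
  · refine (hinn k).2 0 ?_
    have e1 : ∀ a b c : ℕ, f^[a] (f^[b] (f^[c] x)) = f^[a + b + c] x := fun a b c => by
      rw [Function.iterate_add_apply, Function.iterate_add_apply]
    have e2 : ∀ a b : ℕ, f^[a] (f^[b] x) = f^[a + b] x := fun a b => by
      rw [Function.iterate_add_apply]
    calc f^[0 + 1] (f^[k] (f^[i] x)) = f^[i] (f^[k + 1] x) := by
          rw [e1, e2]
          congr 1
          omega
      _ = f^[i] (f^[k] x) := by rw [hk]
      _ = f^[0] (f^[k] (f^[i] x)) := by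
          rw [e1, e2]
          congr 1
          omega

lemma periodic_inj {y : α} (hx : x ∈ Function.periodicPts f) (hy : y ∈ Function.periodicPts f)
    {k : ℕ} (h : f^[k] x = f^[k] y) : x = y := by
  obtain ⟨n, hn, hn'⟩ := hx
  obtain ⟨n', hm, hm'⟩ := hy
  have h1 : f^[n * n' * k] x = x := by
    rw [Nat.mul_assoc]
    exact (hn'.mul_const (n' * k)).eq
  have h2 : f^[n * n' * k] y = y := by
    rw [Nat.mul_comm n n', Nat.mul_assoc]
    exact (hm'.mul_const (n * k)).eq
  have h3 : k ≤ n * n' * k := by
    have : 1 ≤ n * n' := Nat.mul_pos hn hm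
    nlinarith
  rw [← h1, ← h2, ← Nat.sub_add_cancel h3, Function.iterate_add_apply, h,
    ← Function.iterate_add_apply]

end dyn

section gm

variable {K : Type} [Field K] {v : K → ℝ} {f : Option K → Option K} {δ : Option K → Option K → ℝ}
  {x : Option K}

lemma GM.lip_iter (h : GM v f δ) (x y : Option K) (n : ℕ) : δ (f^[n] x) (f^[n] y) ≤ δ x y := by
  induction n with
  | zero => exact le_rfl
  | succ n ih =>
    rw [Function.iterate_succ_apply', Function.iterate_succ_apply']
    exact (h.lip _ _).trans ih

/-- A point which is not periodic is far from all periodic points with a different orbit. -/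
lemma GM.tail_far (h : GM v f δ) {t w s : Option K} {k : ℕ}
    (hk : ∀ j < k + 1, f^[j] t ∉ Function.periodicPts f) (hw : w ∈ Function.periodicPts f)
    (hs : s ∈ Function.periodicPts f) (hts : f^[k + 1] t = f^[k + 1] s) (hws : w ≠ s) :
    δ t w = 1 := by
  have hw' := iterate_mem_periodic hw k
  have hs' := iterate_mem_periodic hs k
  have h1 : f^[k] w ≠ f^[k] s := fun h0 => hws (periodic_inj hw hs h0)
  have h2 : f^[k] t ≠ f^[k] s := by
    intro h0
    apply hk k (by omega)
    rw [h0]
    exact hs'
  have h3 : f (f^[k] t) = f (f^[k] s) := by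
    rw [← Function.iterate_succ_apply' f, ← Function.iterate_succ_apply' f]
    exact hts
  have h4 : δ (f (f^[k] w)) (f (f^[k] s)) = δ (f^[k] w) (f^[k] s) := h.const hw' hs' 1
  have h5 := h.far _ _ _ h1 h2 h3 h4
  have h6 := h.lip_iter t w k
  rw [h.symm, h5] at h6
  exact le_antisymm (h.le_one _ _) h6

end gm

/-- Many indices with large residues. -/
lemma exists_indices {N s : ℕ} (hs : 1 ≤ s) (hs3 : s ≤ 3) (hN : s + 1 ≤ N) (M : ℕ) :
    ∃ I : Finset ℕ, I.card = M ∧ ∀ n ∈ I, s ≤ n ∧ n ≤ 4 * M + 3 ∧ s ≤ n % N := by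
  classical
  set r := N - s with hr
  have hr0 : 0 < r := by omega
  set g : ℕ → ℕ := fun k => N * (k / r) + (s + k % r) with hg
  have hmod : ∀ k, g k % N = s + k % r := by
    intro k
    have h1 : k % r < r := Nat.mod_lt _ hr0
    rw [hg]
    simp only
    rw [Nat.mul_add_mod, Nat.mod_eq_of_lt (by omega)]
  have hdiv : ∀ k, g k / N = k / r := by
    intro k
    have h1 : k % r < r := Nat.mod_lt _ hr0
    have h2 : s + k % r < N := by omega
    rw [hg]
    simp only
    rw [Nat.mul_add_div (by omega), Nat.div_eq_of_lt h2, Nat.add_zero]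
  have hinj : Function.Injective g := by
    intro a b hab
    have h1 : a / r = b / r := by rw [← hdiv, ← hdiv, hab]
    have h2 : s + a % r = s + b % r := by rw [← hmod, ← hmod, hab]
    have h3 := Nat.div_add_mod a r
    have h4 := Nat.div_add_mod b r
    rw [h1] at h3
    omega
  refine ⟨(Finset.range M).image g, ?_, ?_⟩
  · rw [Finset.card_image_of_injective _ hinj, Finset.card_range]
  · intro n hn
    obtain ⟨k, hk, rfl⟩ := Finset.mem_image.1 hn
    have hk' := Finset.mem_range.1 hk
    refine ⟨?_, ?_, ?_⟩
    · rw [hg]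
      simp only
      omega
    · have h1 := Nat.div_add_mod k r
      have h2 : N ≤ 4 * r := by omega
      have h3 : N * (k / r) ≤ 4 * r * (k / r) := Nat.mul_le_mul_right _ h2
      rw [hg]
      simp only
      have h4 : 4 * r * (k / r) = 4 * (r * (k / r)) := by ring
      omega
    · rw [hmod]
      omega

/-- The lengths of tails. -/
theorem tail_of_unit {K : Type} [Field K] [NumberField K] {p q : K[X]} {d : ℕ}
    (hd : 2 ≤ d) (hcop : IsCoprime p q) (hmax : max p.natDegree q.natDegree = d)
    {S : Finset (FinitePlace K)} {C : ℕ} (hC : UnitBound S p q d C) {x : Option K} {i : ℕ}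
    (hx : (rmap p q d)^[i] x ∈ Function.periodicPts (rmap p q d))
    (h3 : 3 ≤ Function.minimalPeriod (rmap p q d) ((rmap p q d)^[i] x))
    (h4 : 4 ≤ (Function.periodicPts (rmap p q d)).encard) :
    (rmap p q d)^[4 * C + 8] x ∈ Function.periodicPts (rmap p q d) := by
  classical
  set f := rmap p q d with hf
  set N := Function.minimalPeriod f (f^[i] x) with hN
  by_contra hcon
  have hex : ∃ n, f^[n] x ∈ Function.periodicPts f := ⟨i, hx⟩
  set L := Nat.find hex with hL
  have hLmem : f^[L] x ∈ Function.periodicPts f := Nat.find_spec hex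
  have hLmin : ∀ n < L, f^[n] x ∉ Function.periodicPts f := fun n hn => Nat.find_min hex hn
  have hge : ∀ n, L ≤ n → f^[n] x ∈ Function.periodicPts f := by
    intro n hn
    obtain ⟨k, rfl⟩ := Nat.exists_eq_add_of_le hn
    rw [Nat.add_comm, Function.iterate_add_apply]
    exact iterate_mem_periodic hLmem k
  have hLbig : 4 * C + 8 < L := by
    by_contra h
    push Not at h
    exact hcon (hge _ h)
  set c := f^[L] x with hc
  have hNc : Function.minimalPeriod f c = N := by
    have hLi : L ≤ i := Nat.find_min' hex hx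
    obtain ⟨k, hk⟩ := Nat.exists_eq_add_of_le hLi
    rw [hN, hk, Nat.add_comm L k, Function.iterate_add_apply,
      Function.minimalPeriod_apply_iterate hLmem]
  have hN0 : 0 < N := by omega
  -- the shadows
  set w : ℕ → Option K := fun n => f^[N * L + n - L] c with hw
  have hNL : L ≤ N * L := Nat.le_mul_of_pos_left L hN0
  have hwper : ∀ n, w n ∈ Function.periodicPts f := fun n => iterate_mem_periodic hLmem _
  have hceq : ∀ a b : ℕ, f^[a] c = f^[b] c ↔ a ≡ b [MOD N] := by
    intro a b
    unfold Nat.ModEq
    rw [← hNc]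
    constructor
    · intro h
      refine iterate_eq_of_lt (Nat.mod_lt _ (by omega)) (Nat.mod_lt _ (by omega)) ?_
      rw [Function.iterate_mod_minimalPeriod_eq, Function.iterate_mod_minimalPeriod_eq, h]
    · intro h
      rw [← Function.iterate_mod_minimalPeriod_eq (n := a), h,
        Function.iterate_mod_minimalPeriod_eq]
  have hweq : ∀ a b, w a = w b ↔ a ≡ b [MOD N] := by
    intro a b
    rw [hw]
    simp only
    rw [hceq]
    have e : ∀ a, N * L + a - L = (N * L - L) + a := fun a => by omega
    rw [e, e]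
    exact ⟨fun h => Nat.ModEq.add_left_cancel' _ h, fun h => h.add_left _⟩
  have hwt : ∀ n, n < L → f^[L - n] (w n) = c := by
    intro n hn
    rw [hw]
    simp only
    rw [← Function.iterate_add_apply]
    have e : L - n + (N * L + n - L) = N * L := by omega
    rw [e]
    have h1 := (hceq (N * L) 0).2 (by
      rw [Nat.modEq_zero_iff_dvd]
      exact Dvd.intro _ rfl)
    exact h1
  set t : ℕ → Option K := fun n => f^[n] x with ht
  have htt : ∀ n, n < L → f^[L - n] (t n) = c := by
    intro n hn
    rw [ht]
    simp only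
    rw [← Function.iterate_add_apply, hc]
    congr 1
    congr 1
    omega
  have htinn : ∀ n, t n ∈ Inn f := by
    intro n
    refine inn_of_tail (i := L) ?_ ?_
    · rw [← Function.iterate_add_apply]
      exact hge _ (by omega)
    · have e : f^[L] (t n) = f^[n] c := by
        rw [ht, hc]
        simp only
        rw [← Function.iterate_add_apply, ← Function.iterate_add_apply, Nat.add_comm]
      rw [e, Function.minimalPeriod_apply_iterate hLmem, hNc]
      omega
  have hper_ne : ∀ {n : ℕ} {y : Option K}, n < L → y ∈ Function.periodicPts f → t n ≠ y := by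
    intro n y hn hy h
    apply hLmin n hn
    change t n ∈ _
    rw [h]
    exact hy
  have htne : ∀ {a b : ℕ}, a < b → b < L → t a ≠ t b := by
    intro a b hab hb h
    -- otherwise `t a` is periodic
    refine hLmin a (by omega) ⟨b - a, by omega, ?_⟩
    change f^[b - a] (t a) = t a
    have e : f^[b - a] (t a) = t b := by
      rw [ht]
      simp only
      rw [← Function.iterate_add_apply]
      congr 1
      congr 1
      omega
    rw [e, h]
  -- the metric facts
  have hfar : ∀ v : FinitePlace K, PotGoodRed v p q d → ∃ δ : Option K → Option K → ℝ,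
      GM v f δ ∧ (∀ n y, n < L → y ∈ Function.periodicPts f → y ≠ w n → δ (t n) y = 1) ∧
      ∀ a b, a < b → b < L → ¬ a ≡ b [MOD N] → δ (t a) (t b) = 1 := by
    intro v hg
    obtain ⟨δ, hδ⟩ := good_metric v hd hcop hmax hg
    have h1 : ∀ n y, n < L → y ∈ Function.periodicPts f → y ≠ w n → δ (t n) y = 1 := by
      intro n y hn hy hyw
      refine hδ.tail_far (k := L - n - 1) (s := w n) ?_ hy (hwper n) ?_ hyw
      · intro j hj
        rw [ht]
        simp only
        rw [← Function.iterate_add_apply]
        exact hLmin _ (by omega)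
      · have e : L - n - 1 + 1 = L - n := by omega
        rw [e, htt n hn, hwt n hn]
    refine ⟨δ, hδ, h1, fun a b hab hb hmod => ?_⟩
    have h2 := hδ.lip_iter (t a) (t b) (L - b)
    rw [htt b hb] at h2
    have e : f^[L - b] (t a) = t (a + (L - b)) := by
      rw [ht]
      simp only
      rw [← Function.iterate_add_apply, Nat.add_comm]
    rw [e, h1 (a + (L - b)) c (by omega) hLmem ?_] at h2
    · exact le_antisymm (hδ.le_one _ _) h2
    · intro h5
      apply hmod
      have h6 : f^[0] c = f^[N * L + (a + (L - b)) - L] c := h5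
      rw [hceq] at h6
      have h7 : b + 0 ≡ b + (N * L + (a + (L - b)) - L) [MOD N] := h6.add_left b
      have h8 : b + (N * L + (a + (L - b)) - L) = a + N * L := by omega
      rw [h8, Nat.add_zero] at h7
      have h9 : a + N * L ≡ a [MOD N] := by
        unfold Nat.ModEq
        rw [Nat.add_mul_mod_self_left]
      exact (h7.trans h9).symm
  -- the third point
  obtain ⟨s, y, hs1, hs3, hsN, hy, hy0⟩ : ∃ (s : ℕ) (y : Option K), 2 ≤ s ∧ s ≤ 3 ∧ s + 1 ≤ N ∧
      y ∈ Function.periodicPts f ∧ ∀ n, (n = 0 ∨ n = 1 ∨ s ≤ n % N) → y ≠ w n := by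
    rcases Nat.lt_or_ge N 4 with h | h
    · -- a periodic point outside the cycle
      have hN3 : N = 3 := by omega
      obtain ⟨y, hy, hyc⟩ : ∃ y ∈ Function.periodicPts f, y ∉ ({c, f c, f (f c)} : Set _) := by
        by_contra hcon2
        push Not at hcon2
        have h5 := Set.encard_le_encard (show Function.periodicPts f ⊆ {c, f c, f (f c)} from
          fun y hy => hcon2 y hy)
        have h6 : ({c, f c, f (f c)} : Set (Option K)).encard ≤ 3 := by
          refine (Set.encard_insert_le _ _).trans ?_
          have h7 : ({f c, f (f c)} : Set (Option K)).encard ≤ 2 := by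
            refine (Set.encard_insert_le _ _).trans ?_
            rw [Set.encard_singleton]
            norm_num
          calc _ ≤ (2 : ℕ∞) + 1 := by gcongr
            _ = 3 := by norm_num
        have h8 := h4.trans (h5.trans h6)
        exact absurd h8 (by norm_num)
      refine ⟨2, y, le_rfl, by omega, by omega, hy, fun n _ hyn => hyc ?_⟩
      rw [hyn]
      have h5 : w n = f^[(N * L + n - L) % N] c := by
        rw [hw]
        simp only
        rw [hceq]
        exact (Nat.mod_modEq _ _).symm
      have h6 : (N * L + n - L) % N < 3 := by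
        rw [hN3]
        exact Nat.mod_lt _ (by norm_num)
      rw [h5]
      have h7 : (N * L + n - L) % N = 0 ∨ (N * L + n - L) % N = 1 ∨ (N * L + n - L) % N = 2 := by
        omega
      rcases h7 with h7 | h7 | h7
      · rw [h7]
        exact Or.inl rfl
      · rw [h7]
        exact Or.inr (Or.inl rfl)
      · rw [h7]
        exact Or.inr (Or.inr rfl)
    · refine ⟨3, w 2, by omega, le_rfl, by omega, hwper 2, fun n hn h5 => ?_⟩
      rw [hweq] at h5
      unfold Nat.ModEq at h5
      rw [Nat.mod_eq_of_lt (by omega : 2 < N)] at h5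
      rcases hn with rfl | rfl | hn
      · rw [Nat.mod_eq_of_lt (by omega)] at h5
        omega
      · rw [Nat.mod_eq_of_lt (by omega)] at h5
        omega
      · omega
  obtain ⟨I, hIcard, hI⟩ := exists_indices (by omega : 1 ≤ s) hs3 hsN (C + 1)
  have hIL : ∀ n ∈ I, n < L := fun n hn => by
    have := (hI n hn).2.1
    omega
  have hinjt : ∀ a ∈ I, ∀ b ∈ I, t a = t b → a = b := by
    intro a ha b hb hab
    rcases lt_trichotomy a b with h | h | h
    · exact absurd hab (htne h (hIL b hb))
    · exact h
    · exact absurd hab.symm (htne h (hIL a ha))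
  have hcard : (I.image t).card = C + 1 := by
    rw [Finset.card_image_of_injOn (fun a ha b hb hab => hinjt a ha b hb hab), hIcard]
  have key := hC (t 0) (t 1) y (I.image t) (htne (by omega) (by omega))
    (hper_ne (by omega) hy) (hper_ne (by omega) hy) (htinn 0) (htinn 1) (Or.inr hy) ?_
  · omega
  · intro z hz
    obtain ⟨n, hn, rfl⟩ := Finset.mem_image.1 hz
    obtain ⟨hn1, hn2, hn3⟩ := hI n hn
    have hnL := hIL n hn
    refine ⟨htinn n, (htne (by omega) hnL).symm, (htne (by omega) hnL).symm,
      hper_ne hnL hy, fun v _ hg => ?_⟩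
    obtain ⟨δ, hδ, hδ1, hδ2⟩ := hfar v hg
    have m0 : ¬ 0 ≡ n [MOD N] := by
      unfold Nat.ModEq
      rw [Nat.mod_eq_of_lt hN0]
      omega
    have m1 : ¬ 1 ≡ n [MOD N] := by
      unfold Nat.ModEq
      rw [Nat.mod_eq_of_lt (by omega : 1 < N)]
      omega
    have m01 : ¬ 0 ≡ 1 [MOD N] := by
      unfold Nat.ModEq
      rw [Nat.mod_eq_of_lt hN0, Nat.mod_eq_of_lt (by omega : 1 < N)]
      omega
    have e1 : δ (t n) (t 0) = 1 := by
      rw [hδ.symm]
      exact hδ2 0 n (by omega) hnL m0
    have e2 : δ (t n) (t 1) = 1 := by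
      rw [hδ.symm]
      exact hδ2 1 n (by omega) hnL m1
    have e3 : δ (t 0) (t 1) = 1 := hδ2 0 1 (by omega) (by omega) m01
    have e4 : δ (t n) y = 1 := hδ1 n y hnL hy (hy0 n (Or.inr (Or.inr hn3)))
    have e5 : δ (t 0) y = 1 := hδ1 0 y (by omega) hy (hy0 0 (Or.inl rfl))
    have e6 : δ (t 1) y = 1 := hδ1 1 y (by omega) hy (hy0 1 (Or.inr (Or.inl rfl)))
    constructor
    · rw [hδ.cross, e1, e4, e6, hδ.symm, e3]
      norm_num
    · rw [hδ.cross, e2, e4, e5, e3]
      norm_num

/-- The bound for tails. -/
theorem tail_bound (K : Type) [Field K] [NumberField K] (d m q₀ b : ℕ) (hd : 2 ≤ d)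
    (hm : 3 ≤ m) (S : Finset (FinitePlace K)) : ∃ B : ℕ, ∀ p q : K[X], IsCoprime p q →
      max p.natDegree q.natDegree = d → NiceR S m q₀ b p q d →
      ∀ (x : Option K) (i : ℕ), (rmap p q d)^[i] x ∈ Function.periodicPts (rmap p q d) →
        3 ≤ Function.minimalPeriod (rmap p q d) ((rmap p q d)^[i] x) →
        4 ≤ (Function.periodicPts (rmap p q d)).encard →
        (rmap p q d)^[B] x ∈ Function.periodicPts (rmap p q d) := by
  obtain ⟨C, hC⟩ := core_unit K d m q₀ b hd hm S
  exact ⟨4 * C + 8, fun p q hcop hmax hnice x i hx h3 h4 =>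
    tail_of_unit hd hcop hmax (hC p q hcop hmax hnice) hx h3 h4⟩

end Pool.Agent.MP90787a.P1
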