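import Pool.Agent.Lib.MP_90787a_nt.P1.Defs
import Pool.Agent.Lib.MP_90787a_nt.G.Defs
import Pool.Agent.Lib.MP_90787a_nt.G.LocSimple

set_option autoImplicit false

/-!
Points outside the disc; the tree structure of the points which stay in the disc.
-/

namespace Pool.Agent.MP90787a.P1

open Polynomial NumberField Height Pool.Agent.UBC90787a
open Pool.Agent.MP90787a.G (Tree)

def Stay {K : Type} [Field K] (v : K → ℝ) (P Q : K[X]) (d : ℕ) (r : ℝ) : Set K :=
  {x | ∀ n : ℕ, ∃ y : K, (rmap P Q d)^[n] (some x) = some y ∧ v y ≤ r}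

namespace Tree

open Pool.Agent.MP90787a.G.LocSimple

section esc

variable {K : Type} [Field K]

/-- The point lies outside the disc of radius `r`. -/
def Out (v : K → ℝ) (r : ℝ) (x : Option K) : Prop := x = none ∨ ∃ y, x = some y ∧ r < v y

/-- The coordinate at infinity. -/
def wc : Option K → K
  | none => 0
  | some y => y⁻¹

/-- Reversed polynomial. -/
noncomputable def tl (F : K[X]) (d : ℕ) (w : K) : K :=
  ∑ i ∈ Finset.range (d + 1), F.coeff i * w ^ (d - i)

lemma tl_zero (F : K[X]) (d : ℕ) : tl F d 0 = F.coeff d := by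
  unfold tl
  rw [Finset.sum_range_succ, Finset.sum_eq_zero, Nat.sub_self, pow_zero, mul_one, zero_add]
  intro i hi
  rw [Finset.mem_range] at hi
  rw [zero_pow (by omega), mul_zero]

lemma eval_tl {F : K[X]} {d : ℕ} (hF : F.natDegree ≤ d) {y : K} (hy : y ≠ 0) :
    F.eval y = y ^ d * tl F d y⁻¹ := by
  unfold tl
  rw [eval_eq_sum_range' (Nat.lt_succ_of_le hF), Finset.mul_sum]
  refine Finset.sum_congr rfl fun i hi => ?_
  rw [Finset.mem_range] at hi
  have h : y ^ d = y ^ i * y ^ (d - i) := by
    rw [← pow_add]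
    congr 1
    omega
  rw [h, inv_pow]
  field_simp

end esc

section place

variable {K : Type} [Field K] [NumberField K] {v : FinitePlace K} {P Q : K[X]} {d : ℕ} {r θ : ℝ}

lemma not_out {x : Option K} (h : ¬ Out v r x) : ∃ y, x = some y ∧ v y ≤ r := by
  unfold Out at h
  push Not at h
  cases x with
  | none => exact absurd rfl h.1
  | some y => exact ⟨y, rfl, h.2 y rfl⟩

lemma out_not {x : Option K} (h : Out v r x) : ¬ ∃ y, x = some y ∧ v y ≤ r := by
  rintro ⟨y, rfl, hy⟩
  rcases h with h | ⟨z, h, hz⟩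
  · cases h
  · cases h
    linarith

lemma out_wc (hr : 0 < r) {x : Option K} (h : Out v r x) : v (wc x) * r < 1 := by
  rcases h with rfl | ⟨y, rfl, hy⟩
  · simp [wc]
  · have h0 : 0 < v y := hr.trans hy
    simp only [wc, map_inv₀]
    rw [inv_mul_lt_iff₀ h0, mul_one]
    exact hy

lemma wc_inj (hr : 0 < r) {x x' : Option K} (h : Out v r x) (h' : Out v r x')
    (e : wc x = wc x') : x = x' := by
  have hne : ∀ y : K, r < v y → y ≠ 0 := by
    rintro y hy rfl
    rw [map_zero] at hy
    linarith
  rcases h with rfl | ⟨y, rfl, hy⟩ <;> rcases h' with rfl | ⟨y', rfl, hy'⟩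
  · rfl
  · simp only [wc] at e
    exact absurd (inv_eq_zero.1 e.symm) (hne y' hy')
  · simp only [wc] at e
    exact absurd (inv_eq_zero.1 e) (hne y hy)
  · simp only [wc] at e
    rw [inv_inj.1 e]

/-- Differences of powers. -/
lemma pow_sub_le {A B : K} {s : ℝ} (hs : 0 ≤ s) (hA : v A ≤ s) (hB : v B ≤ s) (n : ℕ) :
    v (A ^ (n + 1) - B ^ (n + 1)) ≤ v (A - B) * s ^ n := by
  rw [← (Commute.all A B).mul_geom_sum₂, map_mul]
  refine mul_le_mul_of_nonneg_left ?_ (apply_nonneg v _)
  apply pl_sum_le _ _ (by positivity)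
  intro i hi
  rw [Finset.mem_range] at hi
  rw [map_mul, map_pow, map_pow]
  have h1 : v A ^ i ≤ s ^ i := pow_le_pow_left₀ (apply_nonneg v _) hA i
  have h2 : v B ^ (n + 1 - 1 - i) ≤ s ^ (n + 1 - 1 - i) :=
    pow_le_pow_left₀ (apply_nonneg v _) hB _
  calc v A ^ i * v B ^ (n + 1 - 1 - i) ≤ s ^ i * s ^ (n + 1 - 1 - i) :=
        mul_le_mul h1 h2 (pow_nonneg (apply_nonneg v _) _) (by positivity)
    _ = s ^ n := by
        rw [← pow_add]
        congr 1
        omega

/-- Lipschitz estimate for reversed polynomials. -/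
lemma tl_lip {F : K[X]} (hr : 0 < r) {C : ℝ} (hC : 0 ≤ C)
    (hF : ∀ i < d, v (F.coeff i) * r ^ (i + 1) ≤ C * r ^ d) {w w' : K}
    (hw : v w * r ≤ 1) (hw' : v w' * r ≤ 1) :
    v (tl F d w - tl F d w') ≤ C * v (w - w') := by
  unfold tl
  rw [← Finset.sum_sub_distrib]
  apply pl_sum_le _ _ (mul_nonneg hC (apply_nonneg v _))
  intro i hi
  rw [Finset.mem_range] at hi
  rw [← mul_sub, map_mul]
  rcases Nat.lt_succ_iff_lt_or_eq.1 hi with hi' | rfl
  · obtain ⟨n, hn⟩ : ∃ n, d - i = n + 1 := ⟨d - i - 1, by omega⟩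
    rw [hn]
    have hs : ∀ z : K, v z * r ≤ 1 → v z ≤ r⁻¹ := by
      intro z hz
      rw [← one_div, le_div_iff₀ hr]
      exact hz
    have h1 := pow_sub_le (v := v) (inv_nonneg.2 hr.le) (hs w hw) (hs w' hw') n
    have h2 := hF i hi'
    have hd : d = i + 1 + n := by omega
    rw [hd, pow_add r (i + 1) n] at h2
    have h3 : v (F.coeff i) ≤ C * r ^ n := by
      have h4 : 0 < r ^ (i + 1) := by positivity
      refine le_of_mul_le_mul_right ?_ h4
      linarith
    calc v (F.coeff i) * v (w ^ (n + 1) - w' ^ (n + 1))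
        ≤ (C * r ^ n) * (v (w - w') * r⁻¹ ^ n) :=
          mul_le_mul h3 h1 (apply_nonneg v _) (by positivity)
      _ = C * v (w - w') * (r ^ n * r⁻¹ ^ n) := by ring
      _ = C * v (w - w') := by
          rw [← mul_pow, mul_inv_cancel₀ hr.ne', one_pow, mul_one]
  · simp only [Nat.sub_self, pow_zero, sub_self, map_zero, mul_zero]
    exact mul_nonneg hC (apply_nonneg v _)

lemma tl_P (hP : P.Monic) (hPd : P.natDegree = d) (hr : 0 < r)
    (hco : ∀ i ≤ d, v (P.coeff i) ≤ r ^ (d - i)) {w : K} (hw : v w * r < 1) :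
    v (tl P d w) = 1 := by
  have hPc : P.coeff d = 1 := by
    rw [← hPd]
    exact hP
  unfold tl
  rw [Finset.sum_range_succ, Nat.sub_self, pow_zero, mul_one, hPc, add_comm]
  have h1 : v (∑ i ∈ Finset.range d, P.coeff i * w ^ (d - i)) < v (1 : K) := by
    rw [map_one]
    apply pl_sum_lt _ _ one_pos
    intro i hi
    rw [Finset.mem_range] at hi
    rw [map_mul, map_pow]
    calc v (P.coeff i) * v w ^ (d - i) ≤ r ^ (d - i) * v w ^ (d - i) :=
          mul_le_mul_of_nonneg_right (hco i hi.le) (pow_nonneg (apply_nonneg v _) _)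
      _ = (v w * r) ^ (d - i) := by rw [← mul_pow, mul_comm]
      _ < 1 := pow_lt_one₀ (mul_nonneg (apply_nonneg v _) hr.le) hw (by omega)
  rw [pl_add_eq h1, map_one]

lemma tl_Q (hr : 0 < r) (hθ : 0 ≤ θ)
    (hco : ∀ i ≤ d, v (Q.coeff i) * r ^ (i + 1) ≤ θ * r ^ d) {w : K} (hw : v w * r ≤ 1) :
    v (tl Q d w) * r ≤ θ := by
  rw [← le_div_iff₀ hr]
  unfold tl
  apply pl_sum_le _ _ (by positivity)
  intro i hi
  rw [Finset.mem_range] at hi
  rw [map_mul, map_pow, le_div_iff₀ hr]
  have h1 := hco i (by omega)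
  have hd : d = i + (d - i) := by omega
  have h2 : v (Q.coeff i) * r ≤ θ * r ^ (d - i) := by
    have h4 : 0 < r ^ i := by positivity
    have h5 : r ^ d = r ^ i * r ^ (d - i) := by
      rw [← pow_add]
      congr 1
    refine le_of_mul_le_mul_right ?_ h4
    calc v (Q.coeff i) * r * r ^ i = v (Q.coeff i) * r ^ (i + 1) := by ring
      _ ≤ θ * r ^ d := h1
      _ = θ * r ^ (d - i) * r ^ i := by rw [h5]; ring
  calc v (Q.coeff i) * v w ^ (d - i) * r = (v (Q.coeff i) * r) * v w ^ (d - i) := by ring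
    _ ≤ (θ * r ^ (d - i)) * v w ^ (d - i) :=
        mul_le_mul_of_nonneg_right h2 (pow_nonneg (apply_nonneg v _) _)
    _ = θ * (v w * r) ^ (d - i) := by rw [mul_pow]; ring
    _ ≤ θ * 1 := mul_le_mul_of_nonneg_left
        (pow_le_one₀ (mul_nonneg (apply_nonneg v _) hr.le) hw) hθ
    _ = θ := mul_one θ

/-- The hypotheses with a uniform constant. -/
structure Hyp (v : FinitePlace K) (P Q : K[X]) (d : ℕ) (r θ : ℝ) : Prop where
  hP : P.Monic
  hPd : P.natDegree = d
  hQ : Q.natDegree ≤ d
  hr : 0 < r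
  hθ0 : 0 ≤ θ
  hθ1 : θ < 1
  hcP : ∀ i ≤ d, v (P.coeff i) ≤ r ^ (d - i)
  hcQ : ∀ i ≤ d, v (Q.coeff i) * r ^ (i + 1) ≤ θ * r ^ d

lemma exists_hyp (hP : P.Monic) (hPd : P.natDegree = d) (hQ : Q.natDegree ≤ d) (hr : 0 < r)
    (hco : ∀ i ≤ d, v (P.coeff i) ≤ r ^ (d - i) ∧ v (Q.coeff i) * r ^ (i + 1) < r ^ d) :
    ∃ θ, Hyp v P Q d r θ := by
  have hrd : 0 < r ^ d := by positivity
  have hne : (Finset.range (d + 1)).Nonempty := ⟨0, by simp⟩
  set F : ℕ → ℝ := fun i => v (Q.coeff i) * r ^ (i + 1) / r ^ d with hF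
  refine ⟨(Finset.range (d + 1)).sup' hne F, hP, hPd, hQ, hr, ?_, ?_, fun i hi => (hco i hi).1, ?_⟩
  · refine le_trans ?_ (Finset.le_sup' F (Finset.mem_range.2 (Nat.succ_pos d)))
    have := apply_nonneg v (Q.coeff 0)
    simp only [hF]
    positivity
  · rw [Finset.sup'_lt_iff]
    intro i hi
    rw [Finset.mem_range] at hi
    rw [hF]
    simp only
    rw [div_lt_one hrd]
    exact (hco i (by omega)).2
  · intro i hi
    have h1 := Finset.le_sup' F (Finset.mem_range.2 (Nat.lt_succ_of_le hi))
    simp only [hF] at h1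
    rwa [div_le_iff₀ hrd] at h1

/-- The value of the map at a point outside the disc. -/
lemma Hyp.wc_rmap (H : Hyp v P Q d r θ) {x : Option K} (hx : Out v r x) :
    Out v r (rmap P Q d x) ∧ wc (rmap P Q d x) = tl Q d (wc x) / tl P d (wc x) := by
  have hw := out_wc H.hr hx
  have hPt := tl_P H.hP H.hPd H.hr H.hcP hw
  have hQt := tl_Q (Q := Q) H.hr H.hθ0 H.hcQ hw.le
  have hPt0 : tl P d (wc x) ≠ 0 := by
    intro h
    rw [h, map_zero] at hPt
    exact zero_ne_one hPt
  have key : tl Q d (wc x) ≠ 0 → r < v (tl P d (wc x) / tl Q d (wc x)) := by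
    intro h0
    have h1 : 0 < v (tl Q d (wc x)) := FinitePlace.pos_iff.mpr h0
    rw [map_div₀, hPt, lt_div_iff₀ h1]
    have := H.hθ1
    linarith [mul_comm r (v (tl Q d (wc x)))]
  have hPc : P.coeff d = 1 := by
    rw [← H.hPd]
    exact H.hP
  rcases hx with rfl | ⟨y, rfl, hy⟩
  · simp only [wc, tl_zero] at key hPt0 ⊢
    by_cases h : Q.coeff d = 0
    · have e : rmap P Q d none = none := by simp [rmap, h]
      rw [e]
      refine ⟨Or.inl rfl, ?_⟩
      rw [h, zero_div]
    · have e : rmap P Q d none = some (P.coeff d / Q.coeff d) := by simp [rmap, h]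
      rw [e]
      refine ⟨Or.inr ⟨_, rfl, key h⟩, ?_⟩
      simp only [inv_div]
  · have hy0 : y ≠ 0 := by
      rintro rfl
      rw [map_zero] at hy
      linarith [H.hr]
    have hyd : y ^ d ≠ 0 := pow_ne_zero _ hy0
    simp only [wc] at key hPt0 ⊢
    have eP := eval_tl (F := P) (d := d) H.hPd.le hy0
    have eQ := eval_tl (F := Q) (d := d) H.hQ hy0
    by_cases h : tl Q d y⁻¹ = 0
    · have e : rmap P Q d (some y) = none := by simp [rmap, eQ, h]
      rw [e]
      refine ⟨Or.inl rfl, ?_⟩
      rw [h, zero_div]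
    · have e : rmap P Q d (some y) = some (tl P d y⁻¹ / tl Q d y⁻¹) := by
        have h2 : Q.eval y ≠ 0 := by
          rw [eQ]
          exact mul_ne_zero hyd h
        simp only [rmap, h2, if_false]
        rw [eP, eQ, mul_div_mul_left _ _ hyd]
      rw [e]
      refine ⟨Or.inr ⟨_, rfl, key h⟩, ?_⟩
      simp only [inv_div]

/-- The map contracts the complement of the disc. -/
lemma Hyp.contr (H : Hyp v P Q d r θ) {x x' : Option K} (hx : Out v r x) (hx' : Out v r x') :
    v (wc (rmap P Q d x) - wc (rmap P Q d x')) ≤ θ * v (wc x - wc x') := by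
  rw [(H.wc_rmap hx).2, (H.wc_rmap hx').2]
  have hw := out_wc H.hr hx
  have hw' := out_wc H.hr hx'
  set w := wc x with hwdef
  set w' := wc x' with hwdef'
  have hPt := tl_P H.hP H.hPd H.hr H.hcP hw
  have hPt' := tl_P H.hP H.hPd H.hr H.hcP hw'
  have hQt := tl_Q (Q := Q) H.hr H.hθ0 H.hcQ hw.le
  have hn : ∀ z : K, v z = 1 → z ≠ 0 := by
    rintro z hz rfl
    rw [map_zero] at hz
    exact zero_ne_one hz
  have h0 := hn _ hPt
  have h0' := hn _ hPt'
  have e : tl Q d w / tl P d w - tl Q d w' / tl P d w' =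
      (tl Q d w * (tl P d w' - tl P d w) + tl P d w * (tl Q d w - tl Q d w')) /
        (tl P d w * tl P d w') := by
    field_simp
    ring
  rw [e, map_div₀, map_mul v (tl P d w) (tl P d w'), hPt, hPt', mul_one, div_one]
  have hPl : v (tl P d w' - tl P d w) ≤ r * v (w - w') := by
    rw [pl_sub_comm]
    refine tl_lip H.hr H.hr.le ?_ hw.le hw'.le
    intro i hi
    calc v (P.coeff i) * r ^ (i + 1) ≤ r ^ (d - i) * r ^ (i + 1) :=
          mul_le_mul_of_nonneg_right (H.hcP i hi.le) (pow_nonneg H.hr.le _)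
      _ = r * r ^ d := by
          rw [← pow_add, ← pow_succ']
          congr 1
          omega
  have hQl : v (tl Q d w - tl Q d w') ≤ θ * v (w - w') :=
    tl_lip H.hr H.hθ0 (fun i hi => H.hcQ i hi.le) hw.le hw'.le
  have hvd := apply_nonneg v (w - w')
  refine (FinitePlace.add_le v _ _).trans (max_le ?_ ?_)
  · rw [map_mul]
    calc v (tl Q d w) * v (tl P d w' - tl P d w) ≤ v (tl Q d w) * (r * v (w - w')) :=
          mul_le_mul_of_nonneg_left hPl (apply_nonneg v _)
      _ = (v (tl Q d w) * r) * v (w - w') := by ring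
      _ ≤ θ * v (w - w') := mul_le_mul_of_nonneg_right hQt hvd
  · rw [map_mul, hPt, one_mul]
    exact hQl

lemma Hyp.out_iter (H : Hyp v P Q d r θ) {x : Option K} (hx : Out v r x) (n : ℕ) :
    Out v r ((rmap P Q d)^[n] x) := by
  induction n with
  | zero => exact hx
  | succ n ih =>
    rw [Function.iterate_succ_apply']
    exact (H.wc_rmap ih).1

lemma Hyp.contr_iter (H : Hyp v P Q d r θ) {x x' : Option K} (hx : Out v r x)
    (hx' : Out v r x') (n : ℕ) :
    v (wc ((rmap P Q d)^[n] x) - wc ((rmap P Q d)^[n] x')) ≤ θ ^ n * v (wc x - wc x') := by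
  induction n with
  | zero => simp
  | succ n ih =>
    rw [Function.iterate_succ_apply', Function.iterate_succ_apply']
    refine (H.contr (H.out_iter hx n) (H.out_iter hx' n)).trans ?_
    calc θ * v (wc ((rmap P Q d)^[n] x) - wc ((rmap P Q d)^[n] x'))
        ≤ θ * (θ ^ n * v (wc x - wc x')) := mul_le_mul_of_nonneg_left ih H.hθ0
      _ = θ ^ (n + 1) * v (wc x - wc x') := by ring

/-- A periodic point outside the disc is a fixed point. -/
lemma Hyp.fixed (H : Hyp v P Q d r θ) {x : Option K} (hx : Out v r x)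
    (hper : x ∈ Function.periodicPts (rmap P Q d)) : rmap P Q d x = x := by
  obtain ⟨n, hn, hxn⟩ := hper
  have hx1 : Out v r (rmap P Q d x) := H.out_iter hx 1
  have h1 := H.contr_iter hx1 hx n
  have e1 : (rmap P Q d)^[n] (rmap P Q d x) = rmap P Q d x := by
    rw [← Function.iterate_succ_apply, Function.iterate_succ_apply', hxn.eq]
  rw [e1, hxn.eq] at h1
  refine wc_inj H.hr hx1 hx ?_
  by_contra hne
  have hpos : 0 < v (wc (rmap P Q d x) - wc x) := FinitePlace.pos_iff.mpr (sub_ne_zero.mpr hne)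
  have h2 : θ ^ n < 1 := pow_lt_one₀ H.hθ0 H.hθ1 hn.ne'
  have h3 : θ ^ n * v (wc (rmap P Q d x) - wc x) < 1 * v (wc (rmap P Q d x) - wc x) :=
    mul_lt_mul_of_pos_right h2 hpos
  linarith

end place

end Tree

open Tree in
theorem escape {K : Type} [Field K] [NumberField K] (v : FinitePlace K) {P Q : K[X]} {d : ℕ}
    (hd : 2 ≤ d) (hP : P.Monic) (hPd : P.natDegree = d) (hQ : Q.natDegree ≤ d) (hcop : IsCoprime P Q)
    {r : ℝ} (hr : 0 < r)
    (hco : ∀ i ≤ d, v (P.coeff i) ≤ r ^ (d - i) ∧ v (Q.coeff i) * r ^ (i + 1) < r ^ d) :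
    (∀ x ∈ Inn (rmap P Q d), ∃ y ∈ Stay v P Q d r, x = some y) ∧
    (∀ x ∈ Function.periodicPts (rmap P Q d), (∃ y ∈ Stay v P Q d r, x = some y) ∨
      x = none ∨ ∃ y, x = some y ∧ r < v y) := by
  have _ := hd
  have _ := hcop
  obtain ⟨θ, H⟩ := exists_hyp (v := v) hP hPd hQ hr hco
  -- if all iterates are in the disc then the point stays
  have hstay : ∀ x : Option K, (∀ n : ℕ, ¬ Out v r ((rmap P Q d)^[n] x)) →
      ∃ y ∈ Stay v P Q d r, x = some y := by
    intro x hx
    obtain ⟨y, hy, -⟩ := not_out (hx 0)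
    have hy' : x = some y := hy
    refine ⟨y, fun n => ?_, hy'⟩
    obtain ⟨z, hz, hz'⟩ := not_out (hx n)
    rw [hy'] at hz
    exact ⟨z, hz, hz'⟩
  constructor
  · rintro x ⟨⟨i, j, hij, he⟩, hne⟩
    refine hstay x fun n hn => ?_
    -- a later iterate is periodic and outside
    have hout : Out v r ((rmap P Q d)^[n + j] x) := by
      rw [add_comm, Function.iterate_add_apply]
      exact H.out_iter hn j
    have hper : (rmap P Q d)^[n + j] x ∈ Function.periodicPts (rmap P Q d) := by
      refine ⟨i - j, by omega, ?_⟩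
      unfold Function.IsPeriodicPt Function.IsFixedPt
      rw [← Function.iterate_add_apply]
      have e1 : i - j + (n + j) = n + i := by omega
      rw [e1, Function.iterate_add_apply, he, ← Function.iterate_add_apply]
    have hfix := H.fixed hout hper
    rw [← Function.iterate_succ_apply' (rmap P Q d)] at hfix
    exact hne _ hfix
  · intro x hx
    by_cases hout : Out v r x
    · exact Or.inr hout
    · left
      refine hstay x fun n hn => hout ?_
      obtain ⟨m, hm, hxm⟩ := hx
      have h1 : (rmap P Q d)^[n * m] x = x := by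
        have := hxm.const_mul n
        exact this
      have h2 : n * m = (n * m - n) + n := by
        have : n ≤ n * m := Nat.le_mul_of_pos_right n hm
        omega
      rw [h2, Function.iterate_add_apply] at h1
      rw [← h1]
      exact H.out_iter hn _

namespace Tree

open Pool.Agent.MP90787a.G.LocSimple

section stay

variable {K : Type} [Field K] [NumberField K] {v : FinitePlace K} {P Q : K[X]} {d : ℕ} {r : ℝ}

lemma stay_step {x : K} (hx : x ∈ Stay v P Q d r) :
    v x ≤ r ∧ x ∈ Inside v P Q r ∧ v (P.eval x / Q.eval x) ≤ r ∧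
      P.eval x / Q.eval x ∈ Stay v P Q d r := by
  obtain ⟨y0, hy0, hy0'⟩ := hx 0
  have e0 : x = y0 := Option.some_injective _ hy0
  have hvx : v x ≤ r := by rw [e0]; exact hy0'
  obtain ⟨y, hy, hy'⟩ := hx 1
  have hy1 : rmap P Q d (some x) = some y := hy
  by_cases hQ : Q.eval x = 0
  · simp [rmap, hQ] at hy1
  · have h2 : rmap P Q d (some x) = some (P.eval x / Q.eval x) := by simp [rmap, hQ]
    have e1 : P.eval x / Q.eval x = y := by
      rw [h2] at hy1
      exact Option.some_injective _ hy1
    rw [← e1] at hy'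
    have hQp : 0 < v (Q.eval x) := FinitePlace.pos_iff.mpr hQ
    refine ⟨hvx, ⟨hvx, ?_⟩, hy', ?_⟩
    · rw [map_div₀, div_le_iff₀ hQp] at hy'
      exact hy'
    · intro n
      obtain ⟨z, hz, hz'⟩ := hx (n + 1)
      rw [Function.iterate_succ_apply, h2] at hz
      exact ⟨z, hz, hz'⟩

end stay

end Tree

open Tree Pool.Agent.MP90787a.G.LocSimple in
theorem exp_tree {K : Type} [Field K] [NumberField K] (v : FinitePlace K) {P Q : K[X]} {d : ℕ}
    (hd : 2 ≤ d) (hP : P.Monic) (hPd : P.natDegree = d) (hQ : Q.natDegree ≤ d)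
    (hcop : IsCoprime P Q) {q₀ : ℕ} {r σ : ℝ} (hr : 0 < r) (hσ : 1 < σ)
    {χ : K → Fin q₀} {e : Fin q₀ → ℕ} (he : ∀ j, 1 ≤ e j)
    (hχ : ∀ x ∈ Inside v P Q r, ∀ y ∈ Inside v P Q r,
        (χ x = χ y → v (P.eval x / Q.eval x - P.eval y / Q.eval y) = σ ^ e (χ x) * v (x - y)) ∧
        (χ x ≠ χ y → ∃ n < e (χ x), v (x - y) * σ ^ n = r)) :
    Tree v (Stay v P Q d r) r σ q₀ := by
  have _ := hd
  have _ := hP
  have _ := hPd
  have _ := hQ
  have _ := hcop
  have hσ0 : 0 < σ := by linarith
  have hchi : ∀ x ∈ Stay v P Q d r, ∀ y ∈ Stay v P Q d r,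
        (χ x = χ y → v (P.eval x / Q.eval x - P.eval y / Q.eval y) = σ ^ e (χ x) * v (x - y)) ∧
        (χ x ≠ χ y → ∃ n < e (χ x), v (x - y) * σ ^ n = r) :=
    fun x hx y hy => hχ x (stay_step hx).2.1 y (stay_step hy).2.1
  refine ⟨hr, hσ, ?_, ?_⟩
  · -- distances
    have key : ∀ N : ℕ, ∀ x ∈ Stay v P Q d r, ∀ y ∈ Stay v P Q d r, x ≠ y →
        r ≤ v (x - y) * σ ^ N → ∃ k : ℕ, v (x - y) * σ ^ k = r := by
      intro N
      induction N with
      | zero =>
        intro x hx y hy _ h
        refine ⟨0, le_antisymm ?_ h⟩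
        rw [pow_zero, mul_one]
        exact (pl_sub_le_max x y).trans (max_le (stay_step hx).1 (stay_step hy).1)
      | succ N ih =>
        intro x hx y hy hne h
        obtain ⟨h1, h2⟩ := hchi x hx y hy
        by_cases hc : χ x = χ y
        · have h3 := h1 hc
          have hpos : 0 < v (x - y) := FinitePlace.pos_iff.mpr (sub_ne_zero.mpr hne)
          have hne' : P.eval x / Q.eval x ≠ P.eval y / Q.eval y := by
            intro h0
            rw [h0, sub_self, map_zero] at h3
            have : 0 < σ ^ e (χ x) * v (x - y) := by positivity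
            linarith
          have h4 : r ≤ v (P.eval x / Q.eval x - P.eval y / Q.eval y) * σ ^ N := by
            rw [h3]
            have h5 : σ ≤ σ ^ e (χ x) := by
              calc σ = σ ^ 1 := (pow_one σ).symm
                _ ≤ σ ^ e (χ x) := pow_le_pow_right₀ hσ.le (he _)
            calc r ≤ v (x - y) * σ ^ (N + 1) := h
              _ = σ * (v (x - y) * σ ^ N) := by ring
              _ ≤ σ ^ e (χ x) * (v (x - y) * σ ^ N) :=
                  mul_le_mul_of_nonneg_right h5 (by positivity)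
              _ = _ := by ring
          obtain ⟨k, hk⟩ := ih _ (stay_step hx).2.2.2 _ (stay_step hy).2.2.2 hne' h4
          refine ⟨k + e (χ x), ?_⟩
          rw [h3] at hk
          rw [← hk]
          ring
        · obtain ⟨n, _, hn⟩ := h2 hc
          exact ⟨n, hn⟩
    intro x hx y hy hne
    have hpos : 0 < v (x - y) := FinitePlace.pos_iff.mpr (sub_ne_zero.mpr hne)
    obtain ⟨N, hN⟩ := pow_unbounded_of_one_lt (r / v (x - y)) hσ
    refine key N x hx y hy hne ?_
    rw [div_lt_iff₀ hpos] at hN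
    linarith [mul_comm (σ ^ N) (v (x - y))]
  · -- branching
    have key : ∀ k : ℕ, ∀ p ∈ Stay v P Q d r, ∃ c : K → Fin q₀, ∀ t ∈ Stay v P Q d r,
        ∀ t' ∈ Stay v P Q d r, v (t - p) * σ ^ k ≤ r → v (t' - p) * σ ^ k ≤ r → c t = c t' →
          v (t - t') * σ ^ k < r := by
      intro k
      induction k using Nat.strong_induction_on with
      | _ k ih =>
        intro p hp
        by_cases hk : e (χ p) ≤ k
        · -- the colour is the one of `p`
          have hcol : ∀ t ∈ Stay v P Q d r, v (t - p) * σ ^ k ≤ r → χ p = χ t := by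
            intro t ht h
            by_contra hc
            obtain ⟨n, hn, hn'⟩ := (hchi p hp t ht).2 hc
            have hpos : 0 < v (p - t) := by
              rcases (apply_nonneg v (p - t)).lt_or_eq with h0 | h0
              · exact h0
              · rw [← h0, zero_mul] at hn'
                linarith
            rw [pl_sub_comm] at h
            have h5 : σ ^ n < σ ^ k := pow_lt_pow_right₀ hσ (by omega)
            have h6 : v (p - t) * σ ^ n < v (p - t) * σ ^ k := mul_lt_mul_of_pos_left h5 hpos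
            linarith
          have hstep : ∀ t ∈ Stay v P Q d r, ∀ t' ∈ Stay v P Q d r, χ p = χ t → χ p = χ t' →
              v (P.eval t / Q.eval t - P.eval t' / Q.eval t') * σ ^ (k - e (χ p)) =
                v (t - t') * σ ^ k := by
            intro t ht t' ht' h h'
            rw [(hchi t ht t' ht').1 (h.symm.trans h'), ← h]
            have h7 : σ ^ k = σ ^ e (χ p) * σ ^ (k - e (χ p)) := by
              rw [← pow_add]
              congr 1
              omega
            rw [h7]
            ring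
          have hlt : k - e (χ p) < k := by
            have := he (χ p)
            omega
          obtain ⟨c', hc'⟩ := ih (k - e (χ p)) hlt _ (stay_step hp).2.2.2
          refine ⟨fun t => c' (P.eval t / Q.eval t), ?_⟩
          intro t ht t' ht' h h' hcc
          have hct := hcol t ht h
          have hct' := hcol t' ht' h'
          rw [← hstep t ht t' ht' hct hct']
          refine hc' _ (stay_step ht).2.2.2 _ (stay_step ht').2.2.2 ?_ ?_ hcc
          · rw [hstep t ht p hp hct rfl]
            exact h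
          · rw [hstep t' ht' p hp hct' rfl]
            exact h'
        · push Not at hk
          refine ⟨χ, ?_⟩
          intro t ht t' ht' h h' hcc
          rcases eq_or_ne t t' with rfl | hne
          · rw [sub_self, map_zero, zero_mul]
            exact hr
          have hpos : 0 < v (t - t') := FinitePlace.pos_iff.mpr (sub_ne_zero.mpr hne)
          have h1 := (hchi t ht t' ht').1 hcc
          have h2 : v (P.eval t / Q.eval t - P.eval t' / Q.eval t') ≤ r :=
            (pl_sub_le_max _ _).trans (max_le (stay_step ht).2.2.1 (stay_step ht').2.2.1)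
          have hkl : k < e (χ t) := by
            by_cases hl : χ t = χ p
            · rw [hl]
              exact hk
            · obtain ⟨n, hn, hn'⟩ := (hchi t ht p hp).2 hl
              have hkn : k ≤ n := by
                by_contra hcon
                push Not at hcon
                have hpos' : 0 < v (t - p) := by
                  rcases (apply_nonneg v (t - p)).lt_or_eq with h0 | h0
                  · exact h0
                  · rw [← h0, zero_mul] at hn'
                    linarith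
                have h5 : σ ^ n < σ ^ k := pow_lt_pow_right₀ hσ hcon
                have h6 : v (t - p) * σ ^ n < v (t - p) * σ ^ k :=
                  mul_lt_mul_of_pos_left h5 hpos'
                linarith
              omega
          have h8 : σ ^ k < σ ^ e (χ t) := pow_lt_pow_right₀ hσ hkl
          calc v (t - t') * σ ^ k < v (t - t') * σ ^ e (χ t) := mul_lt_mul_of_pos_left h8 hpos
            _ = v (P.eval t / Q.eval t - P.eval t' / Q.eval t') := by rw [h1]; ring
            _ ≤ r := h2
    intro p hp k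
    exact key k p hp

end Pool.Agent.MP90787a.P1
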